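import Pool.Agent.Helper21.IM.Koebe

/-!
# IM-LB: the logarithm of the derivative, growth

`H` from `log_disc` for `deriv F`; `H' = pre F`, `‖H' z‖ ≤ 7 / (1 - ‖z‖)`; integrate along the radius:
`‖H z‖ ≤ 7 log (1 / (1 - ‖z‖))`.  Then `‖F' z‖ ≤ exp ‖H z‖ ≤ (1 - ‖z‖)^(-7)`, and the mean value
inequality on `closedBall 0 ‖z‖` gives `‖F z‖ ≤ (1 - ‖z‖)^(-7)`.
-/

set_option autoImplicit false

namespace Pool.Agent.Helper21.IM

open Complex Metric Set Real Finset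

theorem log_deriv {F : ℂ → ℂ} (hF : Sch F) :
    ∃ H : ℂ → ℂ, DifferentiableOn ℂ H (ball 0 1) ∧ H 0 = 0 ∧
      ∀ z ∈ ball (0 : ℂ) 1, exp (H z) = deriv F z ∧ HasDerivAt H (pre F z) z ∧
        ‖H z‖ ≤ 7 * Real.log (1 / (1 - ‖z‖)) := by
  obtain ⟨H, h1, h2, h3⟩ := log_disc (h := deriv F) (hF.an.deriv isOpen_ball)
    (fun z hz => deriv_ne isOpen_ball hF.an hF.inj hz) hF.d0
  refine ⟨H, h1, h2, fun z hz => ⟨(h3 z hz).1, (h3 z hz).2, ?_⟩⟩
  have hz1 : ‖z‖ < 1 := by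
    rwa [mem_ball, dist_zero_right] at hz
  have hmem : ∀ t ∈ Set.Icc (0 : ℝ) 1, (t : ℂ) * z ∈ ball (0 : ℂ) 1 ∧ ‖(t : ℂ) * z‖ = t * ‖z‖ ∧
      0 < 1 - t * ‖z‖ := by
    intro t ht
    have e1 : ‖(t : ℂ) * z‖ = t * ‖z‖ := by
      rw [norm_mul, Complex.norm_real, Real.norm_of_nonneg ht.1]
    have e2 : t * ‖z‖ < 1 := by
      have := norm_nonneg z
      nlinarith [ht.1, ht.2]
    refine ⟨?_, e1, by linarith⟩
    rw [mem_ball, dist_zero_right, e1]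
    exact e2
  have hder : ∀ t ∈ Set.Icc (0 : ℝ) 1,
      HasDerivAt (fun s : ℝ => H ((s : ℂ) * z)) (pre F ((t : ℂ) * z) * z) t := by
    intro t ht
    have e1 : HasDerivAt H (pre F ((t : ℂ) * z)) ((t : ℂ) * z) := (h3 _ (hmem t ht).1).2
    have e2 : HasDerivAt (fun s : ℂ => s * z) z (t : ℂ) := by
      simpa using (hasDerivAt_id (t : ℂ)).mul_const z
    have e3 : HasDerivAt (fun s : ℂ => H (s * z)) (pre F ((t : ℂ) * z) * z) (t : ℂ) :=
      HasDerivAt.comp (t : ℂ) e1 e2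
    exact e3.comp_ofReal
  have hB : ∀ t ∈ Set.Icc (0 : ℝ) 1,
      HasDerivAt (fun s : ℝ => -(7 * Real.log (1 - s * ‖z‖))) (7 * ‖z‖ / (1 - t * ‖z‖)) t := by
    intro t ht
    have e0 : 1 - t * ‖z‖ ≠ 0 := (hmem t ht).2.2.ne'
    have e1 : HasDerivAt (fun s : ℝ => 1 - s * ‖z‖) (-‖z‖) t := by
      simpa using ((hasDerivAt_id t).mul_const ‖z‖).const_sub 1
    have e2 := ((e1.log e0).const_mul 7).neg
    have e3 : -(7 * (-‖z‖ / (1 - t * ‖z‖))) = 7 * ‖z‖ / (1 - t * ‖z‖) := by ring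
    rw [e3] at e2
    exact e2
  have key := image_norm_le_of_norm_deriv_right_le_deriv_boundary'
    (f := fun s : ℝ => H ((s : ℂ) * z)) (f' := fun t => pre F ((t : ℂ) * z) * z)
    (B := fun s : ℝ => -(7 * Real.log (1 - s * ‖z‖))) (B' := fun t => 7 * ‖z‖ / (1 - t * ‖z‖))
    (a := 0) (b := 1)
    (fun t ht => (hder t ht).continuousAt.continuousWithinAt)
    (fun t ht => (hder t ⟨ht.1, ht.2.le⟩).hasDerivWithinAt)
    (by simp [h2])
    (fun t ht => (hB t ht).continuousAt.continuousWithinAt)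
    (fun t ht => (hB t ⟨ht.1, ht.2.le⟩).hasDerivWithinAt)
    (by
      intro t ht
      have ht' : t ∈ Set.Icc (0 : ℝ) 1 := ⟨ht.1, ht.2.le⟩
      have e1 := pre_bound hF.an hF.inj (hmem t ht').1
      rw [(hmem t ht').2.1] at e1
      rw [norm_mul]
      calc ‖pre F ((t : ℂ) * z)‖ * ‖z‖ ≤ 7 / (1 - t * ‖z‖) * ‖z‖ :=
            mul_le_mul_of_nonneg_right e1 (norm_nonneg z)
        _ = 7 * ‖z‖ / (1 - t * ‖z‖) := by ring)
    (x := 1) (Set.right_mem_Icc.2 zero_le_one)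
  have e4 : Real.log (1 / (1 - ‖z‖)) = -Real.log (1 - ‖z‖) := by
    rw [one_div, Real.log_inv]
  rw [e4]
  simp only [Complex.ofReal_one, one_mul] at key
  linarith

theorem growth {F : ℂ → ℂ} (hF : Sch F) {z : ℂ} (hz : z ∈ ball (0 : ℂ) 1) :
    ‖F z‖ ≤ (1 / (1 - ‖z‖)) ^ 7 ∧ ‖deriv F z‖ ≤ (1 / (1 - ‖z‖)) ^ 7 := by
  obtain ⟨H, _, _, h3⟩ := log_deriv hF
  have hd : ∀ w ∈ ball (0 : ℂ) 1, ‖deriv F w‖ ≤ (1 / (1 - ‖w‖)) ^ 7 := by
    intro w hw
    obtain ⟨e1, _, e2⟩ := h3 w hw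
    have hw1 : ‖w‖ < 1 := by
      rwa [mem_ball, dist_zero_right] at hw
    have hpos : 0 < 1 / (1 - ‖w‖) := by
      apply one_div_pos.2
      linarith
    rw [← e1]
    calc ‖Complex.exp (H w)‖ ≤ Real.exp ‖H w‖ := Complex.norm_exp_le_exp_norm _
      _ ≤ Real.exp (7 * Real.log (1 / (1 - ‖w‖))) := Real.exp_le_exp.2 e2
      _ = (1 / (1 - ‖w‖)) ^ 7 := by
          have e3 : 7 * Real.log (1 / (1 - ‖w‖)) = Real.log ((1 / (1 - ‖w‖)) ^ 7) := by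
            rw [Real.log_pow]
            norm_num
          rw [e3, Real.exp_log (pow_pos hpos 7)]
  refine ⟨?_, hd z hz⟩
  have hz1 : ‖z‖ < 1 := by
    rwa [mem_ball, dist_zero_right] at hz
  have hsub : ∀ w ∈ closedBall (0 : ℂ) ‖z‖, w ∈ ball (0 : ℂ) 1 := by
    intro w hw
    rw [mem_closedBall, dist_zero_right] at hw
    rw [mem_ball, dist_zero_right]
    linarith
  have hM := Convex.norm_image_sub_le_of_norm_deriv_le (f := F) (C := (1 / (1 - ‖z‖)) ^ 7)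
    (s := closedBall (0 : ℂ) ‖z‖) (x := 0) (y := z)
    (fun w hw => (hF.an w (hsub w hw)).differentiableAt (isOpen_ball.mem_nhds (hsub w hw)))
    (by
      intro w hw
      refine (hd w (hsub w hw)).trans ?_
      rw [mem_closedBall, dist_zero_right] at hw
      have h1 : 0 < 1 - ‖z‖ := by linarith
      have h2 : 1 - ‖z‖ ≤ 1 - ‖w‖ := by linarith
      have h3 : 1 / (1 - ‖w‖) ≤ 1 / (1 - ‖z‖) := one_div_le_one_div_of_le h1 h2
      exact pow_le_pow_left₀ (one_div_nonneg.2 (h1.le.trans h2)) h3 7)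
    (convex_closedBall _ _) (by simp) (by simp)
  rw [hF.z0, sub_zero, sub_zero] at hM
  refine hM.trans ?_
  have h4 : 0 ≤ (1 / (1 - ‖z‖)) ^ 7 := by
    apply pow_nonneg
    apply one_div_nonneg.2
    linarith
  nlinarith [norm_nonneg z]

end Pool.Agent.Helper21.IM
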