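import Pool.Agent.Helper21.IM.Defs

/-!
# IM-PS: basic facts on power series on the unit disc

`PS P a` says that the series with coefficients `a` has the sum `P z` at every `z` of the unit disc.
All facts are standard.
-/

set_option autoImplicit false

namespace Pool.Agent.Helper21.IM

open Complex Metric Set Real Finset

private theorem psb_hs {f g : ℕ → ℂ} {s : ℂ} (h : HasSum f s) (e : ∀ m, f m = g m) :
    HasSum g s := by
  rwa [show g = f from (funext e).symm]

private theorem psb_has {P : ℂ → ℂ} {a : ℕ → ℂ} (h : PS P a) :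
    HasFPowerSeriesOnBall P (FormalMultilinearSeries.ofScalars ℂ a) 0 1 := by
  refine ⟨?_, one_pos, ?_⟩
  · refine ENNReal.le_of_forall_nnreal_lt fun r hr => ?_
    have hr1 : (r : ℝ) < 1 := by exact_mod_cast hr
    have hz : (((r : ℝ) : ℂ)) ∈ ball (0 : ℂ) 1 := by
      rw [mem_ball_zero_iff, Complex.norm_real, Real.norm_eq_abs, abs_of_nonneg (NNReal.coe_nonneg r)]
      exact hr1
    have hs := (h _ hz).summable.tendsto_atTop_zero.norm
    refine FormalMultilinearSeries.le_radius_of_tendsto _ (l := ‖(0 : ℂ)‖) ?_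
    refine hs.congr fun m => ?_
    rw [FormalMultilinearSeries.ofScalars_norm, norm_mul, norm_pow, Complex.norm_real,
      Real.norm_eq_abs, abs_of_nonneg (NNReal.coe_nonneg r)]
  · intro y hy
    have hy' : y ∈ ball (0 : ℂ) 1 := by
      have := hy
      rw [mem_ball_zero_iff]
      rw [Metric.mem_eball, edist_zero_right] at this
      have h2 : ‖y‖ₑ < ENNReal.ofReal 1 := by simpa using this
      rwa [← ofReal_norm, ENNReal.ofReal_lt_ofReal_iff one_pos] at h2
    have h1 := h y hy'
    simp only [zero_add]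
    refine psb_hs h1 fun m => ?_
    rw [FormalMultilinearSeries.ofScalars_apply_eq, smul_eq_mul]

/-- the Taylor series -/
private theorem psb_taylor {P : ℂ → ℂ} (h : DifferentiableOn ℂ P (ball 0 1)) :
    PS P (fun m => (m.factorial : ℂ)⁻¹ * iteratedDeriv m P 0) := by
  intro z hz
  refine psb_hs (Complex.hasSum_taylorSeries_on_ball h hz) fun m => ?_
  simp only [sub_zero, smul_eq_mul]
  ring

/-- a differentiable function on the disc has a power series -/
theorem ps_exists {P : ℂ → ℂ} (h : DifferentiableOn ℂ P (ball 0 1)) : ∃ a, PS P a :=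
  ⟨_, psb_taylor h⟩

/-- the sum of a power series is differentiable on the disc -/
theorem ps_diff {P : ℂ → ℂ} {a : ℕ → ℂ} (h : PS P a) : DifferentiableOn ℂ P (ball 0 1) := by
  have := (psb_has h).differentiableOn
  refine this.mono fun z hz => ?_
  rw [mem_ball_zero_iff] at hz
  rw [Metric.mem_eball, edist_zero_right, ← ofReal_norm]
  have : ENNReal.ofReal ‖z‖ < ENNReal.ofReal 1 := (ENNReal.ofReal_lt_ofReal_iff one_pos).2 hz
  simpa using this

/-- absolute convergence -/
theorem ps_summable {P : ℂ → ℂ} {a : ℕ → ℂ} (h : PS P a) {r : ℝ} (h0 : 0 ≤ r) (h1 : r < 1) :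
    Summable (fun m => ‖a m‖ * r ^ m) := by
  have hz : ((r : ℂ)) ∈ ball (0 : ℂ) 1 := by
    rw [mem_ball_zero_iff, Complex.norm_real, Real.norm_eq_abs, abs_of_nonneg h0]
    exact h1
  have := (h _ hz).summable.norm
  refine this.congr fun m => ?_
  rw [norm_mul, norm_pow, Complex.norm_real, Real.norm_eq_abs, abs_of_nonneg h0]

theorem ps_zero {P : ℂ → ℂ} {a : ℕ → ℂ} (h : PS P a) : P 0 = a 0 := by
  have h1 := h 0 (by simp)
  have h2 : HasSum (fun m => a m * (0 : ℂ) ^ m) (a 0 * 0 ^ 0) :=
    hasSum_single 0 fun m hm => by simp [hm]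
  simpa using h1.unique h2

/-- uniqueness of the coefficients -/
theorem ps_unique {P : ℂ → ℂ} {a b : ℕ → ℂ} (h : PS P a) (h' : PS P b) : a = b := by
  have := (psb_has h).hasFPowerSeriesAt.eq_formalMultilinearSeries (psb_has h').hasFPowerSeriesAt
  exact FormalMultilinearSeries.ofScalars_series_injective ℂ ℂ this

theorem ps_congr {P Q : ℂ → ℂ} {a : ℕ → ℂ} (h : PS P a) (h' : ∀ z ∈ ball (0 : ℂ) 1, P z = Q z) :
    PS Q a := by
  intro z hz
  rw [← h' z hz]
  exact h z hz

theorem ps_const (c : ℂ) : PS (fun _ => c) (fun m => if m = 0 then c else 0) := by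
  intro z _
  have h2 : HasSum (fun m => (if m = 0 then c else 0) * z ^ m)
      ((if (0 : ℕ) = 0 then c else 0) * z ^ 0) :=
    hasSum_single 0 fun m hm => by simp [hm]
  simpa using h2

theorem ps_add {P Q : ℂ → ℂ} {a b : ℕ → ℂ} (h : PS P a) (h' : PS Q b) :
    PS (fun z => P z + Q z) (fun m => a m + b m) := by
  intro z hz
  have := (h z hz).add (h' z hz)
  simpa only [add_mul] using this

theorem ps_sub {P Q : ℂ → ℂ} {a b : ℕ → ℂ} (h : PS P a) (h' : PS Q b) :
    PS (fun z => P z - Q z) (fun m => a m - b m) := by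
  intro z hz
  have := (h z hz).sub (h' z hz)
  simpa only [sub_mul] using this

theorem ps_smul {P : ℂ → ℂ} {a : ℕ → ℂ} (c : ℂ) (h : PS P a) :
    PS (fun z => c * P z) (fun m => c * a m) := by
  intro z hz
  have := (h z hz).mul_left c
  simpa only [mul_assoc] using this

/-- Cauchy product -/
theorem ps_mul {P Q : ℂ → ℂ} {a b : ℕ → ℂ} (h : PS P a) (h' : PS Q b) :
    PS (fun z => P z * Q z) (cv a b) := by
  intro z hz
  have h1 := (h z hz).summable.norm
  have h2 := (h' z hz).summable.norm
  have h3 := tsum_mul_tsum_eq_tsum_sum_antidiagonal_of_summable_norm h1 h2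
  have h4 := (summable_norm_sum_mul_antidiagonal_of_summable_norm h1 h2).of_norm.hasSum
  rw [← h3, (h z hz).tsum_eq, (h' z hz).tsum_eq] at h4
  refine psb_hs h4 fun m => ?_
  unfold cv
  rw [Finset.sum_mul]
  refine Finset.sum_congr rfl fun p hp => ?_
  rw [← Finset.HasAntidiagonal.mem_antidiagonal.1 hp, pow_add]
  ring

/-- termwise differentiation -/
theorem ps_deriv {P : ℂ → ℂ} {a : ℕ → ℂ} (h : PS P a) :
    PS (deriv P) (fun m => ((m : ℂ) + 1) * a (m + 1)) := by
  have hd := ps_diff h
  have hd' : DifferentiableOn ℂ (deriv P) (ball 0 1) := hd.deriv isOpen_ball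
  have ha := ps_unique h (psb_taylor hd)
  intro z hz
  refine psb_hs (psb_taylor hd' z hz) fun m => ?_
  rw [ha]
  simp only
  rw [iteratedDeriv_succ', Nat.factorial_succ, Nat.cast_mul, Nat.cast_succ, mul_inv, ← mul_assoc,
    ← mul_assoc, mul_inv_cancel₀ (Nat.cast_add_one_ne_zero m), one_mul]

/-- multiplication by the variable -/
theorem ps_zmul {P : ℂ → ℂ} {a : ℕ → ℂ} (h : PS P a) :
    PS (fun z => z * P z) (fun m => if m = 0 then 0 else a (m - 1)) := by
  intro z hz
  have h1 := (h z hz).mul_left z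
  refine (hasSum_nat_add_iff' 1).1 ?_
  simp only [Finset.range_one, Finset.sum_singleton, if_true, zero_mul, sub_zero]
  refine psb_hs h1 fun m => ?_
  rw [if_neg (Nat.succ_ne_zero m), Nat.add_sub_cancel, pow_succ]
  ring

/-- the operator `i z d/dz` -/
theorem ps_D {P : ℂ → ℂ} {a : ℕ → ℂ} (h : PS P a) :
    PS (fun z => I * z * deriv P z) (fun m => I * m * a m) := by
  have h1 := ps_smul I (ps_zmul (ps_deriv h))
  have h2 : (fun m => I * (if m = 0 then 0 else (((m - 1 : ℕ) : ℂ) + 1) * a (m - 1 + 1))) =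
      fun m : ℕ => I * m * a m := by
    funext m
    rcases m with _ | m
    · simp
    · rw [if_neg (Nat.succ_ne_zero m), Nat.add_sub_cancel]
      push_cast
      ring
  rw [← h2]
  refine ps_congr h1 fun z _ => ?_
  ring

end Pool.Agent.Helper21.IM
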