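import Pool.Agent.Helper21.IM.ReMean
import Pool.Agent.Helper21.IM.LogBound
import Pool.Agent.Helper21.IM.PSBasic

/-!
# IM-AE: small exponents

Let `W = H + 2 log (1 + conj a ζ)`, `H` from `log_deriv` (with the coefficients `gs n m`, `m ≥ 1`, because
`H' = pre F`), so `‖F' ζ‖^t ‖1 + conj a ζ‖^(2t) = exp (t Re W)`.  On `‖ζ‖ = s`:
`|Re W| ≤ K = 9 log (1/(1-s))`.  `exp x ≤ 1 + x + x²/2 + |x|³ exp |x| / 6`, so by `re_mean` the average is
at most `1 + t²/4 ∑ ‖w m‖² s^(2m) + t³ K³ exp (t K) / 6`.  By the triangle inequality in `ℓ²`, `hv` and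
`∑ 1/m² ≤ 2`: `∑ ‖w m‖² s^(2m) ≤ (√(4 v L + C (1 + √L)) + 3)²`, `L = log (1/(1-s))`.  As
`log (1/(1-s²)) ≥ L - log 2` and `v < c`, choose `s` close to `1` with
`(1/4) (√(4 v L + C (1 + √L)) + 3)² ≤ ((v + c)/2) log (1/(1-s²))`, then `t₀` small.
-/

set_option autoImplicit false

namespace Pool.Agent.Helper21.IM

open Complex Metric Set Real Finset

private theorem AEst_exp {x : ℝ} (hx : |x| ≤ 1) :
    Real.exp x ≤ 1 + x + x ^ 2 / 2 + |x| ^ 3 := by
  have h := Real.exp_bound hx (n := 3) (by norm_num)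
  have h1 : ∑ m ∈ Finset.range 3, x ^ m / (m.factorial : ℝ) = 1 + x + x ^ 2 / 2 := by
    simp [Finset.sum_range_succ, Nat.factorial]
  rw [h1] at h
  have h2 := (abs_le.1 h).2
  have h3 : |x| ^ 3 * (((3 : ℕ).succ : ℝ) / (((3 : ℕ).factorial : ℝ) * ((3 : ℕ) : ℝ))) ≤ |x| ^ 3 := by
    have h4 : (((3 : ℕ).succ : ℝ) / (((3 : ℕ).factorial : ℝ) * ((3 : ℕ) : ℝ))) ≤ 1 := by
      norm_num [Nat.factorial]
    exact mul_le_of_le_one_right (by positivity) h4
  linarith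

private theorem AEst_inv_sq (M : ℕ) : ∑ m ∈ Finset.Icc 1 M, 1 / (m : ℝ) ^ 2 ≤ 2 := by
  rcases Nat.eq_zero_or_pos M with rfl | hM
  · simp
  have key : ∀ M : ℕ, 1 ≤ M → ∑ m ∈ Finset.Icc 1 M, 1 / (m : ℝ) ^ 2 ≤ 2 - 1 / (M : ℝ) := by
    intro M hM
    induction M, hM using Nat.le_induction with
    | base => norm_num
    | succ M hM ih =>
      rw [Finset.sum_Icc_succ_top (by omega)]
      have hM0 : (0 : ℝ) < M := by exact_mod_cast hM
      have h1 : 1 / (((M + 1 : ℕ) : ℝ)) ^ 2 ≤ 1 / (M : ℝ) - 1 / ((M + 1 : ℕ) : ℝ) := by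
        push_cast
        rw [div_sub_div _ _ hM0.ne' (by positivity), div_le_div_iff₀ (by positivity) (by positivity)]
        nlinarith
      linarith
  have h1 := key M hM
  have h2 : (0 : ℝ) ≤ 1 / (M : ℝ) := by positivity
  linarith

private theorem AEst_l2 (M : ℕ) (h b : ℕ → ℂ) (ρ : ℕ → ℝ) (hρ : ∀ m, 0 ≤ ρ m) {A B : ℝ}
    (hA : ∑ m ∈ Finset.Icc 1 M, ‖h m‖ ^ 2 * ρ m ^ 2 ≤ A) (hB : ∑ m ∈ Finset.Icc 1 M, ‖b m‖ ^ 2 * ρ m ^ 2 ≤ B) :
    ∑ m ∈ Finset.Icc 1 M, ‖h m + b m‖ ^ 2 * ρ m ^ 2 ≤ (√A + √B) ^ 2 := by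
  have hA0 : 0 ≤ A := le_trans (Finset.sum_nonneg fun m _ => by positivity) hA
  have hB0 : 0 ≤ B := le_trans (Finset.sum_nonneg fun m _ => by positivity) hB
  have h1 : ∀ m ∈ Finset.Icc 1 M, ‖h m + b m‖ ^ 2 * ρ m ^ 2 ≤
      ‖h m‖ ^ 2 * ρ m ^ 2 + 2 * ((‖h m‖ * ρ m) * (‖b m‖ * ρ m)) + ‖b m‖ ^ 2 * ρ m ^ 2 := by
    intro m _
    have h2 : ‖h m + b m‖ ^ 2 ≤ (‖h m‖ + ‖b m‖) ^ 2 :=
      pow_le_pow_left₀ (norm_nonneg _) (norm_add_le _ _) 2
    have h3 := mul_le_mul_of_nonneg_right h2 (sq_nonneg (ρ m))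
    calc ‖h m + b m‖ ^ 2 * ρ m ^ 2 ≤ (‖h m‖ + ‖b m‖) ^ 2 * ρ m ^ 2 := h3
      _ = _ := by ring
  refine (Finset.sum_le_sum h1).trans ?_
  rw [Finset.sum_add_distrib, Finset.sum_add_distrib, ← Finset.mul_sum]
  have h4 := Real.sum_mul_le_sqrt_mul_sqrt (Finset.Icc 1 M) (fun m => ‖h m‖ * ρ m)
    (fun m => ‖b m‖ * ρ m)
  have h5 : √(∑ m ∈ Finset.Icc 1 M, (‖h m‖ * ρ m) ^ 2) ≤ √A := by
    apply Real.sqrt_le_sqrt
    refine le_trans (le_of_eq ?_) hA
    exact Finset.sum_congr rfl fun m _ => by ring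
  have h6 : √(∑ m ∈ Finset.Icc 1 M, (‖b m‖ * ρ m) ^ 2) ≤ √B := by
    apply Real.sqrt_le_sqrt
    refine le_trans (le_of_eq ?_) hB
    exact Finset.sum_congr rfl fun m _ => by ring
  have h7 : ∑ m ∈ Finset.Icc 1 M, (‖h m‖ * ρ m) * (‖b m‖ * ρ m) ≤ √A * √B :=
    h4.trans (mul_le_mul h5 h6 (Real.sqrt_nonneg _) (Real.sqrt_nonneg _))
  have h8 : (√A + √B) ^ 2 = A + 2 * (√A * √B) + B := by
    rw [add_sq, Real.sq_sqrt hA0, Real.sq_sqrt hB0]
    ring
  rw [h8]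
  linarith

/-- the choice of `s` -/
private theorem AEst_choice {v C c : ℝ} (hv0 : 0 ≤ v) (hC : 0 ≤ C) (hc : v < c) :
    ∃ s L : ℝ, 1 / 2 ≤ s ∧ s < 1 ∧ 1 ≤ L ∧ Real.log (1 / (1 - s)) = L ∧
      0 < Real.log (1 / (1 - s ^ 2)) ∧
      (√(4 * v * L + C * (1 + √L)) + 3) ^ 2 / 4 ≤ (v + c) / 2 * Real.log (1 / (1 - s ^ 2)) := by
  set d : ℝ := (c - v) / 2 with hd
  have hd0 : 0 < d := by rw [hd]; linarith
  have hcd : (v + c) / 2 = v + d := by rw [hd]; ring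
  set K0 : ℝ := C / 2 + 3 / 2 * √(4 * v + 2 * C) + 9 / 4 + v + d with hK0
  have hsq0 : 0 ≤ √(4 * v + 2 * C) := Real.sqrt_nonneg _
  have hK0d : d ≤ K0 := by
    rw [hK0]
    nlinarith
  set q : ℝ := K0 / d with hq
  have hq1 : 1 ≤ q := by
    rw [hq, le_div_iff₀ hd0]
    linarith
  have hq0 : 0 < q := by linarith
  set L : ℝ := q ^ 2 with hL
  have hL1 : 1 ≤ L := by
    rw [hL]
    nlinarith
  have hsL : √L = q := by
    rw [hL, Real.sqrt_sq hq0.le]
  have hqL : q ≤ L := by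
    rw [hL]
    nlinarith
  have hexp : Real.exp (-L) ≤ 1 / 2 := by
    have h1 : Real.exp (-L) ≤ Real.exp (-1) := Real.exp_le_exp.2 (by linarith)
    have h2 : Real.exp (-1) ≤ 1 / 2 := by
      rw [Real.exp_neg, inv_le_comm₀ (Real.exp_pos _) (by norm_num)]
      have := Real.add_one_le_exp (1 : ℝ)
      norm_num at this ⊢
      linarith
    linarith
  have hexp0 := Real.exp_pos (-L)
  set s : ℝ := 1 - Real.exp (-L) with hs
  have hs1 : s < 1 := by rw [hs]; linarith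
  have hs2 : 1 / 2 ≤ s := by rw [hs]; linarith
  have hlog : Real.log (1 / (1 - s)) = L := by
    have h1 : 1 - s = Real.exp (-L) := by rw [hs]; ring
    rw [h1, one_div, Real.log_inv, Real.log_exp, neg_neg]
  have hlog2 : Real.log 2 ≤ 0.7 := by
    have := Real.log_two_lt_d9
    linarith
  have hLs : L - Real.log 2 ≤ Real.log (1 / (1 - s ^ 2)) := by
    have h1 : (1 : ℝ) - s ^ 2 = (1 - s) * (1 + s) := by ring
    have h2 : (0 : ℝ) < 1 - s := by linarith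
    have h3 : (0 : ℝ) < 1 + s := by linarith
    rw [h1, one_div, mul_inv, Real.log_mul (inv_ne_zero h2.ne') (inv_ne_zero h3.ne'),
      Real.log_inv (1 + s), ← one_div, hlog]
    have h4 : Real.log (1 + s) ≤ Real.log 2 := Real.log_le_log h3 (by linarith)
    linarith
  refine ⟨s, L, hs2, hs1, hL1, hlog, by linarith, ?_⟩
  rw [hcd]
  set X : ℝ := 4 * v * L + C * (1 + √L) with hX
  have hX0 : 0 ≤ X := by
    rw [hX]
    have : 0 ≤ √L := Real.sqrt_nonneg _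
    positivity
  have hXL : X ≤ (4 * v + 2 * C) * L := by
    rw [hX, hsL]
    nlinarith
  have hsX : √X ≤ √(4 * v + 2 * C) * q := by
    have h1 : √X ≤ √((4 * v + 2 * C) * L) := Real.sqrt_le_sqrt hXL
    rw [Real.sqrt_mul (by positivity), hsL] at h1
    exact h1
  have hsX2 : √X ^ 2 = X := Real.sq_sqrt hX0
  have hK : K0 * q = d * L := by
    rw [hL, hq]
    field_simp
  have h9 : (v + d) * (L - Real.log 2) ≤ (v + d) * Real.log (1 / (1 - s ^ 2)) :=
    mul_le_mul_of_nonneg_left hLs (by linarith)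
  refine le_trans ?_ h9
  have h10 : (√X + 3) ^ 2 / 4 = X / 4 + 3 / 2 * √X + 9 / 4 := by
    rw [add_sq, hsX2]
    ring
  rw [h10]
  have h11 : X / 4 = v * L + C / 4 * (1 + q) := by
    rw [hX, hsL]
    ring
  rw [h11]
  have h12 : C / 4 * (1 + q) ≤ C / 2 * q := by nlinarith
  have h13 : (v + d) * Real.log 2 ≤ (v + d) * q := by
    apply mul_le_mul_of_nonneg_left _ (by linarith)
    linarith
  have h14 : (9 : ℝ) / 4 ≤ 9 / 4 * q := by linarith
  have h15 : K0 * q = C / 2 * q + 3 / 2 * (√(4 * v + 2 * C) * q) + 9 / 4 * q + (v + d) * q := by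
    rw [hK0]
    ring
  nlinarith

theorem a_est {v C : ℝ} (hv0 : 0 ≤ v) (hC : 0 ≤ C)
    (hv : ∀ (F : ℂ → ℂ) (n : ℕ → ℂ), Sch F → PS (pre F) n → ∀ R ∈ Ico (1 / 2 : ℝ) 1, ∀ M : ℕ,
      ∑ m ∈ Icc 1 M, ‖gs n m‖ ^ 2 * R ^ (2 * m) ≤
        4 * v * Real.log (1 / (1 - R)) + C * (1 + √(Real.log (1 / (1 - R))))) {c : ℝ} (hc : v < c) :
    ∃ s ∈ Ioo (0 : ℝ) 1, ∃ t₀ : ℝ, 0 < t₀ ∧ ∀ t ∈ Ioc 0 t₀, ∀ F : ℂ → ℂ, Sch F →
      ∀ a ∈ closedBall (0 : ℂ) 1,
      circleAverage (fun ζ => ‖deriv F ζ‖ ^ t * ‖1 + (starRingEnd ℂ) a * ζ‖ ^ (2 * t)) 0 s ≤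
        1 + c * t ^ 2 * Real.log (1 / (1 - s ^ 2)) := by
  obtain ⟨s, L, hs2, hs1, hL1, hlog, hLs, hkey⟩ := AEst_choice hv0 hC hc
  set Ls : ℝ := Real.log (1 / (1 - s ^ 2)) with hLsdef
  have hs0 : 0 < s := by linarith
  set K : ℝ := 9 * L with hK
  have hK0 : 0 < K := by rw [hK]; linarith
  set d : ℝ := (c - v) / 2 with hd
  have hd0 : 0 < d := by rw [hd]; linarith
  refine ⟨s, ⟨hs0, hs1⟩, min (1 / K) (d * Ls / K ^ 3), ?_, ?_⟩
  · apply lt_min
    · positivity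
    · positivity
  intro t ht F hF a ha
  obtain ⟨ht0, ht1⟩ := ht
  have htK : t * K ≤ 1 := by
    have h1 := ht1.trans (min_le_left _ _)
    rwa [le_div_iff₀ hK0] at h1
  have htK3 : t * K ^ 3 ≤ d * Ls := by
    have h1 := ht1.trans (min_le_right _ _)
    rwa [le_div_iff₀ (by positivity)] at h1
  obtain ⟨H, hHd, hH0, hH⟩ := log_deriv hF
  obtain ⟨h, hh⟩ := ps_exists hHd
  have hn : PS (pre F) (fun m => ((m : ℂ) + 1) * h (m + 1)) :=
    ps_congr (ps_deriv hh) fun z hz => (hH z hz).2.1.deriv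
  have hgs : ∀ m : ℕ, 1 ≤ m → gs (fun m => ((m : ℂ) + 1) * h (m + 1)) m = h m := by
    intro m hm
    have h1 : m - 1 + 1 = m := by omega
    have h2 : (((m - 1 : ℕ) : ℂ) + 1) = m := by
      have : ((m - 1 + 1 : ℕ) : ℂ) = m := by rw [h1]
      push_cast at this
      exact this
    have h3 : (m : ℂ) ≠ 0 := by
      have : m ≠ 0 := by omega
      exact_mod_cast this
    rw [gs, h1, h2]
    field_simp
  have hh0 : h 0 = 0 := by rw [← ps_zero hh, hH0]
  have ha1 : ‖(starRingEnd ℂ) a‖ ≤ 1 := by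
    rw [RCLike.norm_conj]
    simpa using ha
  set a' : ℂ := (starRingEnd ℂ) a with ha'
  set W : ℂ → ℂ := fun z => H z + 2 * Complex.log (1 + a' * z) with hW
  set w : ℕ → ℂ := fun m => h m + 2 * (- (-a') ^ m / m) with hw
  have hWw : PS W w := ps_add hh (ps_smul 2 (ps_log_one_add ha1))
  have hw0 : w 0 = 0 := by
    rw [hw]
    simp [hh0]
  obtain ⟨hm1, hm2⟩ := re_mean hWw hw0 hs0.le hs1
  -- continuity on the circle
  have hsph : sphere (0 : ℂ) s ⊆ ball 0 1 := by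
    intro z hz
    rw [mem_sphere_zero_iff_norm] at hz
    rw [mem_ball_zero_iff, hz]
    exact hs1
  have hWc : ContinuousOn (fun z => (W z).re) (sphere 0 s) :=
    Complex.continuous_re.comp_continuousOn ((ps_diff hWw).continuousOn.mono hsph)
  -- bound for the real part
  have hWre : ∀ z ∈ sphere (0 : ℂ) s, (W z).re = (H z).re + 2 * Real.log ‖1 + a' * z‖ := by
    intro z _
    rw [hW]
    simp only [Complex.add_re, Complex.mul_re, Complex.re_ofNat, Complex.im_ofNat, zero_mul,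
      sub_zero, Complex.log_re]
  have hnorm : ∀ z ∈ sphere (0 : ℂ) s, 1 - s ≤ ‖1 + a' * z‖ ∧ ‖1 + a' * z‖ ≤ 2 := by
    intro z hz
    rw [mem_sphere_zero_iff_norm] at hz
    have h1 : ‖a' * z‖ ≤ s := by
      rw [norm_mul, hz]
      nlinarith [norm_nonneg a']
    constructor
    · have h2 : ‖(1 : ℂ)‖ ≤ ‖1 + a' * z‖ + ‖a' * z‖ := by
        have := norm_sub_le (1 + a' * z) (a' * z)
        rwa [add_sub_cancel_right] at this
      rw [norm_one] at h2
      linarith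
    · have h2 := norm_add_le (1 : ℂ) (a' * z)
      rw [norm_one] at h2
      linarith
  have hWK : ∀ z ∈ sphere (0 : ℂ) s, |(W z).re| ≤ K := by
    intro z hz
    rw [hWre z hz]
    obtain ⟨h1, h2⟩ := hnorm z hz
    have h3 : |(H z).re| ≤ 7 * L := by
      refine (Complex.abs_re_le_norm _).trans ?_
      have h4 := (hH z (hsph hz)).2.2
      rw [mem_sphere_zero_iff_norm] at hz
      rw [hz, hlog] at h4
      exact h4
    have hpos : 0 < 1 - s := by linarith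
    have h5 : Real.log ‖1 + a' * z‖ ≤ L := by
      have h6 : Real.log ‖1 + a' * z‖ ≤ Real.log 2 := Real.log_le_log (by linarith) h2
      have h7 := Real.log_two_lt_d9
      linarith
    have h6 : -L ≤ Real.log ‖1 + a' * z‖ := by
      have h7 : Real.log (1 - s) ≤ Real.log ‖1 + a' * z‖ := Real.log_le_log hpos h1
      rw [one_div, Real.log_inv] at hlog
      linarith
    rw [abs_le] at h3 ⊢
    rw [hK]
    constructor <;> linarith [h3.1, h3.2]
  -- the integrand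
  have hint : Set.EqOn (fun ζ => ‖deriv F ζ‖ ^ t * ‖1 + a' * ζ‖ ^ (2 * t))
      (fun ζ => Real.exp (t * (W ζ).re)) (sphere 0 |s|) := by
    intro z hz
    rw [abs_of_pos hs0] at hz
    obtain ⟨h1, h2⟩ := hnorm z hz
    have hpos : 0 < ‖1 + a' * z‖ := by linarith
    have h3 := (hH z (hsph hz)).1
    show ‖deriv F z‖ ^ t * ‖1 + a' * z‖ ^ (2 * t) = Real.exp (t * (W z).re)
    rw [← h3, Complex.norm_exp, ← Real.exp_mul, Real.rpow_def_of_pos hpos, ← Real.exp_add,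
      hWre z hz]
    congr 1
    ring
  rw [circleAverage_congr_sphere hint]
  -- comparison
  have hcomp : ∀ z ∈ sphere (0 : ℂ) |s|, Real.exp (t * (W z).re) ≤
      1 + (t * K) ^ 3 + (t * (W z).re + t ^ 2 / 2 * (W z).re ^ 2) := by
    intro z hz
    rw [abs_of_pos hs0] at hz
    have h1 := hWK z hz
    have h2 : |t * (W z).re| ≤ t * K := by
      rw [abs_mul, abs_of_pos ht0]
      exact mul_le_mul_of_nonneg_left h1 ht0.le
    have h3 := AEst_exp (h2.trans htK)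
    have h4 : |t * (W z).re| ^ 3 ≤ (t * K) ^ 3 := pow_le_pow_left₀ (abs_nonneg _) h2 3
    have h5 : (t * (W z).re) ^ 2 / 2 = t ^ 2 / 2 * (W z).re ^ 2 := by ring
    linarith
  have hc1 : ContinuousOn (fun z => Real.exp (t * (W z).re)) (sphere 0 s) :=
    Real.continuous_exp.comp_continuousOn (continuousOn_const.mul hWc)
  have hc2 : ContinuousOn (fun z => t * (W z).re) (sphere 0 s) := continuousOn_const.mul hWc
  have hc3 : ContinuousOn (fun z => t ^ 2 / 2 * (W z).re ^ 2) (sphere 0 s) :=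
    continuousOn_const.mul (hWc.pow 2)
  have hi1 := hc1.circleIntegrable hs0.le
  have hi2 := hc2.circleIntegrable hs0.le
  have hi3 := hc3.circleIntegrable hs0.le
  have hi0 : CircleIntegrable (fun _ : ℂ => 1 + (t * K) ^ 3) 0 s :=
    (continuousOn_const (s := sphere (0 : ℂ) s)).circleIntegrable hs0.le
  have hmono := circleAverage_mono hi1 (hi0.add (hi2.add hi3)) hcomp
  refine hmono.trans ?_
  have e1 : circleAverage ((fun _ : ℂ => 1 + (t * K) ^ 3) + ((fun z => t * (W z).re) +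
      fun z => t ^ 2 / 2 * (W z).re ^ 2)) 0 s =
      1 + (t * K) ^ 3 + (0 + t ^ 2 / 2 * circleAverage (fun z => (W z).re ^ 2) 0 s) := by
    rw [circleAverage_add hi0 (hi2.add hi3), circleAverage_add hi2 hi3, circleAverage_const]
    congr 2
    · have h1 := circleAverage_fun_smul (a := t) (f := fun z => (W z).re) (c := (0 : ℂ)) (R := s)
      simp only [smul_eq_mul] at h1
      rw [h1, hm1, mul_zero]
    · have h1 := circleAverage_fun_smul (a := t ^ 2 / 2) (f := fun z => (W z).re ^ 2)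
        (c := (0 : ℂ)) (R := s)
      simp only [smul_eq_mul] at h1
      exact h1
  have e2 : circleAverage (fun z => (W z).re ^ 2) 0 s ≤
      (√(4 * v * L + C * (1 + √L)) + 3) ^ 2 / 2 := by
    set X : ℝ := 4 * v * L + C * (1 + √L) with hX
    rw [← hm2.tsum_eq]
    refine Real.tsum_le_of_sum_range_le (fun m => by positivity) fun M => ?_
    have hA : ∑ m ∈ Finset.Icc 1 M, ‖h m‖ ^ 2 * (s ^ m) ^ 2 ≤ X := by
      have h1 := hv F _ hF hn s ⟨hs2, hs1⟩ M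
      rw [hlog] at h1
      refine le_trans (le_of_eq ?_) h1
      refine Finset.sum_congr rfl fun m hm => ?_
      rw [hgs m (Finset.mem_Icc.1 hm).1, ← pow_mul, mul_comm m 2]
    have hB : ∑ m ∈ Finset.Icc 1 M, ‖2 * (- (-a') ^ m / (m : ℂ))‖ ^ 2 * (s ^ m) ^ 2 ≤ 8 := by
      have h1 := AEst_inv_sq M
      have h2 : ∀ m ∈ Finset.Icc 1 M, ‖2 * (- (-a') ^ m / (m : ℂ))‖ ^ 2 * (s ^ m) ^ 2 ≤
          4 * (1 / (m : ℝ) ^ 2) := by
        intro m hm
        have hm0 : (0 : ℝ) < m := by exact_mod_cast (Finset.mem_Icc.1 hm).1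
        have h3 : ‖2 * (- (-a') ^ m / (m : ℂ))‖ = 2 * (‖a'‖ ^ m / m) := by
          rw [norm_mul, norm_div, norm_neg, norm_pow, norm_neg, Complex.norm_natCast]
          norm_num
        rw [h3]
        have h4 : ‖a'‖ ^ m ≤ 1 := pow_le_one₀ (norm_nonneg _) ha1
        have h5 : s ^ m ≤ 1 := pow_le_one₀ hs0.le hs1.le
        have h6 : (2 * (‖a'‖ ^ m / m)) ^ 2 * (s ^ m) ^ 2 =
            4 * (1 / (m : ℝ) ^ 2) * (‖a'‖ ^ m * s ^ m) ^ 2 := by
          field_simp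
          ring
        rw [h6]
        have h7 : ‖a'‖ ^ m * s ^ m ≤ 1 :=
          mul_le_one₀ h4 (by positivity) h5
        have h8 : (‖a'‖ ^ m * s ^ m) ^ 2 ≤ 1 := pow_le_one₀ (by positivity) h7
        exact mul_le_of_le_one_right (by positivity) h8
      refine (Finset.sum_le_sum h2).trans ?_
      rw [← Finset.mul_sum]
      linarith
    have hAB := AEst_l2 M h (fun m => 2 * (- (-a') ^ m / (m : ℂ))) (fun m => s ^ m)
      (fun m => by positivity) hA hB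
    have h8 : √(8 : ℝ) ≤ 3 := by
      rw [Real.sqrt_le_left (by norm_num)]
      norm_num
    have hX0 : 0 ≤ √X := Real.sqrt_nonneg _
    have h80 : 0 ≤ √(8 : ℝ) := Real.sqrt_nonneg _
    have h9 : (√X + √8) ^ 2 ≤ (√X + 3) ^ 2 := pow_le_pow_left₀ (by positivity) (by linarith) 2
    have h10 : ∑ m ∈ Finset.range M, ‖w m‖ ^ 2 / 2 * s ^ (2 * m) ≤
        ∑ m ∈ insert 0 (Finset.Icc 1 M), ‖w m‖ ^ 2 / 2 * s ^ (2 * m) := by
      refine Finset.sum_le_sum_of_subset_of_nonneg ?_ fun m _ _ => by positivity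
      intro m hm
      rw [Finset.mem_range] at hm
      rw [Finset.mem_insert, Finset.mem_Icc]
      omega
    refine h10.trans ?_
    rw [Finset.sum_insert (by simp), hw0]
    have h11 : ∑ m ∈ Finset.Icc 1 M, ‖w m‖ ^ 2 / 2 * s ^ (2 * m) =
        (∑ m ∈ Finset.Icc 1 M, ‖h m + 2 * (- (-a') ^ m / (m : ℂ))‖ ^ 2 * (s ^ m) ^ 2) / 2 := by
      rw [Finset.sum_div]
      refine Finset.sum_congr rfl fun m _ => ?_
      rw [← pow_mul, mul_comm m 2]
      ring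
    rw [h11]
    simp only [norm_zero]
    linarith
  rw [e1]
  have e3 : t ^ 2 / 2 * circleAverage (fun z => (W z).re ^ 2) 0 s ≤
      t ^ 2 * ((v + c) / 2 * Ls) := by
    have h1 : circleAverage (fun z => (W z).re ^ 2) 0 s ≤ 2 * ((v + c) / 2 * Ls) := by linarith
    have h2 := mul_le_mul_of_nonneg_left h1 (show (0 : ℝ) ≤ t ^ 2 / 2 by positivity)
    linarith
  have e4 : (t * K) ^ 3 ≤ t ^ 2 * (d * Ls) := by
    have h1 := mul_le_mul_of_nonneg_left htK3 (sq_nonneg t)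
    linarith
  have e5 : c * t ^ 2 * Ls = t ^ 2 * ((v + c) / 2 * Ls) + t ^ 2 * (d * Ls) := by
    rw [hd]
    ring
  linarith

end Pool.Agent.Helper21.IM
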