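import Pool.Agent.Helper21.IM.Defs

/-!
# IM-AR: change of variables for injective holomorphic maps, and polar coordinates

`area_change`: `MeasureTheory.lintegral_image_eq_lintegral_abs_det_fderiv_mul` with the real
derivative `(hasDerivAt.hasFDerivAt.restrictScalars ℝ)`; the determinant of the multiplication by
`c` on `ℂ = ℝ²` is `‖c‖²`.

`radial`: `Complex.lintegral_comp_polarCoord_symm` or `Complex.integral_comp_polarCoord_symm`.
-/

set_option autoImplicit false

namespace Pool.Agent.Helper21.IM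

open Complex Metric Set Real Finset MeasureTheory

private theorem area_det (c : ℂ) :
    ((ContinuousLinearMap.toSpanSingleton ℂ c).restrictScalars ℝ : ℂ →L[ℝ] ℂ).det = ‖c‖ ^ 2 := by
  have h1 : (((ContinuousLinearMap.toSpanSingleton ℂ c).restrictScalars ℝ : ℂ →L[ℝ] ℂ) :
      ℂ →ₗ[ℝ] ℂ) = LinearMap.mulLeft ℝ c := by
    ext x
    simp [mul_comm]
  have h2 : LinearMap.det (LinearMap.mulLeft ℝ c) = Algebra.norm ℝ c := by
    rw [Algebra.norm_apply]
    rfl
  rw [ContinuousLinearMap.det, h1, h2, Algebra.norm_complex_apply, Complex.normSq_eq_norm_sq]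

theorem area_change {F : ℂ → ℂ} {U A : Set ℂ} (hU : IsOpen U) (hF : DifferentiableOn ℂ F U)
    (hinj : InjOn F U) (hA : MeasurableSet A) (hAU : A ⊆ U) (g : ℂ → ENNReal) :
    ∫⁻ w in A, ENNReal.ofReal (‖deriv F w‖ ^ 2) * g (F w) = ∫⁻ v in F '' A, g v := by
  rw [MeasureTheory.lintegral_image_eq_lintegral_abs_det_fderiv_mul volume hA
    (f' := fun w => (ContinuousLinearMap.toSpanSingleton ℂ (deriv F w)).restrictScalars ℝ)
    (fun w hw => ?_) (hinj.mono hAU)]
  · apply lintegral_congr
    intro w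
    rw [area_det, abs_of_nonneg (sq_nonneg _)]
  · have h1 : HasDerivAt F (deriv F w) w :=
      (hF.differentiableAt (hU.mem_nhds (hAU hw))).hasDerivAt
    exact (h1.hasFDerivAt.restrictScalars ℝ).hasFDerivWithinAt

private theorem area_le {α : Type} [MeasurableSpace α] (μ : Measure α) (f : α → ℝ) :
    ENNReal.ofReal (∫ x, f x ∂μ) ≤ ∫⁻ x, ENNReal.ofReal (f x) ∂μ := by
  by_cases hf : Integrable f μ
  · rw [integral_eq_lintegral_pos_part_sub_lintegral_neg_part hf]
    refine (ENNReal.ofReal_le_ofReal (sub_le_self _ ENNReal.toReal_nonneg)).trans ?_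
    exact ENNReal.ofReal_toReal_le
  · rw [integral_undef hf]
    simp

/-- integration over an annulus in polar coordinates, as an inequality -/
theorem radial {h : ℂ → ℝ} {φ : ℝ → ℝ} {ε R : ℝ} (hε : 0 < ε) (hR : ε < R)
    (hc : ContinuousOn h (ball 0 R \ ball 0 ε)) (h0 : ∀ w ∈ ball (0 : ℂ) R \ ball 0 ε, 0 ≤ h w)
    (hφ : ContinuousOn φ (Icc ε R)) (hle : ∀ r ∈ Ioo ε R, φ r ≤ circleAverage h 0 r) :
    ENNReal.ofReal (∫ r in ε..R, 2 * π * r * φ r) ≤
      ∫⁻ w in ball (0 : ℂ) R \ ball 0 ε, ENNReal.ofReal (h w) := by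
  classical
  set A : Set ℂ := ball (0 : ℂ) R \ ball 0 ε with hAdef
  have hA : MeasurableSet A := measurableSet_ball.diff measurableSet_ball
  -- the radial function
  set G : ℂ → ENNReal := A.indicator fun w => ENNReal.ofReal (h w) with hG
  have hGm : Measurable G := by
    have h1 : Measurable (A.piecewise (fun w => ENNReal.ofReal (h w)) fun _ => (0 : ENNReal)) := by
      refine ContinuousOn.measurable_piecewise ?_ continuousOn_const hA
      exact ENNReal.continuous_ofReal.comp_continuousOn hc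
    have h2 : G = A.piecewise (fun w => ENNReal.ofReal (h w)) fun _ => (0 : ENNReal) := by
      funext w
      by_cases hw : w ∈ A
      · rw [hG, Set.indicator_of_mem hw, Set.piecewise_eq_of_mem _ _ _ hw]
      · rw [hG, Set.indicator_of_notMem hw, Set.piecewise_eq_of_notMem _ _ _ hw]
    rw [h2]
    exact h1
  rw [← lintegral_indicator hA]
  change _ ≤ ∫⁻ w, G w
  rw [← Complex.lintegral_comp_polarCoord_symm]
  have hcont : Continuous fun p : ℝ × ℝ => Complex.polarCoord.symm p := by
    have : (fun p : ℝ × ℝ => Complex.polarCoord.symm p) =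
        fun p : ℝ × ℝ => (p.1 : ℂ) * ((Real.cos p.2 : ℂ) + (Real.sin p.2 : ℂ) * Complex.I) := by
      funext p
      exact Complex.polarCoord_symm_apply p
    rw [this]
    fun_prop
  have hm : Measurable fun p : ℝ × ℝ =>
      ENNReal.ofReal p.1 • G (Complex.polarCoord.symm p) := by
    simp only [smul_eq_mul]
    exact (ENNReal.measurable_ofReal.comp measurable_fst).mul (hGm.comp hcont.measurable)
  rw [polarCoord_target]
  have hprod : (volume : Measure (ℝ × ℝ)) = (volume : Measure ℝ).prod volume := rfl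
  rw [hprod, setLIntegral_prod _ hm.aemeasurable]
  have hsub : Ioo ε R ⊆ Ioi (0 : ℝ) := fun r hr => hε.trans hr.1
  refine le_trans ?_ (lintegral_mono_set hsub)
  have h1 : (∫ r in ε..R, 2 * π * r * φ r) = ∫ r in Ioo ε R, 2 * π * r * φ r := by
    rw [intervalIntegral.integral_of_le hR.le, integral_Ioc_eq_integral_Ioo]
  rw [h1]
  refine (area_le _ _).trans ?_
  refine setLIntegral_mono' measurableSet_Ioo ?_
  intro r hr
  have hr0 : 0 < r := hε.trans hr.1
  simp only [smul_eq_mul]
  rw [lintegral_const_mul' _ _ ENNReal.ofReal_ne_top]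
  have h2 : ∀ θ : ℝ, G (Complex.polarCoord.symm (r, θ)) =
      ENNReal.ofReal (h (circleMap 0 r θ)) := by
    intro θ
    have h3 : Complex.polarCoord.symm (r, θ) = circleMap 0 r θ := by
      rw [Complex.polarCoord_symm_apply, circleMap, zero_add, Complex.exp_mul_I,
        Complex.ofReal_cos, Complex.ofReal_sin]
    have h4 : circleMap 0 r θ ∈ A := by
      rw [hAdef]
      refine ⟨?_, ?_⟩
      · rw [mem_ball_zero_iff, norm_circleMap_zero, abs_of_pos hr0]
        exact hr.2
      · rw [mem_ball_zero_iff, norm_circleMap_zero, abs_of_pos hr0, not_lt]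
        exact hr.1.le
    rw [h3, hG, Set.indicator_of_mem h4]
  simp only [h2]
  have h5 : 2 * π * r * φ r ≤ r * ∫ θ in Ioo (-π) π, h (circleMap 0 r θ) := by
    have h6 := hle r hr
    rw [circleAverage_eq_integral_add (-π),
      intervalIntegral.integral_comp_add_right (fun θ => h (circleMap 0 r θ))] at h6
    have e1 : (0 : ℝ) + -π = -π := by ring
    have e2 : 2 * π + -π = π := by ring
    rw [e1, e2, intervalIntegral.integral_of_le (by linarith [Real.pi_pos]),
      integral_Ioc_eq_integral_Ioo, smul_eq_mul] at h6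
    have hpi : 0 < 2 * π := by positivity
    have h7 : 2 * π * φ r ≤ ∫ θ in Ioo (-π) π, h (circleMap 0 r θ) := by
      have h8 := mul_le_mul_of_nonneg_left h6 hpi.le
      rwa [← mul_assoc, mul_inv_cancel₀ hpi.ne', one_mul] at h8
    calc 2 * π * r * φ r = r * (2 * π * φ r) := by ring
      _ ≤ _ := mul_le_mul_of_nonneg_left h7 hr0.le
  refine (ENNReal.ofReal_le_ofReal h5).trans ?_
  rw [ENNReal.ofReal_mul hr0.le]
  gcongr
  exact area_le _ _

end Pool.Agent.Helper21.IM
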