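import Pool.Agent.Helper21.IM.Defs

/-!
# IM-PL: an integral in the plane

Let `B = ‖b‖ > 0`.  Split the region into `R₁ = {‖v‖ < B/2}`, `R₂ = {‖v - b‖ < B/2}` and the rest
`R₃`.  On `R₁`: `‖b / (v - b)‖ ≤ 1 / (1 - x)`, `x = ‖v‖ / B ≤ 1/2`, and `(1 - x)^(-2) ≤ 1 + 6 x`, so
`‖b/(v (v - b))‖² ≤ ‖v‖^(-2) + 6 / (B ‖v‖)`; in polar coordinates the integral over
`δ₀ ≤ ‖v‖ < B/2` is at most `2 π log (B / (2 δ₀)) + 6 π`.  The same on `R₂` (translate by `b`).  On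
`R₃`: `‖v - b‖ ≥ ‖v‖ / 3` (because `B ≤ 2 ‖v - b‖`), so the integrand is at most `9 B² / ‖v‖⁴`, and the
integral over `‖v‖ ≥ B/2` is at most `36 π`.  So `C = 48 + ...` (any constant is fine).
-/

set_option autoImplicit false

namespace Pool.Agent.Helper21.IM

open Complex Metric Set Real Finset MeasureTheory

private theorem plane_radial (h : ℝ → ENNReal) (hh : Measurable h) (S : Set ℝ)
    (hS : MeasurableSet S) :
    ∫⁻ v in {v : ℂ | ‖v‖ ∈ S}, h ‖v‖ =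
      ENNReal.ofReal (2 * π) * ∫⁻ r in Ioi (0 : ℝ) ∩ S, ENNReal.ofReal r * h r := by
  have hSm : MeasurableSet {v : ℂ | ‖v‖ ∈ S} := measurable_norm hS
  rw [← lintegral_indicator hSm, ← Complex.lintegral_comp_polarCoord_symm, polarCoord_target]
  have hG : Measurable fun r : ℝ => ENNReal.ofReal r * S.indicator h r :=
    ENNReal.measurable_ofReal.mul (hh.indicator hS)
  have h1 : ∫⁻ p in Ioi (0 : ℝ) ×ˢ Ioo (-π) π, ENNReal.ofReal p.1 •
      ({v : ℂ | ‖v‖ ∈ S}.indicator (fun v => h ‖v‖)) (Complex.polarCoord.symm p) =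
      ∫⁻ p in Ioi (0 : ℝ) ×ˢ Ioo (-π) π, (ENNReal.ofReal p.1 * S.indicator h p.1) * 1 := by
    refine setLIntegral_congr_fun (measurableSet_Ioi.prod measurableSet_Ioo) fun p hp => ?_
    have hp0 : 0 < p.1 := hp.1
    have hn : ‖Complex.polarCoord.symm p‖ = p.1 := by
      rw [Complex.norm_polarCoord_symm, abs_of_pos hp0]
    simp only [smul_eq_mul, mul_one]
    by_cases hpS : p.1 ∈ S
    · rw [indicator_of_mem (by rw [Set.mem_ofPred_eq, hn]; exact hpS), indicator_of_mem hpS, hn]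
    · rw [indicator_of_notMem (by rw [Set.mem_ofPred_eq, hn]; exact hpS), indicator_of_notMem hpS]
  have h2 : ∫⁻ p in Ioi (0 : ℝ) ×ˢ Ioo (-π) π, (ENNReal.ofReal p.1 * S.indicator h p.1) * 1 =
      (∫⁻ r in Ioi (0 : ℝ), ENNReal.ofReal r * S.indicator h r) *
        ∫⁻ _θ in Ioo (-π) π, (1 : ENNReal) := by
    rw [Measure.volume_eq_prod, ← Measure.prod_restrict]
    exact lintegral_prod_mul (f := fun r : ℝ => ENNReal.ofReal r * S.indicator h r)
      (g := fun _ => (1 : ENNReal)) hG.aemeasurable aemeasurable_const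
  rw [h1, h2, setLIntegral_one, Real.volume_Ioo, mul_comm]
  congr 1
  · congr 1
    ring
  · have h3 : (fun r : ℝ => ENNReal.ofReal r * S.indicator h r) =
        S.indicator fun r => ENNReal.ofReal r * h r := by
      funext r
      by_cases hr : r ∈ S
      · rw [indicator_of_mem hr, indicator_of_mem hr]
      · rw [indicator_of_notMem hr, indicator_of_notMem hr, mul_zero]
    rw [h3, lintegral_indicator hS, Measure.restrict_restrict hS, inter_comm]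

/-- the integral of `1 / r` -/
private theorem plane_log {δ M : ℝ} (h0 : 0 < δ) (h1 : δ ≤ M) (S : Set ℝ) (hS : S ⊆ Icc δ M) :
    ∫⁻ r in Ioi (0 : ℝ) ∩ S, ENNReal.ofReal r * ENNReal.ofReal ((r ^ 2)⁻¹) ≤
      ENNReal.ofReal (Real.log (M / δ)) := by
  have hM : 0 < M := lt_of_lt_of_le h0 h1
  calc ∫⁻ r in Ioi (0 : ℝ) ∩ S, ENNReal.ofReal r * ENNReal.ofReal ((r ^ 2)⁻¹)
      ≤ ∫⁻ r in Icc δ M, ENNReal.ofReal r * ENNReal.ofReal ((r ^ 2)⁻¹) :=
        lintegral_mono_set fun r hr => hS hr.2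
    _ = ∫⁻ r in Icc δ M, ENNReal.ofReal (r⁻¹) := by
        refine setLIntegral_congr_fun measurableSet_Icc fun r hr => ?_
        have hr0 : 0 < r := lt_of_lt_of_le h0 hr.1
        change ENNReal.ofReal r * ENNReal.ofReal ((r ^ 2)⁻¹) = ENNReal.ofReal (r⁻¹)
        rw [← ENNReal.ofReal_mul hr0.le]
        congr 1
        field_simp
    _ = ENNReal.ofReal (∫ r in Icc δ M, r⁻¹) := by
        rw [ofReal_integral_eq_lintegral_ofReal]
        · apply ContinuousOn.integrableOn_Icc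
          exact continuousOn_id.inv₀ fun r hr => (lt_of_lt_of_le h0 hr.1).ne'
        · filter_upwards [ae_restrict_mem measurableSet_Icc] with r hr
          exact inv_nonneg.mpr (h0.le.trans hr.1)
    _ = ENNReal.ofReal (Real.log (M / δ)) := by
        rw [integral_Icc_eq_integral_Ioc, ← intervalIntegral.integral_of_le h1,
          integral_inv_of_pos h0 hM]
    _ ≤ ENNReal.ofReal (Real.log (M / δ)) := le_rfl

private theorem plane_const {B : ℝ} (hB : 0 < B) (S : Set ℝ) (hS : S ⊆ Iic (B / 2)) :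
    ∫⁻ r in Ioi (0 : ℝ) ∩ S, ENNReal.ofReal r * ENNReal.ofReal (6 / (B * r)) ≤
      ENNReal.ofReal 3 := by
  calc ∫⁻ r in Ioi (0 : ℝ) ∩ S, ENNReal.ofReal r * ENNReal.ofReal (6 / (B * r))
      ≤ ∫⁻ r in Ioc (0 : ℝ) (B / 2), ENNReal.ofReal r * ENNReal.ofReal (6 / (B * r)) :=
        lintegral_mono_set fun r hr => ⟨hr.1, hS hr.2⟩
    _ = ∫⁻ _r in Ioc (0 : ℝ) (B / 2), ENNReal.ofReal (6 / B) := by
        refine setLIntegral_congr_fun measurableSet_Ioc fun r hr => ?_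
        have hr0 : 0 < r := hr.1
        change ENNReal.ofReal r * ENNReal.ofReal (6 / (B * r)) = ENNReal.ofReal (6 / B)
        rw [← ENNReal.ofReal_mul hr0.le]
        congr 1
        field_simp
    _ = ENNReal.ofReal 3 := by
        rw [setLIntegral_const, Real.volume_Ioc, sub_zero, ← ENNReal.ofReal_mul (by positivity)]
        congr 1
        field_simp
        norm_num
    _ ≤ ENNReal.ofReal 3 := le_rfl

private theorem plane_tail {B : ℝ} (hB : 0 < B) (S : Set ℝ) (hS : S ⊆ Ici (B / 2)) :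
    ∫⁻ r in Ioi (0 : ℝ) ∩ S, ENNReal.ofReal r * ENNReal.ofReal (9 * B ^ 2 / r ^ 4) ≤
      ENNReal.ofReal 18 := by
  have hB2 : 0 < B / 2 := by positivity
  calc ∫⁻ r in Ioi (0 : ℝ) ∩ S, ENNReal.ofReal r * ENNReal.ofReal (9 * B ^ 2 / r ^ 4)
      ≤ ∫⁻ r in Ici (B / 2), ENNReal.ofReal r * ENNReal.ofReal (9 * B ^ 2 / r ^ 4) :=
        lintegral_mono_set fun r hr => hS hr.2
    _ = ∫⁻ r in Ioi (B / 2), ENNReal.ofReal r * ENNReal.ofReal (9 * B ^ 2 / r ^ 4) :=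
        setLIntegral_congr Ioi_ae_eq_Ici.symm
    _ = ∫⁻ r in Ioi (B / 2), ENNReal.ofReal (9 * B ^ 2 * r ^ (-3 : ℝ)) := by
        refine setLIntegral_congr_fun measurableSet_Ioi fun r hr => ?_
        have hr0 : 0 < r := hB2.trans hr
        change ENNReal.ofReal r * ENNReal.ofReal (9 * B ^ 2 / r ^ 4) =
          ENNReal.ofReal (9 * B ^ 2 * r ^ (-3 : ℝ))
        rw [← ENNReal.ofReal_mul hr0.le]
        congr 1
        rw [Real.rpow_neg hr0.le, show (3 : ℝ) = ((3 : ℕ) : ℝ) by norm_num, Real.rpow_natCast]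
        field_simp
    _ = ENNReal.ofReal (∫ r in Ioi (B / 2), 9 * B ^ 2 * r ^ (-3 : ℝ)) := by
        rw [ofReal_integral_eq_lintegral_ofReal]
        · exact (integrableOn_Ioi_rpow_of_lt (by norm_num) hB2).const_mul _
        · filter_upwards [ae_restrict_mem measurableSet_Ioi] with r hr
          have hr0 : 0 < r := hB2.trans hr
          positivity
    _ = ENNReal.ofReal 18 := by
        congr 1
        rw [integral_const_mul, integral_Ioi_rpow_of_lt (by norm_num) hB2,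
          show (-3 : ℝ) + 1 = -((2 : ℕ) : ℝ) by norm_num, Real.rpow_neg hB2.le,
          Real.rpow_natCast]
        field_simp
        norm_num
    _ ≤ ENNReal.ofReal 18 := le_rfl

private theorem plane_near {B r s : ℝ} (hr : 0 < r) (hrB : r < B / 2) (hs : B - r ≤ s) :
    (B / (r * s)) ^ 2 ≤ (r ^ 2)⁻¹ + 6 / (B * r) := by
  have hB : 0 < B := by linarith
  have hBr : 0 < B - r := by linarith
  have hs0 : 0 < s := lt_of_lt_of_le hBr hs
  have h1 : (B / (r * s)) ^ 2 ≤ (B / (r * (B - r))) ^ 2 := by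
    apply pow_le_pow_left₀ (by positivity)
    apply div_le_div_of_nonneg_left hB.le (by positivity)
    exact mul_le_mul_of_nonneg_left hs hr.le
  refine h1.trans ?_
  have h2 : (r ^ 2)⁻¹ + 6 / (B * r) - (B / (r * (B - r))) ^ 2 =
      r * (B - 2 * r) * (4 * B - 3 * r) / (B * r ^ 2 * (B - r) ^ 2) := by
    field_simp
    ring
  have h3 : 0 ≤ r * (B - 2 * r) * (4 * B - 3 * r) / (B * r ^ 2 * (B - r) ^ 2) := by
    apply div_nonneg
    · apply mul_nonneg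
      · exact mul_nonneg hr.le (by linarith)
      · linarith
    · positivity
  linarith

private theorem plane_far {B r s : ℝ} (hB : 0 < B) (hr : B / 2 ≤ r) (hs : B / 2 ≤ s)
    (hrs : r ≤ s + B) : (B / (r * s)) ^ 2 ≤ 9 * B ^ 2 / r ^ 4 := by
  have hr0 : 0 < r := by linarith
  have hs0 : 0 < s := by linarith
  have h1 : r ≤ 3 * s := by linarith
  have h2 : B / (r * s) ≤ 3 * B / r ^ 2 := by
    rw [div_le_div_iff₀ (by positivity) (by positivity)]
    have h3 : B * r * r ≤ B * r * (3 * s) := mul_le_mul_of_nonneg_left h1 (by positivity)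
    nlinarith
  calc (B / (r * s)) ^ 2 ≤ (3 * B / r ^ 2) ^ 2 := pow_le_pow_left₀ (by positivity) h2 2
    _ = 9 * B ^ 2 / r ^ 4 := by
      field_simp
      ring

private theorem plane_meas1 : Measurable fun r : ℝ => ENNReal.ofReal ((r ^ 2)⁻¹) := by
  apply ENNReal.measurable_ofReal.comp
  exact (measurable_id.pow_const 2).inv

private theorem plane_meas2 (B : ℝ) : Measurable fun r : ℝ => ENNReal.ofReal (6 / (B * r)) := by
  apply ENNReal.measurable_ofReal.comp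
  exact measurable_const.div (measurable_id.const_mul B)

private theorem plane_meas3 (B : ℝ) :
    Measurable fun r : ℝ => ENNReal.ofReal (9 * B ^ 2 / r ^ 4) := by
  apply ENNReal.measurable_ofReal.comp
  exact measurable_const.div (measurable_id.pow_const 4)

/-- the contribution of one pole -/
private theorem plane_pole {B δ : ℝ} (h0 : 0 < δ) (h1 : δ ≤ B / 2) :
    ∫⁻ v in {v : ℂ | ‖v‖ ∈ Ico δ (B / 2)},
      (ENNReal.ofReal ((‖v‖ ^ 2)⁻¹) + ENNReal.ofReal (6 / (B * ‖v‖))) ≤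
      ENNReal.ofReal (2 * π * (Real.log (B / 2 / δ) + 3)) := by
  have hB : 0 < B := by linarith
  have hlog : 0 ≤ Real.log (B / 2 / δ) := Real.log_nonneg (by rw [le_div_iff₀ h0]; linarith)
  have e := plane_radial (fun r => ENNReal.ofReal ((r ^ 2)⁻¹) + ENNReal.ofReal (6 / (B * r)))
    (plane_meas1.add (plane_meas2 B)) (Ico δ (B / 2)) measurableSet_Ico
  rw [e]
  have h2 : ∫⁻ r in Ioi (0 : ℝ) ∩ Ico δ (B / 2), ENNReal.ofReal r *
      (ENNReal.ofReal ((r ^ 2)⁻¹) + ENNReal.ofReal (6 / (B * r))) ≤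
      ENNReal.ofReal (Real.log (B / 2 / δ) + 3) := by
    have h3 : (fun r : ℝ => ENNReal.ofReal r *
        (ENNReal.ofReal ((r ^ 2)⁻¹) + ENNReal.ofReal (6 / (B * r)))) =
        fun r => ENNReal.ofReal r * ENNReal.ofReal ((r ^ 2)⁻¹) +
          ENNReal.ofReal r * ENNReal.ofReal (6 / (B * r)) := by
      funext r
      rw [mul_add]
    have h5 : Measurable fun r : ℝ => ENNReal.ofReal r * ENNReal.ofReal ((r ^ 2)⁻¹) :=
      ENNReal.measurable_ofReal.mul plane_meas1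
    rw [h3, lintegral_add_left h5, ENNReal.ofReal_add hlog (by norm_num)]
    exact add_le_add (plane_log h0 h1 _ fun r hr => ⟨hr.1, hr.2.le⟩)
      (plane_const hB _ fun r hr => hr.2.le)
  calc ENNReal.ofReal (2 * π) * _ ≤
      ENNReal.ofReal (2 * π) * ENNReal.ofReal (Real.log (B / 2 / δ) + 3) :=
        mul_le_mul_right h2 _
    _ = ENNReal.ofReal (2 * π * (Real.log (B / 2 / δ) + 3)) := by
        rw [← ENNReal.ofReal_mul (by positivity)]

theorem plane_bound : ∃ C : ℝ, ∀ (b : ℂ) (δ₀ δ : ℝ), 0 < δ₀ → δ₀ ≤ ‖b‖ / 2 → 0 < δ → δ ≤ ‖b‖ / 2 →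
    ∫⁻ v in {v : ℂ | δ₀ ≤ ‖v‖ ∧ δ ≤ ‖v - b‖}, ENNReal.ofReal (‖b / (v * (v - b))‖ ^ 2) ≤
      ENNReal.ofReal (π * (2 * Real.log (‖b‖ / δ₀) + 2 * Real.log (‖b‖ / δ) + C)) := by
  refine ⟨48, fun b δ₀ δ h0 h0b h1 h1b => ?_⟩
  set B := ‖b‖ with hBdef
  have hB : 0 < B := by linarith
  have hnorm : ∀ v : ℂ, ‖b / (v * (v - b))‖ = B / (‖v‖ * ‖v - b‖) := by
    intro v
    rw [norm_div, norm_mul]
  have hsub : {v : ℂ | δ₀ ≤ ‖v‖ ∧ δ ≤ ‖v - b‖} ⊆
      ({v : ℂ | ‖v‖ ∈ Ico δ₀ (B / 2)} ∪ {v : ℂ | ‖v - b‖ ∈ Ico δ (B / 2)}) ∪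
        {v : ℂ | ‖v‖ ∈ Ici (B / 2) ∧ B / 2 ≤ ‖v - b‖} := by
    rintro v ⟨hv1, hv2⟩
    rcases lt_or_ge ‖v‖ (B / 2) with h | h
    · exact Or.inl (Or.inl ⟨hv1, h⟩)
    · rcases lt_or_ge ‖v - b‖ (B / 2) with h' | h'
      · exact Or.inl (Or.inr ⟨hv2, h'⟩)
      · exact Or.inr ⟨h, h'⟩
  have hm1 : MeasurableSet {v : ℂ | ‖v‖ ∈ Ico δ₀ (B / 2)} := measurable_norm measurableSet_Ico
  have hm2 : MeasurableSet {v : ℂ | ‖v - b‖ ∈ Ico δ (B / 2)} :=
    (measurable_norm.comp (measurable_id.sub_const b)) measurableSet_Ico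
  have hm3 : MeasurableSet {v : ℂ | ‖v‖ ∈ Ici (B / 2) ∧ B / 2 ≤ ‖v - b‖} :=
    (measurable_norm measurableSet_Ici).inter
      ((measurable_norm.comp (measurable_id.sub_const b)) measurableSet_Ici)
  have hE1 : ∫⁻ v in {v : ℂ | ‖v‖ ∈ Ico δ₀ (B / 2)}, ENNReal.ofReal (‖b / (v * (v - b))‖ ^ 2) ≤
      ENNReal.ofReal (2 * π * (Real.log (B / 2 / δ₀) + 3)) := by
    refine le_trans (setLIntegral_mono' hm1 fun v hv => ?_) (plane_pole h0 h0b)
    have hr : 0 < ‖v‖ := lt_of_lt_of_le h0 hv.1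
    rw [hnorm, ← ENNReal.ofReal_add (by positivity) (by positivity)]
    apply ENNReal.ofReal_le_ofReal
    apply plane_near hr hv.2
    have := norm_sub_norm_le b v
    rw [norm_sub_rev] at this
    linarith
  have hE2 : ∫⁻ v in {v : ℂ | ‖v - b‖ ∈ Ico δ (B / 2)},
      ENNReal.ofReal (‖b / (v * (v - b))‖ ^ 2) ≤
      ENNReal.ofReal (2 * π * (Real.log (B / 2 / δ) + 3)) := by
    refine le_trans ?_ (plane_pole h1 h1b)
    have hm : MeasurableSet {v : ℂ | ‖v‖ ∈ Ico δ (B / 2)} := measurable_norm measurableSet_Ico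
    calc ∫⁻ v in {v : ℂ | ‖v - b‖ ∈ Ico δ (B / 2)}, ENNReal.ofReal (‖b / (v * (v - b))‖ ^ 2)
        ≤ ∫⁻ v in {v : ℂ | ‖v - b‖ ∈ Ico δ (B / 2)}, (ENNReal.ofReal ((‖v - b‖ ^ 2)⁻¹) +
            ENNReal.ofReal (6 / (B * ‖v - b‖))) := by
          refine setLIntegral_mono' hm2 fun v hv => ?_
          have hr : 0 < ‖v - b‖ := lt_of_lt_of_le h1 hv.1
          rw [hnorm, ← ENNReal.ofReal_add (by positivity) (by positivity), mul_comm ‖v‖]
          apply ENNReal.ofReal_le_ofReal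
          apply plane_near hr hv.2
          have h3 := norm_sub_norm_le b (b - v)
          rw [sub_sub_cancel, norm_sub_rev b v] at h3
          linarith
      _ = ∫⁻ v : ℂ, ({v : ℂ | ‖v‖ ∈ Ico δ (B / 2)}.indicator fun v =>
            (ENNReal.ofReal ((‖v‖ ^ 2)⁻¹) + ENNReal.ofReal (6 / (B * ‖v‖)))) (v - b) := by
          rw [← lintegral_indicator hm2]
          refine lintegral_congr fun v => ?_
          by_cases hv : ‖v - b‖ ∈ Ico δ (B / 2)
          · rw [indicator_of_mem (show v ∈ {v : ℂ | ‖v - b‖ ∈ Ico δ (B / 2)} from hv),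
              indicator_of_mem (show v - b ∈ {v : ℂ | ‖v‖ ∈ Ico δ (B / 2)} from hv)]
          · rw [indicator_of_notMem (show v ∉ {v : ℂ | ‖v - b‖ ∈ Ico δ (B / 2)} from hv),
              indicator_of_notMem (show v - b ∉ {v : ℂ | ‖v‖ ∈ Ico δ (B / 2)} from hv)]
      _ = ∫⁻ v : ℂ, {v : ℂ | ‖v‖ ∈ Ico δ (B / 2)}.indicator (fun v =>
            (ENNReal.ofReal ((‖v‖ ^ 2)⁻¹) + ENNReal.ofReal (6 / (B * ‖v‖)))) v :=
          lintegral_sub_right_eq_self _ b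
      _ = _ := lintegral_indicator hm _
      _ ≤ _ := le_rfl
  have hE3 : ∫⁻ v in {v : ℂ | ‖v‖ ∈ Ici (B / 2) ∧ B / 2 ≤ ‖v - b‖},
      ENNReal.ofReal (‖b / (v * (v - b))‖ ^ 2) ≤ ENNReal.ofReal (2 * π * 18) := by
    calc ∫⁻ v in {v : ℂ | ‖v‖ ∈ Ici (B / 2) ∧ B / 2 ≤ ‖v - b‖},
        ENNReal.ofReal (‖b / (v * (v - b))‖ ^ 2)
        ≤ ∫⁻ v in {v : ℂ | ‖v‖ ∈ Ici (B / 2) ∧ B / 2 ≤ ‖v - b‖},
          ENNReal.ofReal (9 * B ^ 2 / ‖v‖ ^ 4) := by
          refine setLIntegral_mono' hm3 fun v hv => ?_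
          rw [hnorm]
          apply ENNReal.ofReal_le_ofReal
          apply plane_far hB hv.1 hv.2
          have h3 := norm_add_le (v - b) b
          rw [sub_add_cancel] at h3
          exact h3
      _ ≤ ∫⁻ v in {v : ℂ | ‖v‖ ∈ Ici (B / 2)}, ENNReal.ofReal (9 * B ^ 2 / ‖v‖ ^ 4) :=
          lintegral_mono_set fun v hv => hv.1
      _ = ENNReal.ofReal (2 * π) * ∫⁻ r in Ioi (0 : ℝ) ∩ Ici (B / 2), ENNReal.ofReal r *
            ENNReal.ofReal (9 * B ^ 2 / r ^ 4) :=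
          plane_radial (fun r => ENNReal.ofReal (9 * B ^ 2 / r ^ 4)) (plane_meas3 B) _
            measurableSet_Ici
      _ ≤ ENNReal.ofReal (2 * π) * ENNReal.ofReal 18 :=
          mul_le_mul_right (plane_tail hB _ subset_rfl) _
      _ = ENNReal.ofReal (2 * π * 18) := by
          rw [← ENNReal.ofReal_mul (by positivity)]
  have hl0 : 0 ≤ Real.log (B / 2 / δ₀) := Real.log_nonneg (by rw [le_div_iff₀ h0]; linarith)
  have hl1 : 0 ≤ Real.log (B / 2 / δ) := Real.log_nonneg (by rw [le_div_iff₀ h1]; linarith)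
  calc ∫⁻ v in {v : ℂ | δ₀ ≤ ‖v‖ ∧ δ ≤ ‖v - b‖}, ENNReal.ofReal (‖b / (v * (v - b))‖ ^ 2)
      ≤ ∫⁻ v in ({v : ℂ | ‖v‖ ∈ Ico δ₀ (B / 2)} ∪ {v : ℂ | ‖v - b‖ ∈ Ico δ (B / 2)}) ∪
        {v : ℂ | ‖v‖ ∈ Ici (B / 2) ∧ B / 2 ≤ ‖v - b‖},
          ENNReal.ofReal (‖b / (v * (v - b))‖ ^ 2) := lintegral_mono_set hsub
    _ ≤ (∫⁻ v in {v : ℂ | ‖v‖ ∈ Ico δ₀ (B / 2)} ∪ {v : ℂ | ‖v - b‖ ∈ Ico δ (B / 2)},
          ENNReal.ofReal (‖b / (v * (v - b))‖ ^ 2)) +
        ∫⁻ v in {v : ℂ | ‖v‖ ∈ Ici (B / 2) ∧ B / 2 ≤ ‖v - b‖},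
          ENNReal.ofReal (‖b / (v * (v - b))‖ ^ 2) := lintegral_union_le _ _ _
    _ ≤ ((∫⁻ v in {v : ℂ | ‖v‖ ∈ Ico δ₀ (B / 2)}, ENNReal.ofReal (‖b / (v * (v - b))‖ ^ 2)) +
          ∫⁻ v in {v : ℂ | ‖v - b‖ ∈ Ico δ (B / 2)},
            ENNReal.ofReal (‖b / (v * (v - b))‖ ^ 2)) +
        ∫⁻ v in {v : ℂ | ‖v‖ ∈ Ici (B / 2) ∧ B / 2 ≤ ‖v - b‖},
          ENNReal.ofReal (‖b / (v * (v - b))‖ ^ 2) :=
        add_le_add (lintegral_union_le _ _ _) le_rfl
    _ ≤ (ENNReal.ofReal (2 * π * (Real.log (B / 2 / δ₀) + 3)) +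
          ENNReal.ofReal (2 * π * (Real.log (B / 2 / δ) + 3))) + ENNReal.ofReal (2 * π * 18) :=
        add_le_add (add_le_add hE1 hE2) hE3
    _ = ENNReal.ofReal (2 * π * (Real.log (B / 2 / δ₀) + 3) +
          2 * π * (Real.log (B / 2 / δ) + 3) + 2 * π * 18) := by
        rw [← ENNReal.ofReal_add (by positivity) (by positivity),
          ← ENNReal.ofReal_add (by positivity) (by positivity)]
    _ ≤ _ := by
        apply ENNReal.ofReal_le_ofReal
        have h2 : Real.log (B / 2 / δ₀) ≤ Real.log (B / δ₀) := by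
          apply Real.log_le_log (by positivity)
          apply div_le_div_of_nonneg_right _ h0.le
          linarith
        have h3 : Real.log (B / 2 / δ) ≤ Real.log (B / δ) := by
          apply Real.log_le_log (by positivity)
          apply div_le_div_of_nonneg_right _ h1.le
          linarith
        have h4 : 2 * π * (Real.log (B / 2 / δ₀) + 3) + 2 * π * (Real.log (B / 2 / δ) + 3) +
            2 * π * 18 = π * (2 * Real.log (B / 2 / δ₀) + 2 * Real.log (B / 2 / δ) + 48) := by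
          ring
        rw [h4]
        apply mul_le_mul_of_nonneg_left _ Real.pi_pos.le
        linarith

/-- an annulus -/
theorem annulus_bound {δ M : ℝ} (h0 : 0 < δ) (h1 : δ ≤ M) :
    ∫⁻ v in {v : ℂ | δ ≤ ‖v‖ ∧ ‖v‖ ≤ M}, ENNReal.ofReal (‖1 / v‖ ^ 2) ≤
      ENNReal.ofReal (2 * π * Real.log (M / δ)) := by
  have hset : {v : ℂ | δ ≤ ‖v‖ ∧ ‖v‖ ≤ M} = {v : ℂ | ‖v‖ ∈ Icc δ M} := rfl
  have hfun : (fun v : ℂ => ENNReal.ofReal (‖1 / v‖ ^ 2)) =
      fun v : ℂ => ENNReal.ofReal ((‖v‖ ^ 2)⁻¹) := by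
    funext v
    congr 1
    rw [norm_div, norm_one, one_div, inv_pow]
  rw [hset, hfun, plane_radial (fun r => ENNReal.ofReal ((r ^ 2)⁻¹)) plane_meas1 (Icc δ M)
    measurableSet_Icc]
  calc ENNReal.ofReal (2 * π) * _ ≤ ENNReal.ofReal (2 * π) * ENNReal.ofReal (Real.log (M / δ)) :=
        mul_le_mul_right (plane_log h0 h1 _ subset_rfl) _
    _ = ENNReal.ofReal (2 * π * Real.log (M / δ)) := by
        rw [← ENNReal.ofReal_mul (by positivity)]

end Pool.Agent.Helper21.IM
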