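import Pool.Agent.Helper21.IM.CoverC
import Pool.Agent.Helper21.IM.Plane

/-!
# IM-AK: the area inequality for the kernel with the poles `z` and `0`

Let `b = F z`.  For `w` with `ε ≤ ‖w‖ < 2 ρ - 1` the integrand is `‖F' w‖² ‖b / (v (v - b))‖²` with
`v = F w` (`F w ≠ 0`, `F w ≠ b` by injectivity).  Use `area_change` with `U = ball 0 1`.
The image of the annulus is contained in `{v | δ₀ ≤ ‖v‖ ∧ δ ≤ ‖v - b‖}`, `δ₀ = ε / 80`,
`δ = (1 - ρ) ‖F' z‖ / 80`: by `cover_const` `ball 0 (ε/40) ⊆ F '' ball 0 ε` and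
`ball b ((1-ρ) ‖F' z‖ / 40) ⊆ F '' ball z (1 - ρ)`, and `w ∉ ball 0 ε`, `‖w - z‖ > 1 - ρ`.
Moreover `‖b‖ ≥ ε/40` (as `z ∉ ball 0 ε`) and `‖b‖ ≥ (1-ρ) ‖F' z‖ / 40` (as `0 ∉ ball z (1 - ρ)`), so
`δ₀ ≤ ‖b‖/2`, `δ ≤ ‖b‖/2`; apply `plane_bound`.  The first claim: the two logarithms in `plane_bound`
are nonnegative.
-/

set_option autoImplicit false

namespace Pool.Agent.Helper21.IM

open Complex Metric Set Real Finset MeasureTheory

private theorem AreaK_near0 {F : ℂ → ℂ} (hF : Sch F) {ε : ℝ} (h0 : 0 < ε) (h1 : ε ≤ 1 / 8) {w : ℂ}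
    (hw : w ∈ ball (0 : ℂ) 1) (hw' : w ∉ ball (0 : ℂ) ε) : ε / 40 ≤ ‖F w‖ := by
  by_contra hcon
  push Not at hcon
  have hc := cover_const hF.an hF.inj (z := 0) (mem_ball_self one_pos) (r := ε) h0
    (by rw [norm_zero]; linarith)
  rw [hF.z0, hF.d0, norm_one, mul_one] at hc
  obtain ⟨w', hw1, hw2⟩ := hc (by rw [mem_ball, dist_zero_right]; exact hcon)
  have hw3 : w' ∈ ball (0 : ℂ) 1 := ball_subset_ball (by linarith) hw1
  have := hF.inj hw3 hw hw2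
  rw [this] at hw1
  exact hw' hw1

private theorem AreaK_nearz {F : ℂ → ℂ} (hF : Sch F) {z w : ℂ} (hz : z ∈ ball (0 : ℂ) 1)
    (hw : w ∈ ball (0 : ℂ) 1) (hw' : w ∉ ball z (1 - ‖z‖)) :
    (1 - ‖z‖) / 40 * ‖deriv F z‖ ≤ ‖F w - F z‖ := by
  by_contra hcon
  push Not at hcon
  have hz1 : ‖z‖ < 1 := by rwa [mem_ball, dist_zero_right] at hz
  have hc := cover_const hF.an hF.inj hz (r := 1 - ‖z‖) (by linarith) le_rfl
  obtain ⟨w', hw1, hw2⟩ := hc (by rw [mem_ball, dist_eq_norm]; exact hcon)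
  have hw3 : w' ∈ ball (0 : ℂ) 1 := by
    rw [mem_ball, dist_eq_norm] at hw1
    rw [mem_ball, dist_zero_right]
    have h2 : ‖w'‖ ≤ ‖w' - z‖ + ‖z‖ := by
      have := norm_add_le (w' - z) z
      rwa [sub_add_cancel] at this
    linarith
  have := hF.inj hw3 hw hw2
  rw [this] at hw1
  exact hw' hw1

theorem area_k : ∃ C : ℝ, ∀ F : ℂ → ℂ, Sch F → ∀ ρ ∈ Ico (3 / 4 : ℝ) 1, ∀ ε ∈ Ioc (0 : ℝ) (1 / 8),
    ∀ z : ℂ, ‖z‖ = ρ →
    0 ≤ 2 * Real.log (1 / ε) + 2 * Real.log (1 / (1 - ρ)) +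
        4 * Real.log ‖F z‖ - 2 * Real.log ‖deriv F z‖ + C ∧
    ∫⁻ w in ball (0 : ℂ) (2 * ρ - 1) \ ball 0 ε,
        ENNReal.ofReal (‖deriv F w / (F w - F z) - deriv F w / F w‖ ^ 2) ≤
      ENNReal.ofReal (π * (2 * Real.log (1 / ε) + 2 * Real.log (1 / (1 - ρ)) +
        4 * Real.log ‖F z‖ - 2 * Real.log ‖deriv F z‖ + C)) := by
  obtain ⟨C0, hC0⟩ := plane_bound
  refine ⟨|C0| + 4 * Real.log 80, fun F hF ρ hρ ε hε z hz => ?_⟩
  have hρ1 : ρ < 1 := hρ.2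
  have hρ0 : 3 / 4 ≤ ρ := hρ.1
  have hε0 : 0 < ε := hε.1
  have hε1 : ε ≤ 1 / 8 := hε.2
  have hzb : z ∈ ball (0 : ℂ) 1 := by rw [mem_ball, dist_zero_right, hz]; exact hρ1
  have hdz : deriv F z ≠ 0 := deriv_ne isOpen_ball hF.an hF.inj hzb
  have hdz' : 0 < ‖deriv F z‖ := norm_pos_iff.2 hdz
  have hb0 : ε / 40 ≤ ‖F z‖ := by
    refine AreaK_near0 hF hε0 hε1 hzb ?_
    rw [mem_ball, dist_zero_right, hz]
    linarith
  have hb1 : (1 - ρ) / 40 * ‖deriv F z‖ ≤ ‖F z‖ := by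
    have h := AreaK_nearz hF hzb (mem_ball_self one_pos : (0 : ℂ) ∈ ball (0 : ℂ) 1) (by
      rw [mem_ball, dist_eq_norm, zero_sub, norm_neg, hz]
      linarith)
    rw [hF.z0, zero_sub, norm_neg, hz] at h
    exact h
  have hbpos : 0 < ‖F z‖ := lt_of_lt_of_le (by positivity) hb0
  set δ₀ : ℝ := ε / 80 with hδ₀
  set δ : ℝ := (1 - ρ) / 80 * ‖deriv F z‖ with hδ
  have h1ρ : 0 < 1 - ρ := by linarith
  have hδ₀pos : 0 < δ₀ := by positivity
  have hδpos : 0 < δ := by positivity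
  have hδ₀b : δ₀ ≤ ‖F z‖ / 2 := by rw [hδ₀]; linarith
  have hδb : δ ≤ ‖F z‖ / 2 := by
    have : δ = ((1 - ρ) / 40 * ‖deriv F z‖) / 2 := by rw [hδ]; ring
    rw [this]
    linarith
  have hlog0 : Real.log (‖F z‖ / δ₀) = Real.log ‖F z‖ + Real.log (1 / ε) + Real.log 80 := by
    rw [hδ₀, show ‖F z‖ / (ε / 80) = ‖F z‖ * (1 / ε) * 80 by field_simp,
      Real.log_mul (by positivity) (by norm_num), Real.log_mul hbpos.ne' (by positivity)]
  have hlog1 : Real.log (‖F z‖ / δ) =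
      Real.log ‖F z‖ + Real.log (1 / (1 - ρ)) - Real.log ‖deriv F z‖ + Real.log 80 := by
    rw [hδ, show ‖F z‖ / ((1 - ρ) / 80 * ‖deriv F z‖) =
        ‖F z‖ * (1 / (1 - ρ)) / ‖deriv F z‖ * 80 by field_simp,
      Real.log_mul (by positivity) (by norm_num), Real.log_div (by positivity) hdz'.ne',
      Real.log_mul hbpos.ne' (by positivity)]
  have hn0 : 0 ≤ Real.log (‖F z‖ / δ₀) := by
    apply Real.log_nonneg
    rw [le_div_iff₀ hδ₀pos]
    linarith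
  have hn1 : 0 ≤ Real.log (‖F z‖ / δ) := by
    apply Real.log_nonneg
    rw [le_div_iff₀ hδpos]
    linarith
  have hexp : 2 * Real.log (1 / ε) + 2 * Real.log (1 / (1 - ρ)) +
        4 * Real.log ‖F z‖ - 2 * Real.log ‖deriv F z‖ + (|C0| + 4 * Real.log 80) =
      2 * Real.log (‖F z‖ / δ₀) + 2 * Real.log (‖F z‖ / δ) + |C0| := by
    rw [hlog0, hlog1]
    ring
  rw [hexp]
  refine ⟨by positivity, ?_⟩
  have hA : MeasurableSet (ball (0 : ℂ) (2 * ρ - 1) \ ball 0 ε) :=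
    measurableSet_ball.diff measurableSet_ball
  have hAU : ball (0 : ℂ) (2 * ρ - 1) \ ball 0 ε ⊆ ball (0 : ℂ) 1 := by
    intro w hw
    exact ball_subset_ball (by linarith) hw.1
  have hfar : ∀ w ∈ ball (0 : ℂ) (2 * ρ - 1) \ ball 0 ε,
      δ₀ ≤ ‖F w‖ ∧ δ ≤ ‖F w - F z‖ := by
    intro w hw
    have hwU := hAU hw
    have e1 := AreaK_near0 hF hε0 hε1 hwU hw.2
    have e2 := AreaK_nearz hF hzb hwU (by
      intro hcon
      have h1 := hw.1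
      rw [mem_ball, dist_zero_right] at h1
      rw [mem_ball, dist_eq_norm, hz] at hcon
      have h2 : ‖z‖ ≤ ‖w‖ + ‖w - z‖ := by
        have := norm_sub_le w (w - z)
        rwa [sub_sub_cancel] at this
      rw [hz] at h2
      linarith)
    rw [hz] at e2
    refine ⟨by rw [hδ₀]; linarith, ?_⟩
    have : δ = ((1 - ρ) / 40 * ‖deriv F z‖) / 2 := by rw [hδ]; ring
    rw [this]
    have h3 : 0 ≤ (1 - ρ) / 40 * ‖deriv F z‖ := by positivity
    linarith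
  have hint : ∫⁻ w in ball (0 : ℂ) (2 * ρ - 1) \ ball 0 ε,
        ENNReal.ofReal (‖deriv F w / (F w - F z) - deriv F w / F w‖ ^ 2) =
      ∫⁻ w in ball (0 : ℂ) (2 * ρ - 1) \ ball 0 ε, ENNReal.ofReal (‖deriv F w‖ ^ 2) *
        ENNReal.ofReal (‖F z / (F w * (F w - F z))‖ ^ 2) := by
    refine setLIntegral_congr_fun hA ?_
    intro w hw
    obtain ⟨e1, e2⟩ := hfar w hw
    have n1 : F w ≠ 0 := norm_pos_iff.1 (lt_of_lt_of_le hδ₀pos e1)
    have n2 : F w - F z ≠ 0 := norm_pos_iff.1 (lt_of_lt_of_le hδpos e2)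
    change ENNReal.ofReal (‖deriv F w / (F w - F z) - deriv F w / F w‖ ^ 2) =
      ENNReal.ofReal (‖deriv F w‖ ^ 2) * ENNReal.ofReal (‖F z / (F w * (F w - F z))‖ ^ 2)
    have e3 : deriv F w / (F w - F z) - deriv F w / F w =
        deriv F w * (F z / (F w * (F w - F z))) := by
      field_simp
      ring
    rw [e3, norm_mul, mul_pow, ENNReal.ofReal_mul (by positivity)]
  rw [hint, area_change isOpen_ball hF.an hF.inj hA hAU
    (fun v => ENNReal.ofReal (‖F z / (v * (v - F z))‖ ^ 2))]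
  have hsub : F '' (ball (0 : ℂ) (2 * ρ - 1) \ ball 0 ε) ⊆
      {v : ℂ | δ₀ ≤ ‖v‖ ∧ δ ≤ ‖v - F z‖} := by
    rintro v ⟨w, hw, rfl⟩
    exact hfar w hw
  refine (lintegral_mono_set hsub).trans ((hC0 (F z) δ₀ δ hδ₀pos hδ₀b hδpos hδb).trans ?_)
  apply ENNReal.ofReal_le_ofReal
  apply mul_le_mul_of_nonneg_left _ Real.pi_pos.le
  have := le_abs_self C0
  linarith

/-- the area inequality for `F' / F` -/
theorem area_0 : ∃ C : ℝ, ∀ F : ℂ → ℂ, Sch F → ∀ r ∈ Ico (1 / 2 : ℝ) 1, ∀ ε ∈ Ioc (0 : ℝ) (1 / 8),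
    ∫⁻ w in ball (0 : ℂ) r \ ball 0 ε, ENNReal.ofReal (‖deriv F w / F w‖ ^ 2) ≤
      ENNReal.ofReal (π * (2 * Real.log (1 / ε) + 14 * Real.log (1 / (1 - r)) + C)) := by
  refine ⟨2 * Real.log 40, fun F hF r hr ε hε => ?_⟩
  have hr1 : r < 1 := hr.2
  have hr0 : 1 / 2 ≤ r := hr.1
  have hε0 : 0 < ε := hε.1
  have hε1 : ε ≤ 1 / 8 := hε.2
  have h1r : 0 < 1 - r := by linarith
  have hA : MeasurableSet (ball (0 : ℂ) r \ ball 0 ε) :=
    measurableSet_ball.diff measurableSet_ball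
  have hAU : ball (0 : ℂ) r \ ball 0 ε ⊆ ball (0 : ℂ) 1 := by
    intro w hw
    exact ball_subset_ball (by linarith) hw.1
  have hinv : 1 ≤ 1 / (1 - r) := by
    rw [le_div_iff₀ h1r]
    linarith
  have hM : 1 ≤ (1 / (1 - r)) ^ 7 := one_le_pow₀ hinv
  have hfar : ∀ w ∈ ball (0 : ℂ) r \ ball 0 ε, ε / 40 ≤ ‖F w‖ ∧ ‖F w‖ ≤ (1 / (1 - r)) ^ 7 := by
    intro w hw
    refine ⟨AreaK_near0 hF hε0 hε1 (hAU hw) hw.2, ?_⟩
    refine (growth hF (hAU hw)).1.trans ?_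
    have h1 := hw.1
    rw [mem_ball, dist_zero_right] at h1
    exact pow_le_pow_left₀ (one_div_nonneg.2 (by linarith))
      (one_div_le_one_div_of_le h1r (by linarith)) 7
  have hint : ∫⁻ w in ball (0 : ℂ) r \ ball 0 ε, ENNReal.ofReal (‖deriv F w / F w‖ ^ 2) =
      ∫⁻ w in ball (0 : ℂ) r \ ball 0 ε, ENNReal.ofReal (‖deriv F w‖ ^ 2) *
        ENNReal.ofReal (‖1 / F w‖ ^ 2) := by
    refine setLIntegral_congr_fun hA ?_
    intro w _
    change ENNReal.ofReal (‖deriv F w / F w‖ ^ 2) =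
      ENNReal.ofReal (‖deriv F w‖ ^ 2) * ENNReal.ofReal (‖1 / F w‖ ^ 2)
    rw [show deriv F w / F w = deriv F w * (1 / F w) by ring, norm_mul, mul_pow,
      ENNReal.ofReal_mul (by positivity)]
  rw [hint, area_change isOpen_ball hF.an hF.inj hA hAU (fun v => ENNReal.ofReal (‖1 / v‖ ^ 2))]
  have hsub : F '' (ball (0 : ℂ) r \ ball 0 ε) ⊆
      {v : ℂ | ε / 40 ≤ ‖v‖ ∧ ‖v‖ ≤ (1 / (1 - r)) ^ 7} := by
    rintro v ⟨w, hw, rfl⟩
    exact hfar w hw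
  refine (lintegral_mono_set hsub).trans
    ((annulus_bound (by positivity) (by linarith)).trans (le_of_eq ?_))
  congr 1
  rw [show (1 / (1 - r)) ^ 7 / (ε / 40) = (1 / (1 - r)) ^ 7 * (1 / ε) * 40 by field_simp,
    Real.log_mul (by positivity) (by norm_num), Real.log_mul (by positivity) (by positivity),
    Real.log_pow]
  push_cast
  ring

end Pool.Agent.Helper21.IM
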