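import Pool.Agent.Helper21.IM.Defs
import Pool.Agent.Helper45.Slit.Univ

/-!
# IM-DN: an injective holomorphic function has a derivative without zeros

Suppose `deriv f z = 0`.  `f` is not constant near `z`, so `f w = f z + (w - z)^n * h w` near `z`
with `h` analytic, `h z ≠ 0` and `n ≥ 2`.  With an analytic `n`-th root `k` of `h` near `z` the
function `ψ w = (w - z) * k w` is a local homeomorphism, so for small `δ ≠ 0` there are two
different points with `ψ w₁ = δ`, `ψ w₂ = δ * exp (2 π i / n)`, and `f w₁ = f w₂`.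
This is `Pool.Agent.Helper45.Slit.deriv_ne_zero_of_injOn`.
-/

set_option autoImplicit false

namespace Pool.Agent.Helper21.IM

open Complex Metric Set Real Finset

theorem deriv_ne {f : ℂ → ℂ} {U : Set ℂ} (hU : IsOpen U) (hf : DifferentiableOn ℂ f U)
    (hi : InjOn f U) {z : ℂ} (hz : z ∈ U) : deriv f z ≠ 0 :=
  Pool.Agent.Helper45.Slit.deriv_ne_zero_of_injOn (hU.mem_nhds hz)
    (hf.analyticAt (hU.mem_nhds hz)) hi

end Pool.Agent.Helper21.IM
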