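import Pool.Agent.Helper21.IM.AreaK
import Pool.Agent.Helper21.IM.DerivNe

/-!
# IM-AA: the area inequality averaged over the circle `‖z‖ = ρ`

`circleAverage (fun z => Real.log ‖F z‖) 0 ρ = Real.log ρ ≤ 0`: `F z = z φ z`, `φ` analytic without
zeros, `φ 0 = 1` (`dslope F 0`), `AnalyticOnNhd.circleAverage_log_norm_of_ne_zero`.
`circleAverage (fun z => Real.log ‖deriv F z‖) 0 ρ = 0` (`deriv_ne`, `deriv F 0 = 1`).
Then integrate `area_k` (its right side is nonnegative) over the circle and exchange the integrals (Tonelli; the integrand is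
continuous in `(z, w)` for `‖z‖ = ρ`, `ε ≤ ‖w‖ ≤ 2 ρ - 1`).
-/

set_option autoImplicit false

namespace Pool.Agent.Helper21.IM

open Complex Metric Set Real Finset MeasureTheory

private theorem avgArea_analytic {F : ℂ → ℂ} (hF : Sch F) {ρ : ℝ} (h0 : 0 < ρ) (h1 : ρ < 1) :
    closedBall (0 : ℂ) |ρ| ⊆ ball 0 1 := by
  rw [abs_of_pos h0]
  exact closedBall_subset_ball h1

private theorem avgArea_ci {g : ℂ → ℂ} {ρ : ℝ} (h0 : 0 < ρ) (h1 : ρ < 1)
    (hg : ContinuousOn g (ball 0 1)) (hne : ∀ z ∈ sphere (0 : ℂ) ρ, g z ≠ 0) :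
    ContinuousOn (fun z => Real.log ‖g z‖) (sphere 0 ρ) := by
  intro z hz
  have h2 : z ∈ ball (0 : ℂ) 1 := by
    rw [mem_ball, mem_sphere.1 hz]
    exact h1
  have h3 : ContinuousWithinAt g (sphere 0 ρ) z := by
    refine (hg z h2).mono fun y hy => ?_
    rw [mem_ball, mem_sphere.1 hy]
    exact h1
  exact h3.norm.log (norm_ne_zero_iff.2 (hne z hz))

private theorem avgArea_F_ne {F : ℂ → ℂ} (hF : Sch F) {z : ℂ} (hz : z ∈ ball (0 : ℂ) 1)
    (h : z ≠ 0) : F z ≠ 0 := by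
  intro h2
  apply h
  apply hF.inj hz (mem_ball_self one_pos)
  rw [h2, hF.z0]

theorem log_avg {F : ℂ → ℂ} (hF : Sch F) {ρ : ℝ} (h0 : 0 < ρ) (h1 : ρ < 1) :
    circleAverage (fun z => Real.log ‖F z‖) 0 ρ = Real.log ρ ∧
      circleAverage (fun z => Real.log ‖deriv F z‖) 0 ρ = 0 := by
  have hball := avgArea_analytic hF h0 h1
  have hρ : |ρ| = ρ := abs_of_pos h0
  constructor
  · have hg : DifferentiableOn ℂ (dslope F 0) (ball 0 1) :=
      (Complex.differentiableOn_dslope (isOpen_ball.mem_nhds (mem_ball_self one_pos))).2 hF.an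
    have hga : AnalyticOnNhd ℂ (dslope F 0) (closedBall 0 |ρ|) :=
      (hg.analyticOnNhd isOpen_ball).mono hball
    have hne : ∀ u ∈ ball (0 : ℂ) 1, dslope F 0 u ≠ 0 := by
      intro u hu
      by_cases h2 : u = 0
      · rw [h2, dslope_same, hF.d0]
        exact one_ne_zero
      · rw [dslope_of_ne _ h2, slope_def_module, hF.z0, sub_zero, sub_zero]
        exact smul_ne_zero (inv_ne_zero h2) (avgArea_F_ne hF hu h2)
    have h2 := hga.circleAverage_log_norm_of_ne_zero (fun u hu => hne u (hball hu))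
    rw [dslope_same, hF.d0, norm_one, Real.log_one] at h2
    have h3 : circleAverage (fun z => Real.log ‖F z‖) 0 ρ =
        circleAverage (fun z => Real.log ρ + Real.log ‖dslope F 0 z‖) 0 ρ := by
      apply circleAverage_congr_sphere
      intro z hz
      rw [hρ] at hz
      have hz1 : ‖z‖ = ρ := mem_sphere_zero_iff_norm.1 hz
      have hzb : z ∈ ball (0 : ℂ) 1 := by
        rw [mem_ball_zero_iff, hz1]
        exact h1
      have h4 := sub_smul_dslope F 0 z
      rw [sub_zero, hF.z0, sub_zero, smul_eq_mul] at h4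
      change Real.log ‖F z‖ = Real.log ρ + Real.log ‖dslope F 0 z‖
      rw [← h4, norm_mul, hz1, Real.log_mul h0.ne' (norm_ne_zero_iff.2 (hne z hzb))]
    have h5 : CircleIntegrable (fun z => Real.log ‖dslope F 0 z‖) 0 ρ := by
      apply ContinuousOn.circleIntegrable h0.le
      exact avgArea_ci h0 h1 hg.continuousOn (fun z hz => hne z (hball (by
        rw [hρ]
        exact sphere_subset_closedBall hz)))
    rw [h3, circleAverage_fun_add (circleIntegrable_const _ _ _) h5, circleAverage_const, h2,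
      add_zero]
  · have hd : DifferentiableOn ℂ (deriv F) (ball 0 1) := hF.an.deriv isOpen_ball
    have hda : AnalyticOnNhd ℂ (deriv F) (closedBall 0 |ρ|) :=
      (hd.analyticOnNhd isOpen_ball).mono hball
    have h2 := hda.circleAverage_log_norm_of_ne_zero
      (fun u hu => deriv_ne isOpen_ball hF.an hF.inj (hball hu))
    rw [hF.d0, norm_one, Real.log_one] at h2
    exact h2

private theorem avgArea_circle {f : ℂ → ℝ} {ρ : ℝ} (h0 : 0 < ρ)
    (hf : ContinuousOn f (sphere 0 ρ)) (hn : ∀ z ∈ sphere (0 : ℂ) ρ, 0 ≤ f z) :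
    ENNReal.ofReal (circleAverage f 0 ρ) = ENNReal.ofReal (2 * π)⁻¹ *
      ∫⁻ θ in Ioc (0 : ℝ) (2 * π), ENNReal.ofReal (f (circleMap 0 ρ θ)) := by
  have hmem : ∀ θ : ℝ, circleMap (0 : ℂ) ρ θ ∈ sphere (0 : ℂ) ρ := fun θ =>
    circleMap_mem_sphere 0 h0.le θ
  have hc : Continuous fun θ : ℝ => f (circleMap 0 ρ θ) :=
    hf.comp_continuous (continuous_circleMap 0 ρ) hmem
  have hpi : (0 : ℝ) ≤ 2 * π := by positivity
  rw [circleAverage_def, smul_eq_mul, ENNReal.ofReal_mul (by positivity),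
    intervalIntegral.integral_of_le hpi, ofReal_integral_eq_lintegral_ofReal]
  · exact (hc.integrableOn_Icc (a := 0) (b := 2 * π)).mono_set Ioc_subset_Icc_self
  · exact ae_of_all _ fun θ => hn _ (hmem θ)

theorem avg_area : ∃ C : ℝ, ∀ F : ℂ → ℂ, Sch F → ∀ ρ ∈ Ico (3 / 4 : ℝ) 1,
    ∀ ε ∈ Ioc (0 : ℝ) (1 / 8),
    ∫⁻ w in ball (0 : ℂ) (2 * ρ - 1) \ ball 0 ε,
        ENNReal.ofReal (circleAverage (fun z => ‖deriv F w / (F w - F z) - deriv F w / F w‖ ^ 2) 0 ρ) ≤
      ENNReal.ofReal (π * (2 * Real.log (1 / ε) + 2 * Real.log (1 / (1 - ρ)) + C)) := by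
  obtain ⟨C, hC⟩ := area_k
  refine ⟨C, ?_⟩
  intro F hF ρ hρ ε hε
  have hρ0 : 0 < ρ := by linarith [hρ.1]
  have hρ1 : ρ < 1 := hρ.2
  set A : Set ℂ := ball (0 : ℂ) (2 * ρ - 1) \ ball 0 ε with hA
  have hAm : MeasurableSet A := measurableSet_ball.diff measurableSet_ball
  have hAw : ∀ w ∈ A, w ∈ ball (0 : ℂ) 1 ∧ w ≠ 0 ∧ ‖w‖ < ρ := by
    intro w hw
    have h1 : ‖w‖ < 2 * ρ - 1 := mem_ball_zero_iff.1 hw.1
    have h2 : ε ≤ ‖w‖ := by
      by_contra h3
      exact hw.2 (mem_ball_zero_iff.2 (not_le.1 h3))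
    refine ⟨mem_ball_zero_iff.2 (by linarith), ?_, by linarith⟩
    intro h3
    rw [h3, norm_zero] at h2
    linarith [hε.1]
  have hS : ∀ z ∈ sphere (0 : ℂ) ρ, z ∈ ball (0 : ℂ) 1 ∧ z ≠ 0 := by
    intro z hz
    have h1 : ‖z‖ = ρ := mem_sphere_zero_iff_norm.1 hz
    refine ⟨mem_ball_zero_iff.2 (by linarith), ?_⟩
    intro h2
    rw [h2, norm_zero] at h1
    linarith
  have hne : ∀ w ∈ A, ∀ z ∈ sphere (0 : ℂ) ρ, F w - F z ≠ 0 := by
    intro w hw z hz h
    have h1 := hF.inj (hAw w hw).1 (hS z hz).1 (sub_eq_zero.1 h)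
    have h2 : ‖z‖ = ρ := mem_sphere_zero_iff_norm.1 hz
    have h3 := (hAw w hw).2.2
    rw [h1, h2] at h3
    exact lt_irrefl _ h3
  have hFc : ContinuousOn F (ball 0 1) := hF.an.continuousOn
  have hdc : ContinuousOn (deriv F) (ball 0 1) := (hF.an.deriv isOpen_ball).continuousOn
  -- joint continuity
  have hmem : ∀ θ : ℝ, circleMap (0 : ℂ) ρ θ ∈ sphere (0 : ℂ) ρ := fun θ =>
    circleMap_mem_sphere 0 hρ0.le θ
  have hK : ContinuousOn (fun p : ℂ × ℝ => ‖deriv F p.1 / (F p.1 - F (circleMap 0 ρ p.2)) -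
      deriv F p.1 / F p.1‖ ^ 2) (A ×ˢ univ) := by
    have c1 : ContinuousOn (fun p : ℂ × ℝ => F p.1) (A ×ˢ univ) :=
      hFc.comp continuousOn_fst fun p hp => (hAw p.1 hp.1).1
    have c2 : ContinuousOn (fun p : ℂ × ℝ => deriv F p.1) (A ×ˢ univ) :=
      hdc.comp continuousOn_fst fun p hp => (hAw p.1 hp.1).1
    have c3 : ContinuousOn (fun p : ℂ × ℝ => F (circleMap 0 ρ p.2)) (A ×ˢ univ) :=
      hFc.comp ((continuous_circleMap 0 ρ).comp continuous_snd).continuousOn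
        fun p _ => (hS _ (hmem p.2)).1
    exact ((c2.div (c1.sub c3) fun p hp => hne p.1 hp.1 _ (hmem p.2)).sub
      (c2.div c1 fun p hp => avgArea_F_ne hF (hAw p.1 hp.1).1 (hAw p.1 hp.1).2.1)).norm.pow 2
  have hmeas : AEMeasurable (Function.uncurry fun (w : ℂ) (θ : ℝ) =>
      ENNReal.ofReal (‖deriv F w / (F w - F (circleMap 0 ρ θ)) - deriv F w / F w‖ ^ 2))
      ((volume.restrict A).prod (volume.restrict (Ioc (0 : ℝ) (2 * π)))) := by
    rw [Measure.prod_restrict]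
    have h1 : AEMeasurable (fun p : ℂ × ℝ => ‖deriv F p.1 / (F p.1 - F (circleMap 0 ρ p.2)) -
        deriv F p.1 / F p.1‖ ^ 2)
        (((volume : Measure ℂ).prod (volume : Measure ℝ)).restrict
          (A ×ˢ Ioc (0 : ℝ) (2 * π))) :=
      (hK.mono (prod_mono_right (subset_univ _))).aemeasurable (hAm.prod measurableSet_Ioc)
    exact h1.ennreal_ofReal
  have hleft : ∫⁻ w in A, ENNReal.ofReal
      (circleAverage (fun z => ‖deriv F w / (F w - F z) - deriv F w / F w‖ ^ 2) 0 ρ) =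
      ∫⁻ w in A, (ENNReal.ofReal (2 * π)⁻¹ * ∫⁻ θ in Ioc (0 : ℝ) (2 * π),
        ENNReal.ofReal (‖deriv F w / (F w - F (circleMap 0 ρ θ)) - deriv F w / F w‖ ^ 2)) := by
    refine setLIntegral_congr_fun hAm fun w hw => ?_
    refine avgArea_circle hρ0 ?_ fun z _ => by positivity
    have c3 : ContinuousOn F (sphere 0 ρ) := hFc.mono fun z hz => (hS z hz).1
    exact (((continuousOn_const (c := deriv F w)).div ((continuousOn_const (c := F w)).sub c3)
      fun z hz => hne w hw z hz).sub continuousOn_const).norm.pow 2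
  rw [hleft, lintegral_const_mul' _ _ ENNReal.ofReal_ne_top, lintegral_lintegral_swap hmeas]
  set Ψ : ℂ → ℝ := fun z => π * (2 * Real.log (1 / ε) + 2 * Real.log (1 / (1 - ρ)) +
        4 * Real.log ‖F z‖ - 2 * Real.log ‖deriv F z‖ + C) with hΨ
  have hΨ0 : ∀ z ∈ sphere (0 : ℂ) ρ, 0 ≤ Ψ z := by
    intro z hz
    have h1 := (hC F hF ρ hρ ε hε z (mem_sphere_zero_iff_norm.1 hz)).1
    exact mul_nonneg Real.pi_pos.le h1
  have hcF : ContinuousOn (fun z => Real.log ‖F z‖) (sphere 0 ρ) :=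
    avgArea_ci hρ0 hρ1 hFc fun z hz => avgArea_F_ne hF (hS z hz).1 (hS z hz).2
  have hcd : ContinuousOn (fun z => Real.log ‖deriv F z‖) (sphere 0 ρ) :=
    avgArea_ci hρ0 hρ1 hdc fun z hz => deriv_ne isOpen_ball hF.an hF.inj (hS z hz).1
  have hΨc : ContinuousOn Ψ (sphere 0 ρ) :=
    continuousOn_const.mul (((continuousOn_const.add (continuousOn_const.mul hcF)).sub
      (continuousOn_const.mul hcd)).add continuousOn_const)
  have hup : ENNReal.ofReal (2 * π)⁻¹ * ∫⁻ θ in Ioc (0 : ℝ) (2 * π), ∫⁻ w in A,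
      ENNReal.ofReal (‖deriv F w / (F w - F (circleMap 0 ρ θ)) - deriv F w / F w‖ ^ 2) ≤
      ENNReal.ofReal (2 * π)⁻¹ * ∫⁻ θ in Ioc (0 : ℝ) (2 * π),
        ENNReal.ofReal (Ψ (circleMap 0 ρ θ)) := by
    refine mul_le_mul_right (lintegral_mono fun θ => ?_) _
    exact (hC F hF ρ hρ ε hε _ (mem_sphere_zero_iff_norm.1 (hmem θ))).2
  refine hup.trans ?_
  rw [← avgArea_circle hρ0 hΨc hΨ0]
  apply ENNReal.ofReal_le_ofReal
  have i1 : CircleIntegrable (fun z => Real.log ‖F z‖) 0 ρ := hcF.circleIntegrable hρ0.le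
  have i2 : CircleIntegrable (fun z => Real.log ‖deriv F z‖) 0 ρ := hcd.circleIntegrable hρ0.le
  obtain ⟨l1, l2⟩ := log_avg hF hρ0 hρ1
  have h3 : circleAverage Ψ 0 ρ = π * (2 * Real.log (1 / ε) + 2 * Real.log (1 / (1 - ρ)) +
      4 * Real.log ρ - 2 * 0 + C) := by
    have e1 : Ψ = fun z => (π * (2 * Real.log (1 / ε) + 2 * Real.log (1 / (1 - ρ)) + C)) +
        ((4 * π) • Real.log ‖F z‖ + (-(2 * π)) • Real.log ‖deriv F z‖) := by
      funext z
      simp only [hΨ, smul_eq_mul]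
      ring
    have m1 : ContinuousOn (fun z => (4 * π) • Real.log ‖F z‖) (sphere 0 ρ) :=
      ContinuousOn.const_smul hcF (4 * π)
    have m2 : ContinuousOn (fun z => (-(2 * π)) • Real.log ‖deriv F z‖) (sphere 0 ρ) :=
      ContinuousOn.const_smul hcd (-(2 * π))
    have j1 : CircleIntegrable (fun z => (4 * π) • Real.log ‖F z‖) 0 ρ :=
      m1.circleIntegrable hρ0.le
    have j2 : CircleIntegrable (fun z => (-(2 * π)) • Real.log ‖deriv F z‖) 0 ρ :=
      m2.circleIntegrable hρ0.le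
    have j3 : CircleIntegrable (fun z => (4 * π) • Real.log ‖F z‖ +
        (-(2 * π)) • Real.log ‖deriv F z‖) 0 ρ :=
      ContinuousOn.circleIntegrable hρ0.le (m1.add m2)
    rw [e1, circleAverage_fun_add (circleIntegrable_const _ _ _) j3, circleAverage_const,
      circleAverage_fun_add j1 j2, circleAverage_fun_smul, circleAverage_fun_smul, l1, l2,
      smul_eq_mul, smul_eq_mul]
    ring
  rw [h3]
  have h4 : Real.log ρ ≤ 0 := Real.log_nonpos hρ0.le hρ1.le
  apply mul_le_mul_of_nonneg_left _ Real.pi_pos.le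
  linarith

end Pool.Agent.Helper21.IM
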