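import Pool.Agent.Helper21.IM.Defs

/-!
# IM-BE: Bessel inequality for the discrete Legendre polynomials of degree 0, 2, 4

`∑_{k ≤ m} p2 m k = 0`, `∑ p4 m k = 0`, `∑ p2 m k * p4 m k = 0`,
`∑ (p2 m k)² = (m+3)(m+2)(m+1)m(m-1)/5 = n2 m`,
`∑ (p4 m k)² = (m+5)(m+4)(m+3)(m+2)(m+1)m(m-1)(m-2)(m-3)/9 = n4 m`: all are sums of a polynomial in `k` of
degree at most 8 over `0 ≤ k ≤ m` with coefficients depending on `m`; use closed forms for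
`∑ k^i`, `i ≤ 8` (induction on the upper bound, with a free second variable).
Then expand `0 ≤ ∑ ‖x k - a/(m+1) - b p2 m k/n2 - c p4 m k/n4‖²`, `a = ∑ x k`, `b = ∑ p2 m k x k`,
`c = ∑ p4 m k x k`.
-/

set_option autoImplicit false

namespace Pool.Agent.Helper21.IM

open Complex Metric Set Real Finset

/-- square norm of `p2 m` -/
noncomputable def n2 (m : ℕ) : ℝ := ((m : ℝ) + 3) * (m + 2) * (m + 1) * m * (m - 1) / 5

/-- square norm of `p4 m` -/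
noncomputable def n4 (m : ℕ) : ℝ :=
  ((m : ℝ) + 5) * (m + 4) * (m + 3) * (m + 2) * (m + 1) * m * (m - 1) * (m - 2) * (m - 3) / 9

private theorem beP2 (m k : ℕ) : ((p2 m k : ℤ) : ℝ) = ((m:ℝ) * ((m:ℝ) - 1) - 6 * (k:ℝ) * ((m:ℝ) - (k:ℝ))) := by
  simp only [p2]
  push_cast
  ring

private theorem beP4 (m k : ℕ) : ((p4 m k : ℤ) : ℝ) = ((m:ℝ) * ((m:ℝ) - 1) * ((m:ℝ) - 2) * ((m:ℝ) - 3)
    - 20 * ((m:ℝ) - 2) * ((m:ℝ) - 3) * (k:ℝ) * ((m:ℝ) - (k:ℝ))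
    + 70 * (k:ℝ) * ((k:ℝ) - 1) * ((m:ℝ) - (k:ℝ)) * ((m:ℝ) - (k:ℝ) - 1)) := by
  simp only [p4]
  push_cast
  ring

private theorem beA (M : ℝ) (n : ℕ) : ∑ k ∈ range n, (M * (M - 1) - 6 * (k:ℝ) * (M - (k:ℝ))) =
      (1 + 2*M^1 + 1*M^2)*(n:ℝ)^1
      + ((-3) + (-3)*M^1)*(n:ℝ)^2
      + (2)*(n:ℝ)^3 := by
  induction n with
  | zero => simp
  | succ n ih =>
    rw [sum_range_succ, ih]
    push_cast
    ring

private theorem beB (M : ℝ) (n : ℕ) : ∑ k ∈ range n, (M * (M - 1) * (M - 2) * (M - 3) - 20 * (M - 2) * (M - 3) * (k:ℝ) * (M - (k:ℝ)) + 70 * (k:ℝ) * ((k:ℝ) - 1) * (M - (k:ℝ)) * (M - (k:ℝ) - 1)) =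
      (6 + 14*M^1 + 11*M^2 + 4*M^3 + 1*M^4)*(n:ℝ)^1
      + ((-25) + (-45)*M^1 + (-30)*M^2 + (-10)*M^3)*(n:ℝ)^2
      + (40 + 60*M^1 + 30*M^2)*(n:ℝ)^3
      + ((-35) + (-35)*M^1)*(n:ℝ)^4
      + (14)*(n:ℝ)^5 := by
  induction n with
  | zero => simp
  | succ n ih =>
    rw [sum_range_succ, ih]
    push_cast
    ring

private theorem beC (M : ℝ) (n : ℕ) : ∑ k ∈ range n, (M * (M - 1) - 6 * (k:ℝ) * (M - (k:ℝ))) * (M * (M - 1) * (M - 2) * (M - 3) - 20 * (M - 2) * (M - 3) * (k:ℝ) * (M - (k:ℝ)) + 70 * (k:ℝ) * ((k:ℝ) - 1) * (M - (k:ℝ)) * (M - (k:ℝ) - 1)) =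
      ((-6)*M^1 + (-11)*M^2 + 10*M^4 + 6*M^5 + 1*M^6)*(n:ℝ)^1
      + ((-2)*M^1 + (-55)*M^2 + (-105)*M^3 + (-65)*M^4 + (-13)*M^5)*(n:ℝ)^2
      + (30 + 188*M^1 + 382*M^2 + 288*M^3 + 72*M^4)*(n:ℝ)^3
      + ((-150) + (-550)*M^1 + (-600)*M^2 + (-200)*M^3)*(n:ℝ)^4
      + (270 + 580*M^1 + 290*M^2)*(n:ℝ)^5
      + ((-210) + (-210)*M^1)*(n:ℝ)^6
      + (60)*(n:ℝ)^7 := by
  induction n with
  | zero => simp
  | succ n ih =>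
    rw [sum_range_succ, ih]
    push_cast
    ring

private theorem beD (M : ℝ) (n : ℕ) : ∑ k ∈ range n, (M * (M - 1) - 6 * (k:ℝ) * (M - (k:ℝ))) ^ 2 =
      ((-6/5) + (-2)*M^1 + 3*M^2 + 4*M^3 + 1*M^4)*(n:ℝ)^1
      + ((-12)*M^1 + (-18)*M^2 + (-6)*M^3)*(n:ℝ)^2
      + (12 + 32*M^1 + 16*M^2)*(n:ℝ)^3
      + ((-18) + (-18)*M^1)*(n:ℝ)^4
      + (36/5)*(n:ℝ)^5 := by
  induction n with
  | zero => simp
  | succ n ih =>
    rw [sum_range_succ, ih]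
    push_cast
    ring

private theorem beE (M : ℝ) (n : ℕ) : ∑ k ∈ range n, (M * (M - 1) * (M - 2) * (M - 3) - 20 * (M - 2) * (M - 3) * (k:ℝ) * (M - (k:ℝ)) + 70 * (k:ℝ) * ((k:ℝ) - 1) * (M - (k:ℝ)) * (M - (k:ℝ) - 1)) ^ 2 =
      ((-80) + (-72)*M^1 + 944/3*M^2 + 196*M^3 + (-385/3)*M^4 + (-84)*M^5 + 14/3*M^6 + 8*M^7 + 1*M^8)*(n:ℝ)^1
      + ((-2500/3)*M^1 + (-810)*M^2 + 910/3*M^3 + 150*M^4 + (-250)*M^5 + (-140)*M^6 + (-20)*M^7)*(n:ℝ)^2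
      + (6800/9 + 1720*M^1 + 1780/3*M^2 + 1280*M^3 + 6760/3*M^4 + 1160*M^5 + 580/3*M^6)*(n:ℝ)^3
      + ((-1250) + (-7090/3)*M^1 + (-5550)*M^2 + (-24950/3)*M^3 + (-4850)*M^4 + (-970)*M^5)*(n:ℝ)^4
      + (5140/3 + 7632*M^1 + 14888*M^2 + 11072*M^3 + 2768*M^4)*(n:ℝ)^5
      + ((-3500) + (-38500/3)*M^1 + (-14000)*M^2 + (-14000/3)*M^3)*(n:ℝ)^6
      + (12800/3 + 9200*M^1 + 4600*M^2)*(n:ℝ)^7
      + ((-2450) + (-2450)*M^1)*(n:ℝ)^8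
      + (4900/9)*(n:ℝ)^9 := by
  induction n with
  | zero => simp
  | succ n ih =>
    rw [sum_range_succ, ih]
    push_cast
    ring

theorem sum_p2_sq (m : ℕ) : ∑ k ∈ range (m + 1), ((p2 m k : ℤ) : ℝ) ^ 2 = n2 m := by
  simp only [beP2]
  rw [beD, n2]
  push_cast
  ring

theorem sum_p4_sq (m : ℕ) : ∑ k ∈ range (m + 1), ((p4 m k : ℤ) : ℝ) ^ 2 = n4 m := by
  simp only [beP4]
  rw [beE, n4]
  push_cast
  ring

theorem sum_p2 (m : ℕ) : ∑ k ∈ range (m + 1), p2 m k = 0 := by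
  have h : ((∑ k ∈ range (m + 1), p2 m k : ℤ) : ℝ) = 0 := by
    rw [Int.cast_sum]
    simp only [beP2]
    rw [beA]
    push_cast
    ring
  exact_mod_cast h

theorem sum_p4 (m : ℕ) : ∑ k ∈ range (m + 1), p4 m k = 0 := by
  have h : ((∑ k ∈ range (m + 1), p4 m k : ℤ) : ℝ) = 0 := by
    rw [Int.cast_sum]
    simp only [beP4]
    rw [beB]
    push_cast
    ring
  exact_mod_cast h

theorem sum_p2_p4 (m : ℕ) : ∑ k ∈ range (m + 1), p2 m k * p4 m k = 0 := by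
  have h : ((∑ k ∈ range (m + 1), p2 m k * p4 m k : ℤ) : ℝ) = 0 := by
    rw [Int.cast_sum]
    simp only [Int.cast_mul, beP2, beP4]
    rw [beC]
    push_cast
    ring
  exact_mod_cast h

/-- Bessel inequality for three orthogonal real functions -/
private theorem beReal (s : Finset ℕ) (p q u : ℕ → ℝ) (N0 N2 N4 : ℝ) (h0 : 0 < N0) (h2 : 0 < N2)
    (h4 : 0 < N4) (e00 : ∑ _k ∈ s, (1 : ℝ) = N0) (e22 : ∑ k ∈ s, p k ^ 2 = N2)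
    (e44 : ∑ k ∈ s, q k ^ 2 = N4) (e02 : ∑ k ∈ s, p k = 0) (e04 : ∑ k ∈ s, q k = 0)
    (e24 : ∑ k ∈ s, p k * q k = 0) :
    (∑ k ∈ s, u k) ^ 2 / N0 + (∑ k ∈ s, p k * u k) ^ 2 / N2 + (∑ k ∈ s, q k * u k) ^ 2 / N4
      ≤ ∑ k ∈ s, u k ^ 2 := by
  set a := ∑ k ∈ s, u k with ha
  set b := ∑ k ∈ s, p k * u k with hb
  set c := ∑ k ∈ s, q k * u k with hc
  have key : ∑ k ∈ s, (u k - a / N0 - b / N2 * p k - c / N4 * q k) ^ 2 =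
      ∑ k ∈ s, u k ^ 2 - 2 * (a / N0) * a - 2 * (b / N2) * b - 2 * (c / N4) * c
        + (a / N0) ^ 2 * N0 + (b / N2) ^ 2 * N2 + (c / N4) ^ 2 * N4 := by
    have h1 : ∑ k ∈ s, (u k - a / N0 - b / N2 * p k - c / N4 * q k) ^ 2 =
        ∑ k ∈ s, (u k ^ 2 - 2 * (a / N0) * u k - 2 * (b / N2) * (p k * u k)
          - 2 * (c / N4) * (q k * u k) + (a / N0) ^ 2 * 1 + (b / N2) ^ 2 * p k ^ 2
          + (c / N4) ^ 2 * q k ^ 2 + 2 * (a / N0) * (b / N2) * p k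
          + 2 * (a / N0) * (c / N4) * q k + 2 * (b / N2) * (c / N4) * (p k * q k)) :=
      sum_congr rfl fun k _ => by ring
    rw [h1]
    simp only [sum_add_distrib, sum_sub_distrib, ← mul_sum]
    rw [e00, e22, e44, e02, e04, e24, ← ha, ← hb, ← hc]
    ring
  have hnn : 0 ≤ ∑ k ∈ s, (u k - a / N0 - b / N2 * p k - c / N4 * q k) ^ 2 :=
    sum_nonneg fun k _ => sq_nonneg _
  rw [key] at hnn
  have e1 : (a / N0) ^ 2 * N0 = a ^ 2 / N0 := by field_simp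
  have e2 : (b / N2) ^ 2 * N2 = b ^ 2 / N2 := by field_simp
  have e3 : (c / N4) ^ 2 * N4 = c ^ 2 / N4 := by field_simp
  have e4 : 2 * (a / N0) * a = 2 * (a ^ 2 / N0) := by ring
  have e5 : 2 * (b / N2) * b = 2 * (b ^ 2 / N2) := by ring
  have e6 : 2 * (c / N4) * c = 2 * (c ^ 2 / N4) := by ring
  rw [e1, e2, e3, e4, e5, e6] at hnn
  linarith

theorem bessel {m : ℕ} (hm : 4 ≤ m) (x : ℕ → ℂ) :
    ‖∑ k ∈ range (m + 1), x k‖ ^ 2 / (m + 1)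
      + ‖∑ k ∈ range (m + 1), (p2 m k : ℂ) * x k‖ ^ 2 / n2 m
      + ‖∑ k ∈ range (m + 1), (p4 m k : ℂ) * x k‖ ^ 2 / n4 m ≤ ∑ k ∈ range (m + 1), ‖x k‖ ^ 2 := by
  have hm' : (4 : ℝ) ≤ m := by exact_mod_cast hm
  have h0 : (0 : ℝ) < (m : ℝ) + 1 := by linarith
  have h1 : (0 : ℝ) < (m : ℝ) - 1 := by linarith
  have h2 : (0 : ℝ) < (m : ℝ) - 2 := by linarith
  have h3 : (0 : ℝ) < (m : ℝ) - 3 := by linarith
  have hn2 : 0 < n2 m := by rw [n2]; positivity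
  have hn4 : 0 < n4 m := by rw [n4]; positivity
  have e00 : ∑ _k ∈ range (m + 1), (1 : ℝ) = (m : ℝ) + 1 := by simp
  have e02 : ∑ k ∈ range (m + 1), ((p2 m k : ℤ) : ℝ) = 0 := by exact_mod_cast sum_p2 m
  have e04 : ∑ k ∈ range (m + 1), ((p4 m k : ℤ) : ℝ) = 0 := by exact_mod_cast sum_p4 m
  have e24 : ∑ k ∈ range (m + 1), ((p2 m k : ℤ) : ℝ) * ((p4 m k : ℤ) : ℝ) = 0 := by
    exact_mod_cast sum_p2_p4 m
  have hre := beReal (range (m + 1)) (fun k => ((p2 m k : ℤ) : ℝ)) (fun k => ((p4 m k : ℤ) : ℝ))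
    (fun k => (x k).re) _ _ _ h0 hn2 hn4 e00 (sum_p2_sq m) (sum_p4_sq m) e02 e04 e24
  have him := beReal (range (m + 1)) (fun k => ((p2 m k : ℤ) : ℝ)) (fun k => ((p4 m k : ℤ) : ℝ))
    (fun k => (x k).im) _ _ _ h0 hn2 hn4 e00 (sum_p2_sq m) (sum_p4_sq m) e02 e04 e24
  have hn : ∀ z : ℂ, ‖z‖ ^ 2 = z.re ^ 2 + z.im ^ 2 := by
    intro z
    rw [← Complex.normSq_eq_norm_sq, Complex.normSq_apply]
    ring
  have hc2 : ∀ k, (((p2 m k : ℂ) * x k).re = ((p2 m k : ℤ) : ℝ) * (x k).re) ∧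
      (((p2 m k : ℂ) * x k).im = ((p2 m k : ℤ) : ℝ) * (x k).im) := by
    intro k
    constructor
    · rw [Complex.mul_re, Complex.intCast_re, Complex.intCast_im]; ring
    · rw [Complex.mul_im, Complex.intCast_re, Complex.intCast_im]; ring
  have hc4 : ∀ k, (((p4 m k : ℂ) * x k).re = ((p4 m k : ℤ) : ℝ) * (x k).re) ∧
      (((p4 m k : ℂ) * x k).im = ((p4 m k : ℤ) : ℝ) * (x k).im) := by
    intro k
    constructor
    · rw [Complex.mul_re, Complex.intCast_re, Complex.intCast_im]; ring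
    · rw [Complex.mul_im, Complex.intCast_re, Complex.intCast_im]; ring
  simp only [hn, Complex.re_sum, Complex.im_sum, (hc2 _).1, (hc2 _).2, (hc4 _).1, (hc4 _).2,
    sum_add_distrib, add_div]

  linarith

end Pool.Agent.Helper21.IM
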