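import Pool.Agent.Helper21.IM.XY

/-!
# The certificate: a polynomial inequality in two complex variables

`0 ≤ lam (en1 X Y - 1) - (‖X‖² - 3449/10000) + ∑ c_k rel a_k b_k c_k X Y`; the right side is a sum of
squares of real polynomials with rational coefficients.
-/

set_option autoImplicit false
set_option maxRecDepth 10000
set_option linter.unusedSimpArgs false

namespace Pool.Agent.Helper21.IM

open Complex Metric Set Real Finset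


/-- multiplier of the energy -/
noncomputable def lam : ℝ := 281439 / 1120000

/-- combination of the relations -/
noncomputable def relsum (X Y : ℂ) : ℝ :=
  (2497/50000) * rel 0 2 0 X Y +
  (-17099/50000) * rel 1 0 1 X Y +
  (-859/4000) * rel 1 1 0 X Y +
  (-14381/100000) * rel 1 2 0 X Y +
  (-199563/800000) * rel 1 3 0 X Y +
  (133/200) * rel 2 0 2 X Y +
  (-1529/25000) * rel 2 1 0 X Y +
  (474769/400000) * rel 2 1 1 X Y +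
  (246569/480000) * rel 2 3 0 X Y +
  (50783/150000) * rel 2 4 0 X Y +
  (1097/9375) * rel 3 0 2 X Y +
  (2599/11250) * rel 3 1 1 X Y +
  (15257/75000) * rel 3 2 0 X Y +
  (9213/50000) * rel 3 2 1 X Y +
  (58883/100000) * rel 3 3 0 X Y +
  (56341/300000) * rel 3 4 0 X Y

theorem rel_020 (x u s t : ℝ) : rel 0 2 0 ⟨x, u⟩ ⟨s, t⟩ =
    (1)*x^2 + (-1)*u^2 := by
  simp only [rel]
  simp [pow_succ, Complex.add_re, Complex.add_im, Complex.mul_re, Complex.mul_im, Complex.div_re, Complex.div_im, Complex.normSq]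
  ring

theorem rel_101 (x u s t : ℝ) : rel 1 0 1 ⟨x, u⟩ ⟨s, t⟩ =
    (1/2)*x^2*s + (1)*x*u*t + (3/2)*x*s + (-1/2)*u^2*s + (3/2)*u*t + (1)*s^2 + (1)*t^2 := by
  simp only [rel]
  simp [pow_succ, Complex.add_re, Complex.add_im, Complex.mul_re, Complex.mul_im, Complex.div_re, Complex.div_im, Complex.normSq]
  ring

theorem rel_110 (x u s t : ℝ) : rel 1 1 0 ⟨x, u⟩ ⟨s, t⟩ =
    (1/2)*x^3 + (1)*x^2 + (1/2)*x*u^2 + (1)*x*s + (1)*u^2 + (1)*u*t := by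
  simp only [rel]
  simp [pow_succ, Complex.add_re, Complex.add_im, Complex.mul_re, Complex.mul_im, Complex.div_re, Complex.div_im, Complex.normSq]
  ring

theorem rel_120 (x u s t : ℝ) : rel 1 2 0 ⟨x, u⟩ ⟨s, t⟩ =
    (1/2)*x^4 + (3/2)*x^3 + (1)*x^2*u^2 + (1)*x^2*s + (3/2)*x*u^2 + (2)*x*u*t + (1/2)*u^4 + (-1)*u^2*s := by
  simp only [rel]
  simp [pow_succ, Complex.add_re, Complex.add_im, Complex.mul_re, Complex.mul_im, Complex.div_re, Complex.div_im, Complex.normSq]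
  ring

theorem rel_130 (x u s t : ℝ) : rel 1 3 0 ⟨x, u⟩ ⟨s, t⟩ =
    (1/2)*x^5 + (2)*x^4 + (1)*x^3*u^2 + (1)*x^3*s + (3)*x^2*u*t + (1/2)*x*u^4 + (-3)*x*u^2*s + (-2)*u^4 + (-1)*u^3*t := by
  simp only [rel]
  simp [pow_succ, Complex.add_re, Complex.add_im, Complex.mul_re, Complex.mul_im, Complex.div_re, Complex.div_im, Complex.normSq]
  ring

theorem rel_202 (x u s t : ℝ) : rel 2 0 2 ⟨x, u⟩ ⟨s, t⟩ =
    (1)*x^3*s^2 + (-1)*x^3*t^2 + (6)*x^2*u*s*t + (3)*x^2*s^2 + (-3)*x^2*t^2 + (-3)*x*u^2*s^2 + (3)*x*u^2*t^2 + (12)*x*u*s*t + (2)*x*s^3 + (2)*x*s*t^2 + (-2)*u^3*s*t + (-3)*u^2*s^2 + (3)*u^2*t^2 + (2)*u*s^2*t + (2)*u*t^3 := by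
  simp only [rel]
  simp [pow_succ, Complex.add_re, Complex.add_im, Complex.mul_re, Complex.mul_im, Complex.div_re, Complex.div_im, Complex.normSq]
  ring

theorem rel_210 (x u s t : ℝ) : rel 2 1 0 ⟨x, u⟩ ⟨s, t⟩ =
    (1)*x^4 + (3/2)*x^3 + (2)*x^2*s + (3/2)*x*u^2 + (-1)*u^4 + (2)*u^2*s := by
  simp only [rel]
  simp [pow_succ, Complex.add_re, Complex.add_im, Complex.mul_re, Complex.mul_im, Complex.div_re, Complex.div_im, Complex.normSq]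
  ring

theorem rel_211 (x u s t : ℝ) : rel 2 1 1 ⟨x, u⟩ ⟨s, t⟩ =
    (1)*x^4*s + (2)*x^3*u*t + (5/2)*x^3*s + (5/2)*x^2*u*t + (2)*x^2*s^2 + (2)*x^2*t^2 + (2)*x*u^3*t + (5/2)*x*u^2*s + (-1)*u^4*s + (5/2)*u^3*t + (2)*u^2*s^2 + (2)*u^2*t^2 := by
  simp only [rel]
  simp [pow_succ, Complex.add_re, Complex.add_im, Complex.mul_re, Complex.mul_im, Complex.div_re, Complex.div_im, Complex.normSq]
  ring

theorem rel_230 (x u s t : ℝ) : rel 2 3 0 ⟨x, u⟩ ⟨s, t⟩ =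
    (1)*x^6 + (5/2)*x^5 + (3)*x^4*u^2 + (2)*x^4*s + (5)*x^3*u^2 + (4)*x^3*u*t + (3)*x^2*u^4 + (5/2)*x*u^4 + (4)*x*u^3*t + (1)*u^6 + (-2)*u^4*s := by
  simp only [rel]
  simp [pow_succ, Complex.add_re, Complex.add_im, Complex.mul_re, Complex.mul_im, Complex.div_re, Complex.div_im, Complex.normSq]
  ring

theorem rel_240 (x u s t : ℝ) : rel 2 4 0 ⟨x, u⟩ ⟨s, t⟩ =
    (1)*x^7 + (3)*x^6 + (3)*x^5*u^2 + (2)*x^5*s + (3)*x^4*u^2 + (6)*x^4*u*t + (3)*x^3*u^4 + (-4)*x^3*u^2*s + (-3)*x^2*u^4 + (4)*x^2*u^3*t + (1)*x*u^6 + (-6)*x*u^4*s + (-3)*u^6 + (-2)*u^5*t := by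
  simp only [rel]
  simp [pow_succ, Complex.add_re, Complex.add_im, Complex.mul_re, Complex.mul_im, Complex.div_re, Complex.div_im, Complex.normSq]
  ring

theorem rel_302 (x u s t : ℝ) : rel 3 0 2 ⟨x, u⟩ ⟨s, t⟩ =
    (3/2)*x^4*s^2 + (-3/2)*x^4*t^2 + (12)*x^3*u*s*t + (7/2)*x^3*s^2 + (-7/2)*x^3*t^2 + (-9)*x^2*u^2*s^2 + (9)*x^2*u^2*t^2 + (21)*x^2*u*s*t + (3)*x^2*s^3 + (3)*x^2*s*t^2 + (-12)*x*u^3*s*t + (-21/2)*x*u^2*s^2 + (21/2)*x*u^2*t^2 + (6)*x*u*s^2*t + (6)*x*u*t^3 + (3/2)*u^4*s^2 + (-3/2)*u^4*t^2 + (-7)*u^3*s*t + (-3)*u^2*s^3 + (-3)*u^2*s*t^2 := by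
  simp only [rel]
  simp [pow_succ, Complex.add_re, Complex.add_im, Complex.mul_re, Complex.mul_im, Complex.div_re, Complex.div_im, Complex.normSq]
  ring

theorem rel_311 (x u s t : ℝ) : rel 3 1 1 ⟨x, u⟩ ⟨s, t⟩ =
    (3/2)*x^5*s + (9/2)*x^4*u*t + (3)*x^4*s + (-3)*x^3*u^2*s + (6)*x^3*u*t + (3)*x^3*s^2 + (3)*x^3*t^2 + (3)*x^2*u^3*t + (-9/2)*x*u^4*s + (6)*x*u^3*t + (3)*x*u^2*s^2 + (3)*x*u^2*t^2 + (-3/2)*u^5*t + (-3)*u^4*s := by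
  simp only [rel]
  simp [pow_succ, Complex.add_re, Complex.add_im, Complex.mul_re, Complex.mul_im, Complex.div_re, Complex.div_im, Complex.normSq]
  ring

theorem rel_320 (x u s t : ℝ) : rel 3 2 0 ⟨x, u⟩ ⟨s, t⟩ =
    (3/2)*x^6 + (5/2)*x^5 + (3/2)*x^4*u^2 + (3)*x^4*s + (5)*x^3*u^2 + (-3/2)*x^2*u^4 + (6)*x^2*u^2*s + (5/2)*x*u^4 + (-3/2)*u^6 + (3)*u^4*s := by
  simp only [rel]
  simp [pow_succ, Complex.add_re, Complex.add_im, Complex.mul_re, Complex.mul_im, Complex.div_re, Complex.div_im, Complex.normSq]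
  ring

theorem rel_321 (x u s t : ℝ) : rel 3 2 1 ⟨x, u⟩ ⟨s, t⟩ =
    (3/2)*x^6*s + (3)*x^5*u*t + (7/2)*x^5*s + (3/2)*x^4*u^2*s + (7/2)*x^4*u*t + (3)*x^4*s^2 + (3)*x^4*t^2 + (6)*x^3*u^3*t + (7)*x^3*u^2*s + (-3/2)*x^2*u^4*s + (7)*x^2*u^3*t + (6)*x^2*u^2*s^2 + (6)*x^2*u^2*t^2 + (3)*x*u^5*t + (7/2)*x*u^4*s + (-3/2)*u^6*s + (7/2)*u^5*t + (3)*u^4*s^2 + (3)*u^4*t^2 := by
  simp only [rel]
  simp [pow_succ, Complex.add_re, Complex.add_im, Complex.mul_re, Complex.mul_im, Complex.div_re, Complex.div_im, Complex.normSq]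
  ring

theorem rel_330 (x u s t : ℝ) : rel 3 3 0 ⟨x, u⟩ ⟨s, t⟩ =
    (3/2)*x^7 + (3)*x^6 + (9/2)*x^5*u^2 + (3)*x^5*s + (9)*x^4*u^2 + (3)*x^4*u*t + (9/2)*x^3*u^4 + (6)*x^3*u^2*s + (9)*x^2*u^4 + (6)*x^2*u^3*t + (3/2)*x*u^6 + (3)*x*u^4*s + (3)*u^6 + (3)*u^5*t := by
  simp only [rel]
  simp [pow_succ, Complex.add_re, Complex.add_im, Complex.mul_re, Complex.mul_im, Complex.div_re, Complex.div_im, Complex.normSq]
  ring

theorem rel_340 (x u s t : ℝ) : rel 3 4 0 ⟨x, u⟩ ⟨s, t⟩ =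
    (3/2)*x^8 + (7/2)*x^7 + (6)*x^6*u^2 + (3)*x^6*s + (21/2)*x^5*u^2 + (6)*x^5*u*t + (9)*x^4*u^4 + (3)*x^4*u^2*s + (21/2)*x^3*u^4 + (12)*x^3*u^3*t + (6)*x^2*u^6 + (-3)*x^2*u^4*s + (7/2)*x*u^6 + (6)*x*u^5*t + (3/2)*u^8 + (-3)*u^6*s := by
  simp only [rel]
  simp [pow_succ, Complex.add_re, Complex.add_im, Complex.mul_re, Complex.mul_im, Complex.div_re, Complex.div_im, Complex.normSq]
  ring

theorem en1_real (x u s t : ℝ) : en1 ⟨x, u⟩ ⟨s, t⟩ =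
    2 * (x ^ 2 + u ^ 2) + 14 / 3 * (x ^ 2 + u ^ 2) ^ 2
      - 28 / 5 * ((x ^ 2 - u ^ 2) * (s ^ 2 - t ^ 2) + 4 * x * u * s * t)
      + 56 / 45 * (s ^ 2 + t ^ 2) ^ 2 := by
  have h1 : ‖(⟨x, u⟩ : ℂ)‖ ^ 2 = x ^ 2 + u ^ 2 := by
    rw [← Complex.normSq_eq_norm_sq, Complex.normSq_mk]; ring
  have h2 : ‖(⟨s, t⟩ : ℂ)‖ ^ 2 = s ^ 2 + t ^ 2 := by
    rw [← Complex.normSq_eq_norm_sq, Complex.normSq_mk]; ring
  have h3 : ((⟨x, u⟩ : ℂ) ^ 2 * (starRingEnd ℂ) ((⟨s, t⟩ : ℂ) ^ 2)).re =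
      (x ^ 2 - u ^ 2) * (s ^ 2 - t ^ 2) + 4 * x * u * s * t := by
    simp [pow_succ, Complex.mul_re, Complex.mul_im]
    ring
  unfold en1
  rw [h3, show ‖(⟨x, u⟩ : ℂ)‖ ^ 4 = (‖(⟨x, u⟩ : ℂ)‖ ^ 2) ^ 2 by ring,
    show ‖(⟨s, t⟩ : ℂ)‖ ^ 4 = (‖(⟨s, t⟩ : ℂ)‖ ^ 2) ^ 2 by ring, h1, h2]

theorem cert (X Y : ℂ) :
    0 ≤ lam * (en1 X Y - 1) - (‖X‖ ^ 2 - 3449 / 10000) + relsum X Y := by
  obtain ⟨x, u⟩ := X
  obtain ⟨s, t⟩ := Y
  have h1 : ‖(⟨x, u⟩ : ℂ)‖ ^ 2 = x ^ 2 + u ^ 2 := by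
    rw [← Complex.normSq_eq_norm_sq, Complex.normSq_mk]; ring
  have key : lam * (en1 ⟨x, u⟩ ⟨s, t⟩ - 1) - (‖(⟨x, u⟩ : ℂ)‖ ^ 2 - 3449 / 10000) +
      relsum ⟨x, u⟩ ⟨s, t⟩ =
      (104849/1120000)*(1 + (-2133937/524245)*(x^2+u^2) + (-302666/524245)*((x^2+u^2)*(2*x)) + (-1018808/524245)*(2*(x*s+u*t)) + (10066/524245)*((x^2+u^2)^2) + (-269472/524245)*(2*((x^2-u^2)*s+2*x*u*t)) + (-957544/524245)*(s^2+t^2))^2 +
      (2497/100000)*((2*x) + (-4966/2497)*(x^2+u^2) + (-224027/39952)*((x^2+u^2)*(2*x)) + (-278/227)*(2*(x*s+u*t)) + (-25079/7491)*((x^2+u^2)^2) + (-199563/79904)*(2*((x^2-u^2)*s+2*x*u*t)))^2 +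
      (53975779318407/7330622684000000)*((x^2+u^2) + (5244348539017/17991926439469)*((x^2+u^2)*(2*x)) + (20728296831088/53975779318407)*(2*(x*s+u*t)) + (109453461931499/323854675910442)*((x^2+u^2)^2) + (64365554021069/107951558636814)*(2*((x^2-u^2)*s+2*x*u*t)) + (2536001122424/53975779318407)*(s^2+t^2))^2 +
      (1183553991199696379/460593316850406400000)*(((x^2+u^2)*(2*x)) + (104312182660622112/1183553991199696379)*(2*(x*s+u*t)) + (612420362357256800/1183553991199696379)*((x^2+u^2)^2) + (609732902318105131/2367107982399392758)*(2*((x^2-u^2)*s+2*x*u*t)) + (-22882100703906304/1183553991199696379)*(s^2+t^2))^2 +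
      (165979205800876997933/1420264789439635654800000)*((2*(x*s+u*t)) + (-161537139432629766772/497937617402630993799)*((x^2+u^2)^2) + (-96224148531217798740/165979205800876997933)*(2*((x^2-u^2)*s+2*x*u*t)) + (103300789857743398312/165979205800876997933)*(s^2+t^2))^2 +
      (1229397803397619393942271/4780201127065257540470400000)*(((x^2+u^2)^2) + (1148008494078481401577642/1229397803397619393942271)*(2*((x^2-u^2)*s+2*x*u*t)) + (-833896647143034902911632/1229397803397619393942271)*(s^2+t^2))^2 +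
      (405227881647995210587434581/1770332836892571927276870240000)*((2*((x^2-u^2)*s+2*x*u*t)) + (-1067077000244174349329919492/2026139408239976052937172905)*(s^2+t^2))^2 +
      (30197533776379659477659393673/202613940823997605293717290500000)*((s^2+t^2))^2 +
      (15913/100000)*((-(x^2+u^2)*(2*u)) + (12499/15913)*(2*(u*s-x*t)) + (-12351/15913)*(2*(2*x*u*s-(x^2-u^2)*t)))^2 +
      (30941/198912500)*((2*(u*s-x*t)) + (-46171/123764)*(2*(2*x*u*s-(x^2-u^2)*t)))^2 +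
      (774111/6188200000)*((2*(2*x*u*s-(x^2-u^2)*t)))^2 := by
    rw [h1, en1_real]
    simp only [relsum, lam, rel_020, rel_101, rel_110, rel_120, rel_130, rel_202, rel_210, rel_211, rel_230, rel_240, rel_302, rel_311, rel_320, rel_321, rel_330, rel_340]
    ring
  rw [key]
  positivity


end Pool.Agent.Helper21.IM
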