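import Pool.Agent.Helper21.IM.Defs

/-!
# IM-CO: a covering lemma

Proof: the set `F '' ball c r ∩ ball (F c) m` is nonempty, open (open mapping theorem: `F` is not
constant on `ball c r`, because `‖F w - F c‖ ≥ m > 0` on the sphere; `AnalyticOnNhd.is_constant_or_isOpen`)
and relatively closed in `ball (F c) m` (the compact set `F '' closedBall c r` is closed and the
points `F w`, `w` on the sphere, are not in `ball (F c) m`).  `ball (F c) m` is connected.
-/

set_option autoImplicit false

namespace Pool.Agent.Helper21.IM

open Complex Metric Set Real Finset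

theorem cover {F : ℂ → ℂ} {U : Set ℂ} (hU : IsOpen U) (hF : DifferentiableOn ℂ F U) {c : ℂ}
    {r m : ℝ} (hr : 0 < r) (hsub : closedBall c r ⊆ U) (hm : 0 < m)
    (h : ∀ w ∈ sphere c r, m ≤ ‖F w - F c‖) : ball (F c) m ⊆ F '' ball c r := by
  have hcont : ContinuousOn F (closedBall c r) := hF.continuousOn.mono hsub
  have hball : ball c r ⊆ U := ball_subset_closedBall.trans hsub
  have hopen : IsOpen (F '' ball c r) := by
    have han : AnalyticOnNhd ℂ F (ball c r) := fun z hz => (hF.analyticOnNhd hU) z (hball hz)
    rcases han.is_constant_or_isOpen (convex_ball c r).isPreconnected with ⟨w, hw⟩ | h1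
    · exfalso
      have h2 : EqOn F (fun _ => w) (closedBall c r) := by
        refine Set.EqOn.of_subset_closure (s := ball c r) (fun z hz => hw z hz) hcont
          continuousOn_const ball_subset_closedBall ?_
        rw [closure_ball c hr.ne']
      have h3 : c + (r : ℂ) ∈ sphere c r := by
        rw [mem_sphere, dist_eq_norm, add_sub_cancel_left, Complex.norm_real, Real.norm_eq_abs,
          abs_of_pos hr]
      have h4 := h _ h3
      have h5 : F (c + (r : ℂ)) = w := h2 (sphere_subset_closedBall h3)
      have h6 : F c = w := h2 (mem_closedBall_self hr.le)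
      rw [h5, h6, sub_self, norm_zero] at h4
      linarith
    · exact h1 _ Subset.rfl isOpen_ball
  refine (convex_ball (F c) m).isPreconnected.subset_of_closure_inter_subset hopen ?_ ?_
  · exact ⟨F c, mem_ball_self hm, c, mem_ball_self hr, rfl⟩
  · rintro y ⟨hy1, hy2⟩
    have hK : IsClosed (F '' closedBall c r) :=
      ((isCompact_closedBall c r).image_of_continuousOn hcont).isClosed
    have hy3 : y ∈ F '' closedBall c r :=
      closure_minimal (image_mono ball_subset_closedBall) hK hy1
    obtain ⟨w, hw, rfl⟩ := hy3
    rcases (mem_closedBall.1 hw).lt_or_eq with h1 | h1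
    · exact ⟨w, mem_ball.2 h1, rfl⟩
    · exfalso
      have h2 := h w (mem_sphere.2 h1)
      rw [mem_ball, dist_eq_norm] at hy2
      linarith

end Pool.Agent.Helper21.IM
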