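import Pool.Agent.Helper21.IM.LogBound

/-!
# IM-CC: covering with a universal constant

For `F` with `Sch F` and `‖w‖ ≤ 1/16`: `‖H w‖ ≤ 7 ‖w‖ / (1 - ‖w‖) ≤ 7/15` hence
`‖F' w - 1‖ ≤ exp (7/15) - 1 < 3/5` and `‖F w - w‖ ≤ (3/5) ‖w‖` (mean value inequality), so
`‖F w‖ ≥ (2/5) ‖w‖` and `cover` gives `ball 0 (2 r / 5) ⊆ F '' ball 0 r` for `0 < r ≤ 1/16`, hence
`ball 0 (r / 40) ⊆ F '' ball 0 r` for `0 < r ≤ 1`.  For a univalent `f`, `z` in the disc and
`r ≤ 1 - ‖z‖` apply this to `ζ ↦ (f (z + (1 - ‖z‖) ζ) - f z) / ((1 - ‖z‖) f' z)`.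
-/

set_option autoImplicit false

namespace Pool.Agent.Helper21.IM

open Complex Metric Set Real Finset

private theorem coverC_exp : Real.exp (7 / 15) < 8 / 5 := by
  have h1 : Real.exp (7 / 15) ^ 15 = Real.exp 1 ^ 7 := by
    rw [← Real.exp_nat_mul, ← Real.exp_nat_mul]
    norm_num
  have h2 : Real.exp 1 ^ 7 < (8 / 5 : ℝ) ^ 15 := by
    have h3 : Real.exp 1 < 2.7182818286 := Real.exp_one_lt_d9
    calc Real.exp 1 ^ 7 < (2.7182818286 : ℝ) ^ 7 :=
          pow_lt_pow_left₀ h3 (Real.exp_pos 1).le (by norm_num)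
      _ < (8 / 5 : ℝ) ^ 15 := by norm_num
  rw [← h1] at h2
  exact lt_of_pow_lt_pow_left₀ 15 (by norm_num) h2

private theorem coverC_deriv {F : ℂ → ℂ} (hF : Sch F) {w : ℂ} (hw : ‖w‖ ≤ 1 / 16) :
    ‖deriv F w - 1‖ ≤ 3 / 5 := by
  obtain ⟨H, _, _, h3⟩ := log_deriv hF
  have hwb : w ∈ ball (0 : ℂ) 1 := by
    rw [mem_ball, dist_zero_right]
    linarith
  obtain ⟨e1, _, e2⟩ := h3 w hwb
  have hlog : Real.log (1 / (1 - ‖w‖)) ≤ 1 / 15 := by
    have h4 : 0 < 1 - ‖w‖ := by linarith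
    have h5 : Real.log (1 / (1 - ‖w‖)) ≤ 1 / (1 - ‖w‖) - 1 :=
      Real.log_le_sub_one_of_pos (by positivity)
    have h6 : 1 / (1 - ‖w‖) ≤ 16 / 15 := by
      rw [div_le_div_iff₀ h4 (by norm_num)]
      linarith
    linarith
  have hH : ‖H w‖ ≤ 7 / 15 := by linarith
  have h7 := Complex.norm_exp_sub_sum_le_exp_norm_sub_sum (H w) 1
  simp only [Finset.sum_range_one, pow_zero, Nat.factorial_zero, Nat.cast_one, div_one] at h7
  rw [← e1]
  have h8 : Real.exp ‖H w‖ ≤ Real.exp (7 / 15) := Real.exp_le_exp.2 hH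
  linarith [coverC_exp]

private theorem coverC_lower {F : ℂ → ℂ} (hF : Sch F) {w : ℂ} (hw : ‖w‖ ≤ 1 / 16) :
    2 / 5 * ‖w‖ ≤ ‖F w‖ := by
  have hsub : ∀ u ∈ closedBall (0 : ℂ) ‖w‖, ‖u‖ ≤ 1 / 16 ∧ u ∈ ball (0 : ℂ) 1 := by
    intro u hu
    rw [mem_closedBall, dist_zero_right] at hu
    refine ⟨hu.trans hw, ?_⟩
    rw [mem_ball, dist_zero_right]
    linarith
  have hd : ∀ u ∈ closedBall (0 : ℂ) ‖w‖, HasDerivAt (fun v => F v - v) (deriv F u - 1) u := by
    intro u hu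
    exact ((hF.an.differentiableAt (isOpen_ball.mem_nhds (hsub u hu).2)).hasDerivAt).sub
      (hasDerivAt_id u)
  have hM := Convex.norm_image_sub_le_of_norm_hasDerivWithin_le (f := fun v => F v - v)
    (f' := fun u => deriv F u - 1) (C := 3 / 5)
    (s := closedBall (0 : ℂ) ‖w‖) (x := 0) (y := w)
    (fun u hu => (hd u hu).hasDerivWithinAt)
    (fun u hu => coverC_deriv hF (hsub u hu).1)
    (convex_closedBall _ _) (by simp) (by simp)
  simp only [hF.z0, sub_zero] at hM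
  have h1 : ‖w‖ ≤ ‖F w‖ + ‖F w - w‖ := by
    have h2 : w = F w - (F w - w) := by ring
    calc ‖w‖ = ‖F w - (F w - w)‖ := by rw [← h2]
      _ ≤ ‖F w‖ + ‖F w - w‖ := norm_sub_le _ _
  linarith

private theorem coverC_small {F : ℂ → ℂ} (hF : Sch F) {r : ℝ} (h0 : 0 < r) (h1 : r ≤ 1 / 16) :
    ball (0 : ℂ) (2 / 5 * r) ⊆ F '' ball 0 r := by
  have h2 := cover (F := F) (U := ball (0 : ℂ) 1) isOpen_ball hF.an (c := 0) (r := r)
    (m := 2 / 5 * r) h0 (by
      intro u hu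
      rw [mem_closedBall, dist_zero_right] at hu
      rw [mem_ball, dist_zero_right]
      linarith) (by positivity) (by
      intro u hu
      rw [mem_sphere, dist_zero_right] at hu
      rw [hF.z0, sub_zero]
      have h3 := coverC_lower hF (w := u) (by rw [hu]; exact h1)
      rwa [hu] at h3)
  rwa [hF.z0] at h2

private theorem coverC_sch {F : ℂ → ℂ} (hF : Sch F) {r : ℝ} (h0 : 0 < r) (h1 : r ≤ 1) :
    ball (0 : ℂ) (r / 40) ⊆ F '' ball 0 r := by
  rcases le_total r (1 / 16) with h | h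
  · exact (ball_subset_ball (by linarith)).trans (coverC_small hF h0 h)
  · exact ((ball_subset_ball (by linarith)).trans
      (coverC_small hF (r := 1 / 16) (by norm_num) le_rfl)).trans
        (Set.image_mono (ball_subset_ball h))

theorem cover_const {f : ℂ → ℂ} (hf : DifferentiableOn ℂ f (ball 0 1)) (hi : InjOn f (ball 0 1))
    {z : ℂ} (hz : z ∈ ball (0 : ℂ) 1) {r : ℝ} (h0 : 0 < r) (h1 : r ≤ 1 - ‖z‖) :
    ball (f z) (r / 40 * ‖deriv f z‖) ⊆ f '' ball z r := by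
  have hz1 : ‖z‖ < 1 := by
    rwa [mem_ball, dist_zero_right] at hz
  set d : ℝ := 1 - ‖z‖ with hd
  have hd0 : 0 < d := by linarith
  have hdc : (d : ℂ) ≠ 0 := by exact_mod_cast hd0.ne'
  have hf0 : deriv f z ≠ 0 := deriv_ne isOpen_ball hf hi hz
  have hmem : ∀ ζ ∈ ball (0 : ℂ) 1, z + d * ζ ∈ ball (0 : ℂ) 1 := by
    intro ζ hζ
    rw [mem_ball, dist_zero_right] at hζ ⊢
    calc ‖z + d * ζ‖ ≤ ‖z‖ + ‖(d : ℂ) * ζ‖ := norm_add_le _ _
      _ = ‖z‖ + d * ‖ζ‖ := by rw [norm_mul, Complex.norm_real, Real.norm_of_nonneg hd0.le]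
      _ < ‖z‖ + d * 1 := by
          have := mul_lt_mul_of_pos_left hζ hd0
          linarith
      _ = 1 := by rw [hd]; ring
  set F : ℂ → ℂ := fun ζ => (f (z + d * ζ) - f z) / (d * deriv f z) with hFdef
  have hderiv : ∀ ζ ∈ ball (0 : ℂ) 1, HasDerivAt F
      (deriv f (z + d * ζ) * d / (d * deriv f z)) ζ := by
    intro ζ hζ
    have e1 : HasDerivAt f (deriv f (z + d * ζ)) (z + d * ζ) :=
      (hf.differentiableAt (isOpen_ball.mem_nhds (hmem ζ hζ))).hasDerivAt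
    have e2 : HasDerivAt (fun ζ : ℂ => z + d * ζ) d ζ := by
      simpa using ((hasDerivAt_id ζ).const_mul (d : ℂ)).const_add z
    exact ((HasDerivAt.comp ζ e1 e2).sub_const (f z)).div_const _
  have hS : Sch F := by
    refine ⟨fun ζ hζ => (hderiv ζ hζ).differentiableAt.differentiableWithinAt, ?_, ?_, ?_⟩
    · intro a ha b hb hab
      have h2 : f (z + d * a) = f (z + d * b) := by
        have h3 : (f (z + d * a) - f z) / (d * deriv f z) =
          (f (z + d * b) - f z) / (d * deriv f z) := hab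
        rw [div_left_inj' (mul_ne_zero hdc hf0)] at h3
        exact sub_left_inj.mp h3
      have h4 := hi (hmem a ha) (hmem b hb) h2
      have h5 : (d : ℂ) * a = d * b := add_left_cancel h4
      exact mul_left_cancel₀ hdc h5
    · simp [hFdef]
    · rw [(hderiv 0 (mem_ball_self one_pos)).deriv, mul_zero, add_zero, mul_comm]
      exact div_self (mul_ne_zero hdc hf0)
  intro y hy
  have hr1 : 0 < r / d := by positivity
  have hr2 : r / d ≤ 1 := by
    rw [div_le_one hd0]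
    exact h1
  have hη : (y - f z) / (d * deriv f z) ∈ ball (0 : ℂ) (r / d / 40) := by
    rw [mem_ball, dist_zero_right, norm_div, norm_mul, Complex.norm_real,
      Real.norm_of_nonneg hd0.le]
    have hn : 0 < ‖deriv f z‖ := norm_pos_iff.2 hf0
    rw [mem_ball, dist_eq_norm] at hy
    rw [div_lt_iff₀ (by positivity)]
    calc ‖y - f z‖ < r / 40 * ‖deriv f z‖ := hy
      _ = r / d / 40 * (d * ‖deriv f z‖) := by field_simp
  obtain ⟨ζ, hζ, hζy⟩ := coverC_sch hS hr1 hr2 hη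
  rw [mem_ball, dist_zero_right] at hζ
  refine ⟨z + d * ζ, ?_, ?_⟩
  · rw [mem_ball, dist_eq_norm, add_sub_cancel_left, norm_mul, Complex.norm_real,
      Real.norm_of_nonneg hd0.le]
    rw [lt_div_iff₀ hd0] at hζ
    linarith
  · have h3 : (f (z + d * ζ) - f z) / (d * deriv f z) = (y - f z) / (d * deriv f z) := hζy
    rw [div_left_inj' (mul_ne_zero hdc hf0)] at h3
    exact sub_left_inj.mp h3

end Pool.Agent.Helper21.IM
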