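import Pool.Agent.Helper21.IM.FDefs

/-!
# IM-F2: restriction to the diagonal, degree 0

Summing `Geq` over `j + k = m`: with `u i = (i+1) e i` (the coefficients of `F'`; indeed
`∑_{j+k=i} e (j+k) = (i+1) e i`) and `v i = ∑_{j+k=i} (k+1) l j (k+1)` one gets
`∑_{i+i'=m} u i v i' = e (m+1) ∑_{k=0}^m (k+1) = (m+1)(m+2)/2 e (m+1)`.  `Nrec` says
`∑ u i n i' = (m+1)(m+2) e (m+1)`.  As `u 0 = 1`, `v = n/2` (strong induction).  This is `diag0`.
`i0`: `(m+1) ∑_{j+k=m+1} l j k = ∑ (j+k) l j k = 2 ∑ k l j k` (symmetry) `= 2 v m = n m`.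
-/

set_option autoImplicit false

namespace Pool.Agent.Helper21.IM

open Complex Metric Set Real Finset

private theorem fzero_rearr (f : ℕ → ℕ → ℕ → ℕ → ℂ) (m : ℕ) :
    ∑ x ∈ antidiagonal m, ∑ p ∈ antidiagonal x.1, ∑ q ∈ antidiagonal x.2, f p.1 p.2 q.1 q.2 =
      ∑ x ∈ antidiagonal m, ∑ p ∈ antidiagonal x.1, ∑ q ∈ antidiagonal x.2, f p.1 q.1 p.2 q.2 := by
  have h1 : ∀ g : ℕ → ℕ → ℕ → ℕ → ℂ,
      ∑ x ∈ antidiagonal m, ∑ p ∈ antidiagonal x.1, ∑ q ∈ antidiagonal x.2, g p.1 p.2 q.1 q.2 =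
        ∑ t ∈ (antidiagonal m).sigma fun x => antidiagonal x.1 ×ˢ antidiagonal x.2,
          g t.2.1.1 t.2.1.2 t.2.2.1 t.2.2.2 := by
    intro g
    rw [Finset.sum_sigma]
    refine Finset.sum_congr rfl fun x _ => ?_
    rw [Finset.sum_product]
  rw [h1 f, h1 fun a b c d => f a c b d]
  refine Finset.sum_nbij'
    (fun t => ⟨(t.2.1.1 + t.2.2.1, t.2.1.2 + t.2.2.2), ((t.2.1.1, t.2.2.1), (t.2.1.2, t.2.2.2))⟩)
    (fun t => ⟨(t.2.1.1 + t.2.2.1, t.2.1.2 + t.2.2.2), ((t.2.1.1, t.2.2.1), (t.2.1.2, t.2.2.2))⟩)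
    ?_ ?_ ?_ ?_ ?_
  · rintro ⟨⟨j, k⟩, ⟨⟨a, b⟩, ⟨c, d⟩⟩⟩ h
    simp only [Finset.mem_sigma, Finset.mem_product, HasAntidiagonal.mem_antidiagonal] at h ⊢
    obtain ⟨h1, h2, h3⟩ := h
    refine ⟨by omega, trivial, trivial⟩
  · rintro ⟨⟨j, k⟩, ⟨⟨a, b⟩, ⟨c, d⟩⟩⟩ h
    simp only [Finset.mem_sigma, Finset.mem_product, HasAntidiagonal.mem_antidiagonal] at h ⊢
    obtain ⟨h1, h2, h3⟩ := h
    refine ⟨by omega, trivial, trivial⟩
  · rintro ⟨⟨j, k⟩, ⟨⟨a, b⟩, ⟨c, d⟩⟩⟩ h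
    simp only [Finset.mem_sigma, Finset.mem_product, HasAntidiagonal.mem_antidiagonal] at h
    obtain ⟨_, rfl, rfl⟩ := h
    rfl
  · rintro ⟨⟨j, k⟩, ⟨⟨a, b⟩, ⟨c, d⟩⟩⟩ h
    simp only [Finset.mem_sigma, Finset.mem_product, HasAntidiagonal.mem_antidiagonal] at h
    obtain ⟨_, rfl, rfl⟩ := h
    rfl
  · rintro ⟨⟨j, k⟩, ⟨⟨a, b⟩, ⟨c, d⟩⟩⟩ _
    rfl

private theorem fzero_sum (m : ℕ) :
    ∑ p ∈ antidiagonal m, ((p.2 : ℂ) + 1) = ((m : ℂ) + 2) * (m + 1) / 2 := by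
  induction m with
  | zero => simp
  | succ m ih =>
    rw [Finset.Nat.sum_antidiagonal_succ, ih]
    push_cast
    ring

theorem diag0 {e n : ℕ → ℂ} {l : ℕ → ℕ → ℂ} (he : e 0 = 1) (hg : Geq e l) (hn : Nrec e n) (m : ℕ) :
    ∑ p ∈ antidiagonal m, ((p.2 : ℂ) + 1) * l p.1 (p.2 + 1) = n m / 2 := by
  set v : ℕ → ℂ := fun i => ∑ p ∈ antidiagonal i, ((p.2 : ℂ) + 1) * l p.1 (p.2 + 1) with hv
  have h1 : ∀ m : ℕ, ∑ x ∈ antidiagonal m, (((x.1 : ℂ) + 1) * e x.1) * v x.2 =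
      ((m : ℂ) + 2) * (m + 1) / 2 * e (m + 1) := by
    intro m
    have h2 : ∑ x ∈ antidiagonal m, ∑ p ∈ antidiagonal x.1, ∑ q ∈ antidiagonal x.2,
        e (p.1 + q.1) * (((q.2 : ℂ) + 1) * l p.2 (q.2 + 1)) =
        ((m : ℂ) + 2) * (m + 1) / 2 * e (m + 1) := by
      rw [← fzero_sum, Finset.sum_mul]
      refine Finset.sum_congr rfl fun x hx => ?_
      rw [hg x.1 x.2, HasAntidiagonal.mem_antidiagonal.1 hx]
    rw [← h2, fzero_rearr fun a b c d => e (a + c) * (((d : ℂ) + 1) * l b (d + 1))]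
    refine Finset.sum_congr rfl fun x _ => ?_
    have h3 : ∀ p ∈ antidiagonal x.1, ∑ q ∈ antidiagonal x.2,
        e (p.1 + p.2) * (((q.2 : ℂ) + 1) * l q.1 (q.2 + 1)) = e x.1 * v x.2 := by
      intro p hp
      rw [HasAntidiagonal.mem_antidiagonal.1 hp, hv, Finset.mul_sum]
    rw [Finset.sum_congr rfl h3, Finset.sum_const, Finset.Nat.card_antidiagonal, nsmul_eq_mul]
    push_cast
    ring
  have h4 : ∀ m : ℕ, ∑ x ∈ antidiagonal m, (((x.1 : ℂ) + 1) * e x.1) * (v x.2 - n x.2 / 2) = 0 := by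
    intro m
    have h5 : ∑ x ∈ antidiagonal m, (((x.1 : ℂ) + 1) * e x.1) * n x.2 =
        ((m : ℂ) + 2) * (m + 1) * e (m + 1) := by
      rw [← hn m, ← Finset.Nat.sum_antidiagonal_swap]
      refine Finset.sum_congr rfl fun x _ => ?_
      simp only [Prod.fst_swap, Prod.snd_swap]
      ring
    have h6 : ∀ x ∈ antidiagonal m, (((x.1 : ℂ) + 1) * e x.1) * (v x.2 - n x.2 / 2) =
        (((x.1 : ℂ) + 1) * e x.1) * v x.2 - (((x.1 : ℂ) + 1) * e x.1) * n x.2 / 2 := by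
      intro x _
      ring
    rw [Finset.sum_congr rfl h6, Finset.sum_sub_distrib, h1, ← Finset.sum_div, h5]
    ring
  have h7 : ∀ m : ℕ, v m - n m / 2 = 0 := by
    intro m
    induction m using Nat.strong_induction_on with
    | _ m ih =>
      have h8 := h4 m
      rw [Finset.sum_eq_single (0, m)] at h8
      · simpa [he] using h8
      · intro x hx hne
        have h9 := HasAntidiagonal.mem_antidiagonal.1 hx
        have h10 : x.2 < m := by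
          rcases Nat.eq_zero_or_pos x.1 with h | h
          · exfalso
            apply hne
            ext
            · exact h
            · simp only; omega
          · omega
        rw [ih x.2 h10, mul_zero]
      · intro h
        exact absurd (HasAntidiagonal.mem_antidiagonal.2 (zero_add m)) h
  exact sub_eq_zero.1 (h7 m)

theorem f_i0 {n : ℕ → ℂ} {l : ℕ → ℕ → ℂ} (hs : ∀ j k, l j k = l k j)
    (hd : ∀ m : ℕ, ∑ p ∈ antidiagonal m, ((p.2 : ℂ) + 1) * l p.1 (p.2 + 1) = n m / 2) (m : ℕ) :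
    ∑ p ∈ antidiagonal (m + 1), l p.1 p.2 = n m / (m + 1) := by
  have h1 : ∑ p ∈ antidiagonal (m + 1), (p.2 : ℂ) * l p.1 p.2 = n m / 2 := by
    rw [Finset.Nat.sum_antidiagonal_succ', ← hd m]
    simp
  have h2 : ∑ p ∈ antidiagonal (m + 1), (p.1 : ℂ) * l p.1 p.2 = n m / 2 := by
    rw [← h1, ← Finset.Nat.sum_antidiagonal_swap]
    refine Finset.sum_congr rfl fun x _ => ?_
    simp only [Prod.fst_swap, Prod.snd_swap]
    rw [hs]
  have h3 : ((m : ℂ) + 1) * ∑ p ∈ antidiagonal (m + 1), l p.1 p.2 = n m := by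
    have h4 : ((m : ℂ) + 1) * ∑ p ∈ antidiagonal (m + 1), l p.1 p.2 =
        ∑ p ∈ antidiagonal (m + 1), (p.1 : ℂ) * l p.1 p.2 +
          ∑ p ∈ antidiagonal (m + 1), (p.2 : ℂ) * l p.1 p.2 := by
      rw [Finset.mul_sum, ← Finset.sum_add_distrib]
      refine Finset.sum_congr rfl fun x hx => ?_
      have h5 := HasAntidiagonal.mem_antidiagonal.1 hx
      have h6 : (x.1 : ℂ) + x.2 = m + 1 := by exact_mod_cast h5
      rw [← h6]
      ring
    rw [h4, h1, h2]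
    ring
  have h7 : ((m : ℂ) + 1) ≠ 0 := Nat.cast_add_one_ne_zero m
  rw [eq_div_iff h7, mul_comm]
  exact h3

end Pool.Agent.Helper21.IM
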