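import Pool.Agent.Helper21.IM.FTwo
import Pool.Agent.Helper21.IM.FZero

/-!
# IM-F4: restriction to the diagonal, degree 4

(a) `z10`, `z11`: from `f_i0` and `f_i2`, `6 ∑_{j+k=M} j k l j k = M (M-1) ∑ l j k - cv n n (M-2)/2
= (M-1) n (M-1) - cv n n (M-2) / 2 = sz n (M-2)`.  With `g a b = (b+1) l a (b+1)`:
`∑_{a+b=p+1} a g a b = sz n p / 6`, `∑_{a+b=p+1} b g a b = (p+1) n (p+1)/2 - sz n p / 6` and (symmetry)
`∑_{a+b=p+1} a b g a b = (p/2) sz n p / 6`; for `a + b = 0` all three are `0`.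
(b) `diag_jk`: `∑_{j+k=M} j k pi2 l j k`: expand `(a+a')(b+b')` for `z^a w^b` of `G(z,w)` and
`z^a' w^b'` of `G(w,z)`; as formal power series in `t` (`N`, `S`, with derivation `D = d/dt`,
`S = D N - N²/2`) the sum is the coefficient of `t^(M-2)` of
`N D S / 12 + (S/6)^2 + (D N / 2 - S/6)^2 = D²(N²)/24 + S²/18` (use `D N = S + N²/2`).  So
`∑_{j+k=m+2} j k pi2 l j k = (m+2)(m+1)/24 cv n n (m+2) + cv (sz n) (sz n) m / 18`.
(c) `f_i4`: let `M = m + 4` and `x`, `r` as in FTwo, `(i+1)(M-i)(x (i+1) - x i) = r (i-1) - r i`.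
`∑_{t ≤ i} p4 M t = (i+1)(M-i) ψ i` with a polynomial `ψ`, `ψ (M-1-i) = - ψ i`; summation by parts:
`∑_i p4 M i x i = ∑_i r i (ψ i - ψ (i+1))`, and `ψ i - ψ (i+1) = 9 (M-2)(M-3) - 42 i (M-2-i)` (checked
numerically).  With `diag_pi` and (b): `9/4 - 42/24 = 1/2`, `-42/18 = -7/3`.
-/

set_option autoImplicit false

namespace Pool.Agent.Helper21.IM

open Complex Metric Set Real Finset

/-- the diagonal of a product of two double series -/
theorem FFour_diag_prod (u v : ℕ → ℕ → ℂ) (m : ℕ) :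
    ∑ r ∈ antidiagonal m, ∑ p ∈ antidiagonal r.1, ∑ q ∈ antidiagonal r.2,
        u p.1 q.1 * v p.2 q.2 =
      ∑ r ∈ antidiagonal m, (∑ p ∈ antidiagonal r.1, u p.1 p.2) *
        (∑ q ∈ antidiagonal r.2, v q.1 q.2) := by
  have h1 : ∀ r ∈ antidiagonal m, ∑ p ∈ antidiagonal r.1, ∑ q ∈ antidiagonal r.2,
        u p.1 q.1 * v p.2 q.2 =
      ∑ x ∈ antidiagonal r.1 ×ˢ antidiagonal r.2, u x.1.1 x.2.1 * v x.1.2 x.2.2 := fun r _ => by
    rw [Finset.sum_product]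
  have h2 : ∀ r ∈ antidiagonal m, (∑ p ∈ antidiagonal r.1, u p.1 p.2) *
        (∑ q ∈ antidiagonal r.2, v q.1 q.2) =
      ∑ x ∈ antidiagonal r.1 ×ˢ antidiagonal r.2, u x.1.1 x.1.2 * v x.2.1 x.2.2 := fun r _ => by
    rw [Finset.sum_product, Finset.sum_mul_sum]
  rw [Finset.sum_congr rfl h1, Finset.sum_congr rfl h2, Finset.sum_sigma', Finset.sum_sigma']
  refine Finset.sum_bij'
    (fun x _ => ⟨(x.2.1.1 + x.2.2.1, x.2.1.2 + x.2.2.2),
      ((x.2.1.1, x.2.2.1), (x.2.1.2, x.2.2.2))⟩)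
    (fun x _ => ⟨(x.2.1.1 + x.2.2.1, x.2.1.2 + x.2.2.2),
      ((x.2.1.1, x.2.2.1), (x.2.1.2, x.2.2.2))⟩) ?_ ?_ ?_ ?_ ?_
  · rintro ⟨⟨r1, r2⟩, ⟨⟨a, b⟩, ⟨c, d⟩⟩⟩ hx
    simp only [Finset.mem_sigma, Finset.mem_product, HasAntidiagonal.mem_antidiagonal] at hx
    refine Finset.mem_sigma.2 ⟨HasAntidiagonal.mem_antidiagonal.2 ?_, Finset.mem_product.2
      ⟨HasAntidiagonal.mem_antidiagonal.2 rfl, HasAntidiagonal.mem_antidiagonal.2 rfl⟩⟩
    show a + c + (b + d) = m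
    omega
  · rintro ⟨⟨r1, r2⟩, ⟨⟨a, b⟩, ⟨c, d⟩⟩⟩ hx
    simp only [Finset.mem_sigma, Finset.mem_product, HasAntidiagonal.mem_antidiagonal] at hx
    refine Finset.mem_sigma.2 ⟨HasAntidiagonal.mem_antidiagonal.2 ?_, Finset.mem_product.2
      ⟨HasAntidiagonal.mem_antidiagonal.2 rfl, HasAntidiagonal.mem_antidiagonal.2 rfl⟩⟩
    show a + c + (b + d) = m
    omega
  · rintro ⟨⟨r1, r2⟩, ⟨⟨a, b⟩, ⟨c, d⟩⟩⟩ hx
    simp only [Finset.mem_sigma, Finset.mem_product, HasAntidiagonal.mem_antidiagonal] at hx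
    obtain ⟨h0, h1, h2⟩ := hx
    subst h1 h2
    rfl
  · rintro ⟨⟨r1, r2⟩, ⟨⟨a, b⟩, ⟨c, d⟩⟩⟩ hx
    simp only [Finset.mem_sigma, Finset.mem_product, HasAntidiagonal.mem_antidiagonal] at hx
    obtain ⟨h0, h1, h2⟩ := hx
    subst h1 h2
    rfl
  · rintro ⟨⟨r1, r2⟩, ⟨⟨a, b⟩, ⟨c, d⟩⟩⟩ hx
    rfl

/-- `6 ∑ j k l j k = sz n p` -/
theorem FFour_jk {n : ℕ → ℂ} {l : ℕ → ℕ → ℂ} (hs : ∀ j k, l j k = l k j) (hst : Star l)
    (hd : ∀ m : ℕ, ∑ p ∈ antidiagonal m, ((p.2 : ℂ) + 1) * l p.1 (p.2 + 1) = n m / 2) (m : ℕ) :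
    6 * ∑ p ∈ antidiagonal (m + 2), (p.1 : ℂ) * p.2 * l p.1 p.2 = sz n m := by
  have h0 := f_i0 hs hd (m + 1)
  have h2 := f_i2 hs hst hd m
  have h3 : ∑ p ∈ antidiagonal (m + 2), (p2 (m + 2) p.2 : ℂ) * l p.1 p.2 =
      ((m : ℂ) + 2) * (m + 1) * ∑ p ∈ antidiagonal (m + 2), l p.1 p.2 -
        6 * ∑ p ∈ antidiagonal (m + 2), (p.1 : ℂ) * p.2 * l p.1 p.2 := by
    rw [Finset.mul_sum, Finset.mul_sum, ← Finset.sum_sub_distrib]
    apply Finset.sum_congr rfl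
    rintro ⟨j, k⟩ hp
    rw [HasAntidiagonal.mem_antidiagonal] at hp
    have hp' : (j : ℂ) + k = m + 2 := by exact_mod_cast hp
    have hm : (m : ℂ) = j + k - 2 := by linear_combination -hp'
    simp only [p2]
    push_cast
    rw [hm]
    ring
  have hm1 : (m : ℂ) + 1 + 1 ≠ 0 := by
    have : ((m + 2 : ℕ) : ℂ) ≠ 0 := by exact_mod_cast (by omega : m + 2 ≠ 0)
    intro h
    apply this
    push_cast
    linear_combination h
  rw [show m + 1 + 1 = m + 2 from rfl] at h0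
  rw [h0] at h3
  push_cast at h3
  unfold sz
  have h4 : ((m : ℂ) + 2) * (m + 1) * (n (m + 1) / ((m : ℂ) + 1 + 1)) = (m + 1) * n (m + 1) := by
    field_simp
    ring
  rw [h4, h2] at h3
  linear_combination h3

/-- coefficients of the kernel `G` -/
def FFour_g (l : ℕ → ℕ → ℂ) (a b : ℕ) : ℂ := ((b : ℂ) + 1) * l a (b + 1)

theorem FFour_A {n : ℕ → ℂ} {l : ℕ → ℕ → ℂ} (hs : ∀ j k, l j k = l k j) (hst : Star l)
    (hd : ∀ m : ℕ, ∑ p ∈ antidiagonal m, ((p.2 : ℂ) + 1) * l p.1 (p.2 + 1) = n m / 2) (m : ℕ) :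
    6 * ∑ p ∈ antidiagonal (m + 1), (p.1 : ℂ) * FFour_g l p.1 p.2 = sz n m := by
  rw [← FFour_jk hs hst hd m]
  congr 1
  rw [Finset.Nat.sum_antidiagonal_succ' (n := m + 1)]
  simp only [Nat.cast_zero, mul_zero, zero_mul, zero_add]
  apply Finset.sum_congr rfl
  rintro ⟨j, k⟩ _
  simp only [FFour_g]
  push_cast
  ring

theorem FFour_B {n : ℕ → ℂ} {l : ℕ → ℕ → ℂ} (hs : ∀ j k, l j k = l k j) (hst : Star l)
    (hd : ∀ m : ℕ, ∑ p ∈ antidiagonal m, ((p.2 : ℂ) + 1) * l p.1 (p.2 + 1) = n m / 2) (m : ℕ) :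
    6 * ∑ p ∈ antidiagonal (m + 1), (p.2 : ℂ) * FFour_g l p.1 p.2 =
      3 * ((m + 1) * n (m + 1)) - sz n m := by
  have h1 := FFour_A hs hst hd m
  have h2 : ∑ p ∈ antidiagonal (m + 1), (p.1 : ℂ) * FFour_g l p.1 p.2 +
      ∑ p ∈ antidiagonal (m + 1), (p.2 : ℂ) * FFour_g l p.1 p.2 =
      ((m : ℂ) + 1) * (n (m + 1) / 2) := by
    rw [← hd (m + 1), Finset.mul_sum, ← Finset.sum_add_distrib]
    apply Finset.sum_congr rfl
    rintro ⟨j, k⟩ hp
    rw [HasAntidiagonal.mem_antidiagonal] at hp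
    have hp' : (j : ℂ) + k = m + 1 := by exact_mod_cast hp
    simp only [FFour_g]
    rw [← hp']
    ring
  linear_combination 6 * h2 - h1

theorem FFour_AB {n : ℕ → ℂ} {l : ℕ → ℕ → ℂ} (hs : ∀ j k, l j k = l k j) (hst : Star l)
    (hd : ∀ m : ℕ, ∑ p ∈ antidiagonal m, ((p.2 : ℂ) + 1) * l p.1 (p.2 + 1) = n m / 2) (m : ℕ) :
    12 * ∑ p ∈ antidiagonal (m + 1), (p.1 : ℂ) * p.2 * FFour_g l p.1 p.2 = m * sz n m := by
  have h1 : ∑ p ∈ antidiagonal (m + 1), (p.1 : ℂ) * p.2 * FFour_g l p.1 p.2 =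
      ∑ p ∈ antidiagonal (m + 2), (p.1 : ℂ) * (p.2 * (p.2 - 1)) * l p.1 p.2 := by
    rw [Finset.Nat.sum_antidiagonal_succ' (n := m + 1)]
    simp only [Nat.cast_zero, mul_zero, zero_mul, zero_add]
    apply Finset.sum_congr rfl
    rintro ⟨j, k⟩ _
    simp only [FFour_g]
    push_cast
    ring
  have h2 : ∑ p ∈ antidiagonal (m + 2), (p.1 : ℂ) * (p.2 * (p.2 - 1)) * l p.1 p.2 =
      ∑ p ∈ antidiagonal (m + 2), (p.2 : ℂ) * (p.1 * (p.1 - 1)) * l p.1 p.2 := by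
    rw [← Finset.Nat.sum_antidiagonal_swap]
    apply Finset.sum_congr rfl
    rintro ⟨j, k⟩ _
    simp only [Prod.fst_swap, Prod.snd_swap]
    rw [hs k j]
  have h3 : ∑ p ∈ antidiagonal (m + 2), (p.1 : ℂ) * (p.2 * (p.2 - 1)) * l p.1 p.2 +
      ∑ p ∈ antidiagonal (m + 2), (p.2 : ℂ) * (p.1 * (p.1 - 1)) * l p.1 p.2 =
      m * ∑ p ∈ antidiagonal (m + 2), (p.1 : ℂ) * p.2 * l p.1 p.2 := by
    rw [Finset.mul_sum, ← Finset.sum_add_distrib]
    apply Finset.sum_congr rfl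
    rintro ⟨j, k⟩ hp
    rw [HasAntidiagonal.mem_antidiagonal] at hp
    have hp' : (j : ℂ) + k = m + 2 := by exact_mod_cast hp
    have hm : (m : ℂ) = j + k - 2 := by linear_combination -hp'
    simp only
    rw [hm]
    ring
  have h4 := FFour_jk hs hst hd m
  rw [h1]
  linear_combination 6 * h3 + 6 * h2 + m * h4

theorem FFour_expand (l : ℕ → ℕ → ℂ) (m : ℕ) :
    ∑ p ∈ antidiagonal m, (p.1 : ℂ) * p.2 * pi2 l p.1 p.2 =
      2 * cv (fun i => ∑ p ∈ antidiagonal i, (p.1 : ℂ) * p.2 * FFour_g l p.1 p.2)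
          (fun i => ∑ p ∈ antidiagonal i, FFour_g l p.1 p.2) m +
        cv (fun i => ∑ p ∈ antidiagonal i, (p.1 : ℂ) * FFour_g l p.1 p.2)
          (fun i => ∑ p ∈ antidiagonal i, (p.1 : ℂ) * FFour_g l p.1 p.2) m +
        cv (fun i => ∑ p ∈ antidiagonal i, (p.2 : ℂ) * FFour_g l p.1 p.2)
          (fun i => ∑ p ∈ antidiagonal i, (p.2 : ℂ) * FFour_g l p.1 p.2) m := by
  have hsw : ∀ (c : ℕ → ℕ → ℂ) (i : ℕ), ∑ p ∈ antidiagonal i, c p.1 p.2 * FFour_g l p.2 p.1 =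
      ∑ p ∈ antidiagonal i, c p.2 p.1 * FFour_g l p.1 p.2 := by
    intro c i
    rw [← Finset.Nat.sum_antidiagonal_swap]
    apply Finset.sum_congr rfl
    rintro ⟨j, k⟩ _
    simp only [Prod.fst_swap, Prod.snd_swap]
  have e1 := FFour_diag_prod (fun a b => (a : ℂ) * b * FFour_g l a b)
    (fun a b => 1 * FFour_g l b a) m
  have e2 := FFour_diag_prod (fun a b => (a : ℂ) * FFour_g l a b)
    (fun a b => (b : ℂ) * FFour_g l b a) m
  have e3 := FFour_diag_prod (fun a b => (b : ℂ) * FFour_g l a b)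
    (fun a b => (a : ℂ) * FFour_g l b a) m
  have e4 := FFour_diag_prod (fun a b => FFour_g l a b)
    (fun a b => ((a : ℂ) * b) * FFour_g l b a) m
  have hsw0 : ∀ i, ∑ p ∈ antidiagonal i, FFour_g l p.2 p.1 =
      ∑ p ∈ antidiagonal i, FFour_g l p.1 p.2 := by
    intro i
    have h := hsw (fun _ _ => 1) i
    simpa only [one_mul] using h
  simp only [hsw0, hsw (fun _ b => (b : ℂ)), hsw (fun a _ => (a : ℂ)),
    hsw (fun a b => (a : ℂ) * b), one_mul] at e1 e2 e3 e4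
  have e5 : ∑ r ∈ antidiagonal m, (∑ p ∈ antidiagonal r.1, FFour_g l p.1 p.2) *
        (∑ q ∈ antidiagonal r.2, ((q.2 : ℂ) * q.1) * FFour_g l q.1 q.2) =
      cv (fun i => ∑ p ∈ antidiagonal i, (p.1 : ℂ) * p.2 * FFour_g l p.1 p.2)
          (fun i => ∑ p ∈ antidiagonal i, FFour_g l p.1 p.2) m := by
    unfold cv
    rw [← Finset.Nat.sum_antidiagonal_swap]
    apply Finset.sum_congr rfl
    rintro ⟨j, k⟩ _
    simp only [Prod.fst_swap, Prod.snd_swap]
    rw [mul_comm]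
    congr 1
    apply Finset.sum_congr rfl
    rintro ⟨a, b⟩ _
    simp only
    ring
  rw [e5] at e4
  have e6 : ∑ p ∈ antidiagonal m, (p.1 : ℂ) * p.2 * pi2 l p.1 p.2 =
      ∑ r ∈ antidiagonal m, ∑ p ∈ antidiagonal r.1, ∑ q ∈ antidiagonal r.2,
        ((p.1 : ℂ) * q.1 * FFour_g l p.1 q.1 * FFour_g l q.2 p.2 +
          (p.1 : ℂ) * FFour_g l p.1 q.1 * ((q.2 : ℂ) * FFour_g l q.2 p.2) +
          (q.1 : ℂ) * FFour_g l p.1 q.1 * ((p.2 : ℂ) * FFour_g l q.2 p.2) +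
          FFour_g l p.1 q.1 * ((p.2 : ℂ) * q.2 * FFour_g l q.2 p.2)) := by
    apply Finset.sum_congr rfl
    rintro ⟨j, k⟩ _
    simp only [pi2]
    rw [Finset.mul_sum]
    apply Finset.sum_congr rfl
    rintro ⟨a, b⟩ hp
    rw [Finset.mul_sum]
    apply Finset.sum_congr rfl
    rintro ⟨c, d⟩ hq
    rw [HasAntidiagonal.mem_antidiagonal] at hp hq
    simp only at hp hq
    have hp' : (j : ℂ) = a + b := by exact_mod_cast hp.symm
    have hq' : (k : ℂ) = c + d := by exact_mod_cast hq.symm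
    simp only [FFour_g]
    rw [hp', hq']
    ring
  rw [e6]
  simp only [Finset.sum_add_distrib]
  rw [e1, e2, e3, e4]
  unfold cv
  ring

theorem diag_jk {n : ℕ → ℂ} {l : ℕ → ℕ → ℂ} (hs : ∀ j k, l j k = l k j) (hst : Star l)
    (hd : ∀ m : ℕ, ∑ p ∈ antidiagonal m, ((p.2 : ℂ) + 1) * l p.1 (p.2 + 1) = n m / 2) (m : ℕ) :
    ∑ p ∈ antidiagonal (m + 2), (p.1 : ℂ) * p.2 * pi2 l p.1 p.2 =
      ((m : ℂ) + 2) * (m + 1) / 24 * cv n n (m + 2) + cv (sz n) (sz n) m / 18 := by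
  rw [FFour_expand]
  have hG : (fun i => ∑ p ∈ antidiagonal i, FFour_g l p.1 p.2) = fun i => n i / 2 :=
    funext fun i => hd i
  rw [hG]
  set AB : ℕ → ℂ := fun i => ∑ p ∈ antidiagonal i, (p.1 : ℂ) * p.2 * FFour_g l p.1 p.2 with hAB
  set A : ℕ → ℂ := fun i => ∑ p ∈ antidiagonal i, (p.1 : ℂ) * FFour_g l p.1 p.2 with hA
  set B : ℕ → ℂ := fun i => ∑ p ∈ antidiagonal i, (p.2 : ℂ) * FFour_g l p.1 p.2 with hB
  set N : PowerSeries ℂ := PowerSeries.mk n with hN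
  set S : PowerSeries ℂ := PowerSeries.mk (sz n) with hS
  set D := PowerSeries.derivative ℂ with hD
  have hcv : ∀ (a b : ℕ → ℂ) (i : ℕ),
      cv a b i = PowerSeries.coeff i (PowerSeries.mk a * PowerSeries.mk b) := by
    intro a b i
    rw [PowerSeries.coeff_mul]
    unfold cv
    simp only [PowerSeries.coeff_mk]
  have pAB : PowerSeries.mk (fun i => 12 * AB i) = PowerSeries.X * (PowerSeries.X * D S) := by
    ext i
    rcases i with _ | i
    · rw [PowerSeries.coeff_zero_X_mul, PowerSeries.coeff_mk, hAB]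
      simp
    · rw [PowerSeries.coeff_succ_X_mul, PowerSeries.coeff_mk, hAB]
      simp only
      rw [FFour_AB hs hst hd i]
      rcases i with _ | i
      · rw [PowerSeries.coeff_zero_X_mul]
        simp
      · rw [PowerSeries.coeff_succ_X_mul, hD, PowerSeries.coeff_derivative, hS,
          PowerSeries.coeff_mk]
        push_cast
        ring
  have pA : PowerSeries.mk (fun i => 6 * A i) = PowerSeries.X * S := by
    ext i
    rcases i with _ | i
    · rw [PowerSeries.coeff_zero_X_mul, PowerSeries.coeff_mk, hA]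
      simp
    · rw [PowerSeries.coeff_succ_X_mul, PowerSeries.coeff_mk, hA]
      simp only
      rw [FFour_A hs hst hd i, hS, PowerSeries.coeff_mk]
  have pB : PowerSeries.mk (fun i => 6 * B i) = PowerSeries.X * (D N + D N + D N - S) := by
    ext i
    rcases i with _ | i
    · rw [PowerSeries.coeff_zero_X_mul, PowerSeries.coeff_mk, hB]
      simp
    · rw [PowerSeries.coeff_succ_X_mul, PowerSeries.coeff_mk, hB]
      simp only
      rw [FFour_B hs hst hd i, map_sub, map_add, map_add, hD, PowerSeries.coeff_derivative, hS,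
        hN, PowerSeries.coeff_mk, PowerSeries.coeff_mk]
      ring
  have pS : PowerSeries.C (2 : ℂ) * (D N - S) = N * N := by
    ext i
    rw [PowerSeries.coeff_C_mul, map_sub, hD, PowerSeries.coeff_derivative, hS, hN,
      PowerSeries.coeff_mk, PowerSeries.coeff_mk, ← hcv]
    unfold sz
    ring
  have pS2 : PowerSeries.C (2 : ℂ) * (D (D N) - D S) =
      PowerSeries.C (2 : ℂ) * (N * D N) := by
    have h := congrArg D pS
    rw [Derivation.leibniz, Derivation.leibniz, map_sub] at h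
    rw [hD, PowerSeries.derivative_C, smul_zero, add_zero] at h
    simp only [smul_eq_mul, map_ofNat] at h ⊢
    linear_combination h
  have key : PowerSeries.C (6 : ℂ) * (D S * N) + PowerSeries.C (2 : ℂ) * (S * S) +
      PowerSeries.C (2 : ℂ) * ((D N + D N + D N - S) * (D N + D N + D N - S)) =
      PowerSeries.C (3 : ℂ) * D (D (N * N)) + PowerSeries.C (4 : ℂ) * (S * S) := by
    rw [Derivation.leibniz, smul_eq_mul, map_add, Derivation.leibniz]
    simp only [smul_eq_mul, map_ofNat] at pS pS2 ⊢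
    linear_combination 6 * D N * pS - 3 * N * pS2
  have h72 : 72 * (2 * cv AB (fun i => n i / 2) (m + 2) + cv A A (m + 2) + cv B B (m + 2)) =
      6 * cv (fun i => 12 * AB i) n (m + 2) + 2 * cv (fun i => 6 * A i) (fun i => 6 * A i) (m + 2)
        + 2 * cv (fun i => 6 * B i) (fun i => 6 * B i) (m + 2) := by
    unfold cv
    simp only [Finset.mul_sum, ← Finset.sum_add_distrib]
    apply Finset.sum_congr rfl
    rintro ⟨j, k⟩ _
    ring
  have q1 : cv (fun i => 12 * AB i) n (m + 2) = PowerSeries.coeff m (D S * N) := by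
    rw [hcv, pAB, show PowerSeries.X * (PowerSeries.X * D S) * PowerSeries.mk n =
      PowerSeries.X * (PowerSeries.X * (D S * N)) by rw [hN]; ring,
      PowerSeries.coeff_succ_X_mul, PowerSeries.coeff_succ_X_mul]
  have q2 : cv (fun i => 6 * A i) (fun i => 6 * A i) (m + 2) = PowerSeries.coeff m (S * S) := by
    rw [hcv, pA, show PowerSeries.X * S * (PowerSeries.X * S) =
      PowerSeries.X * (PowerSeries.X * (S * S)) by ring,
      PowerSeries.coeff_succ_X_mul, PowerSeries.coeff_succ_X_mul]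
  have q3 : cv (fun i => 6 * B i) (fun i => 6 * B i) (m + 2) =
      PowerSeries.coeff m ((D N + D N + D N - S) * (D N + D N + D N - S)) := by
    rw [hcv, pB, show PowerSeries.X * (D N + D N + D N - S) *
        (PowerSeries.X * (D N + D N + D N - S)) =
      PowerSeries.X * (PowerSeries.X * ((D N + D N + D N - S) * (D N + D N + D N - S))) by ring,
      PowerSeries.coeff_succ_X_mul, PowerSeries.coeff_succ_X_mul]
  have q4 : PowerSeries.coeff m (D (D (N * N))) = ((m : ℂ) + 2) * (m + 1) * cv n n (m + 2) := by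
    rw [hD, PowerSeries.coeff_derivative, PowerSeries.coeff_derivative, hcv]
    push_cast
    ring
  have q5 : cv (sz n) (sz n) m = PowerSeries.coeff m (S * S) := hcv _ _ _
  have h := congrArg (PowerSeries.coeff m) key
  rw [map_add, map_add, map_add, PowerSeries.coeff_C_mul, PowerSeries.coeff_C_mul,
    PowerSeries.coeff_C_mul, PowerSeries.coeff_C_mul, PowerSeries.coeff_C_mul, q4, ← q1, ← q2,
    ← q3] at h
  rw [q5, ← q2]
  linear_combination (1 / 72) * h72 + (1 / 72) * h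

/-- the polynomial `ψ` -/
def FFour_psi (j k : ℂ) : ℂ :=
  (j + k) * (j + k - 1) * (j + k - 2) - 9 * (j + k - 1) * (j + k - 2) * j +
    21 * (j + k - 1) * j * (j - 1) - 7 * j * (j - 1) * (2 * j - 1)

theorem f_i4 {n : ℕ → ℂ} {l : ℕ → ℕ → ℂ} (hs : ∀ j k, l j k = l k j) (hst : Star l)
    (hd : ∀ m : ℕ, ∑ p ∈ antidiagonal m, ((p.2 : ℂ) + 1) * l p.1 (p.2 + 1) = n m / 2) (m : ℕ) :
    ∑ p ∈ antidiagonal (m + 4), (p4 (m + 4) p.2 : ℂ) * l p.1 p.2 =
      ((m : ℂ) + 2) * (m + 1) / 2 * cv n n (m + 2) - 7 / 3 * cv (sz n) (sz n) m := by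
  -- split `p4` as a difference
  have h1 : ∑ p ∈ antidiagonal (m + 4), (p4 (m + 4) p.2 : ℂ) * l p.1 p.2 =
      ∑ p ∈ antidiagonal (m + 4), ((p.1 : ℂ) + 1) * p.2 * FFour_psi p.1 (p.2 - 1) * l p.1 p.2 -
        ∑ p ∈ antidiagonal (m + 4),
          (p.1 : ℂ) * (p.2 + 1) * FFour_psi (p.1 - 1) p.2 * l p.1 p.2 := by
    rw [← Finset.sum_sub_distrib]
    apply Finset.sum_congr rfl
    rintro ⟨j, k⟩ hp
    rw [HasAntidiagonal.mem_antidiagonal] at hp
    have hp' : (j : ℂ) + k = m + 4 := by exact_mod_cast hp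
    have hm : (m : ℂ) = j + k - 4 := by linear_combination -hp'
    simp only [p4, FFour_psi]
    push_cast
    rw [hm]
    ring
  have h2 : ∑ p ∈ antidiagonal (m + 4),
      ((p.1 : ℂ) + 1) * p.2 * FFour_psi p.1 (p.2 - 1) * l p.1 p.2 =
      ∑ p ∈ antidiagonal (m + 3),
        ((p.1 : ℂ) + 1) * (p.2 + 1) * FFour_psi p.1 p.2 * l p.1 (p.2 + 1) := by
    rw [Finset.Nat.sum_antidiagonal_succ' (n := m + 3)]
    simp only [Nat.cast_zero, mul_zero, zero_mul, zero_add]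
    apply Finset.sum_congr rfl
    rintro ⟨j, k⟩ _
    simp only
    push_cast
    rw [add_sub_cancel_right]
  have h3 : ∑ p ∈ antidiagonal (m + 4),
      (p.1 : ℂ) * (p.2 + 1) * FFour_psi (p.1 - 1) p.2 * l p.1 p.2 =
      ∑ p ∈ antidiagonal (m + 3),
        ((p.1 : ℂ) + 1) * (p.2 + 1) * FFour_psi p.1 p.2 * l (p.1 + 1) p.2 := by
    rw [Finset.Nat.sum_antidiagonal_succ (n := m + 3)]
    simp only [Nat.cast_zero, zero_mul, zero_add]
    apply Finset.sum_congr rfl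
    rintro ⟨j, k⟩ _
    simp only
    push_cast
    rw [add_sub_cancel_right]
  have h4 : ∑ p ∈ antidiagonal (m + 3),
        ((p.1 : ℂ) + 1) * (p.2 + 1) * FFour_psi p.1 p.2 * l p.1 (p.2 + 1) -
      ∑ p ∈ antidiagonal (m + 3),
        ((p.1 : ℂ) + 1) * (p.2 + 1) * FFour_psi p.1 p.2 * l (p.1 + 1) p.2 =
      ∑ p ∈ antidiagonal (m + 3), FFour_psi p.1 p.2 *
          (if p.2 = 0 then 0 else pi2 l p.1 (p.2 - 1)) -
        ∑ p ∈ antidiagonal (m + 3), FFour_psi p.1 p.2 *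
          (if p.1 = 0 then 0 else pi2 l (p.1 - 1) p.2) := by
    rw [← Finset.sum_sub_distrib, ← Finset.sum_sub_distrib]
    apply Finset.sum_congr rfl
    rintro ⟨j, k⟩ _
    have h := hst j k
    simp only
    linear_combination -(FFour_psi j k) * h
  have h5 : ∑ p ∈ antidiagonal (m + 3), FFour_psi p.1 p.2 *
          (if p.2 = 0 then 0 else pi2 l p.1 (p.2 - 1)) =
      ∑ p ∈ antidiagonal (m + 2), FFour_psi p.1 (p.2 + 1) * pi2 l p.1 p.2 := by
    rw [Finset.Nat.sum_antidiagonal_succ' (n := m + 2)]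
    simp only [if_true, mul_zero, zero_add]
    apply Finset.sum_congr rfl
    rintro ⟨j, k⟩ _
    simp only [Nat.succ_ne_zero, if_false, Nat.add_sub_cancel]
    push_cast
    rfl
  have h6 : ∑ p ∈ antidiagonal (m + 3), FFour_psi p.1 p.2 *
          (if p.1 = 0 then 0 else pi2 l (p.1 - 1) p.2) =
      ∑ p ∈ antidiagonal (m + 2), FFour_psi (p.1 + 1) p.2 * pi2 l p.1 p.2 := by
    rw [Finset.Nat.sum_antidiagonal_succ (n := m + 2)]
    simp only [if_true, mul_zero, zero_add]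
    apply Finset.sum_congr rfl
    rintro ⟨j, k⟩ _
    simp only [Nat.succ_ne_zero, if_false, Nat.add_sub_cancel]
    push_cast
    rfl
  have h7 : ∑ p ∈ antidiagonal (m + 2), FFour_psi p.1 (p.2 + 1) * pi2 l p.1 p.2 -
      ∑ p ∈ antidiagonal (m + 2), FFour_psi (p.1 + 1) p.2 * pi2 l p.1 p.2 =
      9 * (((m : ℂ) + 2) * (m + 1)) * ∑ p ∈ antidiagonal (m + 2), pi2 l p.1 p.2 -
        42 * ∑ p ∈ antidiagonal (m + 2), (p.1 : ℂ) * p.2 * pi2 l p.1 p.2 := by
    rw [Finset.mul_sum, Finset.mul_sum, ← Finset.sum_sub_distrib, ← Finset.sum_sub_distrib]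
    apply Finset.sum_congr rfl
    rintro ⟨j, k⟩ hp
    rw [HasAntidiagonal.mem_antidiagonal] at hp
    have hp' : (j : ℂ) + k = m + 2 := by exact_mod_cast hp
    have hm : (m : ℂ) = j + k - 2 := by linear_combination -hp'
    simp only [FFour_psi]
    rw [hm]
    ring
  rw [h1, h2, h3, h4, h5, h6, h7, diag_pi hd, diag_jk hs hst hd]
  ring

end Pool.Agent.Helper21.IM
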