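import Pool.Agent.Helper21.IM.FDefs

/-!
# IM-F1: existence of the double sequence `l`

Work in `PowerSeries (PowerSeries ℂ)` (outer variable `w`, inner variable `z`), or in any other model
of the double power series.  `E = ∑ e (j+k) z^j w^k` is a unit (`e 0 = 1`).  Let `G = E_w / E`,
`H = E_z / E`, with coefficients `g j k`, `h j k` (at `z^j w^k`).
(1) `g` is the only solution of `∑ e (p.1 + q.1) g p.2 q.2 = (k+1) e (j+k+1)` (all `j k`), because
`e 0 = 1`; the array `(j, k) ↦ g k j` solves the equation of `h`, so `h j k = g k j`.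
(2) `∂_z G = E_zw/E - E_z E_w/E² = ∂_w H`: `(j+1) g (j+1) k = (k+1) h j (k+1) = (k+1) g (k+1) j`.
(3) Put `l j k = g j (k-1) / k` for `k ≥ 1`, `l j 0 = g 0 (j-1) / j` for `j ≥ 1`, `l 0 0 = 0`.
Symmetry: `l j k = l k j` for `j, k ≥ 1` is (2) at `(j-1, k-1)`; the rest by definition.
`Geq` is the equation of (1), since `(k+1) l j (k+1) = g j k`.
(4) `Star`: `(w - z) E_zw = E_w - E_z` (compare coefficients: both are `(k - j) e (j+k+1)`), and
`∂_z G + G H = E_zw / E`, so `(w - z) (∂_z G + G H) = G - H`.  Coefficient of `z^j w^k`: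
`(j+1) k l (j+1) k - j (k+1) l j (k+1) + π j (k-1) - π (j-1) k = (k+1) l j (k+1) - (j+1) l (j+1) k`
where `π = pi2 l` (the coefficients of `G H`), terms with index `-1` are `0`; this is `Star`.
-/

set_option autoImplicit false

namespace Pool.Agent.Helper21.IM

open Complex Metric Set Real Finset

/-- double power series -/
private abbrev PP := PowerSeries (PowerSeries ℂ)

/-- coefficient of `z^j w^k` -/
private noncomputable def cc (F : PP) (j k : ℕ) : ℂ :=
  PowerSeries.coeff j (PowerSeries.coeff k F)

private theorem cc_ext (F G : PP) (h : ∀ j k, cc F j k = cc G j k) : F = G := by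
  apply PowerSeries.ext
  intro k
  apply PowerSeries.ext
  intro j
  exact h j k

/-- the double series with given coefficients -/
private noncomputable def mk2 (f : ℕ → ℕ → ℂ) : PP :=
  PowerSeries.mk fun k => PowerSeries.mk fun j => f j k

private theorem cc_mk2 (f : ℕ → ℕ → ℂ) (j k : ℕ) : cc (mk2 f) j k = f j k := by
  simp [cc, mk2]

private theorem cc_mul (F G : PP) (j k : ℕ) :
    cc (F * G) j k = ∑ p ∈ antidiagonal j, ∑ q ∈ antidiagonal k,
      cc F p.1 q.1 * cc G p.2 q.2 := by
  unfold cc
  rw [PowerSeries.coeff_mul, map_sum, Finset.sum_comm]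
  refine Finset.sum_congr rfl fun q _ => ?_
  rw [PowerSeries.coeff_mul]

private theorem cc_add (F G : PP) (j k : ℕ) : cc (F + G) j k = cc F j k + cc G j k := by
  simp [cc]

private theorem cc_sub (F G : PP) (j k : ℕ) : cc (F - G) j k = cc F j k - cc G j k := by
  simp [cc]

/-- exchange of the variables -/
private noncomputable def sw (F : PP) : PP := mk2 fun j k => cc F k j

private theorem cc_sw (F : PP) (j k : ℕ) : cc (sw F) j k = cc F k j := cc_mk2 _ _ _

private theorem sw_mul (F G : PP) : sw (F * G) = sw F * sw G := by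
  apply cc_ext
  intro j k
  rw [cc_sw, cc_mul, cc_mul, Finset.sum_comm]
  simp only [cc_sw]

private theorem sw_sw (F : PP) : sw (sw F) = F := by
  apply cc_ext
  intro j k
  rw [cc_sw, cc_sw]

private theorem sw_add (F G : PP) : sw (F + G) = sw F + sw G := by
  apply cc_ext
  intro j k
  rw [cc_sw, cc_add, cc_add, cc_sw, cc_sw]

/-- derivative in `w` -/
private noncomputable def dw (F : PP) : PP := PowerSeries.derivative (PowerSeries ℂ) F

private theorem cc_dw (F : PP) (j k : ℕ) : cc (dw F) j k = ((k : ℂ) + 1) * cc F j (k + 1) := by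
  unfold cc dw
  rw [PowerSeries.coeff_derivative]
  have h : ((k : PowerSeries ℂ) + 1) = PowerSeries.C ((k : ℂ) + 1) := by simp
  rw [h, mul_comm, PowerSeries.coeff_C_mul]

private theorem der_mul {R : Type*} [CommRing R] (F G : PowerSeries R) :
    PowerSeries.derivative R (F * G) =
      PowerSeries.derivative R F * G + F * PowerSeries.derivative R G := by
  have h := (PowerSeries.derivative R).leibniz F G
  rw [h, smul_eq_mul, smul_eq_mul]
  ring

private theorem dw_mul (F G : PP) : dw (F * G) = dw F * G + F * dw G :=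
  der_mul F G

/-- derivative in `z` -/
private noncomputable def dz (F : PP) : PP := sw (dw (sw F))

private theorem cc_dz (F : PP) (j k : ℕ) : cc (dz F) j k = ((j : ℂ) + 1) * cc F (j + 1) k := by
  unfold dz
  rw [cc_sw, cc_dw, cc_sw]

private theorem dz_mul (F G : PP) : dz (F * G) = dz F * G + F * dz G := by
  unfold dz
  rw [sw_mul, dw_mul, sw_add, sw_mul, sw_mul, sw_sw, sw_sw]

private theorem cc_Xmul_zero (F : PP) (j : ℕ) : cc (PowerSeries.X * F) j 0 = 0 := by
  simp [cc]

private theorem cc_Xmul_succ (F : PP) (j k : ℕ) :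
    cc (PowerSeries.X * F) j (k + 1) = cc F j k := by
  unfold cc
  rw [PowerSeries.coeff_succ_X_mul]

private theorem cc_CXmul_zero (F : PP) (k : ℕ) :
    cc (PowerSeries.C PowerSeries.X * F) 0 k = 0 := by
  unfold cc
  rw [PowerSeries.coeff_C_mul]
  simp

private theorem cc_CXmul_succ (F : PP) (j k : ℕ) :
    cc (PowerSeries.C PowerSeries.X * F) (j + 1) k = cc F j k := by
  unfold cc
  rw [PowerSeries.coeff_C_mul, PowerSeries.coeff_succ_X_mul]

theorem ring_exist (e : ℕ → ℂ) (he : e 0 = 1) :
    ∃ l : ℕ → ℕ → ℂ, (∀ j k, l j k = l k j) ∧ Geq e l ∧ Star l := by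
  -- the series `E` and its inverse
  set E : PP := mk2 fun j k => e (j + k) with hE
  have hEc : ∀ j k, cc E j k = e (j + k) := fun j k => cc_mk2 _ _ _
  have hEu : IsUnit E := by
    rw [PowerSeries.isUnit_iff_constantCoeff, PowerSeries.isUnit_iff_constantCoeff]
    have h0 : (PowerSeries.constantCoeff (R := ℂ))
        ((PowerSeries.constantCoeff (R := PowerSeries ℂ)) E) = cc E 0 0 := by
      unfold cc
      rw [PowerSeries.coeff_zero_eq_constantCoeff, PowerSeries.coeff_zero_eq_constantCoeff]
    rw [h0, hEc]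
    simp [he]
  obtain ⟨u, hu⟩ := hEu
  have huE : E * (↑u⁻¹ : PP) = 1 := by rw [← hu]; exact u.mul_inv
  have canc : ∀ A B : PP, E * A = E * B → A = B := by
    intro A B h
    rw [← hu] at h
    exact u.mul_right_inj.mp h
  set G : PP := dw E * (↑u⁻¹ : PP) with hG
  set H : PP := dz E * (↑u⁻¹ : PP) with hH
  have hEG : E * G = dw E := by
    rw [hG, mul_left_comm, huE, mul_one]
  have hEH : E * H = dz E := by
    rw [hH, mul_left_comm, huE, mul_one]
  have hswE : sw E = E := by
    apply cc_ext
    intro j k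
    rw [cc_sw, hEc, hEc, add_comm]
  have hswG : sw G = H := by
    apply canc
    rw [hEH]
    have : sw (E * G) = dz E := by
      rw [hEG]
      unfold dz
      rw [hswE]
    rw [sw_mul, hswE] at this
    exact this
  have hHG : ∀ j k, cc H j k = cc G k j := by
    intro j k
    rw [← hswG, cc_sw]
  have hzw : dz (dw E) = dw (dz E) := by
    apply cc_ext
    intro j k
    rw [cc_dz, cc_dw, cc_dw, cc_dz]
    ring
  have h1 : dz E * G + E * dz G = dz (dw E) := by rw [← dz_mul, hEG]
  have h2 : dw E * H + E * dw H = dw (dz E) := by rw [← dw_mul, hEH]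
  have hGH : dz G = dw H := by
    apply canc
    have h3 : dz E * G = dw E * H := by rw [← hEH, ← hEG]; ring
    have h4 : E * dz G = dz (dw E) - dz E * G := by rw [← h1]; ring
    have h5 : E * dw H = dw (dz E) - dw E * H := by rw [← h2]; ring
    rw [h4, h5, h3, hzw]
  have hsym : ∀ j k : ℕ, ((j : ℂ) + 1) * cc G (j + 1) k = ((k : ℂ) + 1) * cc G (k + 1) j := by
    intro j k
    rw [← cc_dz, hGH, cc_dw, hHG]
  have hmain : (PowerSeries.X - PowerSeries.C PowerSeries.X) * (dz G + G * H) = G - H := by
    apply canc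
    have h6 : E * ((PowerSeries.X - PowerSeries.C PowerSeries.X) * (dz G + G * H)) =
        (PowerSeries.X - PowerSeries.C PowerSeries.X) * dz (dw E) := by
      rw [← h1, ← hEH]
      ring
    rw [h6, mul_sub E G H, hEG, hEH]
    apply cc_ext
    intro j k
    rw [sub_mul, cc_sub, cc_sub, cc_dw, cc_dz, hEc, hEc]
    have h7 : cc (PowerSeries.X * dz (dw E)) j k = ((j : ℂ) + 1) * k * e (j + k + 1) := by
      cases k with
      | zero => rw [cc_Xmul_zero]; simp
      | succ k =>
        rw [cc_Xmul_succ, cc_dz, cc_dw, hEc]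
        have : j + 1 + (k + 1) = j + (k + 1) + 1 := by ring
        rw [this]
        push_cast
        ring
    have h8 : cc (PowerSeries.C PowerSeries.X * dz (dw E)) j k =
        (j : ℂ) * (k + 1) * e (j + k + 1) := by
      cases j with
      | zero => rw [cc_CXmul_zero]; simp
      | succ j =>
        rw [cc_CXmul_succ, cc_dz, cc_dw, hEc]
        have : j + 1 + (k + 1) = j + 1 + k + 1 := by ring
        rw [this]
        push_cast
        ring
    rw [h7, h8]
    have h9 : j + (k + 1) = j + k + 1 := by ring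
    have h10 : j + 1 + k = j + k + 1 := by ring
    rw [h9, h10]
    ring
  -- the array `l`
  let l : ℕ → ℕ → ℂ := fun j k =>
    if k = 0 then (if j = 0 then 0 else cc G 0 (j - 1) / j) else cc G j (k - 1) / k
  have hl1 : ∀ j k : ℕ, ((k : ℂ) + 1) * l j (k + 1) = cc G j k := by
    intro j k
    have hk : ((k : ℂ) + 1) ≠ 0 := by exact_mod_cast Nat.succ_ne_zero k
    simp only [l, Nat.succ_ne_zero, if_false, Nat.add_sub_cancel]
    push_cast
    field_simp
  have hls : ∀ j k, l j k = l k j := by
    intro j k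
    rcases Nat.eq_zero_or_pos j with hj | hj <;> rcases Nat.eq_zero_or_pos k with hk | hk
    · rw [hj, hk]
    · obtain ⟨k, rfl⟩ : ∃ k', k = k' + 1 := ⟨k - 1, by omega⟩
      subst hj
      simp [l]
    · obtain ⟨j, rfl⟩ : ∃ k', j = k' + 1 := ⟨j - 1, by omega⟩
      subst hk
      simp [l]
    · obtain ⟨k, rfl⟩ : ∃ k', k = k' + 1 := ⟨k - 1, by omega⟩
      obtain ⟨j, rfl⟩ : ∃ k', j = k' + 1 := ⟨j - 1, by omega⟩
      have hk : ((k : ℂ) + 1) ≠ 0 := by exact_mod_cast Nat.succ_ne_zero k
      have hj : ((j : ℂ) + 1) ≠ 0 := by exact_mod_cast Nat.succ_ne_zero j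
      have e1 := hl1 (j + 1) k
      have e2 := hl1 (k + 1) j
      have e3 := hsym j k
      rw [← e1, ← e2] at e3
      have e4 : ((j : ℂ) + 1) * (k + 1) * (l (j + 1) (k + 1) - l (k + 1) (j + 1)) = 0 := by
        linear_combination e3
      rcases mul_eq_zero.mp e4 with h | h
      · exact absurd h (mul_ne_zero hj hk)
      · exact sub_eq_zero.mp h
  have hpi : ∀ j k, pi2 l j k = cc (G * H) j k := by
    intro j k
    rw [cc_mul]
    unfold pi2
    refine Finset.sum_congr rfl fun p _ => Finset.sum_congr rfl fun q _ => ?_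
    rw [hl1, hl1, hHG]
  refine ⟨l, hls, ?_, ?_⟩
  · intro j k
    have h := congrArg (fun F => cc F j k) hEG
    simp only [cc_mul, cc_dw, hEc] at h
    rw [show j + k + 1 = j + (k + 1) by ring, ← h]
    refine Finset.sum_congr rfl fun p _ => Finset.sum_congr rfl fun q _ => ?_
    rw [hl1]
  · intro j k
    have h := congrArg (fun F => cc F j k) hmain
    simp only [sub_mul, cc_sub] at h
    have h7 : cc (PowerSeries.X * (dz G + G * H)) j k =
        ((j : ℂ) + 1) * (k * l (j + 1) k) + (if k = 0 then 0 else pi2 l j (k - 1)) := by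
      cases k with
      | zero => rw [cc_Xmul_zero]; simp
      | succ k =>
        rw [cc_Xmul_succ, cc_add, cc_dz, ← hpi, ← hl1]
        simp
    have h8 : cc (PowerSeries.C PowerSeries.X * (dz G + G * H)) j k =
        (j : ℂ) * ((k + 1) * l j (k + 1)) + (if j = 0 then 0 else pi2 l (j - 1) k) := by
      cases j with
      | zero => rw [cc_CXmul_zero]; simp
      | succ j =>
        rw [cc_CXmul_succ, cc_add, cc_dz, ← hpi, ← hl1]
        simp
    rw [h7, h8, hHG, ← hl1, ← hl1, hls k (j + 1)] at h
    linear_combination h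

end Pool.Agent.Helper21.IM
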