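import Pool.Agent.Helper21.IM.Link
import Pool.Agent.Helper21.IM.FRing
import Pool.Agent.Helper21.IM.FFour
import Pool.Agent.Helper21.IM.DerivNe

/-!
# IM-DE: existence of the coefficient data

`F` has a power series `f` (`ps_exists`), `f 0 = 0`, `f 1 = 1`; `e m = f (m+1)`.  `pre F` is analytic
(`deriv_ne`) with coefficients `n`; `F'' = pre F * F'` gives `Nrec e n` (`ps_deriv`, `ps_mul`,
`ps_unique`).  `ring_exist`, `diag0`, `f_i0`, `f_i2`, `f_i4`, `link`.
-/

set_option autoImplicit false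

namespace Pool.Agent.Helper21.IM

open Complex Metric Set Real Finset

theorem dat_ex {F : ℂ → ℂ} (hF : Sch F) : ∃ (n : ℕ → ℂ) (l : ℕ → ℕ → ℂ), Dat F n l := by
  have hd : ∀ z ∈ ball (0 : ℂ) 1, deriv F z ≠ 0 := fun z hz =>
    deriv_ne isOpen_ball hF.an hF.inj hz
  obtain ⟨f, hf⟩ := ps_exists hF.an
  have hf' := ps_deriv hf
  have hf'' := ps_deriv hf'
  have hf0 : f 0 = 0 := by
    rw [← ps_zero hf]
    exact hF.z0
  have hf1 : f 1 = 1 := by
    have h := ps_zero hf'
    rw [hF.d0] at h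
    rw [h]
    push_cast
    ring
  obtain ⟨e, he⟩ : ∃ e : ℕ → ℂ, ∀ i, e i = f (i + 1) := ⟨fun i => f (i + 1), fun _ => rfl⟩
  have he0 : e 0 = 1 := by
    rw [he]
    exact hf1
  have he' : PS F (fun m => if m = 0 then 0 else e (m - 1)) := by
    have h : (fun m => if m = 0 then (0 : ℂ) else e (m - 1)) = f := by
      funext m
      rcases Nat.eq_zero_or_pos m with h0 | h0
      · rw [if_pos h0, h0, hf0]
      · rw [if_neg (Nat.pos_iff_ne_zero.1 h0), he, Nat.sub_add_cancel h0]
    rw [h]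
    exact hf
  obtain ⟨n, hn⟩ := ps_exists ((ps_diff hf'').div (ps_diff hf') hd)
  have hn' : PS (pre F) n := ps_congr hn fun z _ => rfl
  have hmul := ps_mul hn' hf'
  have hmul' : PS (deriv (deriv F)) (cv n (fun m => ((m : ℂ) + 1) * f (m + 1))) := by
    refine ps_congr hmul fun z hz => ?_
    show deriv (deriv F) z / deriv F z * deriv F z = deriv (deriv F) z
    exact div_mul_cancel₀ _ (hd z hz)
  have hrec : Nrec e n := by
    intro m
    have h := congrFun (ps_unique hmul' hf'') m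
    unfold cv at h
    have h2 : ∑ p ∈ antidiagonal m, n p.1 * (((p.2 : ℂ) + 1) * e p.2) =
        ∑ p ∈ antidiagonal m, n p.1 * (((p.2 : ℂ) + 1) * f (p.2 + 1)) :=
      Finset.sum_congr rfl fun p _ => by rw [he]
    rw [h2, h, he]
    push_cast
    ring
  obtain ⟨l, hs, hg, hst⟩ := ring_exist e he0
  have hdg := diag0 he0 hg hrec
  exact ⟨n, l,
    { sch := hF
      pn := hn'
      sym := hs
      link := link hF hd he' hg
      i0 := f_i0 hs hdg
      i2 := f_i2 hs hst hdg
      i4 := f_i4 hs hst hdg }⟩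

end Pool.Agent.Helper21.IM
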