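import Mathlib

/-!
# Integral means of the derivative of univalent functions: definitions

All functions live on the unit disc `ball 0 1`.
-/

set_option autoImplicit false

namespace Pool.Agent.Helper21.IM

open Complex Metric Set Real Finset

/-- normalised univalent functions on the unit disc -/
structure Sch (F : ℂ → ℂ) : Prop where
  an : DifferentiableOn ℂ F (ball 0 1)
  inj : InjOn F (ball 0 1)
  z0 : F 0 = 0
  d0 : deriv F 0 = 1

/-- the power series with the coefficients `a` converges to `P` on the unit disc -/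
def PS (P : ℂ → ℂ) (a : ℕ → ℂ) : Prop :=
  ∀ z ∈ ball (0 : ℂ) 1, HasSum (fun m => a m * z ^ m) (P z)

/-- Cauchy product of two sequences -/
def cv (a b : ℕ → ℂ) (m : ℕ) : ℂ := ∑ p ∈ antidiagonal m, a p.1 * b p.2

/-- pre-Schwarzian `F'' / F'` -/
noncomputable def pre (F : ℂ → ℂ) (z : ℂ) : ℂ := deriv (deriv F) z / deriv F z

/-- coefficients of the Schwarzian `N' - N^2 / 2`, `n` = the coefficients of `N` -/
noncomputable def sz (n : ℕ → ℂ) (i : ℕ) : ℂ := (i + 1) * n (i + 1) - cv n n i / 2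

/-- the kernel `F'(w) / (F(w) - F(z)) - 1 / (w - z)` -/
noncomputable def G (F : ℂ → ℂ) (z w : ℂ) : ℂ := deriv F w / (F w - F z) - 1 / (w - z)

/-- the kernel `G (z, w) - G (0, w)` (for `F 0 = 0`) -/
noncomputable def G0 (F : ℂ → ℂ) (z w : ℂ) : ℂ := G F z w - G F 0 w

/-- homogeneous part of degree `m` of the `w`-derivative of the double series with coefficients `l` -/
noncomputable def gh (l : ℕ → ℕ → ℂ) (m : ℕ) (z w : ℂ) : ℂ :=
  ∑ p ∈ antidiagonal m, (((p.2 : ℂ) + 1) * l p.1 (p.2 + 1)) * z ^ p.1 * w ^ p.2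

/-- second discrete Legendre polynomial on `0, ..., m` -/
def p2 (m k : ℕ) : ℤ := m * (m - 1) - 6 * k * (m - k)

/-- fourth discrete Legendre polynomial on `0, ..., m` -/
def p4 (m k : ℕ) : ℤ :=
  m * (m - 1) * (m - 2) * (m - 3) - 20 * (m - 2) * (m - 3) * k * (m - k)
    + 70 * k * (k - 1) * (m - k) * (m - k - 1)

/-- The coefficient data of a normalised univalent function: `n` are the coefficients of `F''/F'`,
`l j k` the coefficients of `log ((F w - F z) / (w - z))`. -/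
structure Dat (F : ℂ → ℂ) (n : ℕ → ℂ) (l : ℕ → ℕ → ℂ) : Prop where
  sch : Sch F
  pn : PS (pre F) n
  sym : ∀ j k, l j k = l k j
  link : ∀ z ∈ ball (0 : ℂ) 1, ∀ w ∈ ball (0 : ℂ) 1, z ≠ w → HasSum (fun m => gh l m z w) (G F z w)
  i0 : ∀ m : ℕ, ∑ p ∈ antidiagonal (m + 1), l p.1 p.2 = n m / (m + 1)
  i2 : ∀ m : ℕ, ∑ p ∈ antidiagonal (m + 2), (p2 (m + 2) p.2 : ℂ) * l p.1 p.2 = cv n n m / 2
  i4 : ∀ m : ℕ, ∑ p ∈ antidiagonal (m + 4), (p4 (m + 4) p.2 : ℂ) * l p.1 p.2 =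
    ((m : ℂ) + 2) * (m + 1) / 2 * cv n n (m + 2) - 7 / 3 * cv (sz n) (sz n) m

/-- coefficients of `log F'` -/
noncomputable def gs (n : ℕ → ℂ) (m : ℕ) : ℂ := n (m - 1) / m

/-- coefficients of `Nh = i z F''/F'` -/
noncomputable def nu (n : ℕ → ℂ) (m : ℕ) : ℂ := if m = 0 then 0 else I * n (m - 1)

/-- coefficients of `Nh ^ 2` -/
noncomputable def qa (n : ℕ → ℂ) : ℕ → ℂ := cv (nu n) (nu n)

/-- coefficients of `Sh = i z Nh' - Nh ^ 2 / 2` -/
noncomputable def si (n : ℕ → ℂ) (m : ℕ) : ℂ := I * m * nu n m - qa n m / 2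

/-- coefficients of `Sh ^ 2` -/
noncomputable def qq (n : ℕ → ℂ) : ℕ → ℂ := cv (si n) (si n)

/-- the `m`-th term of the energy -/
noncomputable def jt (n : ℕ → ℂ) (m : ℕ) : ℝ :=
  ‖gs n m‖ ^ 2 / 2 + 7 / 4 * ‖qa n m‖ ^ 2 / m ^ 4
    + 21 / 2 * (qa n m * (starRingEnd ℂ) (qq n m)).re / m ^ 6 + 49 / 2 * ‖qq n m‖ ^ 2 / m ^ 8

end Pool.Agent.Helper21.IM
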