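import Pool.Agent.Helper21.IM.Defs

/-!
# IM-OR: orthogonality in `z`

Fix `w`, `0 < ‖w‖ < ρ < 1`.  Put `a z = 1 / (w - z) - 1 / w`.  Then
`F'(w) / (F(w) - F(z)) - F'(w) / F(w) = a z + G0 F z w` for `‖z‖ = ρ`.
`circleAverage ‖a‖² 0 ρ = 1/‖w‖² + 1/(ρ² - ‖w‖²)`: `a z = -(1/w) - ∑ w^k / z^(k+1)` on the circle.
The cross term `circleAverage (fun z => conj (a z) * G0 F z w) 0 ρ` vanishes: on the circle
`conj z = ρ² / z`, so `conj (1 / (w - z)) = z / (conj w * z - ρ²)`, which is analytic for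
`‖z‖ < ρ² / ‖w‖`; `z ↦ G0 F z w` extends to an analytic function on the disc (for `z ≠ w` it is
`dslope (dslope F w) w z / dslope F w z - G F 0 w`; `dslope F w z ≠ 0` because `F` is injective and
`F' w ≠ 0`), which vanishes at `z = 0`; the circle average of an analytic function is its value at the
centre (`circleAverage_of_differentiable_on` or `DiffContOnCl.circleAverage`), here `0`.
-/

set_option autoImplicit false

namespace Pool.Agent.Helper21.IM

open Complex Metric Set Real Finset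

/-- for fixed `w`, the function `z ↦ G0 F z w` extends to an analytic function on the disc -/
theorem g0_ext {F : ℂ → ℂ} (hF : Sch F) (hd : ∀ z ∈ ball (0 : ℂ) 1, deriv F z ≠ 0) {w : ℂ}
    (hw : w ∈ ball (0 : ℂ) 1) (hw0 : w ≠ 0) :
    ∃ g : ℂ → ℂ, DifferentiableOn ℂ g (ball 0 1) ∧ g 0 = 0 ∧
      ∀ z ∈ ball (0 : ℂ) 1, z ≠ w → g z = G0 F z w := by
  have hnhds : ball (0 : ℂ) 1 ∈ nhds w := isOpen_ball.mem_nhds hw
  have h1 : DifferentiableOn ℂ (dslope F w) (ball 0 1) :=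
    (differentiableOn_dslope hnhds).mpr hF.an
  have h2 : DifferentiableOn ℂ (dslope (dslope F w) w) (ball 0 1) :=
    (differentiableOn_dslope hnhds).mpr h1
  have h3 : ∀ z ∈ ball (0 : ℂ) 1, dslope F w z ≠ 0 := by
    intro z hz
    rcases eq_or_ne z w with rfl | hne
    · rw [dslope_same]
      exact hd _ hz
    · rw [dslope_of_ne _ hne, slope_def_field]
      exact div_ne_zero (sub_ne_zero.mpr fun h => hne (hF.inj hz hw h)) (sub_ne_zero.mpr hne)
  have h4 : ∀ z ∈ ball (0 : ℂ) 1, z ≠ w →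
      dslope (dslope F w) w z / dslope F w z = G F z w := by
    intro z hz hne
    have h5 : F w - F z ≠ 0 := sub_ne_zero.mpr fun h => hne (hF.inj hw hz h).symm
    have h5' : F z - F w ≠ 0 := sub_ne_zero.mpr fun h => hne (hF.inj hz hw h)
    have h6 : w - z ≠ 0 := sub_ne_zero.mpr hne.symm
    have h6' : z - w ≠ 0 := sub_ne_zero.mpr hne
    rw [dslope_of_ne _ hne, slope_def_field, dslope_same, dslope_of_ne _ hne, slope_def_field]
    unfold G
    field_simp
    ring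
  refine ⟨fun z => dslope (dslope F w) w z / dslope F w z - G F 0 w,
    (h2.div h1 h3).sub_const _, ?_, ?_⟩
  · show dslope (dslope F w) w 0 / dslope F w 0 - G F 0 w = 0
    rw [h4 0 (mem_ball_self one_pos) hw0.symm, sub_self]
  · intro z hz hne
    show dslope (dslope F w) w z / dslope F w z - G F 0 w = _
    rw [h4 z hz hne]
    rfl

private theorem orth_mean {B : ℂ → ℂ} {ρ R : ℝ} (h0 : 0 < ρ) (hR : ρ < R)
    (hB : DifferentiableOn ℂ B (ball 0 R)) : circleAverage B 0 ρ = B 0 := by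
  apply DiffContOnCl.circleAverage
  apply DifferentiableOn.diffContOnCl
  rw [abs_of_pos h0, closure_ball _ h0.ne']
  exact hB.mono (closedBall_subset_ball hR)

theorem orth {F : ℂ → ℂ} (hF : Sch F) (hd : ∀ z ∈ ball (0 : ℂ) 1, deriv F z ≠ 0) {ρ : ℝ} {w : ℂ}
    (h0 : 0 < ‖w‖) (h1 : ‖w‖ < ρ) (h2 : ρ < 1) :
    circleAverage (fun z => ‖deriv F w / (F w - F z) - deriv F w / F w‖ ^ 2) 0 ρ =
      1 / ‖w‖ ^ 2 + 1 / (ρ ^ 2 - ‖w‖ ^ 2) + circleAverage (fun z => ‖G0 F z w‖ ^ 2) 0 ρ := by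
  have hρ : 0 < ρ := h0.trans h1
  have hw0 : w ≠ 0 := norm_pos_iff.mp h0
  have hw : w ∈ ball (0 : ℂ) 1 := by
    rw [mem_ball_zero_iff]
    exact h1.trans h2
  obtain ⟨g, hg, hg0, hgG⟩ := g0_ext hF hd hw hw0
  have hcw : (starRingEnd ℂ) w ≠ 0 := by simpa using hw0
  have hρ2 : ‖w‖ ^ 2 < ρ ^ 2 := by gcongr
  have hd2 : 0 < ρ ^ 2 - ‖w‖ ^ 2 := by linarith
  -- the radius of analyticity
  obtain ⟨R, hRρ, hR1, hRw⟩ : ∃ R : ℝ, ρ < R ∧ R ≤ 1 ∧ R * ‖w‖ ≤ ρ ^ 2 := by
    refine ⟨min 1 (ρ ^ 2 / ‖w‖), lt_min h2 ?_, min_le_left _ _, ?_⟩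
    · rw [lt_div_iff₀ h0, sq]
      gcongr
    · calc min 1 (ρ ^ 2 / ‖w‖) * ‖w‖ ≤ ρ ^ 2 / ‖w‖ * ‖w‖ := by
            gcongr
            exact min_le_right _ _
        _ = ρ ^ 2 := by field_simp
  have hne : ∀ z ∈ ball (0 : ℂ) R, ((ρ : ℂ) ^ 2 - (starRingEnd ℂ) w * z) ≠ 0 := by
    intro z hz h
    rw [sub_eq_zero] at h
    have h3 := congrArg norm h
    rw [norm_pow, Complex.norm_real, Real.norm_eq_abs, abs_of_pos hρ, norm_mul,
      RCLike.norm_conj] at h3
    have h4 : ‖z‖ < R := by simpa using hz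
    have h5 : ‖w‖ * ‖z‖ < ‖w‖ * R := by gcongr
    nlinarith
  -- the analytic function
  set K : ℝ := 1 / ‖w‖ ^ 2 + 1 / (ρ ^ 2 - ‖w‖ ^ 2) with hK
  set E : ℂ → ℂ := fun z => 2 * K * ((starRingEnd ℂ) w * z / ((ρ : ℂ) ^ 2 - (starRingEnd ℂ) w * z)) +
    2 * (g z * (-(ρ : ℂ) ^ 2 / ((starRingEnd ℂ) w * ((ρ : ℂ) ^ 2 - (starRingEnd ℂ) w * z)))) with hE
  have hEd : DifferentiableOn ℂ E (ball 0 R) := by
    have hg' : DifferentiableOn ℂ g (ball 0 R) := hg.mono (ball_subset_ball hR1)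
    have hden : DifferentiableOn ℂ (fun z : ℂ => (ρ : ℂ) ^ 2 - (starRingEnd ℂ) w * z)
        (ball 0 R) := by fun_prop
    refine DifferentiableOn.add ?_ ?_
    · refine DifferentiableOn.const_mul (DifferentiableOn.div (by fun_prop) hden hne) _
    · refine DifferentiableOn.const_mul (hg'.mul (DifferentiableOn.div (by fun_prop)
        (hden.const_mul _) fun z hz => mul_ne_zero hcw (hne z hz))) _
  have hE0 : circleAverage E 0 ρ = 0 := by
    rw [orth_mean hρ hRρ hEd, hE]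
    simp [hg0]
  have hsph : ∀ z ∈ sphere (0 : ℂ) |ρ|, ‖z‖ = ρ ∧ z ∈ ball (0 : ℂ) 1 ∧ z ∈ ball (0 : ℂ) R ∧ z ≠ w := by
    intro z hz
    rw [mem_sphere_zero_iff_norm, abs_of_pos hρ] at hz
    refine ⟨hz, by simpa [hz] using h2, by simpa [hz] using hRρ, ?_⟩
    rintro rfl
    linarith
  have hcontE : ContinuousOn E (sphere 0 |ρ|) :=
    hEd.continuousOn.mono fun z hz => (hsph z hz).2.2.1
  have hEre : circleAverage (fun z => (E z).re) 0 ρ = 0 := by
    have h3 := Complex.reCLM.circleAverage_comp_comm (f := E) (c := 0) (R := ρ)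
      (hcontE.circleIntegrable')
    have h4 : (Complex.reCLM ∘ E) = fun z => (E z).re := rfl
    rw [h4] at h3
    rw [h3, hE0]
    simp
  have hcontG : ContinuousOn (fun z => ‖G0 F z w‖ ^ 2) (sphere 0 |ρ|) := by
    have h3 : ContinuousOn (fun z => ‖g z‖ ^ 2) (sphere (0 : ℂ) |ρ|) :=
      (hg.continuousOn.mono fun z hz => (hsph z hz).2.1).norm.pow 2
    refine h3.congr fun z hz => ?_
    show ‖G0 F z w‖ ^ 2 = ‖g z‖ ^ 2
    rw [hgG z (hsph z hz).2.1 (hsph z hz).2.2.2]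
  -- the pointwise identity
  have hpt : EqOn (fun z => ‖deriv F w / (F w - F z) - deriv F w / F w‖ ^ 2)
      (fun z => (K + (E z).re) + ‖G0 F z w‖ ^ 2) (sphere 0 |ρ|) := by
    intro z hz
    obtain ⟨hz1, hz2, hz3, hz4⟩ := hsph z hz
    have hz0 : z ≠ 0 := norm_pos_iff.mp (by rw [hz1]; exact hρ)
    have hwz : w - z ≠ 0 := sub_ne_zero.mpr hz4.symm
    have hG : G0 F z w = g z := (hgG z hz2 hz4).symm
    show ‖deriv F w / (F w - F z) - deriv F w / F w‖ ^ 2 = (K + (E z).re) + ‖G0 F z w‖ ^ 2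
    rw [hG]
    have h3 : deriv F w / (F w - F z) - deriv F w / F w = g z + z / (w * (w - z)) := by
      rw [← hG]
      unfold G0 G
      rw [hF.z0]
      simp only [sub_zero]
      field_simp
      ring
    rw [h3, ← Complex.normSq_eq_norm_sq, Complex.normSq_add, Complex.normSq_eq_norm_sq (g z)]
    have hzz : z * (starRingEnd ℂ) z = (ρ : ℂ) ^ 2 := by
      rw [Complex.mul_conj, Complex.normSq_eq_norm_sq, hz1]
      norm_num
    have hww : w * (starRingEnd ℂ) w = ((‖w‖ ^ 2 : ℝ) : ℂ) := by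
      rw [Complex.mul_conj, Complex.normSq_eq_norm_sq]
    have hcz : (starRingEnd ℂ) z ≠ 0 := by simpa using hz0
    have hcwz : (starRingEnd ℂ) w - (starRingEnd ℂ) z ≠ 0 := by
      rw [← map_sub]
      exact (map_ne_zero (starRingEnd ℂ)).mpr hwz
    have hden : (ρ : ℂ) ^ 2 - (starRingEnd ℂ) w * z = -(z * ((starRingEnd ℂ) w - (starRingEnd ℂ) z)) := by
      rw [← hzz]
      ring
    -- the norm of `a`
    have h4 : ((Complex.normSq (z / (w * (w - z))) : ℝ) : ℂ) =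
        K * (1 + (starRingEnd ℂ) w * z / ((ρ : ℂ) ^ 2 - (starRingEnd ℂ) w * z) +
          (starRingEnd ℂ) ((starRingEnd ℂ) w * z / ((ρ : ℂ) ^ 2 - (starRingEnd ℂ) w * z))) := by
      have hKc : (K : ℂ) = (ρ : ℂ) ^ 2 / (w * (starRingEnd ℂ) w *
          ((ρ : ℂ) ^ 2 - w * (starRingEnd ℂ) w)) := by
        rw [hww, hK]
        have e1 : ((‖w‖ : ℝ) : ℂ) ≠ 0 := by exact_mod_cast h0.ne'
        have e2 : ((ρ : ℂ) ^ 2 - ((‖w‖ : ℝ) : ℂ) ^ 2) ≠ 0 := by exact_mod_cast hd2.ne'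
        push_cast
        field_simp
        ring
      have e3 : (ρ : ℂ) ^ 2 - w * (starRingEnd ℂ) w ≠ 0 := by
        rw [hww]
        exact_mod_cast hd2.ne'
      have hcρ : (starRingEnd ℂ) ((ρ : ℂ) ^ 2 - (starRingEnd ℂ) w * z) =
          -((starRingEnd ℂ) z * (w - z)) := by
        rw [hden]
        simp
      rw [hKc, ← Complex.mul_conj, map_div₀ (starRingEnd ℂ) ((starRingEnd ℂ) w * z), hcρ, hden]
      simp only [map_div₀, map_mul, map_sub, Complex.conj_conj]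
      rw [← hzz] at e3 ⊢
      field_simp
      ring
    have h5 : Complex.normSq (z / (w * (w - z))) =
        K + 2 * K * ((starRingEnd ℂ) w * z / ((ρ : ℂ) ^ 2 - (starRingEnd ℂ) w * z)).re := by
      have h6 := congrArg Complex.re h4
      rw [Complex.ofReal_re, Complex.re_ofReal_mul] at h6
      rw [h6]
      simp only [Complex.add_re, Complex.one_re, Complex.conj_re]
      ring
    have h7 : (starRingEnd ℂ) (z / (w * (w - z))) =
        -(ρ : ℂ) ^ 2 / ((starRingEnd ℂ) w * ((ρ : ℂ) ^ 2 - (starRingEnd ℂ) w * z)) := by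
      rw [hden, ← hzz]
      simp only [map_div₀, map_mul, map_sub]
      field_simp
    rw [h5, h7, hE]
    have h8 : ((2 : ℂ) * K * ((starRingEnd ℂ) w * z / ((ρ : ℂ) ^ 2 - (starRingEnd ℂ) w * z)) +
        2 * (g z * (-(ρ : ℂ) ^ 2 / ((starRingEnd ℂ) w * ((ρ : ℂ) ^ 2 - (starRingEnd ℂ) w * z))))).re =
        2 * K * ((starRingEnd ℂ) w * z / ((ρ : ℂ) ^ 2 - (starRingEnd ℂ) w * z)).re +
        2 * (g z * (-(ρ : ℂ) ^ 2 / ((starRingEnd ℂ) w * ((ρ : ℂ) ^ 2 - (starRingEnd ℂ) w * z)))).re := by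
      rw [Complex.add_re]
      congr 1
      · have : (2 : ℂ) * K = ((2 * K : ℝ) : ℂ) := by push_cast; ring
        rw [this, Complex.re_ofReal_mul]
      · have : (2 : ℂ) = ((2 : ℝ) : ℂ) := by norm_num
        rw [this, Complex.re_ofReal_mul]
    show _ = K + Complex.re _ + _
    rw [h8]
    ring
  rw [circleAverage_congr_sphere hpt]
  have hcK : ContinuousOn (fun z => K + (E z).re) (sphere (0 : ℂ) |ρ|) :=
    continuousOn_const.add (Complex.continuous_re.comp_continuousOn hcontE)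
  rw [circleAverage_fun_add hcK.circleIntegrable' hcontG.circleIntegrable']
  congr 1
  have hA : CircleIntegrable (fun _ : ℂ => K) 0 ρ := continuousOn_const.circleIntegrable'
  have hB : CircleIntegrable (fun z => (E z).re) 0 ρ :=
    (Complex.continuous_re.comp_continuousOn hcontE).circleIntegrable'
  rw [circleAverage_fun_add hA hB, circleAverage_const, hEre, add_zero]

end Pool.Agent.Helper21.IM
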