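import Pool.Agent.Helper21.IM.Par

/-!
# IM-TO: Bessel inequality on the torus

`D.link` for `(z, w)` and for `(0, w)` gives, for `z ≠ w`,
`G0 F z w = ∑ m, g m z w`, `g m z w = ∑_{p ∈ antidiagonal m, p.1 ≠ 0} ((p.2+1) l p.1 (p.2+1)) z^p.1 w^p.2`,
and `g m (u z) (u w) = u^m g m z w`.  Write the double average as the average over
`z = ρ e^{iα}`, `w = r e^{i(α + γ)}` (shift of the angle of `w`, periodicity).  For fixed `γ`, the function
`α ↦ G0 F (ρ e^{iα}) (r e^{iα} e^{iγ}) = ∑ m e^{i m α} g m ρ (r e^{iγ})` (absolutely convergent, because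
`HasSum` in `ℂ` is unconditional), so its mean square is `∑ m ‖g m ρ (r e^{iγ})‖²`, which is at least
the sum over the `m < M`; the mean over `γ` of `‖g m ρ (r e^{iγ})‖²` is
`∑_p ‖(p.2+1) l p.1 (p.2+1)‖² ρ^(2 p.1) r^(2 p.2)` (a trigonometric polynomial).
-/

set_option autoImplicit false

namespace Pool.Agent.Helper21.IM

open Complex Metric Set Real Finset

private theorem Torus_G0_cont {F : ℂ → ℂ} (hF : Sch F) :
    ContinuousOn (fun q : ℂ × ℂ => G0 F q.1 q.2)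
      {q | q.1 ∈ ball (0 : ℂ) 1 ∧ q.2 ∈ ball (0 : ℂ) 1 ∧ q.1 ≠ q.2 ∧ q.2 ≠ 0} := by
  have h1 : ContinuousOn F (ball 0 1) := hF.an.continuousOn
  have h2 : ContinuousOn (deriv F) (ball 0 1) := (hF.an.deriv isOpen_ball).continuousOn
  set S : Set (ℂ × ℂ) := {q | q.1 ∈ ball (0 : ℂ) 1 ∧ q.2 ∈ ball (0 : ℂ) 1 ∧ q.1 ≠ q.2 ∧ q.2 ≠ 0}
    with hS
  have f1 : ContinuousOn (fun q : ℂ × ℂ => F q.1) S := h1.comp continuousOn_fst fun q hq => hq.1
  have f2 : ContinuousOn (fun q : ℂ × ℂ => F q.2) S := h1.comp continuousOn_snd fun q hq => hq.2.1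
  have f3 : ContinuousOn (fun q : ℂ × ℂ => deriv F q.2) S :=
    h2.comp continuousOn_snd fun q hq => hq.2.1
  have h0 : (0 : ℂ) ∈ ball (0 : ℂ) 1 := mem_ball_self one_pos
  unfold G0 G
  refine ContinuousOn.sub (ContinuousOn.sub ?_ ?_) (ContinuousOn.sub ?_ ?_)
  · refine f3.div (f2.sub f1) fun q hq => ?_
    exact sub_ne_zero.2 fun h => hq.2.2.1 (hF.inj hq.1 hq.2.1 h.symm)
  · refine continuousOn_const.div (continuousOn_snd.sub continuousOn_fst) fun q hq => ?_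
    exact sub_ne_zero.2 fun h => hq.2.2.1 h.symm
  · refine f3.div (f2.sub continuousOn_const) fun q hq => ?_
    exact sub_ne_zero.2 fun h => hq.2.2.2 (hF.inj hq.2.1 h0 h)
  · refine continuousOn_const.div (continuousOn_snd.sub continuousOn_const) fun q hq => ?_
    exact sub_ne_zero.2 fun h => hq.2.2.2 h

/-- the coefficient of `z^j w^k` -/
private noncomputable def Tc (l : ℕ → ℕ → ℂ) (p : ℕ × ℕ) : ℂ :=
  if p.1 = 0 then 0 else ((p.2 : ℂ) + 1) * l p.1 (p.2 + 1)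

private theorem Torus_ps {F : ℂ → ℂ} {n : ℕ → ℂ} {l : ℕ → ℕ → ℂ} (D : Dat F n l) {s : ℂ}
    (hs : ‖s‖ < 1) (hs0 : s ≠ 0) :
    PS (fun u => G0 F u (s * u)) (fun m => ∑ p ∈ antidiagonal m, Tc l p * s ^ p.2) := by
  intro u hu
  by_cases hu0 : u = 0
  · subst hu0
    have e1 : G0 F 0 (s * 0) = 0 := by simp [G0]
    have e2 : (fun m => (∑ p ∈ antidiagonal m, Tc l p * s ^ p.2) * (0 : ℂ) ^ m) = fun _ => 0 := by
      funext m
      rcases m with _ | m
      · simp [Tc]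
      · simp
    simp only [e1, e2]
    exact hasSum_zero
  · have hu1 : ‖u‖ < 1 := by simpa using hu
    have hup : 0 < ‖u‖ := norm_pos_iff.2 hu0
    have hw0 : s * u ≠ 0 := mul_ne_zero hs0 hu0
    have hwn : ‖s * u‖ < ‖u‖ := by
      rw [norm_mul]
      calc ‖s‖ * ‖u‖ < 1 * ‖u‖ := mul_lt_mul_of_pos_right hs hup
        _ = ‖u‖ := one_mul _
    have hw : s * u ∈ ball (0 : ℂ) 1 := by
      rw [mem_ball_zero_iff]
      exact hwn.trans hu1
    have hne : u ≠ s * u := fun h => by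
      have h2 := congrArg norm h
      exact absurd h2 hwn.ne'
    have k1 := D.link u hu (s * u) hw hne
    have k2 := D.link 0 (mem_ball_self one_pos) (s * u) hw hw0.symm
    have k3 := k1.sub k2
    have e3 : (fun m => gh l m u (s * u) - gh l m 0 (s * u)) =
        fun m => (∑ p ∈ antidiagonal m, Tc l p * s ^ p.2) * u ^ m := by
      funext m
      rw [gh, gh, ← Finset.sum_sub_distrib, Finset.sum_mul]
      refine Finset.sum_congr rfl fun p hp => ?_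
      rw [Finset.HasAntidiagonal.mem_antidiagonal] at hp
      unfold Tc
      by_cases h0 : p.1 = 0
      · simp [h0]
      · rw [if_neg h0, zero_pow h0, ← hp, mul_pow, pow_add]
        ring
    rw [e3] at k3
    exact k3

private theorem Torus_poly (m : ℕ) (c : ℕ × ℕ → ℂ) {R : ℝ} (h0 : 0 ≤ R) (h1 : R < 1) :
    circleAverage (fun s => ‖∑ p ∈ antidiagonal m, c p * s ^ p.2‖ ^ 2) 0 R =
      ∑ p ∈ antidiagonal m, ‖c p‖ ^ 2 * R ^ (2 * p.2) := by
  have key : ∀ {A : Type} [AddCommMonoid A] (f : ℕ × ℕ → A),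
      ∑ p ∈ antidiagonal m, f p = ∑ k ∈ range (m + 1), f (m - k, k) := by
    intro A _ f
    rw [← Finset.Nat.sum_antidiagonal_swap, Finset.Nat.sum_antidiagonal_eq_sum_range_succ_mk]
    rfl
  have hP : PS (fun s => ∑ p ∈ antidiagonal m, c p * s ^ p.2)
      (fun k => if k < m + 1 then c (m - k, k) else 0) := by
    intro s _
    have e1 : ∑ p ∈ antidiagonal m, c p * s ^ p.2 =
        ∑ k ∈ range (m + 1), (if k < m + 1 then c (m - k, k) else 0) * s ^ k := by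
      rw [key]
      refine Finset.sum_congr rfl fun k hk => ?_
      rw [if_pos (Finset.mem_range.1 hk)]
    simp only [e1]
    refine hasSum_sum_of_ne_finset_zero fun k hk => ?_
    rw [if_neg (fun h => hk (Finset.mem_range.2 h)), zero_mul]
  have h2 := parseval_sq hP h0 h1
  have h3 : HasSum (fun k => ‖(if k < m + 1 then c (m - k, k) else 0 : ℂ)‖ ^ 2 * R ^ (2 * k))
      (∑ p ∈ antidiagonal m, ‖c p‖ ^ 2 * R ^ (2 * p.2)) := by
    have e2 : ∑ p ∈ antidiagonal m, ‖c p‖ ^ 2 * R ^ (2 * p.2) =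
        ∑ k ∈ range (m + 1), ‖(if k < m + 1 then c (m - k, k) else 0 : ℂ)‖ ^ 2 * R ^ (2 * k) := by
      rw [key]
      refine Finset.sum_congr rfl fun k hk => ?_
      rw [if_pos (Finset.mem_range.1 hk)]
    rw [e2]
    refine hasSum_sum_of_ne_finset_zero fun k hk => ?_
    rw [if_neg (fun h => hk (Finset.mem_range.2 h))]
    simp
  exact h2.unique h3

private theorem Torus_norm {R : ℝ} (h : 0 ≤ R) (θ : ℝ) : ‖circleMap 0 R θ‖ = R := by
  rw [norm_circleMap_zero, abs_of_nonneg h]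

private noncomputable def TH (F : ℂ → ℂ) (r ρ φ θ : ℝ) : ℝ :=
  ‖G0 F (circleMap 0 ρ φ) (circleMap 0 r θ)‖ ^ 2

private theorem Torus_H_cont {F : ℂ → ℂ} (hF : Sch F) {r ρ : ℝ} (h0 : 0 < r) (h1 : r < ρ)
    (h2 : ρ < 1) : Continuous (fun q : ℝ × ℝ => TH F r ρ q.1 q.2) := by
  have hρ : 0 < ρ := h0.trans h1
  have hc : Continuous (fun q : ℝ × ℝ => ((circleMap 0 ρ q.1, circleMap 0 r q.2) : ℂ × ℂ)) :=
    ((continuous_circleMap 0 ρ).comp continuous_fst).prodMk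
      ((continuous_circleMap 0 r).comp continuous_snd)
  have hm : ∀ q : ℝ × ℝ, ((circleMap 0 ρ q.1, circleMap 0 r q.2) : ℂ × ℂ) ∈
      {q : ℂ × ℂ | q.1 ∈ ball (0 : ℂ) 1 ∧ q.2 ∈ ball (0 : ℂ) 1 ∧ q.1 ≠ q.2 ∧ q.2 ≠ 0} := by
    intro q
    refine ⟨?_, ?_, ?_, ?_⟩
    · show circleMap 0 ρ q.1 ∈ ball (0 : ℂ) 1
      rw [mem_ball_zero_iff, Torus_norm hρ.le]
      exact h2
    · show circleMap 0 r q.2 ∈ ball (0 : ℂ) 1
      rw [mem_ball_zero_iff, Torus_norm h0.le]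
      exact h1.trans h2
    · show circleMap 0 ρ q.1 ≠ circleMap 0 r q.2
      intro h
      have h3 := congrArg norm h
      rw [Torus_norm hρ.le, Torus_norm h0.le] at h3
      exact h1.ne' h3
    · show circleMap 0 r q.2 ≠ 0
      intro h
      have h3 := congrArg norm h
      rw [Torus_norm h0.le, norm_zero] at h3
      exact h0.ne' h3
  have h3 := ((Torus_G0_cont hF).comp_continuous hc hm).norm.pow 2
  exact h3

private theorem Torus_H_eq {F : ℂ → ℂ} {r ρ : ℝ} (h0 : 0 < r) (h1 : r < ρ) (γ φ : ℝ) :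
    ‖G0 F (circleMap 0 ρ φ) (circleMap 0 (r / ρ) γ * circleMap 0 ρ φ)‖ ^ 2 =
      TH F r ρ φ (γ + φ) := by
  have hρ : (ρ : ℂ) ≠ 0 := by exact_mod_cast (h0.trans h1).ne'
  have e : circleMap 0 (r / ρ) γ * circleMap 0 ρ φ = circleMap 0 r (γ + φ) := by
    simp only [circleMap, zero_add]
    push_cast
    rw [add_mul, Complex.exp_add]
    field_simp
  rw [e]
  rfl

private theorem Torus_swap {f : ℝ × ℝ → ℝ} (hf : Continuous f) :
    ∫ x in (0 : ℝ)..2 * π, ∫ y in (0 : ℝ)..2 * π, f (x, y) =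
      ∫ y in (0 : ℝ)..2 * π, ∫ x in (0 : ℝ)..2 * π, f (x, y) := by
  refine MeasureTheory.intervalIntegral_intervalIntegral_swap (F := fun x y => f (x, y)) ?_
  have h1 : MeasureTheory.IntegrableOn f (uIcc 0 (2 * π) ×ˢ uIcc 0 (2 * π)) :=
    hf.continuousOn.integrableOn_compact (isCompact_uIcc.prod isCompact_uIcc)
  exact h1.mono_set (Set.prod_mono Set.uIoc_subset_uIcc Set.uIoc_subset_uIcc)

private theorem Torus_abs {H : ℝ → ℝ → ℝ} (hcont : Continuous (fun q : ℝ × ℝ => H q.1 q.2))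
    (hper : ∀ φ, Function.Periodic (H φ) (2 * π)) :
    ∫ γ in (0 : ℝ)..2 * π, ∫ φ in (0 : ℝ)..2 * π, H φ (γ + φ) =
      ∫ θ in (0 : ℝ)..2 * π, ∫ φ in (0 : ℝ)..2 * π, H φ θ := by
  have s1 := Torus_swap (f := fun q => H q.2 (q.1 + q.2))
    (hcont.comp (continuous_snd.prodMk (continuous_fst.add continuous_snd)))
  have s2 := Torus_swap (f := fun q => H q.2 q.1)
    (hcont.comp (continuous_snd.prodMk continuous_fst))
  simp only at s1 s2
  rw [s1, s2]
  refine intervalIntegral.integral_congr fun φ _ => ?_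
  show ∫ x in (0 : ℝ)..2 * π, H φ (x + φ) = ∫ x in (0 : ℝ)..2 * π, H φ x
  rw [intervalIntegral.integral_comp_add_right (H φ) φ, zero_add, add_comm (2 * π) φ]
  have h3 := (hper φ).intervalIntegral_add_eq φ 0
  rw [zero_add] at h3
  exact h3

private theorem Torus_cont2 {H : ℝ → ℝ → ℝ} (hcont : Continuous (fun q : ℝ × ℝ => H q.1 q.2)) :
    Continuous (fun γ => (2 * π)⁻¹ • ∫ φ in (0 : ℝ)..2 * π, H φ (γ + φ)) := by
  have e3 : Continuous (Function.uncurry fun γ φ : ℝ => H φ (γ + φ)) :=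
    hcont.comp (continuous_snd.prodMk (continuous_fst.add continuous_snd))
  have e4 := intervalIntegral.continuous_parametric_intervalIntegral_of_continuous'
    (μ := MeasureTheory.volume) e3 0 (2 * π)
  exact e4.const_smul ((2 * π)⁻¹ : ℝ)

private theorem Torus_inner {F : ℂ → ℂ} {r ρ : ℝ} (h0 : 0 < r) (h1 : r < ρ) (γ : ℝ) :
    circleAverage (fun u => ‖G0 F u (circleMap 0 (r / ρ) γ * u)‖ ^ 2) 0 ρ =
      (2 * π)⁻¹ • ∫ φ in (0 : ℝ)..2 * π, TH F r ρ φ (γ + φ) := by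
  rw [circleAverage_def]
  congr 1
  refine intervalIntegral.integral_congr fun φ _ => ?_
  exact Torus_H_eq h0 h1 γ φ

private theorem Torus_shift {F : ℂ → ℂ} (hF : Sch F) {r ρ : ℝ} (h0 : 0 < r) (h1 : r < ρ)
    (h2 : ρ < 1) :
    circleAverage (fun s => circleAverage (fun u => ‖G0 F u (s * u)‖ ^ 2) 0 ρ) 0 (r / ρ) =
      circleAverage (fun w => circleAverage (fun z => ‖G0 F z w‖ ^ 2) 0 ρ) 0 r := by
  have hper : ∀ φ, Function.Periodic (TH F r ρ φ) (2 * π) := by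
    intro φ θ
    show ‖G0 F (circleMap 0 ρ φ) (circleMap 0 r (θ + 2 * π))‖ ^ 2 =
      ‖G0 F (circleMap 0 ρ φ) (circleMap 0 r θ)‖ ^ 2
    rw [periodic_circleMap 0 r θ]
  have hl : circleAverage (fun s => circleAverage (fun u => ‖G0 F u (s * u)‖ ^ 2) 0 ρ) 0 (r / ρ) =
      (2 * π)⁻¹ • ∫ γ in (0 : ℝ)..2 * π, (2 * π)⁻¹ • ∫ φ in (0 : ℝ)..2 * π,
        TH F r ρ φ (γ + φ) := by
    rw [circleAverage_def]
    congr 1
    exact intervalIntegral.integral_congr fun γ _ => Torus_inner h0 h1 γ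
  have hr : circleAverage (fun w => circleAverage (fun z => ‖G0 F z w‖ ^ 2) 0 ρ) 0 r =
      (2 * π)⁻¹ • ∫ θ in (0 : ℝ)..2 * π, (2 * π)⁻¹ • ∫ φ in (0 : ℝ)..2 * π,
        TH F r ρ φ θ := by
    rw [circleAverage_def]
    rfl
  rw [hl, hr, intervalIntegral.integral_smul, intervalIntegral.integral_smul,
    Torus_abs (Torus_H_cont hF h0 h1 h2) hper]

theorem torus {F : ℂ → ℂ} {n : ℕ → ℂ} {l : ℕ → ℕ → ℂ} (D : Dat F n l)
    (hd : ∀ z ∈ ball (0 : ℂ) 1, deriv F z ≠ 0) {r ρ : ℝ} (h0 : 0 < r)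
    (h1 : r < ρ) (h2 : ρ < 1) (M : ℕ) :
    ∑ m ∈ range M, ∑ p ∈ antidiagonal m,
        (if p.1 = 0 then 0 else ‖((p.2 : ℂ) + 1) * l p.1 (p.2 + 1)‖ ^ 2 * ρ ^ (2 * p.1) * r ^ (2 * p.2)) ≤
      circleAverage (fun w => circleAverage (fun z => ‖G0 F z w‖ ^ 2) 0 ρ) 0 r := by
  have hF := D.sch
  have hρ : 0 < ρ := h0.trans h1
  have hR0 : 0 < r / ρ := div_pos h0 hρ
  have hR1 : r / ρ < 1 := (div_lt_one hρ).2 h1
  rw [← Torus_shift hF h0 h1 h2]
  have hin : ∀ s ∈ sphere (0 : ℂ) |r / ρ|,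
      ∑ m ∈ range M, ‖∑ p ∈ antidiagonal m, Tc l p * s ^ p.2‖ ^ 2 * ρ ^ (2 * m) ≤
        circleAverage (fun u => ‖G0 F u (s * u)‖ ^ 2) 0 ρ := by
    intro s hs
    have hsn : ‖s‖ = r / ρ := by
      rw [mem_sphere_zero_iff_norm, abs_of_pos hR0] at hs
      exact hs
    have hP := Torus_ps D (s := s) (by rw [hsn]; exact hR1)
      (by rw [← norm_pos_iff, hsn]; exact hR0)
    exact sum_le_hasSum _ (fun m _ => by positivity) (parseval_sq hP hρ.le h2)
  have hci1 : ∀ m ∈ range M, CircleIntegrable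
      (fun s => ‖∑ p ∈ antidiagonal m, Tc l p * s ^ p.2‖ ^ 2 * ρ ^ (2 * m)) 0 (r / ρ) := by
    intro m _
    refine ContinuousOn.circleIntegrable' ?_
    refine Continuous.continuousOn ?_
    refine Continuous.mul (Continuous.pow (Continuous.norm ?_) 2) continuous_const
    exact continuous_finsetSum _ fun p _ => continuous_const.mul (continuous_pow _)
  have hci2 : CircleIntegrable
      (fun s => circleAverage (fun u => ‖G0 F u (s * u)‖ ^ 2) 0 ρ) 0 (r / ρ) := by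
    refine Continuous.intervalIntegrable ?_ _ _
    have e1 : (fun γ : ℝ => circleAverage
        (fun u => ‖G0 F u (circleMap 0 (r / ρ) γ * u)‖ ^ 2) 0 ρ) =
        fun γ => (2 * π)⁻¹ • ∫ φ in (0 : ℝ)..2 * π, TH F r ρ φ (γ + φ) :=
      funext fun γ => Torus_inner h0 h1 γ
    rw [e1]
    exact Torus_cont2 (Torus_H_cont hF h0 h1 h2)
  have hmono := circleAverage_mono (c := 0) (R := r / ρ)
    (f₁ := fun s => ∑ m ∈ range M, ‖∑ p ∈ antidiagonal m, Tc l p * s ^ p.2‖ ^ 2 * ρ ^ (2 * m))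
    (f₂ := fun s => circleAverage (fun u => ‖G0 F u (s * u)‖ ^ 2) 0 ρ)
    (CircleIntegrable.fun_sum _ hci1) hci2 hin
  refine le_trans (le_of_eq ?_) hmono
  rw [circleAverage_fun_sum hci1]
  refine Finset.sum_congr rfl fun m _ => ?_
  have e2 : circleAverage
      (fun s => ‖∑ p ∈ antidiagonal m, Tc l p * s ^ p.2‖ ^ 2 * ρ ^ (2 * m)) 0 (r / ρ) =
      ρ ^ (2 * m) * circleAverage
        (fun s => ‖∑ p ∈ antidiagonal m, Tc l p * s ^ p.2‖ ^ 2) 0 (r / ρ) := by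
    rw [circleAverage_def, circleAverage_def, intervalIntegral.integral_mul_const, smul_eq_mul,
      smul_eq_mul]
    ring
  rw [e2, Torus_poly m (Tc l) hR0.le hR1, Finset.mul_sum]
  refine Finset.sum_congr rfl fun p hp => ?_
  rw [Finset.HasAntidiagonal.mem_antidiagonal] at hp
  unfold Tc
  by_cases hp0 : p.1 = 0
  · simp [hp0]
  · rw [if_neg hp0, if_neg hp0, div_pow, ← hp]
    have hρ' : ρ ^ (2 * p.2) ≠ 0 := by positivity
    rw [mul_add, pow_add]
    field_simp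

/-- for fixed `z` on the circle the inner average depends continuously on `w` -/
theorem g0_cont {F : ℂ → ℂ} (hF : Sch F) (hd : ∀ z ∈ ball (0 : ℂ) 1, deriv F z ≠ 0) {ρ : ℝ}
    (h0 : 0 < ρ) (h2 : ρ < 1) :
    ContinuousOn (fun w => circleAverage (fun z => ‖G0 F z w‖ ^ 2) 0 ρ) (ball 0 ρ \ {0}) := by
  rw [continuousOn_iff_continuous_domRestrict]
  have hc : Continuous (fun q : (ball (0 : ℂ) ρ \ {0} : Set ℂ) × ℝ =>
      ((circleMap 0 ρ q.2, (q.1 : ℂ)) : ℂ × ℂ)) :=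
    ((continuous_circleMap 0 ρ).comp continuous_snd).prodMk
      (continuous_subtype_val.comp continuous_fst)
  have hm : ∀ q : (ball (0 : ℂ) ρ \ {0} : Set ℂ) × ℝ,
      ((circleMap 0 ρ q.2, (q.1 : ℂ)) : ℂ × ℂ) ∈
      {q : ℂ × ℂ | q.1 ∈ ball (0 : ℂ) 1 ∧ q.2 ∈ ball (0 : ℂ) 1 ∧ q.1 ≠ q.2 ∧ q.2 ≠ 0} := by
    intro q
    have hq : ‖(q.1 : ℂ)‖ < ρ := mem_ball_zero_iff.1 q.1.2.1
    refine ⟨?_, ?_, ?_, ?_⟩
    · show circleMap 0 ρ q.2 ∈ ball (0 : ℂ) 1
      rw [mem_ball_zero_iff, Torus_norm h0.le]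
      exact h2
    · show (q.1 : ℂ) ∈ ball (0 : ℂ) 1
      rw [mem_ball_zero_iff]
      exact hq.trans h2
    · show circleMap 0 ρ q.2 ≠ (q.1 : ℂ)
      intro h
      have h3 := congrArg norm h
      rw [Torus_norm h0.le] at h3
      exact hq.ne' h3
    · exact q.1.2.2
  have h3 : Continuous (Function.uncurry fun (w : (ball (0 : ℂ) ρ \ {0} : Set ℂ)) (θ : ℝ) =>
      ‖G0 F (circleMap 0 ρ θ) (w : ℂ)‖ ^ 2) :=
    ((Torus_G0_cont hF).comp_continuous hc hm).norm.pow 2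
  have h4 := intervalIntegral.continuous_parametric_intervalIntegral_of_continuous'
    (μ := MeasureTheory.volume) h3 0 (2 * π)
  exact h4.const_smul ((2 * π)⁻¹ : ℝ)

end Pool.Agent.Helper21.IM
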