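import Pool.Agent.Helper21.IM.AvgArea
import Pool.Agent.Helper21.IM.Orth
import Pool.Agent.Helper21.IM.Torus

/-!
# IM-EN: the averaged Grunsky inequality

Given `R ∈ [1/2, 1)` put `ρ = (1 + R)/2`, so `2 ρ - 1 = R`.  For `ε ≤ r < R` let
`φ r = 1/r² + 1/(ρ² - r²) + ∑_{m<M} ∑_p [p.1 ≠ 0] ‖(p.2+1) l p.1 (p.2+1)‖² ρ^(2 p.1) r^(2 p.2)`.
`orth` (average over `‖w‖ = r`) and `torus` give `φ r ≤ circleAverage h 0 r` for
`h w = circleAverage (fun z => ‖deriv F w / (F w - F z) - deriv F w / F w‖ ^ 2) 0 ρ`; `radial` and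
`avg_area` give `∫_ε^R 2 π r φ r dr ≤ π (2 log (1/ε) + 2 log (1/(1-ρ)) + C)`, and
`∫_ε^R 2 π r φ r dr = π (2 log (R/ε) + log ((ρ²-ε²)/(ρ²-R²)) +
  ∑_p ‖(p.2+1) l p.1 (p.2+1)‖² ρ^(2 p.1) (R^(2 p.2+2) - ε^(2 p.2+2)) / (p.2+1))`.
`ρ² - R² ≤ 2 (1 - ρ)`, `ρ² - ε² ≥ 1/2`; let `ε → 0`; `1 - ρ = (1 - R)/2`; finally `ρ ≥ R`.
(`deriv_ne` gives the hypothesis `hd` of `orth` and `torus`.)
-/

set_option autoImplicit false

namespace Pool.Agent.Helper21.IM

open Complex Metric Set Real Finset MeasureTheory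

private theorem En_nonneg {g : ℂ → ℝ} (hg : ∀ z, 0 ≤ g z) (ρ : ℝ) : 0 ≤ circleAverage g 0 ρ := by
  rw [circleAverage_def, smul_eq_mul]
  apply mul_nonneg (by positivity)
  apply intervalIntegral.integral_nonneg (by positivity)
  intro θ _
  exact hg _

/-- the sum of the coefficients -/
private noncomputable def En_S (M : ℕ) (c : ℕ × ℕ → ℝ) (r : ℝ) : ℝ :=
  ∑ m ∈ range M, ∑ p ∈ antidiagonal m, c p * r ^ (2 * p.2)

/-- its primitive against `2 r dr` -/
private noncomputable def En_P (M : ℕ) (c : ℕ × ℕ → ℝ) (r : ℝ) : ℝ :=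
  ∑ m ∈ range M, ∑ p ∈ antidiagonal m, c p / ((p.2 : ℝ) + 1) * r ^ (2 * p.2 + 2)

private theorem En_S_cont (M : ℕ) (c : ℕ × ℕ → ℝ) : Continuous (En_S M c) := by
  unfold En_S
  exact continuous_finsetSum _ fun m _ => continuous_finsetSum _ fun p _ =>
    continuous_const.mul (continuous_pow _)

private theorem En_P_cont (M : ℕ) (c : ℕ × ℕ → ℝ) : Continuous (En_P M c) := by
  unfold En_P
  exact continuous_finsetSum _ fun m _ => continuous_finsetSum _ fun p _ =>
    continuous_const.mul (continuous_pow _)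

private theorem En_P_deriv (M : ℕ) (c : ℕ × ℕ → ℝ) (r : ℝ) :
    HasDerivAt (En_P M c) (2 * r * En_S M c r) r := by
  have h : HasDerivAt (fun r => ∑ m ∈ range M, ∑ p ∈ antidiagonal m,
      c p / ((p.2 : ℝ) + 1) * r ^ (2 * p.2 + 2))
      (∑ m ∈ range M, ∑ p ∈ antidiagonal m, 2 * r * (c p * r ^ (2 * p.2))) r := by
    apply HasDerivAt.fun_sum
    intro m _
    apply HasDerivAt.fun_sum
    intro p _
    have h1 := (hasDerivAt_pow (2 * p.2 + 2) r).const_mul (c p / ((p.2 : ℝ) + 1))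
    have h2 : c p / ((p.2 : ℝ) + 1) * (((2 * p.2 + 2 : ℕ) : ℝ) * r ^ (2 * p.2 + 2 - 1)) =
        2 * r * (c p * r ^ (2 * p.2)) := by
      have h3 : (p.2 : ℝ) + 1 ≠ 0 := by positivity
      rw [show 2 * p.2 + 2 - 1 = 2 * p.2 + 1 by omega, pow_succ]
      push_cast
      field_simp
    rw [h2] at h1
    exact h1
  have e : 2 * r * En_S M c r =
      ∑ m ∈ range M, ∑ p ∈ antidiagonal m, 2 * r * (c p * r ^ (2 * p.2)) := by
    unfold En_S
    rw [Finset.mul_sum]
    exact Finset.sum_congr rfl fun m _ => Finset.mul_sum _ _ _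
  rw [e]
  exact h

private theorem En_P_nonneg {M : ℕ} {c : ℕ × ℕ → ℝ} (hc : ∀ p, 0 ≤ c p) {ε R : ℝ} (h0 : 0 ≤ ε)
    (h1 : ε ≤ R) : En_P M c ε ≤ En_P M c R := by
  unfold En_P
  apply Finset.sum_le_sum
  intro m _
  apply Finset.sum_le_sum
  intro p _
  apply mul_le_mul_of_nonneg_left (pow_le_pow_left₀ h0 h1 _)
  exact div_nonneg (hc p) (by positivity)

private theorem En_int {M : ℕ} {c : ℕ × ℕ → ℝ} {ε R ρ : ℝ} (h0 : 0 < ε) (h1 : ε < R) (h2 : R < ρ) :
    ∫ r in ε..R, 2 * π * r * (1 / r ^ 2 + 1 / (ρ ^ 2 - r ^ 2) + En_S M c r) =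
      π * (2 * Real.log R - 2 * Real.log ε + Real.log (ρ ^ 2 - ε ^ 2) - Real.log (ρ ^ 2 - R ^ 2) +
        (En_P M c R - En_P M c ε)) := by
  have hpos : ∀ r ∈ Set.uIcc ε R, 0 < r ∧ 0 < ρ ^ 2 - r ^ 2 := by
    intro r hr
    rw [Set.uIcc_of_le h1.le] at hr
    refine ⟨by linarith [hr.1], ?_⟩
    have : r < ρ := by linarith [hr.2]
    have : 0 < r := by linarith [hr.1]
    nlinarith
  have hd : ∀ r ∈ Set.uIcc ε R,
      HasDerivAt (fun r => π * (2 * Real.log r - Real.log (ρ ^ 2 - r ^ 2) + En_P M c r))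
        (2 * π * r * (1 / r ^ 2 + 1 / (ρ ^ 2 - r ^ 2) + En_S M c r)) r := by
    intro r hr
    obtain ⟨e1, e2⟩ := hpos r hr
    have d1 := (Real.hasDerivAt_log e1.ne').const_mul 2
    have d2 : HasDerivAt (fun r : ℝ => ρ ^ 2 - r ^ 2) (-(2 * r)) r := by
      simpa using (hasDerivAt_pow 2 r).const_sub (ρ ^ 2)
    have d3 := d2.log e2.ne'
    have d4 := ((d1.sub d3).add (En_P_deriv M c r)).const_mul π
    have e3 : 2 * π * r * (1 / r ^ 2 + 1 / (ρ ^ 2 - r ^ 2) + En_S M c r) =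
        π * (2 * r⁻¹ - -(2 * r) / (ρ ^ 2 - r ^ 2) + 2 * r * En_S M c r) := by
      field_simp
      ring
    rw [e3]
    exact d4
  rw [intervalIntegral.integral_eq_sub_of_hasDerivAt hd]
  · ring
  · apply ContinuousOn.intervalIntegrable
    apply ContinuousOn.mul (by fun_prop)
    apply ContinuousOn.add _ (En_S_cont M c).continuousOn
    apply ContinuousOn.add
    · exact continuousOn_const.div (by fun_prop) fun r hr => by
        have := (hpos r hr).1
        positivity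
    · exact continuousOn_const.div (by fun_prop) fun r hr => (hpos r hr).2.ne'

theorem en_double : ∃ C : ℝ, ∀ (F : ℂ → ℂ) (n : ℕ → ℂ) (l : ℕ → ℕ → ℂ), Dat F n l →
    ∀ R ∈ Ico (1 / 2 : ℝ) 1, ∀ M : ℕ,
    ∑ m ∈ range M, ∑ p ∈ antidiagonal m,
      (if p.1 = 0 then 0 else ((p.2 : ℝ) + 1) * ‖l p.1 (p.2 + 1)‖ ^ 2 * R ^ (2 * (m + 1))) ≤
      Real.log (1 / (1 - R)) + C := by
  obtain ⟨C, hC⟩ := avg_area
  refine ⟨C + 5 * Real.log 2, ?_⟩
  intro F n l D R hR M
  have hF := D.sch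
  have hd : ∀ z ∈ ball (0 : ℂ) 1, deriv F z ≠ 0 := fun z hz => deriv_ne isOpen_ball hF.an hF.inj hz
  have hR0 : 1 / 2 ≤ R := hR.1
  have hR1 : R < 1 := hR.2
  set ρ : ℝ := (1 + R) / 2 with hρ
  have hρ0 : 3 / 4 ≤ ρ := by rw [hρ]; linarith
  have hρ1 : ρ < 1 := by rw [hρ]; linarith
  have hRρ : R < ρ := by rw [hρ]; linarith
  have h2ρ : 2 * ρ - 1 = R := by rw [hρ]; ring
  set c : ℕ × ℕ → ℝ := fun p =>
    if p.1 = 0 then 0 else ‖((p.2 : ℂ) + 1) * l p.1 (p.2 + 1)‖ ^ 2 * ρ ^ (2 * p.1) with hc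
  have hcn : ∀ p, 0 ≤ c p := by
    intro p
    rw [hc]
    dsimp only
    split_ifs
    · exact le_rfl
    · positivity
  set h : ℂ → ℝ := fun w =>
    circleAverage (fun z => ‖deriv F w / (F w - F z) - deriv F w / F w‖ ^ 2) 0 ρ with hh
  set g : ℂ → ℝ := fun w => circleAverage (fun z => ‖G0 F z w‖ ^ 2) 0 ρ with hg
  have hhg : ∀ w : ℂ, 0 < ‖w‖ → ‖w‖ < ρ → h w = 1 / ‖w‖ ^ 2 + 1 / (ρ ^ 2 - ‖w‖ ^ 2) + g w :=
    fun w e1 e2 => orth hF hd e1 e2 hρ1
  have hgc : ContinuousOn g (ball 0 ρ \ {0}) := g0_cont hF hd (by linarith) hρ1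
  -- the bound for every ε
  have key : ∀ ε ∈ Ioc (0 : ℝ) (1 / 8), En_P M c R - En_P M c ε ≤
      Real.log (1 / (1 - R)) + (C + 5 * Real.log 2) := by
    intro ε hε
    have hε0 : 0 < ε := hε.1
    have hε1 : ε ≤ 1 / 8 := hε.2
    have hεR : ε < R := by linarith
    have hA : ∀ w ∈ ball (0 : ℂ) R \ ball 0 ε, 0 < ‖w‖ ∧ ‖w‖ < ρ ∧ ε ≤ ‖w‖ := by
      intro w hw
      have e1 : ‖w‖ < R := mem_ball_zero_iff.1 hw.1
      have e2 : ε ≤ ‖w‖ := by
        by_contra h3
        exact hw.2 (mem_ball_zero_iff.2 (not_le.1 h3))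
      exact ⟨by linarith, by linarith, e2⟩
    have hrad := radial (h := h)
      (φ := fun r => 1 / r ^ 2 + 1 / (ρ ^ 2 - r ^ 2) + En_S M c r) hε0 hεR ?_ ?_ ?_ ?_
    · have h3 := hC F hF ρ ⟨hρ0, hρ1⟩ ε hε
      rw [h2ρ] at h3
      have h4 := hrad.trans h3
      rw [En_int hε0 hεR hRρ] at h4
      have hl1 : Real.log (ρ ^ 2 - R ^ 2) ≤ Real.log 2 - Real.log (1 / (1 - ρ)) := by
        have e1 : 0 < ρ ^ 2 - R ^ 2 := by nlinarith
        have e2 : ρ ^ 2 - R ^ 2 ≤ 2 * (1 - ρ) := by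
          have : ρ - R = 1 - ρ := by rw [hρ]; ring
          nlinarith
        have e3 : 0 < 1 - ρ := by linarith
        rw [one_div, Real.log_inv, sub_neg_eq_add, ← Real.log_mul two_ne_zero e3.ne']
        exact Real.log_le_log e1 e2
      have hl2 : -Real.log 2 ≤ Real.log R := by
        rw [← Real.log_inv]
        exact Real.log_le_log (by norm_num) (by linarith)
      have hl3 : -Real.log 2 ≤ Real.log (ρ ^ 2 - ε ^ 2) := by
        rw [← Real.log_inv]
        exact Real.log_le_log (by norm_num) (by nlinarith)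
      have hl4 : Real.log (1 / (1 - ρ)) = Real.log (1 / (1 - R)) + Real.log 2 := by
        have e3 : 0 < 1 - R := by linarith
        rw [← Real.log_mul (by positivity) two_ne_zero]
        congr 1
        have e4 : 1 - ρ = (1 - R) / 2 := by rw [hρ]; ring
        rw [e4]
        field_simp
      have hl5 : Real.log (1 / ε) = -Real.log ε := by rw [one_div, Real.log_inv]
      have hl6 : Real.log ε < Real.log R := Real.log_lt_log hε0 hεR
      have hl7 : Real.log (ρ ^ 2 - R ^ 2) ≤ Real.log (ρ ^ 2 - ε ^ 2) :=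
        Real.log_le_log (by nlinarith) (by nlinarith)
      have hl8 := En_P_nonneg (M := M) hcn hε0.le hεR.le
      have h5 : 0 < π * (2 * Real.log R - 2 * Real.log ε + Real.log (ρ ^ 2 - ε ^ 2) -
          Real.log (ρ ^ 2 - R ^ 2) + (En_P M c R - En_P M c ε)) :=
        mul_pos Real.pi_pos (by linarith)
      rcases ENNReal.ofReal_le_ofReal_iff'.1 h4 with h6 | h6
      · have h7 := le_of_mul_le_mul_left h6 Real.pi_pos
        rw [hl5] at h7
        linarith
      · linarith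
    · have e1 : ContinuousOn (fun w : ℂ => 1 / ‖w‖ ^ 2 + 1 / (ρ ^ 2 - ‖w‖ ^ 2) + g w)
          (ball (0 : ℂ) R \ ball 0 ε) := by
        apply ContinuousOn.add
        · apply ContinuousOn.add
          · exact continuousOn_const.div (by fun_prop) fun w hw => by
              have := (hA w hw).1
              positivity
          · refine continuousOn_const.div (by fun_prop) fun w hw => ?_
            have e1 := hA w hw
            have : 0 < ρ ^ 2 - ‖w‖ ^ 2 := by nlinarith [e1.1, e1.2.1]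
            exact this.ne'
        · apply hgc.mono
          intro w hw
          have e1 := hA w hw
          refine ⟨mem_ball_zero_iff.2 e1.2.1, ?_⟩
          intro h3
          rw [Set.mem_singleton_iff] at h3
          rw [h3, norm_zero] at e1
          exact lt_irrefl _ e1.1
      exact e1.congr fun w hw => hhg w (hA w hw).1 (hA w hw).2.1
    · intro w _
      exact En_nonneg (fun z => by positivity) ρ
    · apply ContinuousOn.add _ (En_S_cont M c).continuousOn
      apply ContinuousOn.add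
      · exact continuousOn_const.div (by fun_prop) fun r hr => by
          have : 0 < r := by linarith [hr.1]
          positivity
      · refine continuousOn_const.div (by fun_prop) fun r hr => ?_
        have e1 : 0 < r := by linarith [hr.1]
        have e2 : r < ρ := by linarith [hr.2]
        have : 0 < ρ ^ 2 - r ^ 2 := by nlinarith
        exact this.ne'
    · intro r hr
      have e1 : 0 < r := by linarith [hr.1]
      have e2 : r < ρ := by linarith [hr.2]
      have h3 := torus D hd e1 e2 hρ1 M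
      have h4 : ∑ m ∈ range M, ∑ p ∈ antidiagonal m,
          (if p.1 = 0 then 0 else ‖((p.2 : ℂ) + 1) * l p.1 (p.2 + 1)‖ ^ 2 * ρ ^ (2 * p.1) *
            r ^ (2 * p.2)) = En_S M c r := by
        unfold En_S
        refine Finset.sum_congr rfl fun m _ => Finset.sum_congr rfl fun p _ => ?_
        rw [hc]
        dsimp only
        split_ifs
        · rw [zero_mul]
        · rfl
      rw [h4] at h3
      have hci : CircleIntegrable g 0 r := by
        apply ContinuousOn.circleIntegrable'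
        apply hgc.mono
        intro w hw
        rw [mem_sphere_zero_iff_norm, abs_of_pos e1] at hw
        refine ⟨mem_ball_zero_iff.2 (by rw [hw]; exact e2), ?_⟩
        intro h5
        rw [Set.mem_singleton_iff] at h5
        rw [h5, norm_zero] at hw
        linarith
      have h5 : circleAverage h 0 r =
          circleAverage (fun w => (1 / r ^ 2 + 1 / (ρ ^ 2 - r ^ 2)) + g w) 0 r := by
        apply circleAverage_congr_sphere
        intro w hw
        rw [mem_sphere_zero_iff_norm, abs_of_pos e1] at hw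
        show h w = _
        rw [hhg w (by rw [hw]; exact e1) (by rw [hw]; exact e2), hw]
      rw [h5]
      have h6 : circleAverage (fun w => (1 / r ^ 2 + 1 / (ρ ^ 2 - r ^ 2)) + g w) 0 r =
          (1 / r ^ 2 + 1 / (ρ ^ 2 - r ^ 2)) + circleAverage g 0 r := by
        have := circleAverage_add (c := 0) (R := r)
          (f₁ := fun _ : ℂ => (1 / r ^ 2 + 1 / (ρ ^ 2 - r ^ 2) : ℝ)) (f₂ := g)
          (circleIntegrable_const _ _ _) hci
        rw [circleAverage_const] at this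
        exact this
      rw [h6]
      show 1 / r ^ 2 + 1 / (ρ ^ 2 - r ^ 2) + En_S M c r ≤ _
      linarith
  -- let ε tend to zero
  have hP0 : En_P M c 0 = 0 := by
    unfold En_P
    refine Finset.sum_eq_zero fun m _ => Finset.sum_eq_zero fun p _ => ?_
    rw [zero_pow (by omega), mul_zero]
  have hlim : Filter.Tendsto (fun ε => En_P M c R - En_P M c ε) (nhdsWithin 0 (Ioi 0))
      (nhds (En_P M c R)) := by
    have h1 : Filter.Tendsto (fun ε => En_P M c R - En_P M c ε) (nhdsWithin 0 (Ioi 0))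
        (nhds (En_P M c R - En_P M c 0)) :=
      ((continuous_const.sub (En_P_cont M c)).tendsto 0).mono_left nhdsWithin_le_nhds
    rwa [hP0, sub_zero] at h1
  have hfin : En_P M c R ≤ Real.log (1 / (1 - R)) + (C + 5 * Real.log 2) := by
    apply le_of_tendsto hlim
    filter_upwards [Ioc_mem_nhdsGT (show (0 : ℝ) < 1 / 8 by norm_num)] with ε hε
    exact key ε hε
  refine le_trans ?_ hfin
  unfold En_P
  apply Finset.sum_le_sum
  intro m _
  apply Finset.sum_le_sum
  intro p hp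
  rw [Finset.HasAntidiagonal.mem_antidiagonal] at hp
  rw [hc]
  dsimp only
  split_ifs with hp0
  · rw [zero_div, zero_mul]
  · have e1 : ‖((p.2 : ℂ) + 1) * l p.1 (p.2 + 1)‖ ^ 2 =
        ((p.2 : ℝ) + 1) ^ 2 * ‖l p.1 (p.2 + 1)‖ ^ 2 := by
      rw [norm_mul, mul_pow]
      congr 2
      have : (p.2 : ℂ) + 1 = (((p.2 : ℝ) + 1 : ℝ) : ℂ) := by push_cast; rfl
      rw [this, Complex.norm_real, Real.norm_of_nonneg (by positivity)]
    rw [e1]
    have e2 : ((p.2 : ℝ) + 1) ^ 2 * ‖l p.1 (p.2 + 1)‖ ^ 2 * ρ ^ (2 * p.1) / ((p.2 : ℝ) + 1) *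
        R ^ (2 * p.2 + 2) =
        ((p.2 : ℝ) + 1) * ‖l p.1 (p.2 + 1)‖ ^ 2 * (ρ ^ (2 * p.1) * R ^ (2 * p.2 + 2)) := by
      have : (p.2 : ℝ) + 1 ≠ 0 := by positivity
      field_simp
    rw [e2]
    apply mul_le_mul_of_nonneg_left _ (by positivity)
    rw [← hp, show 2 * (p.1 + p.2 + 1) = 2 * p.1 + (2 * p.2 + 2) by ring, pow_add]
    exact mul_le_mul_of_nonneg_right (pow_le_pow_left₀ (by linarith) hRρ.le _) (by positivity)

end Pool.Agent.Helper21.IM
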