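import Pool.Agent.Helper21.IM.Defs

/-!
# IM-ES: symmetric form of the averaged Grunsky inequality (finite sums)

With `m' = m + 1`, `j = p.1`, `k = p.2 + 1` the hypothesis is
`∑_{m' ≤ M} R^(2m') ∑_{j + k = m', j, k ≥ 1} k ‖l j k‖²`; by the symmetry of `l` the inner sum is
`(m'/2) ∑_{j + k = m', j, k ≥ 1} ‖l j k‖²`.
-/

set_option autoImplicit false

namespace Pool.Agent.Helper21.IM

open Complex Metric Set Real Finset

private theorem enSym_one {l : ℕ → ℕ → ℂ} (hs : ∀ j k, l j k = l k j) (R : ℝ) (m : ℕ) :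
    ((m + 1 : ℕ) : ℝ) / 2 * R ^ (2 * (m + 1)) *
        ∑ p ∈ antidiagonal (m + 1), (if p.1 = 0 ∨ p.2 = 0 then 0 else ‖l p.1 p.2‖ ^ 2) =
      ∑ p ∈ antidiagonal m,
        (if p.1 = 0 then 0 else ((p.2 : ℝ) + 1) * ‖l p.1 (p.2 + 1)‖ ^ 2 * R ^ (2 * (m + 1))) := by
  set g : ℕ × ℕ → ℝ := fun p => if p.1 = 0 ∨ p.2 = 0 then 0 else (p.2 : ℝ) * ‖l p.1 p.2‖ ^ 2
    with hg
  have h1 : ∑ p ∈ antidiagonal m,
      (if p.1 = 0 then 0 else ((p.2 : ℝ) + 1) * ‖l p.1 (p.2 + 1)‖ ^ 2 * R ^ (2 * (m + 1)))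
      = R ^ (2 * (m + 1)) * ∑ p ∈ antidiagonal (m + 1), g p := by
    rw [Finset.Nat.sum_antidiagonal_succ']
    have h0 : g (m + 1, 0) = 0 := by simp [hg]
    rw [h0, zero_add, Finset.mul_sum]
    have h2 : ∀ p : ℕ × ℕ, (if p.1 = 0 then 0 else
        ((p.2 : ℝ) + 1) * ‖l p.1 (p.2 + 1)‖ ^ 2 * R ^ (2 * (m + 1)))
        = R ^ (2 * (m + 1)) * g (p.1, p.2 + 1) := by
      intro p
      by_cases hp : p.1 = 0
      · simp [hg, hp]
      · have h3 : ¬ (p.1 = 0 ∨ p.2 + 1 = 0) := by omega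
        simp only [hg]
        rw [if_neg hp, if_neg h3]
        push_cast
        ring
    exact Finset.sum_congr rfl fun p _ => h2 p
  have h4 : ∑ p ∈ antidiagonal (m + 1), g p = ∑ p ∈ antidiagonal (m + 1), g p.swap :=
    (Finset.Nat.sum_antidiagonal_swap).symm
  have h5 : ∑ p ∈ antidiagonal (m + 1), g p + ∑ p ∈ antidiagonal (m + 1), g p
      = ((m + 1 : ℕ) : ℝ) *
        ∑ p ∈ antidiagonal (m + 1), (if p.1 = 0 ∨ p.2 = 0 then 0 else ‖l p.1 p.2‖ ^ 2) := by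
    conv_lhs => rw [h4]
    conv_lhs =>
      congr
      · skip
      · rw [← h4]
    rw [← Finset.sum_add_distrib, Finset.mul_sum]
    refine Finset.sum_congr rfl fun p hp => ?_
    rw [Finset.HasAntidiagonal.mem_antidiagonal] at hp
    by_cases h6 : p.1 = 0 ∨ p.2 = 0
    · have h7 : p.2 = 0 ∨ p.1 = 0 := h6.symm
      simp only [hg, Prod.fst_swap, Prod.snd_swap]
      rw [if_pos h6, if_pos h7, if_pos h6]
      ring
    · have h7 : ¬ (p.2 = 0 ∨ p.1 = 0) := fun h => h6 h.symm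
      simp only [hg, Prod.fst_swap, Prod.snd_swap]
      rw [if_neg h6, if_neg h7, if_neg h6, hs p.2 p.1, ← hp]
      push_cast
      ring
  rw [h1]
  have h8 : ∑ p ∈ antidiagonal (m + 1), g p = ((m + 1 : ℕ) : ℝ) / 2 *
        ∑ p ∈ antidiagonal (m + 1), (if p.1 = 0 ∨ p.2 = 0 then 0 else ‖l p.1 p.2‖ ^ 2) := by
    linarith
  rw [h8]
  ring

theorem en_sym {l : ℕ → ℕ → ℂ} (hs : ∀ j k, l j k = l k j) (R : ℝ) (M : ℕ) :
    ∑ m ∈ range (M + 1), (m : ℝ) / 2 * R ^ (2 * m) *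
        ∑ p ∈ antidiagonal m, (if p.1 = 0 ∨ p.2 = 0 then 0 else ‖l p.1 p.2‖ ^ 2) =
      ∑ m ∈ range M, ∑ p ∈ antidiagonal m,
        (if p.1 = 0 then 0 else ((p.2 : ℝ) + 1) * ‖l p.1 (p.2 + 1)‖ ^ 2 * R ^ (2 * (m + 1))) := by
  rw [Finset.sum_range_succ']
  simp only [Nat.cast_zero, zero_div, zero_mul, add_zero]
  exact Finset.sum_congr rfl fun m _ => enSym_one hs R m

end Pool.Agent.Helper21.IM
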