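import Pool.Agent.Helper21.IM.Defs

/-!
# Formal part: definitions

`e k` is the coefficient of `z^(k+1)` of `F`, `e 0 = 1`.
-/

set_option autoImplicit false

namespace Pool.Agent.Helper21.IM

open Complex Metric Set Real Finset

/-- `l j 0` and `l 0 j`, `l j k`: the equation `E * ∂_w log E = ∂_w E` for `E = ∑ e (j+k) z^j w^k` -/
def Geq (e : ℕ → ℂ) (l : ℕ → ℕ → ℂ) : Prop :=
  ∀ j k : ℕ, ∑ p ∈ antidiagonal j, ∑ q ∈ antidiagonal k,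
    e (p.1 + q.1) * (((q.2 : ℂ) + 1) * l p.2 (q.2 + 1)) = ((k : ℂ) + 1) * e (j + k + 1)

/-- coefficients of the product `G (z, w) * G (w, z)`, `G = ∂_w log E` -/
def pi2 (l : ℕ → ℕ → ℂ) (j k : ℕ) : ℂ :=
  ∑ p ∈ antidiagonal j, ∑ q ∈ antidiagonal k,
    (((q.1 : ℂ) + 1) * l p.1 (q.1 + 1)) * (((p.2 : ℂ) + 1) * l q.2 (p.2 + 1))

/-- the differential equation `(w - z) (∂_z G + G G') = G - G'`, `G' (z, w) = G (w, z)` -/
def Star (l : ℕ → ℕ → ℂ) : Prop :=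
  ∀ j k : ℕ, ((j : ℂ) + 1) * (k + 1) * (l (j + 1) k - l j (k + 1)) =
    (if j = 0 then 0 else pi2 l (j - 1) k) - (if k = 0 then 0 else pi2 l j (k - 1))

/-- `n` are the coefficients of `F''/F'` -/
def Nrec (e n : ℕ → ℂ) : Prop :=
  ∀ m : ℕ, ∑ p ∈ antidiagonal m, n p.1 * (((p.2 : ℂ) + 1) * e p.2) =
    ((m : ℂ) + 2) * (m + 1) * e (m + 1)

end Pool.Agent.Helper21.IM
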