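import Pool.Agent.Helper21.IM.FDefs

/-!
# IM-F3: restriction to the diagonal, degree 2

Let `M = m + 2`, `x i = l i (M - i)` for `0 ≤ i ≤ M` and `r i = pi2 l i (M - 2 - i)` for
`0 ≤ i ≤ M - 2`, `r = 0` outside.  `Star` (with `j = i`, `k = M - 1 - i`) is
`(i+1)(M-i)(x (i+1) - x i) = r (i-1) - r i` for `0 ≤ i ≤ M - 1`.
With `Φ i = ∑_{t ≤ i} p2 M t = (i+1)(M-i)(M-1-2i)`, `Φ M = 0`, summation by parts gives
`∑_i p2 M i * x i = - ∑_{i<M} Φ i (x (i+1) - x i) = - ∑_{i<M} (M-1-2i)(r (i-1) - r i) = 2 ∑_i r i`.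
(`p2 M (M - i) = p2 M i`.)  Finally `∑_{j+k=m} pi2 l j k = ∑_{i+i'=m} (n i/2)(n i'/2)` by `hd`
(the diagonal of a product is the product of the diagonals: rearrange
`∑_{j+k=m} ∑_{p ∈ antidiagonal j} ∑_{q ∈ antidiagonal k}` into
`∑_{i+i'=m} (∑_{p.1+q.1=i}) (∑_{q.2+p.2=i'})`).
-/

set_option autoImplicit false

namespace Pool.Agent.Helper21.IM

open Complex Metric Set Real Finset

private theorem FTwo_rearrange (f : ℕ → ℕ → ℕ → ℕ → ℂ) (m : ℕ) :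
    ∑ p ∈ antidiagonal m, ∑ x ∈ antidiagonal p.1, ∑ y ∈ antidiagonal p.2, f x.1 x.2 y.1 y.2 =
      ∑ p ∈ antidiagonal m, ∑ x ∈ antidiagonal p.1, ∑ y ∈ antidiagonal p.2, f x.1 y.2 x.2 y.1 := by
  have h : ∀ g : ℕ → ℕ → ℕ → ℕ → ℂ,
      ∑ p ∈ antidiagonal m, ∑ x ∈ antidiagonal p.1, ∑ y ∈ antidiagonal p.2, g x.1 x.2 y.1 y.2 =
      ∑ z ∈ (antidiagonal m).sigma (fun p => antidiagonal p.1 ×ˢ antidiagonal p.2),
        g z.2.1.1 z.2.1.2 z.2.2.1 z.2.2.2 := by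
    intro g
    rw [Finset.sum_sigma]
    refine Finset.sum_congr rfl fun p _ => ?_
    rw [Finset.sum_product]
  rw [h f, h fun a b c d => f a d b c]
  refine Finset.sum_nbij'
    (fun z => ⟨(z.2.1.1 + z.2.2.1, z.2.2.2 + z.2.1.2), ((z.2.1.1, z.2.2.1), (z.2.2.2, z.2.1.2))⟩)
    (fun z => ⟨(z.2.1.1 + z.2.2.2, z.2.1.2 + z.2.2.1), ((z.2.1.1, z.2.2.2), (z.2.1.2, z.2.2.1))⟩)
    ?_ ?_ ?_ ?_ ?_
  · rintro ⟨⟨j, k⟩, ⟨⟨a, b⟩, ⟨c, d⟩⟩⟩ hz
    simp only [Finset.mem_sigma, Finset.mem_product, Finset.HasAntidiagonal.mem_antidiagonal] at hz ⊢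
    obtain ⟨h1, h2, h3⟩ := hz
    subst h2 h3
    exact ⟨by rw [← h1]; ring, trivial, trivial⟩
  · rintro ⟨⟨j, k⟩, ⟨⟨a, b⟩, ⟨c, d⟩⟩⟩ hz
    simp only [Finset.mem_sigma, Finset.mem_product, Finset.HasAntidiagonal.mem_antidiagonal] at hz ⊢
    obtain ⟨h1, h2, h3⟩ := hz
    subst h2 h3
    exact ⟨by rw [← h1]; ring, trivial, trivial⟩
  · rintro ⟨⟨j, k⟩, ⟨⟨a, b⟩, ⟨c, d⟩⟩⟩ hz
    simp only [Finset.mem_sigma, Finset.mem_product, Finset.HasAntidiagonal.mem_antidiagonal] at hz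
    obtain ⟨h1, h2, h3⟩ := hz
    subst h2 h3
    rfl
  · rintro ⟨⟨j, k⟩, ⟨⟨a, b⟩, ⟨c, d⟩⟩⟩ hz
    simp only [Finset.mem_sigma, Finset.mem_product, Finset.HasAntidiagonal.mem_antidiagonal] at hz
    obtain ⟨h1, h2, h3⟩ := hz
    subst h2 h3
    rfl
  · rintro ⟨⟨j, k⟩, ⟨⟨a, b⟩, ⟨c, d⟩⟩⟩ _
    rfl

/-- diagonal of `G (z, w) G (w, z)` -/
theorem diag_pi {n : ℕ → ℂ} {l : ℕ → ℕ → ℂ}
    (hd : ∀ m : ℕ, ∑ p ∈ antidiagonal m, ((p.2 : ℂ) + 1) * l p.1 (p.2 + 1) = n m / 2) (m : ℕ) :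
    ∑ p ∈ antidiagonal m, pi2 l p.1 p.2 = cv n n m / 4 := by
  unfold pi2
  rw [FTwo_rearrange (fun a b c d => (((c : ℂ) + 1) * l a (c + 1)) * (((b : ℂ) + 1) * l d (b + 1)))]
  unfold cv
  rw [Finset.sum_div]
  refine Finset.sum_congr rfl fun p _ => ?_
  have h : ∀ x : ℕ × ℕ, ∑ y ∈ antidiagonal p.2,
      (((x.2 : ℂ) + 1) * l x.1 (x.2 + 1)) * (((y.2 : ℂ) + 1) * l y.1 (y.2 + 1)) =
      (((x.2 : ℂ) + 1) * l x.1 (x.2 + 1)) * (n p.2 / 2) := by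
    intro x
    rw [← Finset.mul_sum, hd]
  rw [Finset.sum_congr rfl fun x _ => h x, ← Finset.sum_mul, hd]
  ring

theorem f_i2 {n : ℕ → ℂ} {l : ℕ → ℕ → ℂ} (hs : ∀ j k, l j k = l k j) (hst : Star l)
    (hd : ∀ m : ℕ, ∑ p ∈ antidiagonal m, ((p.2 : ℂ) + 1) * l p.1 (p.2 + 1) = n m / 2) (m : ℕ) :
    ∑ p ∈ antidiagonal (m + 2), (p2 (m + 2) p.2 : ℂ) * l p.1 p.2 = cv n n m / 2 := by
  clear hs
  have hr : ∑ i ∈ Finset.range (m + 1), pi2 l i (m - i) = cv n n m / 4 := by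
    rw [← diag_pi hd m, Finset.Nat.sum_antidiagonal_eq_sum_range_succ_mk]
  rw [Finset.Nat.sum_antidiagonal_eq_sum_range_succ_mk]
  set x : ℕ → ℂ := fun i => l i (m + 2 - i) with hx
  set Φ : ℕ → ℂ := fun i => ((i : ℂ) + 1) * ((m : ℂ) + 2 - i) * ((m : ℂ) + 1 - 2 * i) with hΦ
  have h1 : ∀ i ∈ Finset.range (m + 2).succ,
      (p2 (m + 2) (i, m + 2 - i).2 : ℂ) * l (i, m + 2 - i).1 (i, m + 2 - i).2 =
      (((m : ℂ) + 2) * ((m : ℂ) + 1) - 6 * i * ((m : ℂ) + 2 - i)) * x i := by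
    intro i hi
    have hi' : i ≤ m + 2 := Nat.lt_succ_iff.1 (Finset.mem_range.1 hi)
    simp only [hx, p2]
    push_cast [Nat.cast_sub hi']
    ring
  rw [Finset.sum_congr rfl h1]
  have h2 : ∀ N : ℕ, ∑ i ∈ Finset.range (N + 1),
      (((m : ℂ) + 2) * ((m : ℂ) + 1) - 6 * i * ((m : ℂ) + 2 - i)) * x i =
      Φ N * x N - ∑ i ∈ Finset.range N, Φ i * (x (i + 1) - x i) := by
    intro N
    induction N with
    | zero =>
      simp [hΦ]
    | succ N ih =>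
      rw [Finset.sum_range_succ, ih, Finset.sum_range_succ]
      simp only [hΦ]
      push_cast
      ring
  have h3 : Φ (m + 2) = 0 := by
    simp only [hΦ]
    push_cast
    ring
  rw [Nat.succ_eq_add_one, h2 (m + 2), h3, zero_mul, zero_sub]
  have h4 : ∀ i ∈ Finset.range (m + 2), Φ i * (x (i + 1) - x i) =
      ((m : ℂ) + 1 - 2 * i) * (if i = 0 then 0 else pi2 l (i - 1) (m - (i - 1))) -
      ((m : ℂ) + 1 - 2 * i) * (if i = m + 1 then 0 else pi2 l i (m - i)) := by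
    intro i hi
    have hi' : i ≤ m + 1 := Nat.lt_succ_iff.1 (Finset.mem_range.1 hi)
    have hS := hst i (m + 1 - i)
    have e1 : m + 1 - i + 1 = m + 2 - i := by omega
    have e2 : m + 2 - (i + 1) = m + 1 - i := by omega
    have e3 : ((m + 1 - i : ℕ) : ℂ) = (m : ℂ) + 1 - i := by
      push_cast [Nat.cast_sub hi']
      ring
    rw [e1, e3] at hS
    have hρ : (if i = 0 then 0 else pi2 l (i - 1) (m + 1 - i)) =
        (if i = 0 then 0 else pi2 l (i - 1) (m - (i - 1))) := by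
      split_ifs with h
      · rfl
      · have : m + 1 - i = m - (i - 1) := by omega
        rw [this]
    have hρ' : (if m + 1 - i = 0 then 0 else pi2 l i (m + 1 - i - 1)) =
        (if i = m + 1 then 0 else pi2 l i (m - i)) := by
      by_cases h : i = m + 1
      · rw [if_pos h, if_pos (by omega)]
      · rw [if_neg h, if_neg (by omega)]
        have : m + 1 - i - 1 = m - i := by omega
        rw [this]
    rw [hρ, hρ'] at hS
    rw [← mul_sub, ← hS]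
    simp only [hΦ, hx, e2]
    ring
  rw [Finset.sum_congr rfl h4, Finset.sum_sub_distrib, Finset.sum_range_succ' (fun i : ℕ =>
    ((m : ℂ) + 1 - 2 * i) * (if i = 0 then 0 else pi2 l (i - 1) (m - (i - 1)))),
    Finset.sum_range_succ (fun i : ℕ =>
    ((m : ℂ) + 1 - 2 * i) * (if i = m + 1 then 0 else pi2 l i (m - i)))]
  simp only [Nat.add_eq_zero_iff, one_ne_zero, and_false, if_false, if_true, mul_zero, add_zero,
    Nat.add_sub_cancel]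
  have h5 : ∀ i ∈ Finset.range (m + 1),
      ((m : ℂ) + 1 - 2 * i) * (if i = m + 1 then 0 else pi2 l i (m - i)) =
      ((m : ℂ) + 1 - 2 * i) * pi2 l i (m - i) := by
    intro i hi
    have := Finset.mem_range.1 hi
    rw [if_neg (by omega)]
  rw [Finset.sum_congr rfl h5, ← Finset.sum_sub_distrib]
  have h6 : ∀ i ∈ Finset.range (m + 1),
      ((m : ℂ) + 1 - 2 * ((i + 1 : ℕ) : ℂ)) * pi2 l i (m - i) -
      ((m : ℂ) + 1 - 2 * i) * pi2 l i (m - i) = -2 * pi2 l i (m - i) := by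
    intro i _
    push_cast
    ring
  rw [Finset.sum_congr rfl h6, ← Finset.mul_sum, hr]
  ring

end Pool.Agent.Helper21.IM
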