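import Pool.Agent.Helper21.IM.PSBasic

/-!
# IM-PA: the Parseval formula on circles

`circleAverage f c R = (2 π)⁻¹ • ∫ θ in 0..2π, f (circleMap c R θ)`.  Expand both series on the
circle of radius `ρ`; they converge absolutely (`ps_summable`), hence sum and integral may be
exchanged (`hasSum_integral_of_summable_norm` or `intervalIntegral.hasSum_integral_of_summable_norm`)
and the mean of `exp (i k θ)` is `0` for an integer `k ≠ 0`.  Mathlib: `fourierIntegral`,
`integral_exp_mul_complex`, or `circleAverage` facts.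
-/

set_option autoImplicit false

namespace Pool.Agent.Helper21.IM

open Complex Metric Set Real Finset

private theorem Par_cont {P : ℂ → ℂ} {a : ℕ → ℂ} (hP : PS P a) {ρ : ℝ} (h0 : 0 ≤ ρ)
    (h1 : ρ < 1) : Continuous (fun θ : ℝ => P (circleMap 0 ρ θ)) := by
  have h2 : ContinuousOn P (ball 0 1) := (ps_diff hP).continuousOn
  refine h2.comp_continuous (continuous_circleMap 0 ρ) fun θ => ?_
  rw [mem_ball_zero_iff, norm_circleMap_zero, abs_of_nonneg h0]
  exact h1

/-- termwise integration -/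
private theorem Par_avg {F : ℕ → ℂ → ℂ} {f : ℂ → ℂ} {bd : ℕ → ℝ} {ρ : ℝ} (hbd : Summable bd)
    (hc : ∀ n, Continuous (fun θ : ℝ => F n (circleMap 0 ρ θ)))
    (hb : ∀ n, ∀ θ : ℝ, ‖F n (circleMap 0 ρ θ)‖ ≤ bd n)
    (hs : ∀ θ : ℝ, HasSum (fun n => F n (circleMap 0 ρ θ)) (f (circleMap 0 ρ θ))) :
    HasSum (fun n => circleAverage (F n) 0 ρ) (circleAverage f 0 ρ) := by
  have h := intervalIntegral.hasSum_integral_of_dominated_convergence (μ := MeasureTheory.volume)
    (a := 0) (b := 2 * π) (F := fun n (θ : ℝ) => F n (circleMap 0 ρ θ))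
    (f := fun θ : ℝ => f (circleMap 0 ρ θ)) (fun n _ => bd n)
    (fun n => (hc n).aestronglyMeasurable)
    (fun n => Filter.Eventually.of_forall fun θ _ => hb n θ)
    (Filter.Eventually.of_forall fun θ _ => hbd) intervalIntegrable_const
    (Filter.Eventually.of_forall fun θ _ => hs θ)
  exact h.const_smul _

private theorem Par_pow (n k : ℕ) (c : ℂ) (ρ : ℝ) :
    circleAverage (fun z => c * z ^ n * (starRingEnd ℂ) (z ^ k)) 0 ρ =
      if n = k then c * (ρ : ℂ) ^ (2 * k) else 0 := by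
  have hz : ∀ θ : ℝ, c * (circleMap 0 ρ θ) ^ n * (starRingEnd ℂ) ((circleMap 0 ρ θ) ^ k) =
      c * (ρ : ℂ) ^ (n + k) * Complex.exp (((n : ℂ) - k) * I * θ) := by
    intro θ
    have e1 : (starRingEnd ℂ) (Complex.exp (θ * I)) = Complex.exp (-(θ * I)) := by
      rw [← Complex.exp_conj, map_mul, Complex.conj_ofReal, Complex.conj_I, mul_neg]
    rw [circleMap, zero_add, map_pow, map_mul, Complex.conj_ofReal, e1, mul_pow, mul_pow,
      ← Complex.exp_nat_mul, ← Complex.exp_nat_mul]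
    have e2 : Complex.exp (((n : ℂ) - k) * I * θ) =
        Complex.exp ((n : ℂ) * (θ * I)) * Complex.exp ((k : ℂ) * (-(θ * I))) := by
      rw [← Complex.exp_add]
      congr 1
      ring
    rw [e2, pow_add]
    ring
  rw [circleAverage_def]
  simp only [hz]
  rw [intervalIntegral.integral_const_mul]
  by_cases hnk : n = k
  · subst hnk
    rw [if_pos rfl]
    have e3 : ∀ θ : ℝ, Complex.exp (((n : ℂ) - n) * I * θ) = 1 := by
      intro θ
      rw [sub_self, zero_mul, zero_mul, Complex.exp_zero]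
    simp only [e3]
    rw [intervalIntegral.integral_const, sub_zero, ← two_mul]
    have e4 : (2 * π : ℝ) ≠ 0 := by positivity
    rw [mul_smul_comm, smul_smul, inv_mul_cancel₀ e4, one_smul, mul_one]
  · rw [if_neg hnk]
    have hne : ((n : ℂ) - k) * I ≠ 0 :=
      mul_ne_zero (sub_ne_zero.2 (by exact_mod_cast hnk)) I_ne_zero
    rw [integral_exp_mul_complex hne]
    have e5 : Complex.exp (((n : ℂ) - k) * I * ((2 * π : ℝ) : ℂ)) = 1 := by
      rw [Complex.exp_eq_one_iff]
      refine ⟨(n : ℤ) - k, ?_⟩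
      push_cast
      ring
    rw [e5, Complex.ofReal_zero, mul_zero, Complex.exp_zero, sub_self, zero_div, mul_zero,
      smul_zero]

private theorem Par_coef {P : ℂ → ℂ} {a : ℕ → ℂ} (hP : PS P a) (k : ℕ) {ρ : ℝ} (h0 : 0 ≤ ρ)
    (h1 : ρ < 1) :
    circleAverage (fun z => P z * (starRingEnd ℂ) (z ^ k)) 0 ρ = a k * (ρ : ℂ) ^ (2 * k) := by
  have hn : ∀ θ : ℝ, ‖circleMap 0 ρ θ‖ = ρ := fun θ => by
    rw [norm_circleMap_zero, abs_of_nonneg h0]
  have hcm : Continuous (fun θ : ℝ => circleMap 0 ρ θ) := continuous_circleMap 0 ρ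
  have h := Par_avg (F := fun n z => a n * z ^ n * (starRingEnd ℂ) (z ^ k))
    (f := fun z => P z * (starRingEnd ℂ) (z ^ k)) (ρ := ρ)
    ((ps_summable hP h0 h1).mul_right (ρ ^ k))
    (fun n => by
      refine (continuous_const.mul (hcm.pow n)).mul ?_
      exact continuous_star.comp (hcm.pow k))
    (fun n θ => by
      rw [norm_mul, norm_mul, RCLike.norm_conj, norm_pow, norm_pow, hn])
    (fun θ => by
      refine (hP _ ?_).mul_right _
      rw [mem_ball_zero_iff, hn]
      exact h1)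
  simp only [Par_pow] at h
  have h3 : HasSum (fun n => if n = k then a n * (ρ : ℂ) ^ (2 * k) else 0)
      (a k * (ρ : ℂ) ^ (2 * k)) := by
    have h4 := hasSum_ite_eq k (a k * (ρ : ℂ) ^ (2 * k))
    have h5 : (fun n => if n = k then a n * (ρ : ℂ) ^ (2 * k) else 0) =
        fun n => if n = k then a k * (ρ : ℂ) ^ (2 * k) else 0 := by
      funext n
      split_ifs with hnk
      · rw [hnk]
      · rfl
    rw [h5]
    exact h4
  exact h.unique h3

theorem parseval {P Q : ℂ → ℂ} {a b : ℕ → ℂ} (hP : PS P a) (hQ : PS Q b) {ρ : ℝ} (h0 : 0 ≤ ρ)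
    (h1 : ρ < 1) :
    HasSum (fun m => a m * (starRingEnd ℂ) (b m) * (ρ : ℂ) ^ (2 * m))
      (circleAverage (fun z => P z * (starRingEnd ℂ) (Q z)) 0 ρ) := by
  have hn : ∀ θ : ℝ, ‖circleMap 0 ρ θ‖ = ρ := fun θ => by
    rw [norm_circleMap_zero, abs_of_nonneg h0]
  have hmem : ∀ θ : ℝ, circleMap 0 ρ θ ∈ ball (0 : ℂ) 1 := fun θ => by
    rw [mem_ball_zero_iff, hn]
    exact h1
  have hcm : Continuous (fun θ : ℝ => circleMap 0 ρ θ) := continuous_circleMap 0 ρ
  have hPc := Par_cont hP h0 h1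
  have hbound : ∀ θ : ℝ, ‖P (circleMap 0 ρ θ)‖ ≤ ∑' m, ‖a m‖ * ρ ^ m := by
    intro θ
    rw [← (hP _ (hmem θ)).tsum_eq]
    refine (norm_tsum_le_tsum_norm ?_).trans_eq ?_
    · simp only [norm_mul, norm_pow, hn]
      exact ps_summable hP h0 h1
    · simp only [norm_mul, norm_pow, hn]
  have h := Par_avg (F := fun k z => (starRingEnd ℂ) (b k) * (P z * (starRingEnd ℂ) (z ^ k)))
    (f := fun z => P z * (starRingEnd ℂ) (Q z)) (ρ := ρ)
    ((ps_summable hQ h0 h1).mul_left (∑' m, ‖a m‖ * ρ ^ m))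
    (fun k => by
      refine continuous_const.mul (hPc.mul ?_)
      exact continuous_star.comp (hcm.pow k))
    (fun k θ => by
      rw [norm_mul, norm_mul, RCLike.norm_conj, RCLike.norm_conj, norm_pow, hn]
      calc ‖b k‖ * (‖P (circleMap 0 ρ θ)‖ * ρ ^ k)
          = ‖P (circleMap 0 ρ θ)‖ * (‖b k‖ * ρ ^ k) := by ring
        _ ≤ _ := mul_le_mul_of_nonneg_right (hbound θ) (by positivity))
    (fun θ => by
      have h2 : HasSum (fun k => (starRingEnd ℂ) (b k * (circleMap 0 ρ θ) ^ k))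
          ((starRingEnd ℂ) (Q (circleMap 0 ρ θ))) :=
        (hQ _ (hmem θ)).map (starRingEnd ℂ) continuous_star
      have h3 := h2.mul_left (P (circleMap 0 ρ θ))
      have h6 : (fun k => P (circleMap 0 ρ θ) *
          (starRingEnd ℂ) (b k * (circleMap 0 ρ θ) ^ k)) = fun k => (starRingEnd ℂ) (b k) *
            (P (circleMap 0 ρ θ) * (starRingEnd ℂ) ((circleMap 0 ρ θ) ^ k)) := by
        funext k
        rw [map_mul]
        ring
      rw [h6] at h3
      exact h3)
  have h4 : ∀ k, circleAverage (fun z => (starRingEnd ℂ) (b k) *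
      (P z * (starRingEnd ℂ) (z ^ k))) 0 ρ = a k * (starRingEnd ℂ) (b k) * (ρ : ℂ) ^ (2 * k) := by
    intro k
    have h5 := Par_coef hP k h0 h1
    rw [circleAverage_def] at h5 ⊢
    rw [intervalIntegral.integral_const_mul, ← mul_smul_comm, h5]
    ring
  simp only [h4] at h
  exact h

private theorem Par_ofReal (f : ℂ → ℝ) (ρ : ℝ) :
    circleAverage (fun z => ((f z : ℝ) : ℂ)) 0 ρ = ((circleAverage f 0 ρ : ℝ) : ℂ) := by
  rw [circleAverage_def, circleAverage_def, intervalIntegral.integral_ofReal, smul_eq_mul,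
    Complex.real_smul]
  push_cast
  rfl

theorem parseval_sq {P : ℂ → ℂ} {a : ℕ → ℂ} (hP : PS P a) {ρ : ℝ} (h0 : 0 ≤ ρ) (h1 : ρ < 1) :
    HasSum (fun m => ‖a m‖ ^ 2 * ρ ^ (2 * m)) (circleAverage (fun z => ‖P z‖ ^ 2) 0 ρ) := by
  have h := parseval hP hP h0 h1
  have e1 : (fun z => P z * (starRingEnd ℂ) (P z)) = fun z => ((‖P z‖ ^ 2 : ℝ) : ℂ) := by
    funext z
    rw [Complex.mul_conj, Complex.normSq_eq_norm_sq]
  have e2 : (fun m => a m * (starRingEnd ℂ) (a m) * (ρ : ℂ) ^ (2 * m)) =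
      fun m => ((‖a m‖ ^ 2 * ρ ^ (2 * m) : ℝ) : ℂ) := by
    funext m
    rw [Complex.mul_conj, Complex.normSq_eq_norm_sq]
    push_cast
    rfl
  rw [e1, e2, Par_ofReal] at h
  exact Complex.hasSum_ofReal.1 h

/-- the circle means of `‖P‖²` increase with the radius -/
theorem mean_mono {P : ℂ → ℂ} {a : ℕ → ℂ} (hP : PS P a) {r ρ : ℝ} (h0 : 0 ≤ r) (h : r ≤ ρ)
    (h1 : ρ < 1) :
    circleAverage (fun z => ‖P z‖ ^ 2) 0 r ≤ circleAverage (fun z => ‖P z‖ ^ 2) 0 ρ := by
  refine hasSum_le (fun m => ?_) (parseval_sq hP h0 (h.trans_lt h1))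
    (parseval_sq hP (h0.trans h) h1)
  gcongr

end Pool.Agent.Helper21.IM
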