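import Pool.Agent.Helper21.IM.LogBound
import Pool.Agent.Helper21.IM.Par

/-!
# IM-GR: growth of coefficients

`growth_sum`: `∑_m ‖a m‖² r^(2m) ≤ K² / (1 - r)^(2d)` (`parseval_sq`).  Multiply by `(1-r)^(2d)` and
integrate over `(0,1)`: `∑_{m ≤ M} ‖a m‖² B(2m+1, 2d+1) ≤ K²`, and
`∫_0^1 r^(2m) (1-r)^(2d) dr ≥ ∫_{1-2/m}^{1-1/m} ≥ c_d / m^(2d+1)` for `m ≥ 2` (or use the beta function).

`Nh z = I z pre F z`, `Sh z = I z Nh' z - Nh z²/2`.  `pre_bound`: `‖Nh z‖ ≤ 7 ‖z‖ / (1 - ‖z‖)`.  Cauchy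
estimate on `ball z ((1 - ‖z‖)/2)`: `‖Nh' z‖ ≤ 28/(1-‖z‖)²`, so `‖Sh z‖ ≤ 60/(1-‖z‖)² ‖z‖` (any constants).
`growth_data`: `growth_sum` for `Nh` (`d = 1`), `Nh²` (`d = 2`), `Sh²` (`d = 4`) and for
`(I Nh - Sh)² - Sh²` (`d = 3`; it equals `-Nh² - 2 I Nh Sh`), whose coefficients are
`cv (sz n) (sz n) (m-4) - qq n m` for `m ≥ 4`: the series of `z² (N' - N²/2) = I Nh - Sh`,
`N = pre F`, has the coefficients `0, 0, sz n 0, sz n 1, ...`.
-/

set_option autoImplicit false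

namespace Pool.Agent.Helper21.IM

open Complex Metric Set Real Finset

private theorem Growth_beta (m d : ℕ) (hm : 1 ≤ m) :
    1 / (2 * 8 ^ (2 * d + 1) * (m : ℝ) ^ (2 * d + 1)) ≤
      ∫ x in (0 : ℝ)..1, x ^ (2 * m) * (1 - x) ^ (2 * d) := by
  have hm0 : (0 : ℝ) < m := by exact_mod_cast hm
  have hm1 : (1 : ℝ) ≤ m := by exact_mod_cast hm
  have hu : (1 : ℝ) / (8 * m) ≤ 1 / (4 * m) := by
    apply one_div_le_one_div_of_le (by positivity)
    linarith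
  have hu2 : (1 : ℝ) / (4 * m) ≤ 1 := by
    rw [div_le_one (by positivity)]
    linarith
  have hu3 : (0 : ℝ) < 1 / (8 * m) := by positivity
  have hcont : Continuous fun x : ℝ => x ^ (2 * m) * (1 - x) ^ (2 * d) := by fun_prop
  have h1 : ∫ x in (1 - 1 / (4 * (m : ℝ)))..(1 - 1 / (8 * (m : ℝ))),
      x ^ (2 * m) * (1 - x) ^ (2 * d) ≤ ∫ x in (0 : ℝ)..1, x ^ (2 * m) * (1 - x) ^ (2 * d) := by
    refine intervalIntegral.integral_mono_interval (by linarith) (by linarith) (by linarith) ?_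
      (hcont.intervalIntegrable _ _)
    refine Filter.Eventually.of_forall fun x => ?_
    simp only [Pi.zero_apply]
    rw [pow_mul, pow_mul (1 - x)]
    positivity
  have h2 : ∫ _ in (1 - 1 / (4 * (m : ℝ)))..(1 - 1 / (8 * (m : ℝ))),
      (1 / 2 * (1 / (8 * (m : ℝ))) ^ (2 * d) : ℝ) ≤
      ∫ x in (1 - 1 / (4 * (m : ℝ)))..(1 - 1 / (8 * (m : ℝ))),
        x ^ (2 * m) * (1 - x) ^ (2 * d) := by
    refine intervalIntegral.integral_mono_on (by linarith) (by simp)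
      (hcont.intervalIntegrable _ _) ?_
    intro x hx
    have hx1 : 1 - 1 / (4 * (m : ℝ)) ≤ x := hx.1
    have hx2 : x ≤ 1 - 1 / (8 * (m : ℝ)) := hx.2
    have h3 : (1 / 2 : ℝ) ≤ x ^ (2 * m) := by
      have h4 := one_add_mul_le_pow (a := -(1 / (4 * (m : ℝ)))) (by linarith) (2 * m)
      have h5 : (1 : ℝ) + ((2 * m : ℕ) : ℝ) * (-(1 / (4 * (m : ℝ)))) = 1 / 2 := by
        push_cast
        field_simp
        norm_num
      rw [h5] at h4
      refine h4.trans ?_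
      exact pow_le_pow_left₀ (by linarith) (by linarith) _
    have h6 : (1 / (8 * (m : ℝ))) ^ (2 * d) ≤ (1 - x) ^ (2 * d) :=
      pow_le_pow_left₀ hu3.le (by linarith) _
    exact mul_le_mul h3 h6 (by positivity) (by linarith)
  rw [intervalIntegral.integral_const, smul_eq_mul] at h2
  refine le_trans (le_of_eq ?_) (h2.trans h1)
  have h7 : 1 - 1 / (8 * (m : ℝ)) - (1 - 1 / (4 * (m : ℝ))) = 1 / (8 * (m : ℝ)) := by
    field_simp
    ring
  rw [h7, div_pow, one_pow, mul_pow]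
  field_simp
  ring

theorem growth_sum (d : ℕ) : ∃ C : ℝ, 0 ≤ C ∧ ∀ (P : ℂ → ℂ) (a : ℕ → ℂ) (K : ℝ), PS P a → 0 ≤ K →
    (∀ z ∈ ball (0 : ℂ) 1, ‖P z‖ ≤ K / (1 - ‖z‖) ^ d) → ∀ M : ℕ,
    ∑ m ∈ Icc 1 M, ‖a m‖ ^ 2 / (m : ℝ) ^ (2 * d + 1) ≤ C * K ^ 2 := by
  refine ⟨2 * 8 ^ (2 * d + 1), by positivity, ?_⟩
  intro P a K hP hK hb M
  -- the pointwise inequality
  have hpt : ∀ ρ : ℝ, 0 ≤ ρ → ρ < 1 →
      ∑ m ∈ Icc 1 M, ‖a m‖ ^ 2 * (ρ ^ (2 * m) * (1 - ρ) ^ (2 * d)) ≤ K ^ 2 := by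
    intro ρ h0 h1
    have hs := parseval_sq hP h0 h1
    have h2 : ∑ m ∈ Icc 1 M, ‖a m‖ ^ 2 * ρ ^ (2 * m) ≤
        circleAverage (fun z => ‖P z‖ ^ 2) 0 ρ :=
      sum_le_hasSum _ (fun m _ => by positivity) hs
    have h3 : circleAverage (fun z => ‖P z‖ ^ 2) 0 ρ ≤ (K / (1 - ρ) ^ d) ^ 2 := by
      refine Real.circleAverage_mono_on_of_le_circle ?_ ?_
      · refine ContinuousOn.circleIntegrable h0 ?_
        have hc : ContinuousOn P (sphere 0 ρ) := (ps_diff hP).continuousOn.mono (by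
          intro z hz
          rw [mem_sphere_zero_iff_norm] at hz
          rw [mem_ball_zero_iff, hz]
          exact h1)
        exact (hc.norm).pow 2
      · intro z hz
        rw [abs_of_nonneg h0, mem_sphere_zero_iff_norm] at hz
        have h4 := hb z (by rw [mem_ball_zero_iff, hz]; exact h1)
        rw [hz] at h4
        exact pow_le_pow_left₀ (norm_nonneg _) h4 2
    have h5 : (0 : ℝ) < (1 - ρ) ^ d := pow_pos (by linarith) d
    have h6 : ∑ m ∈ Icc 1 M, ‖a m‖ ^ 2 * (ρ ^ (2 * m) * (1 - ρ) ^ (2 * d)) =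
        (∑ m ∈ Icc 1 M, ‖a m‖ ^ 2 * ρ ^ (2 * m)) * ((1 - ρ) ^ d) ^ 2 := by
      rw [Finset.sum_mul]
      refine Finset.sum_congr rfl fun m _ => ?_
      ring
    rw [h6]
    calc (∑ m ∈ Icc 1 M, ‖a m‖ ^ 2 * ρ ^ (2 * m)) * ((1 - ρ) ^ d) ^ 2
        ≤ (K / (1 - ρ) ^ d) ^ 2 * ((1 - ρ) ^ d) ^ 2 := by
          gcongr
          exact h2.trans h3
      _ = K ^ 2 := by
          field_simp
  have hcont : ∀ m : ℕ, Continuous fun x : ℝ => ‖a m‖ ^ 2 * (x ^ (2 * m) * (1 - x) ^ (2 * d)) := by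
    intro m
    fun_prop
  have hI : ∫ x in (0 : ℝ)..1, ∑ m ∈ Icc 1 M, ‖a m‖ ^ 2 * (x ^ (2 * m) * (1 - x) ^ (2 * d)) ≤
      ∫ _ in (0 : ℝ)..1, K ^ 2 := by
    refine intervalIntegral.integral_mono_on_of_le_Ioo zero_le_one ?_ (by simp) ?_
    · exact (continuous_finsetSum _ fun m _ => hcont m).intervalIntegrable _ _
    · intro x hx
      exact hpt x hx.1.le hx.2
  rw [intervalIntegral.integral_finsetSum (fun m _ => (hcont m).intervalIntegrable _ _),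
    intervalIntegral.integral_const, sub_zero, one_smul] at hI
  have hterm : ∀ m ∈ Finset.Icc 1 M, ‖a m‖ ^ 2 / (m : ℝ) ^ (2 * d + 1) ≤ 2 * 8 ^ (2 * d + 1) *
      ∫ x in (0 : ℝ)..1, ‖a m‖ ^ 2 * (x ^ (2 * m) * (1 - x) ^ (2 * d)) := by
    intro m hm
    have hm1 := (Finset.mem_Icc.mp hm).1
    have hm0 : (0 : ℝ) < m := by exact_mod_cast hm1
    have h1 := Growth_beta m d hm1
    rw [intervalIntegral.integral_const_mul]
    calc ‖a m‖ ^ 2 / (m : ℝ) ^ (2 * d + 1) = 2 * 8 ^ (2 * d + 1) * (‖a m‖ ^ 2 *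
        (1 / (2 * 8 ^ (2 * d + 1) * (m : ℝ) ^ (2 * d + 1)))) := by
          field_simp
      _ ≤ _ := by
          gcongr
  calc ∑ m ∈ Icc 1 M, ‖a m‖ ^ 2 / (m : ℝ) ^ (2 * d + 1)
      ≤ ∑ m ∈ Icc 1 M, 2 * 8 ^ (2 * d + 1) *
        ∫ x in (0 : ℝ)..1, ‖a m‖ ^ 2 * (x ^ (2 * m) * (1 - x) ^ (2 * d)) :=
        Finset.sum_le_sum hterm
    _ = 2 * 8 ^ (2 * d + 1) * ∑ m ∈ Icc 1 M,
        ∫ x in (0 : ℝ)..1, ‖a m‖ ^ 2 * (x ^ (2 * m) * (1 - x) ^ (2 * d)) := by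
        rw [Finset.mul_sum]
    _ ≤ 2 * 8 ^ (2 * d + 1) * K ^ 2 := by
        gcongr

/-- `i z F''/F'` -/
noncomputable def Nh (F : ℂ → ℂ) (z : ℂ) : ℂ := I * z * pre F z

/-- `i z Nh' - Nh² / 2` -/
noncomputable def Sh (F : ℂ → ℂ) (z : ℂ) : ℂ := I * z * deriv (Nh F) z - Nh F z ^ 2 / 2

private theorem Growth_coef {P : ℂ → ℂ} {a b : ℕ → ℂ} (h : PS P a) (hab : ∀ m, a m = b m) :
    PS P b := by
  have : a = b := funext hab
  rwa [← this]

theorem ps_nh {F : ℂ → ℂ} {n : ℕ → ℂ} (h : PS (pre F) n) : PS (Nh F) (nu n) := by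
  refine Growth_coef (ps_congr (ps_smul I (ps_zmul h)) fun z _ => ?_) fun m => ?_
  · rw [Nh, mul_assoc]
  · rw [nu]
    split_ifs <;> simp

theorem ps_sh {F : ℂ → ℂ} {n : ℕ → ℂ} (h : PS (pre F) n) : PS (Sh F) (si n) := by
  have h1 := ps_nh h
  refine Growth_coef (ps_congr (ps_sub (ps_D h1) (ps_smul (1 / 2) (ps_mul h1 h1)))
    fun z _ => ?_) fun m => ?_
  · rw [Sh]
    ring
  · rw [si, qa]
    ring

theorem nh_bound {F : ℂ → ℂ} (hF : Sch F) {z : ℂ} (hz : z ∈ ball (0 : ℂ) 1) :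
    ‖Nh F z‖ ≤ 7 * ‖z‖ / (1 - ‖z‖) := by
  have h1 := pre_bound hF.an hF.inj hz
  have h2 : ‖Nh F z‖ = ‖z‖ * ‖pre F z‖ := by
    rw [Nh, norm_mul, norm_mul, norm_I, one_mul]
  rw [h2]
  calc ‖z‖ * ‖pre F z‖ ≤ ‖z‖ * (7 / (1 - ‖z‖)) := by gcongr
    _ = 7 * ‖z‖ / (1 - ‖z‖) := by ring

private theorem Growth_nh_diff {F : ℂ → ℂ} (hF : Sch F) :
    DifferentiableOn ℂ (Nh F) (ball 0 1) := by
  have h1 : DifferentiableOn ℂ (deriv F) (ball 0 1) := hF.an.deriv isOpen_ball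
  have h2 : DifferentiableOn ℂ (deriv (deriv F)) (ball 0 1) := h1.deriv isOpen_ball
  have h3 : DifferentiableOn ℂ (fun z => I * z * (deriv (deriv F) z / deriv F z)) (ball 0 1) := by
    refine DifferentiableOn.mul ?_ (h2.div h1 fun z hz => ?_)
    · exact (differentiableOn_const I).mul differentiableOn_id
    · exact deriv_ne isOpen_ball hF.an hF.inj hz
  exact h3

theorem sh_bound {F : ℂ → ℂ} (hF : Sch F) {z : ℂ} (hz : z ∈ ball (0 : ℂ) 1) :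
    ‖Sh F z‖ ≤ 60 * ‖z‖ / (1 - ‖z‖) ^ 2 := by
  have hz1 : ‖z‖ < 1 := by rwa [mem_ball_zero_iff] at hz
  have hz0 : 0 ≤ ‖z‖ := norm_nonneg z
  have hp : 0 < 1 - ‖z‖ := by linarith
  have hr : 0 < (1 - ‖z‖) / 2 := by linarith
  have hsub : closedBall z ((1 - ‖z‖) / 2) ⊆ ball (0 : ℂ) 1 := by
    intro w hw
    rw [mem_closedBall, dist_eq_norm] at hw
    rw [mem_ball_zero_iff]
    have h1 : ‖w‖ ≤ ‖w - z‖ + ‖z‖ := by
      have := norm_add_le (w - z) z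
      rwa [sub_add_cancel] at this
    linarith
  have hD : ‖deriv (Nh F) z‖ ≤ 28 / (1 - ‖z‖) ^ 2 := by
    have h1 : ‖deriv (Nh F) z‖ ≤ (14 / (1 - ‖z‖)) / ((1 - ‖z‖) / 2) := by
      refine Complex.norm_deriv_le_of_forall_mem_sphere_norm_le hr ?_ ?_
      · refine DifferentiableOn.diffContOnCl ?_
        rw [closure_ball _ hr.ne']
        exact (Growth_nh_diff hF).mono hsub
      · intro w hw
        have hw1 : w ∈ ball (0 : ℂ) 1 := hsub (sphere_subset_closedBall hw)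
        have h2 := nh_bound hF hw1
        have h3 : ‖w‖ < 1 := by rwa [mem_ball_zero_iff] at hw1
        have h4 : ‖w‖ ≤ ‖z‖ + (1 - ‖z‖) / 2 := by
          rw [mem_sphere, dist_eq_norm] at hw
          have := norm_add_le (w - z) z
          rw [sub_add_cancel, hw] at this
          linarith
        refine h2.trans ?_
        rw [div_le_div_iff₀ (by linarith) hp]
        nlinarith
    refine h1.trans (le_of_eq ?_)
    field_simp
    norm_num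
  have hN := nh_bound hF hz
  have hN2 : ‖Nh F z‖ ^ 2 ≤ 49 * ‖z‖ / (1 - ‖z‖) ^ 2 := by
    calc ‖Nh F z‖ ^ 2 ≤ (7 * ‖z‖ / (1 - ‖z‖)) ^ 2 := pow_le_pow_left₀ (norm_nonneg _) hN 2
      _ = 49 * ‖z‖ * ‖z‖ / (1 - ‖z‖) ^ 2 := by
          rw [div_pow]
          congr 1
          ring
      _ ≤ 49 * ‖z‖ * 1 / (1 - ‖z‖) ^ 2 := by gcongr
      _ = 49 * ‖z‖ / (1 - ‖z‖) ^ 2 := by ring
  rw [Sh]
  calc ‖I * z * deriv (Nh F) z - Nh F z ^ 2 / 2‖
      ≤ ‖I * z * deriv (Nh F) z‖ + ‖Nh F z ^ 2 / 2‖ := norm_sub_le _ _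
    _ = ‖z‖ * ‖deriv (Nh F) z‖ + ‖Nh F z‖ ^ 2 / 2 := by
        rw [norm_mul, norm_mul, norm_I, one_mul, norm_div, norm_pow]
        norm_num
    _ ≤ ‖z‖ * (28 / (1 - ‖z‖) ^ 2) + (49 * ‖z‖ / (1 - ‖z‖) ^ 2) / 2 := by gcongr
    _ = (105 / 2) * ‖z‖ / (1 - ‖z‖) ^ 2 := by ring
    _ ≤ 60 * ‖z‖ / (1 - ‖z‖) ^ 2 := by
        gcongr
        norm_num

private theorem Growth_key {F : ℂ → ℂ} {n : ℕ → ℂ} (h : PS (pre F) n) {z : ℂ}
    (hz : z ∈ ball (0 : ℂ) 1) :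
    I * Nh F z - Sh F z = z * (z * (deriv (pre F) z - 1 / 2 * (pre F z * pre F z))) := by
  have hd : DifferentiableAt ℂ (pre F) z :=
    (ps_diff h).differentiableAt (isOpen_ball.mem_nhds hz)
  have h1 : HasDerivAt (Nh F) (I * pre F z + I * z * deriv (pre F) z) z := by
    have h2 : HasDerivAt (fun w : ℂ => I * w) I z := by
      simpa using (hasDerivAt_id z).const_mul I
    exact h2.mul hd.hasDerivAt
  rw [Sh, h1.deriv, Nh]
  have hI : I * I = -1 := I_mul_I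
  linear_combination (z * pre F z - z * pre F z - z ^ 2 * deriv (pre F) z +
    z ^ 2 * pre F z ^ 2 / 2) * hI

theorem growth_data : ∃ C : ℝ, ∀ (F : ℂ → ℂ) (n : ℕ → ℂ), Sch F → PS (pre F) n → ∀ M : ℕ,
    ∑ m ∈ Icc 1 M, ‖nu n m‖ ^ 2 / (m : ℝ) ^ 3 ≤ C ∧
    ∑ m ∈ Icc 1 M, ‖qa n m‖ ^ 2 / (m : ℝ) ^ 5 ≤ C ∧
    ∑ m ∈ Icc 1 M, ‖qq n m‖ ^ 2 / (m : ℝ) ^ 9 ≤ C ∧
    ∑ m ∈ Icc 4 M, ‖cv (sz n) (sz n) (m - 4) - qq n m‖ ^ 2 / (m : ℝ) ^ 7 ≤ C := by
  obtain ⟨C1, hC1, h1⟩ := growth_sum 1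
  obtain ⟨C2, hC2, h2⟩ := growth_sum 2
  obtain ⟨C3, hC3, h3⟩ := growth_sum 3
  obtain ⟨C4, hC4, h4⟩ := growth_sum 4
  refine ⟨C1 * 7 ^ 2 + C2 * 49 ^ 2 + C3 * 889 ^ 2 + C4 * 3600 ^ 2, ?_⟩
  intro F n hF hn M
  have e1 : 0 ≤ C1 * 7 ^ 2 := by positivity
  have e2 : 0 ≤ C2 * 49 ^ 2 := by positivity
  have e3 : 0 ≤ C3 * 889 ^ 2 := by positivity
  have e4 : 0 ≤ C4 * 3600 ^ 2 := by positivity
  have hnh : ∀ z ∈ ball (0 : ℂ) 1, ‖Nh F z‖ ≤ 7 / (1 - ‖z‖) := by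
    intro z hz
    have hz1 : ‖z‖ < 1 := by rwa [mem_ball_zero_iff] at hz
    have hp : 0 < 1 - ‖z‖ := by linarith
    refine (nh_bound hF hz).trans ?_
    rw [div_le_div_iff_of_pos_right hp]
    linarith
  have hsh : ∀ z ∈ ball (0 : ℂ) 1, ‖Sh F z‖ ≤ 60 / (1 - ‖z‖) ^ 2 := by
    intro z hz
    have hz1 : ‖z‖ < 1 := by rwa [mem_ball_zero_iff] at hz
    have hp : 0 < 1 - ‖z‖ := by linarith
    refine (sh_bound hF hz).trans ?_
    rw [div_le_div_iff_of_pos_right (by positivity)]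
    linarith
  have pN := ps_nh hn
  have pS := ps_sh hn
  refine ⟨?_, ?_, ?_, ?_⟩
  · have := h1 (Nh F) (nu n) 7 pN (by norm_num) (fun z hz => by
      rw [pow_one]
      exact hnh z hz) M
    linarith
  · have := h2 (fun z => Nh F z * Nh F z) (qa n) 49 (ps_mul pN pN) (by norm_num) (fun z hz => by
      rw [norm_mul]
      have h5 := hnh z hz
      have hz1 : ‖z‖ < 1 := by rwa [mem_ball_zero_iff] at hz
      have hp : 0 < 1 - ‖z‖ := by linarith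
      calc ‖Nh F z‖ * ‖Nh F z‖ ≤ (7 / (1 - ‖z‖)) * (7 / (1 - ‖z‖)) := by gcongr
        _ = 49 / (1 - ‖z‖) ^ 2 := by
            rw [div_mul_div_comm, ← pow_two (1 - ‖z‖)]
            norm_num) M
    linarith
  · have := h4 (fun z => Sh F z * Sh F z) (qq n) 3600 (ps_mul pS pS) (by norm_num)
      (fun z hz => by
      rw [norm_mul]
      have h5 := hsh z hz
      have hz1 : ‖z‖ < 1 := by rwa [mem_ball_zero_iff] at hz
      have hp : 0 < 1 - ‖z‖ := by linarith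
      calc ‖Sh F z‖ * ‖Sh F z‖ ≤ (60 / (1 - ‖z‖) ^ 2) * (60 / (1 - ‖z‖) ^ 2) := by gcongr
        _ = 3600 / (1 - ‖z‖) ^ 4 := by
            rw [div_mul_div_comm, ← pow_add]
            norm_num) M
    linarith
  · -- the difference
    have pQ := ps_mul (ps_sub (ps_deriv hn) (ps_smul (1 / 2) (ps_mul hn hn)))
      (ps_sub (ps_deriv hn) (ps_smul (1 / 2) (ps_mul hn hn)))
    have pR := ps_sub (ps_zmul (ps_zmul (ps_zmul (ps_zmul pQ)))) (ps_mul pS pS)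
    have pT : PS (fun z => -(Nh F z * Nh F z) - 2 * I * (Nh F z * Sh F z)) _ :=
      ps_congr pR fun z hz => by
        have h6 := Growth_key hn hz
        have h7 : z * (z * (z * (z * ((deriv (pre F) z - 1 / 2 * (pre F z * pre F z)) *
            (deriv (pre F) z - 1 / 2 * (pre F z * pre F z)))))) =
            (z * (z * (deriv (pre F) z - 1 / 2 * (pre F z * pre F z)))) *
            (z * (z * (deriv (pre F) z - 1 / 2 * (pre F z * pre F z)))) := by ring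
        rw [h7, ← h6]
        have hI : I * I = -1 := I_mul_I
        linear_combination (Nh F z * Nh F z) * hI
    have h5 := h3 _ _ 889 pT (by norm_num) (fun z hz => by
      have h8 := hnh z hz
      have h9 := hsh z hz
      have hz1 : ‖z‖ < 1 := by rwa [mem_ball_zero_iff] at hz
      have hz0 : 0 ≤ ‖z‖ := norm_nonneg z
      have hp : 0 < 1 - ‖z‖ := by linarith
      have hp1 : 1 - ‖z‖ ≤ 1 := by linarith
      calc ‖-(Nh F z * Nh F z) - 2 * I * (Nh F z * Sh F z)‖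
          ≤ ‖-(Nh F z * Nh F z)‖ + ‖2 * I * (Nh F z * Sh F z)‖ := norm_sub_le _ _
        _ = ‖Nh F z‖ * ‖Nh F z‖ + 2 * (‖Nh F z‖ * ‖Sh F z‖) := by
            rw [norm_neg, norm_mul, norm_mul, norm_mul, norm_mul, norm_I, Complex.norm_ofNat]
            ring
        _ ≤ (7 / (1 - ‖z‖)) * (7 / (1 - ‖z‖)) + 2 * ((7 / (1 - ‖z‖)) *
            (60 / (1 - ‖z‖) ^ 2)) := by gcongr
        _ = (49 * (1 - ‖z‖) + 840) / (1 - ‖z‖) ^ 3 := by
            field_simp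
            ring
        _ ≤ 889 / (1 - ‖z‖) ^ 3 := by
            gcongr
            linarith) M
    have h10 : ∑ m ∈ Icc 4 M, ‖cv (sz n) (sz n) (m - 4) - qq n m‖ ^ 2 / (m : ℝ) ^ 7 ≤
        C3 * 889 ^ 2 := by
      refine le_trans ?_ h5
      refine le_trans (le_of_eq ?_) (Finset.sum_le_sum_of_subset_of_nonneg
        (Finset.Icc_subset_Icc_left (by norm_num : 1 ≤ 4)) fun m _ _ => by positivity)
      refine Finset.sum_congr rfl fun m hm => ?_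
      have hm4 := (Finset.mem_Icc.mp hm).1
      have h11 : m ≠ 0 := by omega
      have h12 : m - 1 ≠ 0 := by omega
      have h13 : m - 1 - 1 ≠ 0 := by omega
      have h14 : m - 1 - 1 - 1 ≠ 0 := by omega
      have h15 : m - 1 - 1 - 1 - 1 = m - 4 := by omega
      simp only [if_neg h11, if_neg h12, if_neg h13, if_neg h14, h15]
      have h16 : (fun m : ℕ => ((m : ℂ) + 1) * n (m + 1) - 1 / 2 * cv n n m) = sz n := by
        funext i
        rw [sz]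
        ring
      rw [h16]
      rfl
    linarith

end Pool.Agent.Helper21.IM
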