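import Pool.Agent.Helper21.IM.Par

/-!
# IM-IF: the scale integral of a product

For `0 < R < 1`, `y > 0`: by `parseval` `circleAverage (P conj Q) 0 (R e^{-y}) =
∑ a m conj (b m) R^(2m) e^{-2 m y}`; the term `m = 0` vanishes.  Integrate termwise against `y^(k-1)`:
`∫_0^∞ y^(k-1) e^{-2 m y} dy = (k-1)!/(2m)^k` (`Real.integral_rpow_mul_exp_neg_mul_Ioi`, `Real.Gamma_nat_eq_factorial`),
and `∑ ‖a m‖ ‖b m‖ R^(2m) (k-1)!/(2m)^k < ∞` (`ps_summable`); `hasSum_integral_of_summable_integral_norm`.
-/

set_option autoImplicit false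

namespace Pool.Agent.Helper21.IM

open Complex Metric Set Real Finset MeasureTheory

private theorem IntForm_gamma {k : ℕ} {c : ℝ} (hc : 0 < c) :
    ∫ x in Ioi (0 : ℝ), x ^ k * Real.exp (-(c * x)) = (k.factorial : ℝ) / c ^ (k + 1) := by
  have hk : (0 : ℝ) < ↑k + 1 := by positivity
  have key := integral_rpow_mul_exp_neg_mul_Ioi hk hc
  have h : ∀ x : ℝ, x ^ ((k : ℝ) + 1 - 1) = x ^ k := fun x => by
    rw [add_sub_cancel_right, Real.rpow_natCast]
  simp only [h] at key
  rw [key, Real.Gamma_nat_eq_factorial, one_div, inv_rpow hc.le]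
  have h2 : c ^ ((k : ℝ) + 1) = c ^ (k + 1) := by
    rw [← Real.rpow_natCast]
    norm_num
  rw [h2]
  ring

private theorem IntForm_int {k : ℕ} {c : ℝ} (hc : 0 < c) :
    IntegrableOn (fun x : ℝ => x ^ k * Real.exp (-(c * x))) (Ioi 0) :=
  .of_integral_ne_zero (by rw [IntForm_gamma hc]; positivity)

theorem int_form {P Q : ℂ → ℂ} {a b : ℕ → ℂ} (hP : PS P a) (hQ : PS Q b) (hab : a 0 = 0 ∨ b 0 = 0)
    {R : ℝ} (h0 : 0 < R) (h1 : R < 1) {k : ℕ} (hk : 1 ≤ k) :
    IntegrableOn (fun y : ℝ => (y : ℂ) ^ (k - 1) *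
        circleAverage (fun z => P z * (starRingEnd ℂ) (Q z)) 0 (R * Real.exp (-y))) (Ioi 0) ∧
      HasSum (fun m : ℕ => if m = 0 then 0 else
          a m * (starRingEnd ℂ) (b m) * (R : ℂ) ^ (2 * m) * ((k - 1).factorial : ℂ) / (2 * m) ^ k)
        (∫ y in Ioi (0 : ℝ), (y : ℂ) ^ (k - 1) *
          circleAverage (fun z => P z * (starRingEnd ℂ) (Q z)) 0 (R * Real.exp (-y))) := by
  obtain ⟨j, rfl⟩ : ∃ j, k = j + 1 := ⟨k - 1, by omega⟩
  rw [Nat.add_sub_cancel]
  -- the termwise functions
  set A : ℕ → ℂ := fun m => a m * (starRingEnd ℂ) (b m) * (R : ℂ) ^ (2 * m) with hA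
  set F : ℕ → ℝ → ℂ := fun m y => if m = 0 then 0 else
    A m * (((y ^ j * Real.exp (-(2 * m * y)) : ℝ)) : ℂ) with hF
  have hA0 : a 0 * (starRingEnd ℂ) (b 0) = 0 := by
    rcases hab with h | h
    · rw [h, zero_mul]
    · rw [h, map_zero, mul_zero]
  set f : ℝ → ℂ := fun y => (y : ℂ) ^ j *
        circleAverage (fun z => P z * (starRingEnd ℂ) (Q z)) 0 (R * Real.exp (-y)) with hf
  -- pointwise sums
  have hsum : ∀ y ∈ Ioi (0 : ℝ), HasSum (fun m => F m y) (f y) := by
    intro y hy
    have hy0 : (0 : ℝ) < y := hy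
    have he : Real.exp (-y) ≤ 1 := Real.exp_le_one_iff.2 (by linarith)
    have hρ0 : 0 ≤ R * Real.exp (-y) := by positivity
    have hρ1 : R * Real.exp (-y) < 1 := by
      calc R * Real.exp (-y) ≤ R * 1 := mul_le_mul_of_nonneg_left he h0.le
        _ < 1 := by linarith
    have h := (parseval hP hQ hρ0 hρ1).mul_left ((y : ℂ) ^ j)
    have h2 : (fun m => (y : ℂ) ^ j * (a m * (starRingEnd ℂ) (b m) *
        ((R * Real.exp (-y) : ℝ) : ℂ) ^ (2 * m))) = fun m => F m y := by
      funext m
      simp only [hF, hA]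
      split_ifs with hm
      · rw [hm, hA0]
        simp
      · have h3 : Real.exp (-(2 * m * y)) = Real.exp (-y) ^ (2 * m) := by
          rw [← Real.exp_nat_mul]
          congr 1
          push_cast
          ring
        rw [h3]
        push_cast
        rw [mul_pow]
        ring
    rw [h2] at h
    exact h
  -- bounds
  have hsA : Summable fun m => ‖A m‖ := by
    have h3 := ps_summable hP h0.le h1
    have h4 := ps_summable hQ h0.le h1
    refine Summable.of_nonneg_of_le (fun m => norm_nonneg _) (fun m => ?_)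
      (h3.mul_right (∑' m, ‖b m‖ * R ^ m))
    have h5 : ‖b m‖ * R ^ m ≤ ∑' m, ‖b m‖ * R ^ m :=
      h4.le_tsum m (fun i _ => by positivity)
    have h6 : ‖A m‖ = (‖a m‖ * R ^ m) * (‖b m‖ * R ^ m) := by
      simp only [hA, norm_mul, RCLike.norm_conj, norm_pow, Complex.norm_real, Real.norm_eq_abs,
        abs_of_pos h0]
      ring
    rw [h6]
    exact mul_le_mul_of_nonneg_left h5 (by positivity)
  have hFint : ∀ m, Integrable (F m) (volume.restrict (Ioi (0 : ℝ))) := by
    intro m
    simp only [hF]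
    split_ifs with hm
    · exact integrable_zero _ _ _
    · have hc : (0 : ℝ) < 2 * m := by positivity
      exact ((IntForm_int (k := j) hc).ofReal).const_mul (A m)
  have hFnorm : ∀ m, ∫ y in Ioi (0 : ℝ), ‖F m y‖ ≤ ‖A m‖ * (j.factorial : ℝ) := by
    intro m
    simp only [hF]
    split_ifs with hm
    · simp only [norm_zero, integral_zero]
      positivity
    · have hc1 : (1 : ℝ) ≤ m := by exact_mod_cast Nat.one_le_iff_ne_zero.2 hm
      have hc : (0 : ℝ) < 2 * m := by linarith
      have h3 : ∫ y in Ioi (0 : ℝ), ‖A m * (((y ^ j * Real.exp (-(2 * m * y)) : ℝ)) : ℂ)‖ =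
          ∫ y in Ioi (0 : ℝ), ‖A m‖ * (y ^ j * Real.exp (-(2 * m * y))) := by
        refine setIntegral_congr_fun measurableSet_Ioi fun y hy => ?_
        have hy0 : (0 : ℝ) < y := hy
        rw [norm_mul, Complex.norm_real, Real.norm_eq_abs, abs_of_nonneg (by positivity)]
      rw [h3, integral_const_mul, IntForm_gamma hc]
      refine mul_le_mul_of_nonneg_left ?_ (norm_nonneg _)
      refine div_le_self (by positivity) ?_
      exact one_le_pow₀ (by linarith)
  have hFsum : Summable fun m => ∫ y in Ioi (0 : ℝ), ‖F m y‖ :=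
    Summable.of_nonneg_of_le (fun m => integral_nonneg fun y => norm_nonneg _) hFnorm
      (hsA.mul_right _)
  have key := hasSum_integral_of_summable_integral_norm hFint hFsum
  have hts : ∀ y ∈ Ioi (0 : ℝ), ∑' m, F m y = f y := fun y hy => (hsum y hy).tsum_eq
  rw [setIntegral_congr_fun measurableSet_Ioi hts] at key
  constructor
  · -- integrability
    have hc : (0 : ℝ) < 2 := by norm_num
    have hg : IntegrableOn (fun x : ℝ => (∑' m, ‖A m‖) * (x ^ j * Real.exp (-(2 * x)))) (Ioi 0) :=
      (IntForm_int (k := j) hc).const_mul _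
    refine Integrable.mono' hg ?_ ?_
    · refine aestronglyMeasurable_of_tendsto_ae Filter.atTop
        (f := fun n y => ∑ m ∈ Finset.range n, F m y) (fun n => ?_) ?_
      · have := integrable_finsetSum (Finset.range n) (fun m _ => hFint m)
        exact this.aestronglyMeasurable
      · refine (ae_restrict_iff' measurableSet_Ioi).2 (Filter.Eventually.of_forall fun y hy => ?_)
        exact (hsum y hy).tendsto_sum_nat
    · refine (ae_restrict_iff' measurableSet_Ioi).2 (Filter.Eventually.of_forall fun y hy => ?_)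
      have hy0 : (0 : ℝ) < y := hy
      have h7 : ∀ m, ‖F m y‖ ≤ ‖A m‖ * (y ^ j * Real.exp (-(2 * y))) := by
        intro m
        simp only [hF]
        split_ifs with hm
        · rw [norm_zero]
          positivity
        · rw [norm_mul, Complex.norm_real, Real.norm_eq_abs, abs_of_nonneg (by positivity)]
          have hc1 : (1 : ℝ) ≤ m := by exact_mod_cast Nat.one_le_iff_ne_zero.2 hm
          have : -(2 * (m : ℝ) * y) ≤ -(2 * y) := by nlinarith
          gcongr
      have h8 : Summable fun m => ‖A m‖ * (y ^ j * Real.exp (-(2 * y))) := hsA.mul_right _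
      have h9 : Summable fun m => ‖F m y‖ :=
        Summable.of_nonneg_of_le (fun m => norm_nonneg _) h7 h8
      show ‖f y‖ ≤ _
      rw [← hts y hy]
      refine (norm_tsum_le_tsum_norm h9).trans ?_
      rw [← tsum_mul_right]
      exact h9.tsum_le_tsum h7 h8
  · have h10 : (fun m => ∫ y in Ioi (0 : ℝ), F m y) = fun m : ℕ => if m = 0 then 0 else
          a m * (starRingEnd ℂ) (b m) * (R : ℂ) ^ (2 * m) * (j.factorial : ℂ) /
            (2 * m) ^ (j + 1) := by
      funext m
      simp only [hF]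
      split_ifs with hm
      · simp
      · have hc : (0 : ℝ) < 2 * m := by positivity
        rw [integral_const_mul, integral_complex_ofReal, IntForm_gamma hc]
        simp only [hA]
        push_cast
        ring
    rw [h10] at key
    exact key

end Pool.Agent.Helper21.IM
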