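import Pool.Agent.Helper21.IM.Koebe

/-!
# IM-IT: iteration of a positive operator

Induction on `n`: `A^(n+1) g z ≥ A^n avg (g ∘ mob z) ≥ avg (Mr (1 - κ q^n u (mob z ζ))) ≥
Mr (1 - κ q^(n+1) u z)`.
-/

set_option autoImplicit false

namespace Pool.Agent.Helper21.IM

open Complex Metric Set Real Finset

private theorem iter_int {s : ℝ} (hs : 0 < s) (hs1 : s < 1) {g : ℂ → ℝ}
    (hg : ContinuousOn g (ball 0 1)) {z : ℂ} (hz : z ∈ ball (0 : ℂ) 1) :
    CircleIntegrable (fun ζ => g (mob z ζ)) 0 s := by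
  have hsub : sphere (0 : ℂ) |s| ⊆ ball 0 1 := by
    intro ζ hζ
    rw [mem_sphere_zero_iff_norm, abs_of_pos hs] at hζ
    rw [mem_ball_zero_iff, hζ]
    exact hs1
  apply ContinuousOn.circleIntegrable'
  refine hg.comp (t := ball 0 1) ?_ fun ζ hζ => mob_mem hz (hsub hζ)
  unfold mob
  refine ContinuousOn.div (by fun_prop) (by fun_prop) fun ζ hζ => ?_
  exact one_add_ne (ball_subset_closedBall hz) (hsub hζ)

theorem iter {s A q κ Mr : ℝ} {g u : ℂ → ℝ} (hs : 0 < s) (hs1 : s < 1)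
    (hg : ContinuousOn g (ball 0 1)) (hu : ContinuousOn u (ball 0 1)) (hA0 : 0 ≤ A) (hq0 : 0 ≤ q)
    (hκ : 0 ≤ κ) (hM : 0 ≤ Mr)
    (hA : ∀ z ∈ ball (0 : ℂ) 1, circleAverage (fun ζ => g (mob z ζ)) 0 s ≤ A * g z)
    (hq : ∀ z ∈ ball (0 : ℂ) 1, circleAverage (fun ζ => u (mob z ζ)) 0 s ≤ q * u z)
    (hlow : ∀ z ∈ ball (0 : ℂ) 1, Mr * (1 - κ * u z) ≤ g z) (n : ℕ) :
    ∀ z ∈ ball (0 : ℂ) 1, Mr * (1 - κ * q ^ n * u z) ≤ A ^ n * g z := by
  induction n with
  | zero =>
    intro z hz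
    simpa using hlow z hz
  | succ n ih =>
    intro z hz
    have hsub : ∀ ζ ∈ sphere (0 : ℂ) |s|, ζ ∈ ball (0 : ℂ) 1 := by
      intro ζ hζ
      rw [mem_sphere_zero_iff_norm, abs_of_pos hs] at hζ
      rw [mem_ball_zero_iff, hζ]
      exact hs1
    have hgi := iter_int hs hs1 hg hz
    have hui := iter_int hs hs1 hu hz
    have h1 : circleAverage (fun ζ => A ^ n * g (mob z ζ)) 0 s =
        A ^ n * circleAverage (fun ζ => g (mob z ζ)) 0 s := by
      have := circleAverage_fun_smul (a := A ^ n) (f := fun ζ => g (mob z ζ)) (c := 0) (R := s)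
      simpa only [smul_eq_mul] using this
    have h2 : circleAverage (fun ζ => Mr - Mr * (κ * q ^ n) * u (mob z ζ)) 0 s =
        Mr - Mr * (κ * q ^ n) * circleAverage (fun ζ => u (mob z ζ)) 0 s := by
      have hc : CircleIntegrable (fun _ : ℂ => Mr) 0 s := continuousOn_const.circleIntegrable'
      have hui' : CircleIntegrable (fun ζ => Mr * (κ * q ^ n) * u (mob z ζ)) 0 s :=
        hui.const_mul _
      have h3 := circleAverage_fun_smul (a := Mr * (κ * q ^ n)) (f := fun ζ => u (mob z ζ))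
        (c := 0) (R := s)
      simp only [smul_eq_mul] at h3
      rw [circleAverage_fun_sub hc hui', circleAverage_const, h3]
    have h4 : circleAverage (fun ζ => Mr - Mr * (κ * q ^ n) * u (mob z ζ)) 0 s ≤
        circleAverage (fun ζ => A ^ n * g (mob z ζ)) 0 s := by
      refine circleAverage_mono ?_ (hgi.const_mul _) fun ζ hζ => ?_
      · have hc : CircleIntegrable (fun _ : ℂ => Mr) 0 s := continuousOn_const.circleIntegrable'
        exact hc.sub (hui.const_mul _)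
      · have := ih (mob z ζ) (mob_mem hz (hsub ζ hζ))
        calc Mr - Mr * (κ * q ^ n) * u (mob z ζ) = Mr * (1 - κ * q ^ n * u (mob z ζ)) := by ring
          _ ≤ _ := this
    rw [h1, h2] at h4
    have h5 : A ^ n * circleAverage (fun ζ => g (mob z ζ)) 0 s ≤ A ^ n * (A * g z) :=
      mul_le_mul_of_nonneg_left (hA z hz) (pow_nonneg hA0 n)
    have h6 : Mr * (κ * q ^ n) * circleAverage (fun ζ => u (mob z ζ)) 0 s ≤
        Mr * (κ * q ^ n) * (q * u z) :=
      mul_le_mul_of_nonneg_left (hq z hz) (by positivity)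
    calc Mr * (1 - κ * q ^ (n + 1) * u z) = Mr - Mr * (κ * q ^ n) * (q * u z) := by ring
      _ ≤ Mr - Mr * (κ * q ^ n) * circleAverage (fun ζ => u (mob z ζ)) 0 s := by linarith
      _ ≤ A ^ n * circleAverage (fun ζ => g (mob z ζ)) 0 s := h4
      _ ≤ A ^ n * (A * g z) := h5
      _ = A ^ (n + 1) * g z := by ring

end Pool.Agent.Helper21.IM
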