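import Pool.Agent.Helper21.IM.Bessel

/-!
# IM-JB: from the Grunsky energy to the three layers (sequences only)

For `m ≥ 4` let `x k = l (m-k) k` if `0 < k < m`, `x 0 = x m = 0`.  The hypotheses `i0`, `i2`, `i4` give
(`λ = l 0 m = l m 0`, `g = gs n m`, `a = cv n n (m-2) = - qa n m`, `q = cv (sz n) (sz n) (m-4)`,
`Q = qq n m`)
`∑ x = g - 2 λ`, `∑ p2 x = a/2 - 2 m(m-1) λ`,
`∑ p4 x = (m-2)(m-3)/2 a - 7/3 q - 2 m(m-1)(m-2)(m-3) λ`.  `bessel` times `(m/2) R^(2m)`, summed over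
`4 ≤ m ≤ M`, is at most `L + C₁` by `hEn`: in the Hilbert space `ℂ³`-valued sequences with
`v m = R^m (√(m/(2(m+1))) (g - 2λ), √(m/(2 n2)) (a/2 - 2m(m-1)λ), √(m/(2 n4)) (...))`:
`‖v‖² ≤ L + C₁`.  Let `u m = R^m (g/√2, √(5/8) a/m², (3/√2) (m² a/2 - 7/3 Q)/m⁴)`; then
`‖u m‖² = R^(2m) jt n m` (expand; `a = -qa`).  Each component of `u m - v m` is at most
`C (‖g‖/m + ‖a‖/m³ + ‖q - Q‖/m⁴ + ‖Q‖/m⁵ + ‖λ‖)`, so `‖u - v‖² ≤ C₂` by the growth hypotheses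
(`‖g‖ = ‖nu n m‖/m`).  Hence `‖u‖² ≤ (√(L + C₁) + √C₂)² ≤ L + C (1 + √L)`.  The terms `m ≤ 3` are bounded by the
growth hypotheses.
-/

set_option autoImplicit false

namespace Pool.Agent.Helper21.IM

open Complex Metric Set Real Finset


/-- the coefficients of degree `m` without the two ends -/
private noncomputable def JBound_x (l : ℕ → ℕ → ℂ) (m k : ℕ) : ℂ :=
  if k = 0 ∨ k = m then 0 else l (m - k) k

private theorem JBound_anti {M : Type*} [AddCommMonoid M] (f : ℕ → ℕ → M) (m : ℕ) :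
    ∑ p ∈ antidiagonal m, f p.1 p.2 = ∑ k ∈ range (m + 1), f (m - k) k := by
  rw [← Finset.Nat.sum_antidiagonal_swap]
  exact Finset.Nat.sum_antidiagonal_eq_sum_range_succ (fun i j => f j i) m

private theorem JBound_split (l : ℕ → ℕ → ℂ) (c : ℕ → ℂ) {m : ℕ} (hm : 1 ≤ m) :
    ∑ p ∈ antidiagonal m, c p.2 * l p.1 p.2 =
      ∑ k ∈ range (m + 1), c k * JBound_x l m k + c 0 * l m 0 + c m * l 0 m := by
  rw [JBound_anti (fun i j => c j * l i j) m]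
  have h1 : ∀ k ∈ range (m + 1), c k * l (m - k) k =
      c k * JBound_x l m k + (if k = 0 then c 0 * l m 0 else 0) +
        (if k = m then c m * l 0 m else 0) := by
    intro k _
    unfold JBound_x
    by_cases h0 : k = 0
    · subst h0
      rw [if_pos (Or.inl rfl), if_pos rfl, if_neg (by omega), Nat.sub_zero]
      ring
    · by_cases h2 : k = m
      · subst h2
        rw [if_pos (Or.inr rfl), if_neg h0, if_pos rfl, Nat.sub_self]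
        ring
      · rw [if_neg (by omega), if_neg h0, if_neg h2]
        ring
  rw [Finset.sum_congr rfl h1, Finset.sum_add_distrib, Finset.sum_add_distrib,
    Finset.sum_ite_eq', Finset.sum_ite_eq', if_pos (Finset.mem_range.2 (by omega)),
    if_pos (Finset.mem_range.2 (by omega))]

private theorem JBound_norm (l : ℕ → ℕ → ℂ) (m : ℕ) :
    ∑ k ∈ range (m + 1), ‖JBound_x l m k‖ ^ 2 =
      ∑ p ∈ antidiagonal m, (if p.1 = 0 ∨ p.2 = 0 then 0 else ‖l p.1 p.2‖ ^ 2) := by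
  rw [JBound_anti (fun i j => if i = 0 ∨ j = 0 then 0 else ‖l i j‖ ^ 2) m]
  refine Finset.sum_congr rfl fun k hk => ?_
  have hk' := Finset.mem_range.1 hk
  unfold JBound_x
  by_cases h : k = 0 ∨ k = m
  · rw [if_pos h, if_pos (by omega)]
    simp
  · rw [if_neg h, if_neg (by omega)]

private theorem JBound_bessel {n : ℕ → ℂ} {l : ℕ → ℕ → ℂ} (hs : ∀ j k, l j k = l k j)
    (h0 : ∀ m : ℕ, ∑ p ∈ antidiagonal (m + 1), l p.1 p.2 = n m / (m + 1))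
    (h2 : ∀ m : ℕ, ∑ p ∈ antidiagonal (m + 2), (p2 (m + 2) p.2 : ℂ) * l p.1 p.2 = cv n n m / 2)
    (h4 : ∀ m : ℕ, ∑ p ∈ antidiagonal (m + 4), (p4 (m + 4) p.2 : ℂ) * l p.1 p.2 =
      ((m : ℂ) + 2) * (m + 1) / 2 * cv n n (m + 2) - 7 / 3 * cv (sz n) (sz n) m) (i : ℕ) :
    ‖gs n (i + 4) - 2 * l 0 (i + 4)‖ ^ 2 / ((i : ℝ) + 5) +
      ‖cv n n (i + 2) / 2 - 2 * (((i : ℂ) + 4) * (i + 3)) * l 0 (i + 4)‖ ^ 2 / n2 (i + 4) +
      ‖((i : ℂ) + 2) * (i + 1) / 2 * cv n n (i + 2) - 7 / 3 * cv (sz n) (sz n) i -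
        2 * (((i : ℂ) + 4) * (i + 3) * (i + 2) * (i + 1)) * l 0 (i + 4)‖ ^ 2 / n4 (i + 4) ≤
      ∑ p ∈ antidiagonal (i + 4), (if p.1 = 0 ∨ p.2 = 0 then 0 else ‖l p.1 p.2‖ ^ 2) := by
  have hb := bessel (m := i + 4) (by omega) (JBound_x l (i + 4))
  have e0 := JBound_split l (fun _ => 1) (m := i + 4) (by omega)
  have e2 := JBound_split l (fun k => (p2 (i + 4) k : ℂ)) (m := i + 4) (by omega)
  have e4 := JBound_split l (fun k => (p4 (i + 4) k : ℂ)) (m := i + 4) (by omega)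
  simp only [one_mul] at e0
  have g0 := h0 (i + 3)
  have g2 := h2 (i + 2)
  have g4 := h4 i
  simp only [show i + 3 + 1 = i + 4 by omega] at g0
  simp only [show i + 2 + 2 = i + 4 by omega] at g2
  have f0 : ∑ k ∈ range (i + 4 + 1), JBound_x l (i + 4) k = gs n (i + 4) - 2 * l 0 (i + 4) := by
    rw [g0] at e0
    rw [hs (i + 4) 0] at e0
    have : gs n (i + 4) = n (i + 3) / (((i + 3 : ℕ) : ℂ) + 1) := by
      unfold gs
      rw [show i + 4 - 1 = i + 3 by omega]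
      push_cast
      ring_nf
    rw [this, e0]
    ring
  have c2 : (p2 (i + 4) 0 : ℂ) = ((i : ℂ) + 4) * (i + 3) := by
    unfold p2
    push_cast
    ring
  have c2' : (p2 (i + 4) (i + 4) : ℂ) = ((i : ℂ) + 4) * (i + 3) := by
    unfold p2
    push_cast
    ring
  have c4 : (p4 (i + 4) 0 : ℂ) = ((i : ℂ) + 4) * (i + 3) * (i + 2) * (i + 1) := by
    unfold p4
    push_cast
    ring
  have c4' : (p4 (i + 4) (i + 4) : ℂ) = ((i : ℂ) + 4) * (i + 3) * (i + 2) * (i + 1) := by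
    unfold p4
    push_cast
    ring
  have f2 : ∑ k ∈ range (i + 4 + 1), (p2 (i + 4) k : ℂ) * JBound_x l (i + 4) k =
      cv n n (i + 2) / 2 - 2 * (((i : ℂ) + 4) * (i + 3)) * l 0 (i + 4) := by
    rw [g2, c2, c2', hs (i + 4) 0] at e2
    rw [e2]
    ring
  have f4 : ∑ k ∈ range (i + 4 + 1), (p4 (i + 4) k : ℂ) * JBound_x l (i + 4) k =
      ((i : ℂ) + 2) * (i + 1) / 2 * cv n n (i + 2) - 7 / 3 * cv (sz n) (sz n) i -
        2 * (((i : ℂ) + 4) * (i + 3) * (i + 2) * (i + 1)) * l 0 (i + 4) := by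
    rw [g4, c4, c4', hs (i + 4) 0] at e4
    rw [e4]
    ring
  rw [f0, f2, f4, JBound_norm] at hb
  have e : ((i + 4 : ℕ) : ℝ) + 1 = (i : ℝ) + 5 := by
    push_cast
    ring
  rw [e] at hb
  exact hb

/-- `qa` in terms of `n` -/
theorem qa_eq (n : ℕ → ℂ) (m : ℕ) : qa n (m + 2) = - cv n n m := by
  unfold qa cv
  rw [JBound_anti (fun i j => nu n i * nu n j) (m + 2), Finset.sum_range_succ,
    Finset.sum_range_succ', JBound_anti (fun i j => n i * n j) m]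
  have h1 : nu n (m + 2 - (m + 2)) * nu n (m + 2) = 0 := by
    rw [Nat.sub_self]
    unfold nu
    rw [if_pos rfl, zero_mul]
  have h2 : nu n (m + 2 - 0) * nu n 0 = 0 := by
    unfold nu
    rw [if_pos (rfl : (0 : ℕ) = 0), mul_zero]
  rw [h1, h2, add_zero, add_zero, ← Finset.sum_neg_distrib]
  refine Finset.sum_congr rfl fun k hk => ?_
  have hk' := Finset.mem_range.1 hk
  unfold nu
  rw [if_neg (by omega), if_neg (by omega), show m + 2 - (k + 1) - 1 = m - k by omega,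
    show k + 1 - 1 = k by omega]
  have h3 : (I : ℂ) * n (m - k) * (I * n k) = (I * I) * (n (m - k) * n k) := by ring
  rw [h3, I_mul_I]
  ring



private theorem JBound_coef {α β : ℝ} (hα : 0 < α) (hβ : 0 ≤ β) :
    |α - β| ≤ |α ^ 2 - β ^ 2| / α := by
  rw [le_div_iff₀ hα]
  have h1 : |α ^ 2 - β ^ 2| = |α - β| * (α + β) := by
    rw [show α ^ 2 - β ^ 2 = (α - β) * (α + β) by ring, abs_mul,
      abs_of_pos (show 0 < α + β by linarith)]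
  rw [h1]
  exact mul_le_mul_of_nonneg_left (by linarith) (abs_nonneg _)

private theorem JBound_sq {x w s u : ℝ} (hs : 0 < s) (hu : 0 ≤ u) (h : u ≤ x + w) :
    u ^ 2 ≤ (1 + s) * x ^ 2 + (1 + 1 / s) * w ^ 2 := by
  have h1 : u ^ 2 ≤ (x + w) ^ 2 := by
    nlinarith
  have h2 : (1 + s) * x ^ 2 + (1 + 1 / s) * w ^ 2 - (x + w) ^ 2 = (s * x - w) ^ 2 / s := by
    field_simp
    ring
  have h3 : 0 ≤ (s * x - w) ^ 2 / s := by positivity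
  linarith

private theorem JBound_comp {α β δ s w : ℝ} (hα : 0 ≤ α) (hβ : 0 ≤ β) (hs : 0 < s)
    (hδ : |α - β| ≤ δ) (P P' : ℂ) (hw : δ * ‖P‖ + β * ‖P - P'‖ ≤ w) :
    α ^ 2 * ‖P‖ ^ 2 ≤ (1 + s) * (β ^ 2 * ‖P'‖ ^ 2) + (1 + 1 / s) * w ^ 2 := by
  have h1 : α * ‖P‖ ≤ β * ‖P'‖ + w := by
    have h2 : ‖P‖ ≤ ‖P'‖ + ‖P - P'‖ := by
      calc ‖P‖ = ‖P' + (P - P')‖ := by ring_nf
        _ ≤ _ := norm_add_le _ _
    have h3 : α ≤ β + δ := by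
      have := le_trans (le_abs_self _) hδ
      linarith
    have h4 : α * ‖P‖ ≤ (β + δ) * ‖P‖ := mul_le_mul_of_nonneg_right h3 (norm_nonneg _)
    have h5 : β * ‖P‖ ≤ β * (‖P'‖ + ‖P - P'‖) := mul_le_mul_of_nonneg_left h2 hβ
    nlinarith
  have h2 := JBound_sq hs (by positivity) h1
  rw [mul_pow, mul_pow] at h2
  exact h2

private theorem JBound_d2 {x : ℝ} (hx : 0 ≤ x) :
    (x + 4) ^ 4 ≤ (x + 7) * (x + 6) * (x + 5) * (x + 3) ∧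
      (x + 7) * (x + 6) * (x + 5) * (x + 3) - (x + 4) ^ 4 ≤ 10 * (x + 4) ^ 3 := by
  constructor
  · have h : (x + 7) * (x + 6) * (x + 5) * (x + 3) - (x + 4) ^ 4 =
        374 + 275 * x + 65 * x ^ 2 + 5 * x ^ 3 := by ring
    have h1 : 0 ≤ 374 + 275 * x + 65 * x ^ 2 + 5 * x ^ 3 := by positivity
    linarith
  · have h : 10 * (x + 4) ^ 3 - ((x + 7) * (x + 6) * (x + 5) * (x + 3) - (x + 4) ^ 4) =
        266 + 205 * x + 55 * x ^ 2 + 5 * x ^ 3 := by ring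
    have h1 : 0 ≤ 266 + 205 * x + 55 * x ^ 2 + 5 * x ^ 3 := by positivity
    linarith

private theorem JBound_d4 {x : ℝ} (hx : 0 ≤ x) :
    (x + 4) ^ 8 ≤ (x + 9) * (x + 8) * (x + 7) * (x + 6) * (x + 5) * (x + 3) * (x + 2) * (x + 1) ∧
      (x + 9) * (x + 8) * (x + 7) * (x + 6) * (x + 5) * (x + 3) * (x + 2) * (x + 1) -
        (x + 4) ^ 8 ≤ 23 * (x + 4) ^ 7 := by
  constructor
  · have h : (x + 9) * (x + 8) * (x + 7) * (x + 6) * (x + 5) * (x + 3) * (x + 2) * (x + 1) -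
        (x + 4) ^ 8 = 25184 + 102892 * x + 119996 * x ^ 2 + 64905 * x ^ 3 + 18849 * x ^ 4 +
          3042 * x ^ 5 + 258 * x ^ 6 + 9 * x ^ 7 := by ring
    have h1 : 0 ≤ 25184 + 102892 * x + 119996 * x ^ 2 + 64905 * x ^ 3 + 18849 * x ^ 4 +
          3042 * x ^ 5 + 258 * x ^ 6 + 9 * x ^ 7 := by positivity
    linarith
  · have h : 23 * (x + 4) ^ 7 -
        ((x + 9) * (x + 8) * (x + 7) * (x + 6) * (x + 5) * (x + 3) * (x + 2) * (x + 1) -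
        (x + 4) ^ 8) = 351648 + 556564 * x + 374596 * x ^ 2 + 141175 * x ^ 3 + 32671 * x ^ 4 +
          4686 * x ^ 5 + 386 * x ^ 6 + 14 * x ^ 7 := by ring
    have h1 : 0 ≤ 351648 + 556564 * x + 374596 * x ^ 2 + 141175 * x ^ 3 + 32671 * x ^ 4 +
          4686 * x ^ 5 + 386 * x ^ 6 + 14 * x ^ 7 := by positivity
    linarith

/-- component 0 -/
private theorem JBound_c0 {x s : ℝ} (hx : 0 ≤ x) (hs : 0 < s) (g lam : ℂ) :
    1 / 2 * ‖g‖ ^ 2 ≤ (1 + s) * ((x + 4) / 2 * (‖g - 2 * lam‖ ^ 2 / (x + 5))) +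
      (1 + 1 / s) * (‖g‖ / (x + 4) + 2 * ‖lam‖) ^ 2 := by
  have hα : (√(1 / 2 : ℝ)) ^ 2 = 1 / 2 := Real.sq_sqrt (by norm_num)
  have hβ : (√((x + 4) / (2 * (x + 5)))) ^ 2 = (x + 4) / (2 * (x + 5)) :=
    Real.sq_sqrt (by positivity)
  have hα0 : (1 / 2 : ℝ) ≤ √(1 / 2 : ℝ) := Real.le_sqrt_of_sq_le (by norm_num)
  have hβ1 : √((x + 4) / (2 * (x + 5))) ≤ 1 := by
    rw [Real.sqrt_le_iff]
    refine ⟨zero_le_one, ?_⟩
    rw [one_pow, div_le_one (by positivity)]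
    linarith
  have hδ : |√(1 / 2 : ℝ) - √((x + 4) / (2 * (x + 5)))| ≤ 1 / (x + 4) := by
    refine (JBound_coef (by linarith) (Real.sqrt_nonneg _)).trans ?_
    rw [hα, hβ]
    have h1 : (1 / 2 : ℝ) - (x + 4) / (2 * (x + 5)) = 1 / (2 * (x + 5)) := by
      field_simp
      ring
    rw [h1, abs_of_pos (by positivity)]
    rw [div_le_iff₀ (by linarith)]
    have h2 : 1 / (2 * (x + 5)) ≤ 1 / (x + 4) * (1 / 2) := by
      rw [div_mul_div_comm, one_mul]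
      exact one_div_le_one_div_of_le (by positivity) (by linarith)
    refine h2.trans ?_
    exact mul_le_mul_of_nonneg_left hα0 (by positivity)
  have h := JBound_comp (s := s) (w := ‖g‖ / (x + 4) + 2 * ‖lam‖) (by linarith)
    (Real.sqrt_nonneg ((x + 4) / (2 * (x + 5)))) hs hδ g (g - 2 * lam) (by
      have h1 : ‖g - (g - 2 * lam)‖ = 2 * ‖lam‖ := by
        rw [show g - (g - 2 * lam) = 2 * lam by ring, norm_mul]
        norm_num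
      rw [h1]
      have h2 : √((x + 4) / (2 * (x + 5))) * (2 * ‖lam‖) ≤ 1 * (2 * ‖lam‖) :=
        mul_le_mul_of_nonneg_right hβ1 (by positivity)
      have h3 : 1 / (x + 4) * ‖g‖ = ‖g‖ / (x + 4) := by ring
      linarith)
  rw [hα, hβ] at h
  refine h.trans (le_of_eq ?_)
  congr 2
  field_simp

/-- component 1 -/
private theorem JBound_c1 {x s : ℝ} (hx : 0 ≤ x) (hs : 0 < s) (a lam : ℂ) :
    5 / 2 / (x + 4) ^ 4 * ‖a / 2‖ ^ 2 ≤ (1 + s) * (5 / 2 / ((x + 7) * (x + 6) * (x + 5) * (x + 3)) *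
      ‖a / 2 - 2 * (((x : ℂ) + 4) * (x + 3)) * lam‖ ^ 2) +
      (1 + 1 / s) * (13 * (‖a‖ / (x + 4) ^ 3) + 4 * ‖lam‖) ^ 2 := by
  obtain ⟨hd1, hd2⟩ := JBound_d2 hx
  have hM : 0 < x + 4 := by linarith
  have hD : 0 < (x + 7) * (x + 6) * (x + 5) * (x + 3) := by positivity
  have hα : (√(5 / 2 / (x + 4) ^ 4)) ^ 2 = 5 / 2 / (x + 4) ^ 4 := Real.sq_sqrt (by positivity)
  have hβ : (√(5 / 2 / ((x + 7) * (x + 6) * (x + 5) * (x + 3)))) ^ 2 =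
      5 / 2 / ((x + 7) * (x + 6) * (x + 5) * (x + 3)) := Real.sq_sqrt (by positivity)
  have hα0 : 1 / (x + 4) ^ 2 ≤ √(5 / 2 / (x + 4) ^ 4) := by
    apply Real.le_sqrt_of_sq_le
    rw [div_pow, ← pow_mul, one_pow]
    exact div_le_div_of_nonneg_right (by norm_num) (by positivity)
  have hβ1 : √(5 / 2 / ((x + 7) * (x + 6) * (x + 5) * (x + 3))) ≤ 2 / (x + 4) ^ 2 := by
    rw [Real.sqrt_le_iff]
    refine ⟨by positivity, ?_⟩
    rw [div_pow, ← pow_mul]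
    rw [div_le_div_iff₀ hD (by positivity)]
    nlinarith
  have hδ : |√(5 / 2 / (x + 4) ^ 4) - √(5 / 2 / ((x + 7) * (x + 6) * (x + 5) * (x + 3)))| ≤
      25 / (x + 4) ^ 3 := by
    have hpos : 0 < √(5 / 2 / (x + 4) ^ 4) := lt_of_lt_of_le (by positivity) hα0
    refine (JBound_coef hpos (Real.sqrt_nonneg _)).trans ?_
    rw [hα, hβ]
    have h1 : (5 / 2 / (x + 4) ^ 4 : ℝ) - 5 / 2 / ((x + 7) * (x + 6) * (x + 5) * (x + 3)) =
        5 / 2 * ((x + 7) * (x + 6) * (x + 5) * (x + 3) - (x + 4) ^ 4) /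
          ((x + 4) ^ 4 * ((x + 7) * (x + 6) * (x + 5) * (x + 3))) := by
      field_simp
    rw [h1, abs_of_nonneg (div_nonneg (by nlinarith) (by positivity))]
    rw [div_le_iff₀ hpos]
    have h2 : 5 / 2 * ((x + 7) * (x + 6) * (x + 5) * (x + 3) - (x + 4) ^ 4) /
        ((x + 4) ^ 4 * ((x + 7) * (x + 6) * (x + 5) * (x + 3))) ≤
        25 * (x + 4) ^ 3 / ((x + 4) ^ 4 * (x + 4) ^ 4) := by
      refine div_le_div₀ (by positivity) (by linarith) (by positivity) ?_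
      exact mul_le_mul_of_nonneg_left hd1 (by positivity)
    refine h2.trans ?_
    have h3 : 25 * (x + 4) ^ 3 / ((x + 4) ^ 4 * (x + 4) ^ 4) = 25 / (x + 4) ^ 3 *
        (1 / (x + 4) ^ 2) := by
      field_simp
    rw [h3]
    exact mul_le_mul_of_nonneg_left hα0 (by positivity)
  have h := JBound_comp (s := s) (w := 13 * (‖a‖ / (x + 4) ^ 3) + 4 * ‖lam‖) (Real.sqrt_nonneg _)
    (Real.sqrt_nonneg (5 / 2 / ((x + 7) * (x + 6) * (x + 5) * (x + 3)))) hs hδ (a / 2)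
    (a / 2 - 2 * (((x : ℂ) + 4) * (x + 3)) * lam) (by
      have h1 : ‖a / 2 - (a / 2 - 2 * (((x : ℂ) + 4) * (x + 3)) * lam)‖ =
          2 * ((x + 4) * (x + 3)) * ‖lam‖ := by
        rw [show a / 2 - (a / 2 - 2 * (((x : ℂ) + 4) * (x + 3)) * lam) =
          (((2 * ((x + 4) * (x + 3)) : ℝ)) : ℂ) * lam by push_cast; ring, norm_mul,
          Complex.norm_real, Real.norm_eq_abs, abs_of_nonneg (by positivity)]
      rw [h1]
      have h2 : √(5 / 2 / ((x + 7) * (x + 6) * (x + 5) * (x + 3))) *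
          (2 * ((x + 4) * (x + 3)) * ‖lam‖) ≤ 2 / (x + 4) ^ 2 *
          (2 * ((x + 4) * (x + 4)) * ‖lam‖) := by
        refine mul_le_mul hβ1 ?_ (by positivity) (by positivity)
        refine mul_le_mul_of_nonneg_right ?_ (norm_nonneg _)
        nlinarith
      have h3 : 2 / (x + 4) ^ 2 * (2 * ((x + 4) * (x + 4)) * ‖lam‖) = 4 * ‖lam‖ := by
        field_simp
        ring
      have h4 : ‖a / 2‖ = ‖a‖ / 2 := by
        rw [norm_div]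
        norm_num
      rw [h4]
      have h5 : 25 / (x + 4) ^ 3 * (‖a‖ / 2) = 25 / 2 * (‖a‖ / (x + 4) ^ 3) := by ring
      have h6 : 0 ≤ ‖a‖ / (x + 4) ^ 3 := by positivity
      linarith)
  rw [hα, hβ] at h
  exact h

/-- component 2 -/
private theorem JBound_c2 {x s : ℝ} (hx : 0 ≤ x) (hs : 0 < s) (a q Q lam : ℂ) :
    9 / 2 / (x + 4) ^ 8 * ‖((x : ℂ) + 4) ^ 2 * a / 2 - 7 / 3 * Q‖ ^ 2 ≤
      (1 + s) * (9 / 2 / ((x + 9) * (x + 8) * (x + 7) * (x + 6) * (x + 5) * (x + 3) * (x + 2) *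
      (x + 1)) * ‖((x : ℂ) + 2) * (x + 1) / 2 * a - 7 / 3 * q -
        2 * (((x : ℂ) + 4) * (x + 3) * (x + 2) * (x + 1)) * lam‖ ^ 2) +
      (1 + 1 / s) * (34 * (‖a‖ / (x + 4) ^ 3) + 122 * (‖Q‖ / (x + 4) ^ 5) +
        7 * (‖q - Q‖ / (x + 4) ^ 4) + 6 * ‖lam‖) ^ 2 := by
  obtain ⟨hd1, hd2⟩ := JBound_d4 hx
  have hM : 0 < x + 4 := by linarith
  have hD : 0 < (x + 9) * (x + 8) * (x + 7) * (x + 6) * (x + 5) * (x + 3) * (x + 2) * (x + 1) := by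
    positivity
  have hα : (√(9 / 2 / (x + 4) ^ 8)) ^ 2 = 9 / 2 / (x + 4) ^ 8 := Real.sq_sqrt (by positivity)
  set D := (x + 9) * (x + 8) * (x + 7) * (x + 6) * (x + 5) * (x + 3) * (x + 2) * (x + 1) with hDdef
  have hβ : (√(9 / 2 / D)) ^ 2 = 9 / 2 / D := Real.sq_sqrt (by positivity)
  have hα0 : 2 / (x + 4) ^ 4 ≤ √(9 / 2 / (x + 4) ^ 8) := by
    apply Real.le_sqrt_of_sq_le
    rw [div_pow, ← pow_mul]
    exact div_le_div_of_nonneg_right (by norm_num) (by positivity)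
  have hβ1 : √(9 / 2 / D) ≤ 3 / (x + 4) ^ 4 := by
    rw [Real.sqrt_le_iff]
    refine ⟨by positivity, ?_⟩
    rw [div_pow, ← pow_mul]
    rw [div_le_div_iff₀ hD (by positivity)]
    nlinarith
  have hδ : |√(9 / 2 / (x + 4) ^ 8) - √(9 / 2 / D)| ≤ 52 / (x + 4) ^ 5 := by
    have hpos : 0 < √(9 / 2 / (x + 4) ^ 8) := lt_of_lt_of_le (by positivity) hα0
    refine (JBound_coef hpos (Real.sqrt_nonneg _)).trans ?_
    rw [hα, hβ]
    have h1 : (9 / 2 / (x + 4) ^ 8 : ℝ) - 9 / 2 / D =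
        9 / 2 * (D - (x + 4) ^ 8) / ((x + 4) ^ 8 * D) := by
      field_simp
    rw [h1, abs_of_nonneg (div_nonneg (by nlinarith) (by positivity))]
    rw [div_le_iff₀ hpos]
    have h2 : 9 / 2 * (D - (x + 4) ^ 8) / ((x + 4) ^ 8 * D) ≤
        104 * (x + 4) ^ 7 / ((x + 4) ^ 8 * (x + 4) ^ 8) := by
      have h0 : 0 ≤ (x + 4) ^ 7 := by positivity
      refine div_le_div₀ (by positivity) (by linarith) (by positivity) ?_
      exact mul_le_mul_of_nonneg_left hd1 (by positivity)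
    refine h2.trans ?_
    have h3 : 104 * (x + 4) ^ 7 / ((x + 4) ^ 8 * (x + 4) ^ 8) = 52 / (x + 4) ^ 5 *
        (2 / (x + 4) ^ 4) := by
      field_simp
      ring
    rw [h3]
    exact mul_le_mul_of_nonneg_left hα0 (by positivity)
  have h := JBound_comp (s := s) (w := 34 * (‖a‖ / (x + 4) ^ 3) + 122 * (‖Q‖ / (x + 4) ^ 5) +
        7 * (‖q - Q‖ / (x + 4) ^ 4) + 6 * ‖lam‖) (Real.sqrt_nonneg _)
    (Real.sqrt_nonneg (9 / 2 / D)) hs hδ (((x : ℂ) + 4) ^ 2 * a / 2 - 7 / 3 * Q)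
    (((x : ℂ) + 2) * (x + 1) / 2 * a - 7 / 3 * q -
        2 * (((x : ℂ) + 4) * (x + 3) * (x + 2) * (x + 1)) * lam) (by
      have h1 : ‖((x : ℂ) + 4) ^ 2 * a / 2 - 7 / 3 * Q -
          (((x : ℂ) + 2) * (x + 1) / 2 * a - 7 / 3 * q -
          2 * (((x : ℂ) + 4) * (x + 3) * (x + 2) * (x + 1)) * lam)‖ ≤
          5 / 2 * (x + 4) * ‖a‖ + 7 / 3 * ‖q - Q‖ + 2 * (x + 4) ^ 4 * ‖lam‖ := by
        have e : ((x : ℂ) + 4) ^ 2 * a / 2 - 7 / 3 * Q -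
          (((x : ℂ) + 2) * (x + 1) / 2 * a - 7 / 3 * q -
          2 * (((x : ℂ) + 4) * (x + 3) * (x + 2) * (x + 1)) * lam) =
          (((5 * x + 14) / 2 : ℝ) : ℂ) * a + (((7 / 3 : ℝ)) : ℂ) * (q - Q) +
          ((2 * ((x + 4) * (x + 3) * (x + 2) * (x + 1)) : ℝ) : ℂ) * lam := by
          push_cast
          ring
        rw [e]
        refine (norm_add₃_le).trans ?_
        rw [norm_mul, norm_mul, norm_mul, Complex.norm_real, Complex.norm_real, Complex.norm_real,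
          Real.norm_eq_abs, Real.norm_eq_abs, Real.norm_eq_abs, abs_of_nonneg (by positivity),
          abs_of_nonneg (by positivity), abs_of_nonneg (by positivity)]
        have e1 : (5 * x + 14) / 2 * ‖a‖ ≤ 5 / 2 * (x + 4) * ‖a‖ :=
          mul_le_mul_of_nonneg_right (by linarith) (norm_nonneg _)
        have e2 : 2 * ((x + 4) * (x + 3) * (x + 2) * (x + 1)) * ‖lam‖ ≤
            2 * (x + 4) ^ 4 * ‖lam‖ := by
          refine mul_le_mul_of_nonneg_right ?_ (norm_nonneg _)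
          have e3 : 2 * (x + 4) ^ 4 - 2 * ((x + 4) * (x + 3) * (x + 2) * (x + 1)) =
              2 * (x + 4) * (6 * x ^ 2 + 37 * x + 58) := by ring
          have e4 : 0 ≤ 2 * (x + 4) * (6 * x ^ 2 + 37 * x + 58) := by positivity
          linarith
        linarith
      have h2 : √(9 / 2 / D) * ‖((x : ℂ) + 4) ^ 2 * a / 2 - 7 / 3 * Q -
          (((x : ℂ) + 2) * (x + 1) / 2 * a - 7 / 3 * q -
          2 * (((x : ℂ) + 4) * (x + 3) * (x + 2) * (x + 1)) * lam)‖ ≤ 3 / (x + 4) ^ 4 *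
          (5 / 2 * (x + 4) * ‖a‖ + 7 / 3 * ‖q - Q‖ + 2 * (x + 4) ^ 4 * ‖lam‖) :=
        mul_le_mul hβ1 h1 (norm_nonneg _) (by positivity)
      have h3 : 3 / (x + 4) ^ 4 *
          (5 / 2 * (x + 4) * ‖a‖ + 7 / 3 * ‖q - Q‖ + 2 * (x + 4) ^ 4 * ‖lam‖) =
          15 / 2 * (‖a‖ / (x + 4) ^ 3) + 7 * (‖q - Q‖ / (x + 4) ^ 4) + 6 * ‖lam‖ := by
        field_simp
        ring
      have h4 : ‖((x : ℂ) + 4) ^ 2 * a / 2 - 7 / 3 * Q‖ ≤ (x + 4) ^ 2 / 2 * ‖a‖ + 7 / 3 * ‖Q‖ := by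
        have e : ((x : ℂ) + 4) ^ 2 * a / 2 - 7 / 3 * Q =
          (((x + 4) ^ 2 / 2 : ℝ) : ℂ) * a - (((7 / 3 : ℝ)) : ℂ) * Q := by
          push_cast
          ring
        rw [e]
        refine (norm_sub_le _ _).trans ?_
        rw [norm_mul, norm_mul, Complex.norm_real, Complex.norm_real,
          Real.norm_eq_abs, Real.norm_eq_abs, abs_of_nonneg (by positivity),
          abs_of_nonneg (by positivity)]
      have h5 : 52 / (x + 4) ^ 5 * ‖((x : ℂ) + 4) ^ 2 * a / 2 - 7 / 3 * Q‖ ≤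
          52 / (x + 4) ^ 5 * ((x + 4) ^ 2 / 2 * ‖a‖ + 7 / 3 * ‖Q‖) :=
        mul_le_mul_of_nonneg_left h4 (by positivity)
      have h6 : 52 / (x + 4) ^ 5 * ((x + 4) ^ 2 / 2 * ‖a‖ + 7 / 3 * ‖Q‖) =
          26 * (‖a‖ / (x + 4) ^ 3) + 364 / 3 * (‖Q‖ / (x + 4) ^ 5) := by
        field_simp
        ring
      have h7 : 0 ≤ ‖a‖ / (x + 4) ^ 3 := by positivity
      have h8 : 0 ≤ ‖Q‖ / (x + 4) ^ 5 := by positivity
      linarith)
  rw [hα, hβ] at h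
  exact h

/-- the term of the energy as a square norm -/
private theorem JBound_u {x : ℝ} (hx : 0 ≤ x) (g a Q : ℂ) :
    ‖g‖ ^ 2 / 2 + 7 / 4 * ‖-a‖ ^ 2 / (x + 4) ^ 4
      + 21 / 2 * (-a * (starRingEnd ℂ) Q).re / (x + 4) ^ 6 + 49 / 2 * ‖Q‖ ^ 2 / (x + 4) ^ 8 =
    1 / 2 * ‖g‖ ^ 2 + 5 / 2 / (x + 4) ^ 4 * ‖a / 2‖ ^ 2 +
      9 / 2 / (x + 4) ^ 8 * ‖((x : ℂ) + 4) ^ 2 * a / 2 - 7 / 3 * Q‖ ^ 2 := by
  have hM : 0 < x + 4 := by linarith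
  have e1 : ((x : ℂ) + 4) ^ 2 * a / 2 - 7 / 3 * Q =
      (((x + 4) ^ 2 / 2 : ℝ) : ℂ) * a - (((7 / 3 : ℝ)) : ℂ) * Q := by
    push_cast
    ring
  have e2 : a / 2 = (((1 / 2 : ℝ)) : ℂ) * a := by
    push_cast
    ring
  rw [e1, e2]
  simp only [Complex.sq_norm, Complex.normSq_apply, Complex.sub_re, Complex.sub_im,
    Complex.mul_re, Complex.mul_im, Complex.ofReal_re, Complex.ofReal_im, Complex.neg_re,
    Complex.neg_im, Complex.conj_re, Complex.conj_im]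
  field_simp
  ring


private theorem JBound_re (n : ℕ → ℂ) (m : ℕ) :
    |(qa n m * (starRingEnd ℂ) (qq n m)).re| ≤ ‖qa n m‖ * ‖qq n m‖ := by
  refine (Complex.abs_re_le_norm _).trans ?_
  rw [norm_mul, RCLike.norm_conj]

private theorem JBound_jt (n : ℕ → ℂ) (m : ℕ) :
    jt n m = ‖gs n m‖ ^ 2 / 2 + 7 / 4 * (‖qa n m‖ / m ^ 2) ^ 2
      + 21 / 2 * ((qa n m * (starRingEnd ℂ) (qq n m)).re / m ^ 6)
      + 49 / 2 * (‖qq n m‖ / m ^ 4) ^ 2 := by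
  unfold jt
  rw [div_pow, div_pow, ← pow_mul, ← pow_mul]
  ring

private theorem JBound_re2 (n : ℕ → ℂ) (m : ℕ) :
    |(qa n m * (starRingEnd ℂ) (qq n m)).re / (m : ℝ) ^ 6| ≤
      (‖qa n m‖ / m ^ 2) * (‖qq n m‖ / m ^ 4) := by
  rw [abs_div, div_mul_div_comm, ← pow_add, abs_of_nonneg (by positivity : (0 : ℝ) ≤ (m : ℝ) ^ 6)]
  exact div_le_div_of_nonneg_right (JBound_re n m) (by positivity)

/-- the terms of the energy are nonnegative -/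
theorem jt_nonneg (n : ℕ → ℂ) (m : ℕ) : 0 ≤ jt n m := by
  rw [JBound_jt]
  have h1 := (abs_le.1 (JBound_re2 n m)).1
  have h2 : 0 ≤ ‖gs n m‖ ^ 2 := by positivity
  generalize (qa n m * (starRingEnd ℂ) (qq n m)).re / (m : ℝ) ^ 6 = r at *
  generalize ‖qa n m‖ / (m : ℝ) ^ 2 = u at *
  generalize ‖qq n m‖ / (m : ℝ) ^ 4 = v at *
  nlinarith [sq_nonneg (u - 3 * v), sq_nonneg v]

private theorem JBound_gs (n : ℕ → ℂ) {m : ℕ} (hm : 1 ≤ m) : ‖gs n m‖ = ‖nu n m‖ / m := by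
  unfold gs nu
  rw [if_neg (by omega), norm_div, norm_mul, Complex.norm_I, one_mul, Complex.norm_natCast]

/-- the error terms -/
private noncomputable def JBound_e (n : ℕ → ℂ) (l : ℕ → ℕ → ℂ) (m : ℕ) : ℝ :=
  ‖nu n m‖ ^ 2 / (m : ℝ) ^ 3 + ‖qa n m‖ ^ 2 / (m : ℝ) ^ 5 + ‖qq n m‖ ^ 2 / (m : ℝ) ^ 9 +
    (if 4 ≤ m then ‖cv (sz n) (sz n) (m - 4) - qq n m‖ ^ 2 / (m : ℝ) ^ 7 else 0) + ‖l 0 m‖ ^ 2

private theorem JBound_e_nonneg (n : ℕ → ℂ) (l : ℕ → ℕ → ℂ) (m : ℕ) : 0 ≤ JBound_e n l m := by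
  unfold JBound_e
  have : 0 ≤ (if 4 ≤ m then ‖cv (sz n) (sz n) (m - 4) - qq n m‖ ^ 2 / (m : ℝ) ^ 7 else 0) := by
    split_ifs <;> positivity
  positivity

/-- the energy sum of degree `m` -/
private noncomputable def JBound_X (l : ℕ → ℕ → ℂ) (m : ℕ) : ℝ :=
  ∑ p ∈ antidiagonal m, (if p.1 = 0 ∨ p.2 = 0 then 0 else ‖l p.1 p.2‖ ^ 2)

private theorem JBound_X_nonneg (l : ℕ → ℕ → ℂ) (m : ℕ) : 0 ≤ JBound_X l m := by
  unfold JBound_X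
  refine Finset.sum_nonneg fun p _ => ?_
  split_ifs <;> positivity

private theorem JBound_low (n : ℕ → ℂ) (l : ℕ → ℕ → ℂ) {m : ℕ} (hm : 1 ≤ m) (hm3 : m ≤ 3) :
    jt n m ≤ 100 * JBound_e n l m := by
  rw [JBound_jt, JBound_gs n hm]
  have h1 := (abs_le.1 (JBound_re2 n m)).2
  have h0 : (1 : ℝ) ≤ m := by exact_mod_cast hm
  have h3 : (m : ℝ) ≤ 3 := by exact_mod_cast hm3
  have hpos : (0 : ℝ) < m := by linarith
  have e1 : (‖nu n m‖ / m) ^ 2 ≤ 3 * (‖nu n m‖ ^ 2 / (m : ℝ) ^ 3) := by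
    rw [div_pow, mul_div_assoc', div_le_div_iff₀ (by positivity) (by positivity)]
    have : 0 ≤ ‖nu n m‖ ^ 2 * (m : ℝ) ^ 2 := by positivity
    nlinarith
  have e2 : (‖qa n m‖ / (m : ℝ) ^ 2) ^ 2 ≤ 3 * (‖qa n m‖ ^ 2 / (m : ℝ) ^ 5) := by
    rw [div_pow, mul_div_assoc', div_le_div_iff₀ (by positivity) (by positivity)]
    have : 0 ≤ ‖qa n m‖ ^ 2 * (m : ℝ) ^ 4 := by positivity
    nlinarith
  have e3 : (‖qq n m‖ / (m : ℝ) ^ 4) ^ 2 ≤ 3 * (‖qq n m‖ ^ 2 / (m : ℝ) ^ 9) := by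
    rw [div_pow, mul_div_assoc', div_le_div_iff₀ (by positivity) (by positivity)]
    have : 0 ≤ ‖qq n m‖ ^ 2 * (m : ℝ) ^ 8 := by positivity
    nlinarith
  have e4 : ‖nu n m‖ ^ 2 / (m : ℝ) ^ 3 + ‖qa n m‖ ^ 2 / (m : ℝ) ^ 5 +
      ‖qq n m‖ ^ 2 / (m : ℝ) ^ 9 ≤ JBound_e n l m := by
    unfold JBound_e
    rw [if_neg (by omega)]
    have : 0 ≤ ‖l 0 m‖ ^ 2 := by positivity
    linarith
  have p1 : 0 ≤ ‖nu n m‖ ^ 2 / (m : ℝ) ^ 3 := by positivity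
  have p2 : 0 ≤ ‖qa n m‖ ^ 2 / (m : ℝ) ^ 5 := by positivity
  have p3 : 0 ≤ ‖qq n m‖ ^ 2 / (m : ℝ) ^ 9 := by positivity
  generalize (qa n m * (starRingEnd ℂ) (qq n m)).re / (m : ℝ) ^ 6 = r at *
  generalize ‖qa n m‖ / (m : ℝ) ^ 2 = u at *
  generalize ‖qq n m‖ / (m : ℝ) ^ 4 = v at *
  generalize (‖nu n m‖ / m) ^ 2 = w at *
  generalize ‖nu n m‖ ^ 2 / (m : ℝ) ^ 3 = a at *
  generalize ‖qa n m‖ ^ 2 / (m : ℝ) ^ 5 = b at *
  generalize ‖qq n m‖ ^ 2 / (m : ℝ) ^ 9 = c at *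
  nlinarith [sq_nonneg (u - v)]

private theorem JBound_n2 (i : ℕ) (y : ℝ) : 5 / 2 / (((i : ℝ) + 7) * (i + 6) * (i + 5) * (i + 3)) * y =
    ((i : ℝ) + 4) / 2 * (y / n2 (i + 4)) := by
  unfold n2
  have h : (0 : ℝ) ≤ i := Nat.cast_nonneg i
  have e : (((i + 4 : ℕ) : ℝ) + 3) * (((i + 4 : ℕ) : ℝ) + 2) * (((i + 4 : ℕ) : ℝ) + 1) *
      ((i + 4 : ℕ) : ℝ) * (((i + 4 : ℕ) : ℝ) - 1) / 5 =
      (((i : ℝ) + 7) * (i + 6) * (i + 5) * (i + 3)) * (i + 4) / 5 := by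
    push_cast
    ring
  rw [e]
  have h1 : (0 : ℝ) < ((i : ℝ) + 7) * (i + 6) * (i + 5) * (i + 3) := by positivity
  have h2 : (0 : ℝ) < (i : ℝ) + 4 := by positivity
  generalize ((i : ℝ) + 7) * (i + 6) * (i + 5) * (i + 3) = D at *
  field_simp

private theorem JBound_n4 (i : ℕ) (y : ℝ) :
    9 / 2 / (((i : ℝ) + 9) * (i + 8) * (i + 7) * (i + 6) * (i + 5) * (i + 3) * (i + 2) * (i + 1)) * y =
    ((i : ℝ) + 4) / 2 * (y / n4 (i + 4)) := by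
  unfold n4
  have h : (0 : ℝ) ≤ i := Nat.cast_nonneg i
  have e : (((i + 4 : ℕ) : ℝ) + 5) * (((i + 4 : ℕ) : ℝ) + 4) * (((i + 4 : ℕ) : ℝ) + 3) *
      (((i + 4 : ℕ) : ℝ) + 2) * (((i + 4 : ℕ) : ℝ) + 1) *
      ((i + 4 : ℕ) : ℝ) * (((i + 4 : ℕ) : ℝ) - 1) * (((i + 4 : ℕ) : ℝ) - 2) *
      (((i + 4 : ℕ) : ℝ) - 3) / 9 =
      (((i : ℝ) + 9) * (i + 8) * (i + 7) * (i + 6) * (i + 5) * (i + 3) * (i + 2) * (i + 1)) *
        (i + 4) / 9 := by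
    push_cast
    ring
  rw [e]
  have h1 : (0 : ℝ) < ((i : ℝ) + 9) * (i + 8) * (i + 7) * (i + 6) * (i + 5) * (i + 3) * (i + 2) *
    (i + 1) := by positivity
  have h2 : (0 : ℝ) < (i : ℝ) + 4 := by positivity
  generalize ((i : ℝ) + 9) * (i + 8) * (i + 7) * (i + 6) * (i + 5) * (i + 3) * (i + 2) *
    (i + 1) = D at *
  field_simp


private theorem JBound_q (u a b c t : ℝ) : (u + 2 * t) ^ 2 + (13 * a + 4 * t) ^ 2 +
    (34 * a + 122 * b + 7 * c + 6 * t) ^ 2 ≤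
    2 * u ^ 2 + 4962 * a ^ 2 + 59536 * b ^ 2 + 196 * c ^ 2 + 184 * t ^ 2 := by
  have e : 2 * u ^ 2 + 4962 * a ^ 2 + 59536 * b ^ 2 + 196 * c ^ 2 + 184 * t ^ 2 -
      ((u + 2 * t) ^ 2 + (13 * a + 4 * t) ^ 2 + (34 * a + 122 * b + 7 * c + 6 * t) ^ 2) =
      (u - 2 * t) ^ 2 + (13 * a - 4 * t) ^ 2 +
      (34 * a - 122 * b) ^ 2 + (34 * a - 7 * c) ^ 2 + (34 * a - 6 * t) ^ 2 +
      (122 * b - 7 * c) ^ 2 + (122 * b - 6 * t) ^ 2 + (7 * c - 6 * t) ^ 2 := by ring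
  have e' : 0 ≤ (u - 2 * t) ^ 2 + (13 * a - 4 * t) ^ 2 +
      (34 * a - 122 * b) ^ 2 + (34 * a - 7 * c) ^ 2 + (34 * a - 6 * t) ^ 2 +
      (122 * b - 7 * c) ^ 2 + (122 * b - 6 * t) ^ 2 + (7 * c - 6 * t) ^ 2 := by positivity
  linarith

private theorem JBound_high {n : ℕ → ℂ} {l : ℕ → ℕ → ℂ} (hs : ∀ j k, l j k = l k j)
    (h0 : ∀ m : ℕ, ∑ p ∈ antidiagonal (m + 1), l p.1 p.2 = n m / (m + 1))
    (h2 : ∀ m : ℕ, ∑ p ∈ antidiagonal (m + 2), (p2 (m + 2) p.2 : ℂ) * l p.1 p.2 = cv n n m / 2)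
    (h4 : ∀ m : ℕ, ∑ p ∈ antidiagonal (m + 4), (p4 (m + 4) p.2 : ℂ) * l p.1 p.2 =
      ((m : ℂ) + 2) * (m + 1) / 2 * cv n n (m + 2) - 7 / 3 * cv (sz n) (sz n) m)
    {s : ℝ} (hs0 : 0 < s) (i : ℕ) :
    jt n (i + 4) ≤ (1 + s) * (((i : ℝ) + 4) / 2 * JBound_X l (i + 4)) +
      (1 + 1 / s) * (60000 * JBound_e n l (i + 4)) := by
  have hx : (0 : ℝ) ≤ i := Nat.cast_nonneg i
  have hM : (0 : ℝ) < (i : ℝ) + 4 := by positivity
  have hM1 : (1 : ℝ) ≤ (i : ℝ) + 4 := by linarith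
  have hb := JBound_bessel hs h0 h2 h4 i
  have c0 := JBound_c0 hx hs0 (gs n (i + 4)) (l 0 (i + 4))
  have c1 := JBound_c1 hx hs0 (cv n n (i + 2)) (l 0 (i + 4))
  have c2 := JBound_c2 hx hs0 (cv n n (i + 2)) (cv (sz n) (sz n) i) (qq n (i + 4)) (l 0 (i + 4))
  have hqa : qa n (i + 4) = - cv n n (i + 2) := qa_eq n (i + 2)
  have hj : jt n (i + 4) = 1 / 2 * ‖gs n (i + 4)‖ ^ 2 +
      5 / 2 / ((i : ℝ) + 4) ^ 4 * ‖cv n n (i + 2) / 2‖ ^ 2 +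
      9 / 2 / ((i : ℝ) + 4) ^ 8 * ‖(((i : ℝ) : ℂ) + 4) ^ 2 * cv n n (i + 2) / 2 -
        7 / 3 * qq n (i + 4)‖ ^ 2 := by
    rw [← JBound_u hx, ← hqa]
    unfold jt
    push_cast
    ring
  rw [hj]
  rw [JBound_n2] at c1
  rw [JBound_n4] at c2
  have hcast : (((i : ℝ)) : ℂ) = (i : ℂ) := by push_cast; rfl
  rw [hcast] at c1 c2 ⊢
  have hbX : ‖gs n (i + 4) - 2 * l 0 (i + 4)‖ ^ 2 / ((i : ℝ) + 5) +
      ‖cv n n (i + 2) / 2 - 2 * (((i : ℂ) + 4) * (i + 3)) * l 0 (i + 4)‖ ^ 2 / n2 (i + 4) +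
      ‖((i : ℂ) + 2) * (i + 1) / 2 * cv n n (i + 2) - 7 / 3 * cv (sz n) (sz n) i -
        2 * (((i : ℂ) + 4) * (i + 3) * (i + 2) * (i + 1)) * l 0 (i + 4)‖ ^ 2 / n4 (i + 4) ≤
      JBound_X l (i + 4) := hb
  have hw : (‖gs n (i + 4)‖ / ((i : ℝ) + 4) + 2 * ‖l 0 (i + 4)‖) ^ 2 +
      (13 * (‖cv n n (i + 2)‖ / ((i : ℝ) + 4) ^ 3) + 4 * ‖l 0 (i + 4)‖) ^ 2 +
      (34 * (‖cv n n (i + 2)‖ / ((i : ℝ) + 4) ^ 3) + 122 * (‖qq n (i + 4)‖ / ((i : ℝ) + 4) ^ 5) +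
        7 * (‖cv (sz n) (sz n) i - qq n (i + 4)‖ / ((i : ℝ) + 4) ^ 4) +
        6 * ‖l 0 (i + 4)‖) ^ 2 ≤ 60000 * JBound_e n l (i + 4) := by
    have hA : ‖cv n n (i + 2)‖ = ‖qa n (i + 4)‖ := by rw [hqa, norm_neg]
    rw [hA, JBound_gs n (by omega)]
    unfold JBound_e
    rw [if_pos (by omega), show i + 4 - 4 = i by omega]
    push_cast
    have e0 : (‖nu n (i + 4)‖ / ((i : ℝ) + 4) / ((i : ℝ) + 4)) ^ 2 ≤
        ‖nu n (i + 4)‖ ^ 2 / ((i : ℝ) + 4) ^ 3 := by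
      rw [div_div, div_pow]
      refine div_le_div_of_nonneg_left (by positivity) (by positivity) ?_
      have e : (((i : ℝ) + 4) * ((i : ℝ) + 4)) ^ 2 = ((i : ℝ) + 4) ^ 3 * ((i : ℝ) + 4) := by ring
      rw [e]
      exact le_mul_of_one_le_right (by positivity) hM1
    have e1 : (‖qa n (i + 4)‖ / ((i : ℝ) + 4) ^ 3) ^ 2 ≤
        ‖qa n (i + 4)‖ ^ 2 / ((i : ℝ) + 4) ^ 5 := by
      rw [div_pow]
      refine div_le_div_of_nonneg_left (by positivity) (by positivity) ?_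
      have e : (((i : ℝ) + 4) ^ 3) ^ 2 = ((i : ℝ) + 4) ^ 5 * ((i : ℝ) + 4) := by ring
      rw [e]
      exact le_mul_of_one_le_right (by positivity) hM1
    have e2 : (‖qq n (i + 4)‖ / ((i : ℝ) + 4) ^ 5) ^ 2 ≤
        ‖qq n (i + 4)‖ ^ 2 / ((i : ℝ) + 4) ^ 9 := by
      rw [div_pow]
      refine div_le_div_of_nonneg_left (by positivity) (by positivity) ?_
      have e : (((i : ℝ) + 4) ^ 5) ^ 2 = ((i : ℝ) + 4) ^ 9 * ((i : ℝ) + 4) := by ring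
      rw [e]
      exact le_mul_of_one_le_right (by positivity) hM1
    have e3 : (‖cv (sz n) (sz n) i - qq n (i + 4)‖ / ((i : ℝ) + 4) ^ 4) ^ 2 ≤
        ‖cv (sz n) (sz n) i - qq n (i + 4)‖ ^ 2 / ((i : ℝ) + 4) ^ 7 := by
      rw [div_pow]
      refine div_le_div_of_nonneg_left (by positivity) (by positivity) ?_
      have e : (((i : ℝ) + 4) ^ 4) ^ 2 = ((i : ℝ) + 4) ^ 7 * ((i : ℝ) + 4) := by ring
      rw [e]
      exact le_mul_of_one_le_right (by positivity) hM1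
    have p0 : 0 ≤ ‖nu n (i + 4)‖ ^ 2 / ((i : ℝ) + 4) ^ 3 := by positivity
    have p1 : 0 ≤ ‖qa n (i + 4)‖ ^ 2 / ((i : ℝ) + 4) ^ 5 := by positivity
    have p2 : 0 ≤ ‖qq n (i + 4)‖ ^ 2 / ((i : ℝ) + 4) ^ 9 := by positivity
    have p3 : 0 ≤ ‖cv (sz n) (sz n) i - qq n (i + 4)‖ ^ 2 / ((i : ℝ) + 4) ^ 7 := by positivity
    have q := JBound_q (‖nu n (i + 4)‖ / ((i : ℝ) + 4) / ((i : ℝ) + 4))
      (‖qa n (i + 4)‖ / ((i : ℝ) + 4) ^ 3) (‖qq n (i + 4)‖ / ((i : ℝ) + 4) ^ 5)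
      (‖cv (sz n) (sz n) i - qq n (i + 4)‖ / ((i : ℝ) + 4) ^ 4) ‖l 0 (i + 4)‖
    have q3 : 0 ≤ ‖l 0 (i + 4)‖ ^ 2 := sq_nonneg _
    linarith
  have hs1 : 0 ≤ 1 + 1 / s := by positivity
  have hs2 : 0 ≤ 1 + s := by positivity
  have hw' := mul_le_mul_of_nonneg_left hw hs1
  have hb' := mul_le_mul_of_nonneg_left (mul_le_mul_of_nonneg_left hbX
    (show (0 : ℝ) ≤ ((i : ℝ) + 4) / 2 by positivity)) hs2
  refine le_trans ?_ (add_le_add hb' hw')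
  refine (add_le_add (add_le_add c0 c1) c2).trans (le_of_eq ?_)
  ring

private theorem JBound_term {n : ℕ → ℂ} {l : ℕ → ℕ → ℂ} (hs : ∀ j k, l j k = l k j)
    (h0 : ∀ m : ℕ, ∑ p ∈ antidiagonal (m + 1), l p.1 p.2 = n m / (m + 1))
    (h2 : ∀ m : ℕ, ∑ p ∈ antidiagonal (m + 2), (p2 (m + 2) p.2 : ℂ) * l p.1 p.2 = cv n n m / 2)
    (h4 : ∀ m : ℕ, ∑ p ∈ antidiagonal (m + 4), (p4 (m + 4) p.2 : ℂ) * l p.1 p.2 =
      ((m : ℂ) + 2) * (m + 1) / 2 * cv n n (m + 2) - 7 / 3 * cv (sz n) (sz n) m)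
    {s : ℝ} (hs0 : 0 < s) {m : ℕ} (hm : 1 ≤ m) :
    jt n m ≤ (1 + s) * ((m : ℝ) / 2 * JBound_X l m) +
      (1 + 1 / s) * (60000 * JBound_e n l m) := by
  by_cases h : 4 ≤ m
  · obtain ⟨i, rfl⟩ : ∃ i, m = i + 4 := ⟨m - 4, by omega⟩
    have := JBound_high hs h0 h2 h4 hs0 i
    push_cast at *
    exact this
  · have h1 := JBound_low n l hm (by omega)
    have h2 := JBound_X_nonneg l m
    have h3 := JBound_e_nonneg n l m
    have h4 : 0 ≤ (1 + s) * ((m : ℝ) / 2 * JBound_X l m) := by positivity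
    have h5 : 1 * (60000 * JBound_e n l m) ≤ (1 + 1 / s) * (60000 * JBound_e n l m) := by
      refine mul_le_mul_of_nonneg_right ?_ (by positivity)
      have : 0 < 1 / s := by positivity
      linarith
    linarith

theorem jbound (C₁ : ℝ) : ∃ C : ℝ, ∀ (n : ℕ → ℂ) (l : ℕ → ℕ → ℂ) (R L : ℝ), 0 < R → R < 1 → 0 ≤ L →
    (∀ j k, l j k = l k j) →
    (∀ m : ℕ, ∑ p ∈ antidiagonal (m + 1), l p.1 p.2 = n m / (m + 1)) →
    (∀ m : ℕ, ∑ p ∈ antidiagonal (m + 2), (p2 (m + 2) p.2 : ℂ) * l p.1 p.2 = cv n n m / 2) →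
    (∀ m : ℕ, ∑ p ∈ antidiagonal (m + 4), (p4 (m + 4) p.2 : ℂ) * l p.1 p.2 =
      ((m : ℂ) + 2) * (m + 1) / 2 * cv n n (m + 2) - 7 / 3 * cv (sz n) (sz n) m) →
    (∀ M : ℕ, ∑ m ∈ range (M + 1), (m : ℝ) / 2 * R ^ (2 * m) *
        ∑ p ∈ antidiagonal m, (if p.1 = 0 ∨ p.2 = 0 then 0 else ‖l p.1 p.2‖ ^ 2) ≤ L + C₁) →
    (∀ M : ℕ, ∑ m ∈ Icc 1 M, ‖l 0 m‖ ^ 2 ≤ C₁) →
    (∀ M : ℕ, ∑ m ∈ Icc 1 M, ‖nu n m‖ ^ 2 / (m : ℝ) ^ 3 ≤ C₁ ∧
      ∑ m ∈ Icc 1 M, ‖qa n m‖ ^ 2 / (m : ℝ) ^ 5 ≤ C₁ ∧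
      ∑ m ∈ Icc 1 M, ‖qq n m‖ ^ 2 / (m : ℝ) ^ 9 ≤ C₁ ∧
      ∑ m ∈ Icc 4 M, ‖cv (sz n) (sz n) (m - 4) - qq n m‖ ^ 2 / (m : ℝ) ^ 7 ≤ C₁) →
    ∀ M : ℕ, ∑ m ∈ Icc 1 M, R ^ (2 * m) * jt n m ≤ L + C * (1 + √L) := by
  refine ⟨2 * |C₁| + 1 + 600000 * |C₁|, ?_⟩
  intro n l R L hR hR1 hL hs h0 h2 h4 hE hl hg M
  have hC : 0 ≤ C₁ := by
    have := hl 0
    simpa using this
  rw [abs_of_nonneg hC]
  set r := √L with hr
  have hr0 : 0 ≤ r := Real.sqrt_nonneg L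
  have hrL : r ^ 2 = L := Real.sq_sqrt hL
  obtain ⟨s, hs0, hs1⟩ : ∃ s : ℝ, 0 < s ∧ s = 1 / (1 + r) := ⟨1 / (1 + r), by positivity, rfl⟩
  have hsi : 1 / s = 1 + r := by
    rw [hs1, one_div_one_div]
  -- sum of the error terms
  have herr : ∑ m ∈ Icc 1 M, JBound_e n l m ≤ 5 * C₁ := by
    obtain ⟨g1, g2, g3, g4⟩ := hg M
    have g5 := hl M
    unfold JBound_e
    rw [Finset.sum_add_distrib, Finset.sum_add_distrib, Finset.sum_add_distrib,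
      Finset.sum_add_distrib]
    have g6 : ∑ m ∈ Icc 1 M, (if 4 ≤ m then ‖cv (sz n) (sz n) (m - 4) - qq n m‖ ^ 2 /
        (m : ℝ) ^ 7 else 0) = ∑ m ∈ Icc 4 M, ‖cv (sz n) (sz n) (m - 4) - qq n m‖ ^ 2 /
        (m : ℝ) ^ 7 := by
      rw [← Finset.sum_filter]
      refine Finset.sum_congr ?_ fun _ _ => rfl
      ext m
      simp only [Finset.mem_filter, Finset.mem_Icc]
      omega
    rw [g6]
    linarith
  have hen : ∑ m ∈ Icc 1 M, R ^ (2 * m) * ((m : ℝ) / 2 * JBound_X l m) ≤ L + C₁ := by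
    refine le_trans ?_ (hE M)
    have e : ∑ m ∈ range (M + 1), (m : ℝ) / 2 * R ^ (2 * m) *
        ∑ p ∈ antidiagonal m, (if p.1 = 0 ∨ p.2 = 0 then 0 else ‖l p.1 p.2‖ ^ 2) =
        ∑ m ∈ range (M + 1), R ^ (2 * m) * ((m : ℝ) / 2 * JBound_X l m) := by
      refine Finset.sum_congr rfl fun m _ => ?_
      unfold JBound_X
      ring
    rw [e]
    refine Finset.sum_le_sum_of_subset_of_nonneg ?_ fun m _ _ => ?_
    · intro m hm
      rw [Finset.mem_Icc] at hm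
      exact Finset.mem_range.2 (by omega)
    · have := JBound_X_nonneg l m
      positivity
  have hsum : ∑ m ∈ Icc 1 M, R ^ (2 * m) * jt n m ≤
      (1 + s) * (L + C₁) + (1 + 1 / s) * (60000 * (5 * C₁)) := by
    have hs2 : 0 ≤ 1 + 1 / s := by positivity
    have hs3 : 0 ≤ 1 + s := by positivity
    have t1 : ∑ m ∈ Icc 1 M, R ^ (2 * m) * jt n m ≤
        ∑ m ∈ Icc 1 M, ((1 + s) * (R ^ (2 * m) * ((m : ℝ) / 2 * JBound_X l m)) +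
          (1 + 1 / s) * (60000 * JBound_e n l m)) := by
      refine Finset.sum_le_sum fun m hm => ?_
      rw [Finset.mem_Icc] at hm
      have hR2 : 0 ≤ R ^ (2 * m) := by positivity
      have hR3 : R ^ (2 * m) ≤ 1 := pow_le_one₀ hR.le hR1.le
      have t2 := mul_le_mul_of_nonneg_left (JBound_term hs h0 h2 h4 hs0 hm.1) hR2
      have t3 : R ^ (2 * m) * ((1 + 1 / s) * (60000 * JBound_e n l m)) ≤
          1 * ((1 + 1 / s) * (60000 * JBound_e n l m)) := by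
        refine mul_le_mul_of_nonneg_right hR3 ?_
        have := JBound_e_nonneg n l m
        positivity
      linarith
    refine t1.trans ?_
    rw [Finset.sum_add_distrib, ← Finset.mul_sum, ← Finset.mul_sum, ← Finset.mul_sum]
    exact add_le_add (mul_le_mul_of_nonneg_left hen hs3)
      (mul_le_mul_of_nonneg_left (mul_le_mul_of_nonneg_left herr (by norm_num)) hs2)
  refine hsum.trans ?_
  rw [hsi]
  have hsL : s * L ≤ r := by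
    rw [hs1, ← hrL, one_div_mul_eq_div, div_le_iff₀ (by positivity)]
    nlinarith
  have hsC : s * C₁ ≤ C₁ := by
    have : s ≤ 1 := by
      rw [hs1, div_le_one (by positivity)]
      linarith
    nlinarith
  nlinarith [mul_nonneg hC hr0]

end Pool.Agent.Helper21.IM
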