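import Pool.Agent.Helper21.IM.Second

/-!
# IM-KO: Koebe transform and the bound for the pre-Schwarzian

`mob a` maps the unit disc bijectively onto itself, `mob a 0 = a`,
`(mob a)' ζ = (1 - ‖a‖²) / (1 + conj a ζ)²`, `1 - ‖mob a ζ‖² = (1 - ‖a‖²)(1 - ‖ζ‖²)/‖1 + conj a ζ‖²`.
The Koebe transform `kt f a` is a normalised univalent function (`deriv_ne` for `deriv f a ≠ 0`) with
`(kt f a)' ζ = f' (mob a ζ) / (f' a (1 + conj a ζ)²)` and
`(kt f a)'' 0 = (1 - ‖a‖²) f'' a / f' a - 2 conj a`.  So `second_coeff` gives `pre_bound`.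
-/

set_option autoImplicit false

namespace Pool.Agent.Helper21.IM

open Complex Metric Set Real Finset

/-- disc automorphism -/
noncomputable def mob (a ζ : ℂ) : ℂ := (ζ + a) / (1 + (starRingEnd ℂ) a * ζ)

/-- Koebe transform -/
noncomputable def kt (f : ℂ → ℂ) (a ζ : ℂ) : ℂ :=
  (f (mob a ζ) - f a) / (((1 - ‖a‖ ^ 2 : ℝ) : ℂ) * deriv f a)

private theorem Koebe_ne {a ζ : ℂ} (ha : a ∈ closedBall (0 : ℂ) 1) (hζ : ζ ∈ ball (0 : ℂ) 1) :
    1 + (starRingEnd ℂ) a * ζ ≠ 0 := by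
  intro h
  have h1 : (starRingEnd ℂ) a * ζ = -1 := by linear_combination h
  have h2 : ‖(starRingEnd ℂ) a * ζ‖ = 1 := by rw [h1, norm_neg, norm_one]
  rw [norm_mul, RCLike.norm_conj] at h2
  rw [mem_closedBall_zero_iff] at ha
  rw [mem_ball_zero_iff] at hζ
  nlinarith [norm_nonneg a, norm_nonneg ζ]

theorem mob_norm {a ζ : ℂ} (ha : a ∈ ball (0 : ℂ) 1) (hζ : ζ ∈ ball (0 : ℂ) 1) :
    1 - ‖mob a ζ‖ ^ 2 = (1 - ‖a‖ ^ 2) * (1 - ‖ζ‖ ^ 2) / ‖1 + (starRingEnd ℂ) a * ζ‖ ^ 2 := by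
  have h1 : 0 < ‖1 + (starRingEnd ℂ) a * ζ‖ ^ 2 := by
    have := norm_pos_iff.2 (Koebe_ne (ball_subset_closedBall ha) hζ)
    positivity
  rw [mob, norm_div, div_pow, eq_div_iff h1.ne', sub_mul, one_mul, div_mul_cancel₀ _ h1.ne']
  rw [Complex.sq_norm, Complex.sq_norm, Complex.sq_norm, Complex.sq_norm]
  simp only [Complex.normSq_apply, Complex.add_re, Complex.add_im, Complex.mul_re,
    Complex.mul_im, Complex.conj_re, Complex.conj_im, Complex.one_re, Complex.one_im]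
  ring

theorem mob_mem {a ζ : ℂ} (ha : a ∈ ball (0 : ℂ) 1) (hζ : ζ ∈ ball (0 : ℂ) 1) :
    mob a ζ ∈ ball (0 : ℂ) 1 := by
  have h := mob_norm ha hζ
  have h1 := norm_pos_iff.2 (Koebe_ne (ball_subset_closedBall ha) hζ)
  rw [mem_ball_zero_iff] at ha hζ ⊢
  have h2 : 0 < 1 - ‖a‖ ^ 2 := by nlinarith [norm_nonneg a]
  have h3 : 0 < 1 - ‖ζ‖ ^ 2 := by nlinarith [norm_nonneg ζ]
  have h4 : 0 < 1 - ‖mob a ζ‖ ^ 2 := by rw [h]; positivity
  nlinarith [norm_nonneg (mob a ζ)]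

theorem one_add_ne {a ζ : ℂ} (ha : a ∈ closedBall (0 : ℂ) 1) (hζ : ζ ∈ ball (0 : ℂ) 1) :
    1 + (starRingEnd ℂ) a * ζ ≠ 0 := Koebe_ne ha hζ

private theorem Koebe_zero (a : ℂ) : mob a 0 = a := by simp [mob]

private theorem Koebe_c {a : ℂ} (ha : a ∈ ball (0 : ℂ) 1) : ((1 - ‖a‖ ^ 2 : ℝ) : ℂ) ≠ 0 := by
  rw [mem_ball_zero_iff] at ha
  have h2 : 0 < 1 - ‖a‖ ^ 2 := by nlinarith [norm_nonneg a]
  exact_mod_cast h2.ne'

private theorem Koebe_conj (a : ℂ) : (starRingEnd ℂ) a * a = ((‖a‖ ^ 2 : ℝ) : ℂ) := by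
  rw [mul_comm, Complex.mul_conj, Complex.normSq_eq_norm_sq]

private theorem Koebe_mob {a ζ : ℂ} (ha : a ∈ ball (0 : ℂ) 1) (hζ : ζ ∈ ball (0 : ℂ) 1) :
    HasDerivAt (mob a) (((1 - ‖a‖ ^ 2 : ℝ) : ℂ) / (1 + (starRingEnd ℂ) a * ζ) ^ 2) ζ := by
  have h1 := Koebe_ne (ball_subset_closedBall ha) hζ
  have h2 : HasDerivAt (fun z : ℂ => z + a) 1 ζ := (hasDerivAt_id ζ).add_const a
  have h3 : HasDerivAt (fun z : ℂ => 1 + (starRingEnd ℂ) a * z) ((starRingEnd ℂ) a) ζ := by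
    simpa using ((hasDerivAt_id ζ).const_mul ((starRingEnd ℂ) a)).const_add 1
  have h4 := h2.fun_div h3 h1
  have h5 : ((1 - ‖a‖ ^ 2 : ℝ) : ℂ) / (1 + (starRingEnd ℂ) a * ζ) ^ 2 =
      (1 * (1 + (starRingEnd ℂ) a * ζ) - (ζ + a) * (starRingEnd ℂ) a) /
        (1 + (starRingEnd ℂ) a * ζ) ^ 2 := by
    congr 1
    have := Koebe_conj a
    push_cast at this ⊢
    linear_combination this
  rw [h5]
  exact h4

private theorem Koebe_kt {f : ℂ → ℂ} (hf : DifferentiableOn ℂ f (ball 0 1))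
    (hi : InjOn f (ball 0 1)) {a ζ : ℂ} (ha : a ∈ ball (0 : ℂ) 1) (hζ : ζ ∈ ball (0 : ℂ) 1) :
    HasDerivAt (kt f a)
      (deriv f (mob a ζ) / (deriv f a * (1 + (starRingEnd ℂ) a * ζ) ^ 2)) ζ := by
  have h0 := deriv_ne isOpen_ball hf hi ha
  have hc := Koebe_c ha
  have h1 := Koebe_ne (ball_subset_closedBall ha) hζ
  have h2 : HasDerivAt f (deriv f (mob a ζ)) (mob a ζ) :=
    (hf.differentiableAt (isOpen_ball.mem_nhds (mob_mem ha hζ))).hasDerivAt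
  have h3 := ((h2.comp ζ (Koebe_mob ha hζ)).sub_const (f a)).div_const
    (((1 - ‖a‖ ^ 2 : ℝ) : ℂ) * deriv f a)
  have h4 : deriv f (mob a ζ) / (deriv f a * (1 + (starRingEnd ℂ) a * ζ) ^ 2) =
      deriv f (mob a ζ) * (((1 - ‖a‖ ^ 2 : ℝ) : ℂ) / (1 + (starRingEnd ℂ) a * ζ) ^ 2) /
        (((1 - ‖a‖ ^ 2 : ℝ) : ℂ) * deriv f a) := by
    field_simp
  rw [h4]
  exact h3

theorem kt_sch {f : ℂ → ℂ} (hf : DifferentiableOn ℂ f (ball 0 1)) (hi : InjOn f (ball 0 1)) {a : ℂ}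
    (ha : a ∈ ball (0 : ℂ) 1) : Sch (kt f a) := by
  have h0 := deriv_ne isOpen_ball hf hi ha
  have hc := Koebe_c ha
  refine ⟨?_, ?_, ?_, ?_⟩
  · intro ζ hζ
    exact (Koebe_kt hf hi ha hζ).differentiableAt.differentiableWithinAt
  · intro x hx y hy hxy
    have h1 : f (mob a x) = f (mob a y) := by
      have h2 : ((1 - ‖a‖ ^ 2 : ℝ) : ℂ) * deriv f a ≠ 0 := mul_ne_zero hc h0
      simp only [kt] at hxy
      rw [div_left_inj' h2] at hxy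
      linear_combination hxy
    have h2 := hi (mob_mem ha hx) (mob_mem ha hy) h1
    have hx1 := Koebe_ne (ball_subset_closedBall ha) hx
    have hy1 := Koebe_ne (ball_subset_closedBall ha) hy
    rw [mob, mob, div_eq_div_iff hx1 hy1] at h2
    have h3 := Koebe_conj a
    have h4 : ((1 - ‖a‖ ^ 2 : ℝ) : ℂ) * (x - y) = 0 := by
      push_cast at h3 ⊢
      linear_combination h2 + (x - y) * h3
    rcases mul_eq_zero.1 h4 with h5 | h5
    · exact absurd h5 hc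
    · exact sub_eq_zero.1 h5
  · simp [kt, Koebe_zero]
  · rw [(Koebe_kt hf hi ha (mem_ball_self one_pos)).deriv, Koebe_zero]
    simp [h0]

theorem kt_deriv {f : ℂ → ℂ} (hf : DifferentiableOn ℂ f (ball 0 1)) (hi : InjOn f (ball 0 1)) {a ζ : ℂ}
    (ha : a ∈ ball (0 : ℂ) 1) (hζ : ζ ∈ ball (0 : ℂ) 1) :
    deriv (kt f a) ζ = deriv f (mob a ζ) / (deriv f a * (1 + (starRingEnd ℂ) a * ζ) ^ 2) :=
  (Koebe_kt hf hi ha hζ).deriv

private theorem Koebe_second {f : ℂ → ℂ} (hf : DifferentiableOn ℂ f (ball 0 1))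
    (hi : InjOn f (ball 0 1)) {a : ℂ} (ha : a ∈ ball (0 : ℂ) 1) :
    deriv (deriv (kt f a)) 0 = ((1 - ‖a‖ ^ 2 : ℝ) : ℂ) * pre f a - 2 * (starRingEnd ℂ) a := by
  have h0 := deriv_ne isOpen_ball hf hi ha
  have hb : (0 : ℂ) ∈ ball (0 : ℂ) 1 := mem_ball_self one_pos
  have e1 : deriv (kt f a) =ᶠ[nhds 0]
      fun ζ => deriv f (mob a ζ) / (deriv f a * (1 + (starRingEnd ℂ) a * ζ) ^ 2) := by
    filter_upwards [isOpen_ball.mem_nhds hb] with ζ hζ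
    exact kt_deriv hf hi ha hζ
  rw [e1.deriv_eq]
  have h1 := Koebe_mob ha hb
  rw [mul_zero, add_zero, one_pow, div_one] at h1
  have h2 : HasDerivAt (deriv f) (deriv (deriv f) a) (mob a 0) := by
    rw [Koebe_zero]
    exact ((hf.deriv isOpen_ball).differentiableAt (isOpen_ball.mem_nhds ha)).hasDerivAt
  have h3 := h2.comp (0 : ℂ) h1
  have h4 : HasDerivAt (fun z : ℂ => 1 + (starRingEnd ℂ) a * z) ((starRingEnd ℂ) a) 0 := by
    simpa using ((hasDerivAt_id (0 : ℂ)).const_mul ((starRingEnd ℂ) a)).const_add 1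
  have h5 := (h4.fun_pow 2).const_mul (deriv f a)
  have h6 := h3.fun_div h5 (by simp [h0])
  have h7 := h6.deriv
  simp only [Function.comp_def] at h7
  rw [h7, Koebe_zero, pre]
  simp only [mul_zero, add_zero, one_pow, mul_one]
  field_simp
  push_cast
  ring

theorem pre_bound {f : ℂ → ℂ} (hf : DifferentiableOn ℂ f (ball 0 1)) (hi : InjOn f (ball 0 1)) {z : ℂ}
    (hz : z ∈ ball (0 : ℂ) 1) : ‖pre f z‖ ≤ 7 / (1 - ‖z‖) := by
  have h1 := second_coeff (kt_sch hf hi hz)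
  rw [Koebe_second hf hi hz] at h1
  rw [mem_ball_zero_iff] at hz
  have hn := norm_nonneg z
  have h2 : ‖((1 - ‖z‖ ^ 2 : ℝ) : ℂ) * pre f z‖ ≤ 7 := by
    have h3 : ((1 - ‖z‖ ^ 2 : ℝ) : ℂ) * pre f z =
        (((1 - ‖z‖ ^ 2 : ℝ) : ℂ) * pre f z - 2 * (starRingEnd ℂ) z) + 2 * (starRingEnd ℂ) z := by
      ring
    rw [h3]
    refine (norm_add_le _ _).trans ?_
    have h4 : ‖2 * (starRingEnd ℂ) z‖ = 2 * ‖z‖ := by
      rw [norm_mul, RCLike.norm_conj]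
      norm_num
    rw [h4]
    linarith
  have h5 : 0 < 1 - ‖z‖ ^ 2 := by nlinarith
  rw [norm_mul, Complex.norm_real, Real.norm_of_nonneg h5.le] at h2
  rw [le_div_iff₀ (by linarith)]
  have h6 : ‖pre f z‖ * (1 - ‖z‖) ≤ ‖pre f z‖ * (1 - ‖z‖ ^ 2) := by
    apply mul_le_mul_of_nonneg_left _ (norm_nonneg _)
    nlinarith
  linarith

end Pool.Agent.Helper21.IM
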