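import Pool.Agent.Helper21.IM.AreaK
import Pool.Agent.Helper21.IM.Par

/-!
# IM-LZ: the coefficients `l 0 m` are square summable, uniformly
-/

set_option autoImplicit false

namespace Pool.Agent.Helper21.IM

open Complex Metric Set Real Finset MeasureTheory

private theorem LZ_gh (l : ℕ → ℕ → ℂ) (m : ℕ) (w : ℂ) :
    gh l m 0 w = ((m : ℂ) + 1) * l 0 (m + 1) * w ^ m := by
  unfold gh
  rw [Finset.sum_eq_single (0, m)]
  · simp
  · rintro ⟨p, q⟩ hp hne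
    have hp0 : p ≠ 0 := by
      rintro rfl
      apply hne
      rw [Finset.HasAntidiagonal.mem_antidiagonal] at hp
      simp only [zero_add] at hp
      rw [hp]
    simp [zero_pow hp0]
  · intro h
    exact absurd (Finset.HasAntidiagonal.mem_antidiagonal.2 (zero_add m)) h

private theorem LZ_ne {F : ℂ → ℂ} (hF : Sch F) {w : ℂ} (hw : w ∈ ball (0 : ℂ) 1) (h0 : w ≠ 0) :
    F w ≠ 0 := by
  intro h
  apply h0
  exact hF.inj hw (mem_ball_self one_pos) (by rw [h, hF.z0])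

/-- the coefficients of `w F'(w) / F(w)` -/
private noncomputable def LZ_b (l : ℕ → ℕ → ℂ) (m : ℕ) : ℂ := if m = 0 then 1 else (m : ℂ) * l 0 m

private theorem LZ_ps {F : ℂ → ℂ} {n : ℕ → ℂ} {l : ℕ → ℕ → ℂ} (D : Dat F n l) :
    PS (fun w => if w = 0 then 1 else w * (deriv F w / F w)) (LZ_b l) := by
  intro w hw
  by_cases h0 : w = 0
  · subst h0
    simp only [if_true]
    have h1 := hasSum_single (f := fun m => LZ_b l m * (0 : ℂ) ^ m) 0 (fun m hm => by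
      simp [zero_pow hm])
    simpa [LZ_b] using h1
  · simp only [if_neg h0]
    have h1 := D.link 0 (mem_ball_self one_pos) w hw (Ne.symm h0)
    have h2 : G F 0 w = deriv F w / F w - 1 / w := by
      unfold G
      rw [D.sch.z0, sub_zero, sub_zero]
    rw [h2] at h1
    have h3 := h1.mul_left w
    have h4 : w * (deriv F w / F w - 1 / w) = w * (deriv F w / F w) - 1 := by
      rw [mul_sub, mul_one_div_cancel h0]
    rw [h4] at h3
    have h5 : (fun i => w * gh l i 0 w) = fun i => LZ_b l (i + 1) * w ^ (i + 1) := by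
      funext i
      rw [LZ_gh, LZ_b, if_neg (Nat.succ_ne_zero i)]
      push_cast
      ring
    rw [h5] at h3
    rw [← hasSum_nat_add_iff' 1]
    simpa [LZ_b] using h3

private theorem LZ_avg {F : ℂ → ℂ} {n : ℕ → ℂ} {l : ℕ → ℕ → ℂ} (D : Dat F n l) (M : ℕ) {r : ℝ}
    (h0 : 0 < r) (h1 : r < 1) :
    r⁻¹ ^ 2 * (1 + ∑ m ∈ Icc 1 M, ((m : ℝ) * ‖l 0 m‖) ^ 2 * r ^ (2 * m)) ≤
      circleAverage (fun w => ‖deriv F w / F w‖ ^ 2) 0 r := by
  have hps := parseval_sq (LZ_ps D) h0.le h1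
  have h2 : circleAverage (fun w => ‖deriv F w / F w‖ ^ 2) 0 r =
      r⁻¹ ^ 2 * circleAverage
        (fun w => ‖(if w = 0 then 1 else w * (deriv F w / F w) : ℂ)‖ ^ 2) 0 r := by
    rw [← smul_eq_mul, ← circleAverage_fun_smul]
    apply circleAverage_congr_sphere
    intro w hw
    rw [mem_sphere, dist_zero_right, abs_of_pos h0] at hw
    have hw0 : w ≠ 0 := by
      rintro rfl
      rw [norm_zero] at hw
      exact h0.ne hw
    simp only [if_neg hw0, norm_mul, hw, smul_eq_mul]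
    field_simp
  rw [h2]
  refine mul_le_mul_of_nonneg_left ?_ (by positivity)
  have h3 := sum_le_hasSum (insert 0 (Icc 1 M)) (fun m _ => by positivity) hps
  rw [Finset.sum_insert (by simp)] at h3
  refine le_trans (le_of_eq ?_) h3
  congr 1
  · simp [LZ_b]
  · refine Finset.sum_congr rfl fun m hm => ?_
    have hm0 : m ≠ 0 := by
      have := (Finset.mem_Icc.1 hm).1
      omega
    rw [LZ_b, if_neg hm0, norm_mul]
    simp

private theorem LZ_int (a : ℕ → ℝ) (M : ℕ) {ε R : ℝ} (h0 : 0 < ε) (h1 : ε ≤ R) :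
    ∫ r in ε..R, 2 * π * r * (r⁻¹ ^ 2 * (1 + ∑ m ∈ Icc 1 M, ((m : ℝ) * a m) ^ 2 * r ^ (2 * m))) =
      π * (2 * Real.log (R / ε) + ∑ m ∈ Icc 1 M, (m : ℝ) * a m ^ 2 *
        (R ^ (2 * m) - ε ^ (2 * m))) := by
  have hder : ∀ r ∈ uIcc ε R, HasDerivAt
      (fun r => π * (2 * Real.log r + ∑ m ∈ Icc 1 M, (m : ℝ) * a m ^ 2 * r ^ (2 * m)))
      (2 * π * r * (r⁻¹ ^ 2 * (1 + ∑ m ∈ Icc 1 M, ((m : ℝ) * a m) ^ 2 * r ^ (2 * m)))) r := by
    intro r hr
    rw [uIcc_of_le h1] at hr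
    have hr0 : 0 < r := lt_of_lt_of_le h0 hr.1
    have h2 := (Real.hasDerivAt_log hr0.ne').const_mul 2
    have h3 : HasDerivAt (fun r : ℝ => ∑ m ∈ Icc 1 M, (m : ℝ) * a m ^ 2 * r ^ (2 * m))
        (∑ m ∈ Icc 1 M, (m : ℝ) * a m ^ 2 * (((2 * m : ℕ) : ℝ) * r ^ (2 * m - 1))) r :=
      HasDerivAt.fun_sum fun m _ => (hasDerivAt_pow (2 * m) r).const_mul _
    have h4 := (h2.add h3).const_mul π
    refine h4.congr_deriv ?_
    have h5 : ∀ m ∈ Finset.Icc 1 M, (m : ℝ) * a m ^ 2 * (((2 * m : ℕ) : ℝ) * r ^ (2 * m - 1)) =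
        2 * r⁻¹ * (((m : ℝ) * a m) ^ 2 * r ^ (2 * m)) := by
      intro m hm
      have hm1 := (Finset.mem_Icc.1 hm).1
      obtain ⟨k, hk⟩ : ∃ k, 2 * m = k + 1 := ⟨2 * m - 1, by omega⟩
      have h6 : r ^ (2 * m) = r ^ k * r := by rw [hk, pow_succ]
      have h7 : 2 * m - 1 = k := by omega
      rw [h6, h7]
      push_cast
      field_simp
    rw [Finset.sum_congr rfl h5, ← Finset.mul_sum]
    field_simp
  rw [intervalIntegral.integral_eq_sub_of_hasDerivAt hder]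
  · rw [Real.log_div (lt_of_lt_of_le h0 h1).ne' h0.ne']
    simp only [mul_sub, Finset.sum_sub_distrib]
    ring
  · apply ContinuousOn.intervalIntegrable
    rw [uIcc_of_le h1]
    refine ContinuousOn.mul (by fun_prop) (ContinuousOn.mul (ContinuousOn.pow ?_ 2) (by fun_prop))
    refine continuousOn_inv₀.mono fun r hr => ?_
    exact (lt_of_lt_of_le h0 hr.1).ne'

private theorem LZ_main {C : ℝ} (hC : ∀ F : ℂ → ℂ, Sch F → ∀ r ∈ Ico (1 / 2 : ℝ) 1,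
    ∀ ε ∈ Ioc (0 : ℝ) (1 / 8),
    ∫⁻ w in ball (0 : ℂ) r \ ball 0 ε, ENNReal.ofReal (‖deriv F w / F w‖ ^ 2) ≤
      ENNReal.ofReal (π * (2 * Real.log (1 / ε) + 14 * Real.log (1 / (1 - r)) + C)))
    {F : ℂ → ℂ} {n : ℕ → ℂ} {l : ℕ → ℕ → ℂ} (D : Dat F n l) (M : ℕ) {r : ℝ}
    (hr : r ∈ Ico (1 / 2 : ℝ) 1) :
    ∑ m ∈ Icc 1 M, (m : ℝ) * ‖l 0 m‖ ^ 2 * r ^ (2 * m) ≤
      14 * Real.log (1 / (1 - r)) + (2 * Real.log 2 + C) := by
  have hr0 : 0 < r := lt_of_lt_of_le (by norm_num) hr.1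
  have key : ∀ ε ∈ Ioc (0 : ℝ) (1 / 8), ∑ m ∈ Icc 1 M, (m : ℝ) * ‖l 0 m‖ ^ 2 *
      (r ^ (2 * m) - ε ^ (2 * m)) ≤ 14 * Real.log (1 / (1 - r)) + (2 * Real.log 2 + C) := by
    intro ε hε
    have hεr : ε < r := lt_of_le_of_lt hε.2 (lt_of_lt_of_le (by norm_num) hr.1)
    have hsub : ball (0 : ℂ) r \ ball 0 ε ⊆ ball 0 1 := fun w hw =>
      ball_subset_ball hr.2.le hw.1
    have hne : ∀ w ∈ ball (0 : ℂ) r \ ball 0 ε, w ≠ 0 := by
      rintro w hw rfl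
      exact hw.2 (mem_ball_self hε.1)
    have hcont : ContinuousOn (fun w => ‖deriv F w / F w‖ ^ 2) (ball (0 : ℂ) r \ ball 0 ε) := by
      have hd : ContinuousOn (deriv F) (ball 0 1) :=
        (D.sch.an.deriv isOpen_ball).continuousOn
      refine ContinuousOn.pow (ContinuousOn.norm (ContinuousOn.div (hd.mono hsub)
        (D.sch.an.continuousOn.mono hsub) fun w hw => ?_)) 2
      exact LZ_ne D.sch (hsub hw) (hne w hw)
    have h1 := radial (φ := fun r => r⁻¹ ^ 2 *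
      (1 + ∑ m ∈ Icc 1 M, ((m : ℝ) * ‖l 0 m‖) ^ 2 * r ^ (2 * m))) hε.1 hεr hcont
      (fun w _ => by positivity)
      (by
        refine ContinuousOn.mul (ContinuousOn.pow ?_ 2) (by fun_prop)
        refine continuousOn_inv₀.mono fun r hr => ?_
        exact (lt_of_lt_of_le hε.1 hr.1).ne')
      (fun ρ hρ => LZ_avg D M (hε.1.trans hρ.1) (hρ.2.trans hr.2))
    have h2 := h1.trans (hC F D.sch r hr ε hε)
    rw [LZ_int _ _ hε.1 hεr.le] at h2
    have hlog : 0 < Real.log (r / ε) := Real.log_pos (by rwa [one_lt_div hε.1])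
    have hnn : 0 ≤ ∑ m ∈ Icc 1 M, (m : ℝ) * ‖l 0 m‖ ^ 2 * (r ^ (2 * m) - ε ^ (2 * m)) := by
      refine Finset.sum_nonneg fun m _ => mul_nonneg (by positivity) ?_
      rw [sub_nonneg]
      exact pow_le_pow_left₀ hε.1.le hεr.le _
    rcases ENNReal.ofReal_le_ofReal_iff'.1 h2 with h3 | h3
    · have h4 := le_of_mul_le_mul_left h3 Real.pi_pos
      have h5 : Real.log (r / ε) = Real.log r + Real.log (1 / ε) := by
        rw [Real.log_div hr0.ne' hε.1.ne', one_div, Real.log_inv]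
        ring
      have h6 : - Real.log 2 ≤ Real.log r := by
        rw [← Real.log_inv]
        exact Real.log_le_log (by norm_num) (by linarith [hr.1])
      linarith
    · exfalso
      have : 0 < π * (2 * Real.log (r / ε) + ∑ m ∈ Icc 1 M, (m : ℝ) * ‖l 0 m‖ ^ 2 *
          (r ^ (2 * m) - ε ^ (2 * m))) := mul_pos Real.pi_pos (by linarith)
      linarith
  have hcont : Continuous fun ε : ℝ => ∑ m ∈ Icc 1 M, (m : ℝ) * ‖l 0 m‖ ^ 2 *
      (r ^ (2 * m) - ε ^ (2 * m)) := by fun_prop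
  have h1 : Filter.Tendsto (fun ε : ℝ => ∑ m ∈ Icc 1 M, (m : ℝ) * ‖l 0 m‖ ^ 2 *
      (r ^ (2 * m) - ε ^ (2 * m))) (nhdsWithin 0 (Ioi 0))
      (nhds (∑ m ∈ Icc 1 M, (m : ℝ) * ‖l 0 m‖ ^ 2 * (r ^ (2 * m) - 0 ^ (2 * m)))) :=
    (hcont.tendsto 0).mono_left nhdsWithin_le_nhds
  have h2 : ∑ m ∈ Icc 1 M, (m : ℝ) * ‖l 0 m‖ ^ 2 * (r ^ (2 * m) - 0 ^ (2 * m)) =
      ∑ m ∈ Icc 1 M, (m : ℝ) * ‖l 0 m‖ ^ 2 * r ^ (2 * m) := by
    refine Finset.sum_congr rfl fun m hm => ?_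
    have hm1 := (Finset.mem_Icc.1 hm).1
    rw [zero_pow (by omega), sub_zero]
  rw [h2] at h1
  refine le_of_tendsto h1 ?_
  filter_upwards [Ioc_mem_nhdsGT (show (0 : ℝ) < 1 / 8 by norm_num)] with ε hε
  exact key ε hε

theorem l_zero : ∃ C : ℝ, ∀ (F : ℂ → ℂ) (n : ℕ → ℂ) (l : ℕ → ℕ → ℂ), Dat F n l →
    ∀ M : ℕ, ∑ m ∈ Icc 1 M, ‖l 0 m‖ ^ 2 ≤ C := by
  obtain ⟨C, hC⟩ := area_0
  refine ⟨4 * ∫ r in (1 / 2 : ℝ)..1, (14 * Real.log (1 / (1 - r)) + (2 * Real.log 2 + C)), ?_⟩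
  intro F n l D M
  have hint : IntervalIntegrable
      (fun r : ℝ => 14 * Real.log (1 / (1 - r)) + (2 * Real.log 2 + C)) volume (1 / 2) 1 := by
    refine IntervalIntegrable.add (IntervalIntegrable.const_mul ?_ 14) (by simp)
    have h1 : (fun r : ℝ => Real.log (1 / (1 - r))) = fun r => - Real.log (1 - r) := by
      funext r
      rw [one_div, Real.log_inv]
    rw [h1]
    refine IntervalIntegrable.neg ?_
    have h2 := (intervalIntegral.intervalIntegrable_log' (a := 1 - 1 / 2) (b := 1 - 1)).comp_sub_left 1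
    simpa using h2
  have h1 := intervalIntegral.integral_mono_on_of_le_Ioo (by norm_num : (1 / 2 : ℝ) ≤ 1)
    (f := fun r => ∑ m ∈ Icc 1 M, (m : ℝ) * ‖l 0 m‖ ^ 2 * r ^ (2 * m))
    (Continuous.intervalIntegrable (by fun_prop) _ _) hint
    (fun r hr => LZ_main hC D M ⟨hr.1.le, hr.2⟩)
  have h2 : ∑ m ∈ Icc 1 M, ‖l 0 m‖ ^ 2 / 4 ≤
      ∫ r in (1 / 2 : ℝ)..1, ∑ m ∈ Icc 1 M, (m : ℝ) * ‖l 0 m‖ ^ 2 * r ^ (2 * m) := by
    rw [intervalIntegral.integral_finsetSum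
      (fun m _ => Continuous.intervalIntegrable (by fun_prop) _ _)]
    refine Finset.sum_le_sum fun m hm => ?_
    have hm1 := (Finset.mem_Icc.1 hm).1
    rw [intervalIntegral.integral_const_mul, integral_pow, one_pow]
    have h3 : (1 / 2 : ℝ) ^ (2 * m + 1) ≤ 1 / 8 := by
      calc (1 / 2 : ℝ) ^ (2 * m + 1) ≤ (1 / 2 : ℝ) ^ 3 :=
            pow_le_pow_of_le_one (by norm_num) (by norm_num) (by omega)
        _ = 1 / 8 := by norm_num
    have h4 : (1 : ℝ) / 4 ≤ m * ((1 - (1 / 2 : ℝ) ^ (2 * m + 1)) / ((2 * m : ℕ) + 1)) := by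
      have hm' : (1 : ℝ) ≤ m := by exact_mod_cast hm1
      rw [mul_div_assoc', le_div_iff₀ (by positivity)]
      push_cast
      nlinarith
    calc ‖l 0 m‖ ^ 2 / 4 = ‖l 0 m‖ ^ 2 * (1 / 4) := by ring
      _ ≤ ‖l 0 m‖ ^ 2 * (m * ((1 - (1 / 2 : ℝ) ^ (2 * m + 1)) / ((2 * m : ℕ) + 1))) :=
          mul_le_mul_of_nonneg_left h4 (by positivity)
      _ = _ := by ring
  rw [← Finset.sum_div] at h2
  linarith

end Pool.Agent.Helper21.IM
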