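import Pool.Agent.Helper21.IM.PSBasic
import Pool.Agent.Helper21.IM.FDefs

/-!
# IM-LI: the double series converges to `G`

`hF`: `F z = ∑ e m z^(m+1)`.  Fix `z ≠ w` in the disc, let `d = w - z ≠ 0` and `t > 1` with
`t ‖z‖ < 1`, `t ‖w‖ < 1`.  For `‖u‖ < t` let `B u = (F (u w) - F (u z)) / (u d)` (`B 0 = 1`),
`B u = ∑ e m A m u^m` with `A m = ∑_{j+k=m} z^j w^k` (`Commute.geom_sum₂_mul` / `geom_sum₂`), without
zeros for `‖u‖ < t` (`F` is injective); `C u = (F' (u w) - B u) / (u d) = ∑ e (m+1) A' m u^m`,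
`A' m = ∑_{j+k=m} (k+1) z^j w^k`.  For `u ≠ 0`: `G F (u z) (u w) = C u / B u`, analytic in `‖u‖ < t`, so
`C u / B u = ∑ c m u^m` and `∑_{i+i'=m} (e i A i) c i' = e (m+1) A' m`.  `Geq` multiplied by `z^j w^k` and
summed over `j + k = m` says that `gh l m z w` solves the same recursion; `e 0 = 1`, `A 0 = 1`, so
`c m = gh l m z w`.  Put `u = 1`.
-/

set_option autoImplicit false

namespace Pool.Agent.Helper21.IM

open Complex Metric Set Real Finset

/-- `∑_{j+k=m} z^j w^k` -/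
private noncomputable def lkA (z w : ℂ) (m : ℕ) : ℂ := ∑ p ∈ antidiagonal m, z ^ p.1 * w ^ p.2

/-- `∑_{j+k=m} (k+1) z^j w^k` -/
private noncomputable def lkA' (z w : ℂ) (m : ℕ) : ℂ :=
  ∑ p ∈ antidiagonal m, ((p.2 : ℂ) + 1) * (z ^ p.1 * w ^ p.2)

private lemma lkA_succ (z w : ℂ) (m : ℕ) : lkA z w (m + 1) = w ^ (m + 1) + z * lkA z w m := by
  unfold lkA
  rw [Finset.Nat.sum_antidiagonal_succ, Finset.mul_sum]
  simp only [pow_zero, one_mul]
  congr 1
  refine Finset.sum_congr rfl fun p _ => ?_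
  ring

private lemma lkA'_succ (z w : ℂ) (m : ℕ) :
    lkA' z w (m + 1) = ((m : ℂ) + 2) * w ^ (m + 1) + z * lkA' z w m := by
  unfold lkA'
  rw [Finset.Nat.sum_antidiagonal_succ, Finset.mul_sum]
  simp only [pow_zero, one_mul]
  congr 1
  · push_cast
    ring
  · refine Finset.sum_congr rfl fun p _ => ?_
    ring

private lemma lkA_mul (z w : ℂ) (m : ℕ) :
    (w - z) * lkA z w m = w ^ (m + 1) - z ^ (m + 1) := by
  induction m with
  | zero => simp [lkA]
  | succ m ih =>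
    rw [lkA_succ]
    linear_combination z * ih

private lemma lkA'_mul (z w : ℂ) (m : ℕ) :
    (w - z) * lkA' z w m = ((m : ℂ) + 2) * w ^ (m + 1) - lkA z w (m + 1) := by
  induction m with
  | zero =>
    rw [lkA_succ]
    simp [lkA', lkA]
    ring
  | succ m ih =>
    rw [lkA'_succ, lkA_succ z w (m + 1)]
    push_cast
    linear_combination z * ih

private lemma lk_congr {f g : ℕ → ℂ} {a : ℂ} (h : ∀ m, f m = g m) : HasSum f a ↔ HasSum g a := by
  rw [funext h]

/-- reindexing of a quadruple sum -/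
private lemma lk_quad (E G : ℕ → ℕ → ℂ) (m : ℕ) :
    ∑ x ∈ antidiagonal m, ∑ p ∈ antidiagonal x.1, ∑ q ∈ antidiagonal x.2,
      E p.1 q.1 * G p.2 q.2 =
    ∑ x ∈ antidiagonal m, (∑ p ∈ antidiagonal x.1, E p.1 p.2) *
      (∑ q ∈ antidiagonal x.2, G q.1 q.2) := by
  have h1 : ∀ x : ℕ × ℕ, ∑ p ∈ antidiagonal x.1, ∑ q ∈ antidiagonal x.2,
      E p.1 q.1 * G p.2 q.2 =
      ∑ y ∈ antidiagonal x.1 ×ˢ antidiagonal x.2, E y.1.1 y.2.1 * G y.1.2 y.2.2 := by
    intro x
    rw [Finset.sum_product]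
  have h2 : ∀ x : ℕ × ℕ, (∑ p ∈ antidiagonal x.1, E p.1 p.2) *
      (∑ q ∈ antidiagonal x.2, G q.1 q.2) =
      ∑ y ∈ antidiagonal x.1 ×ˢ antidiagonal x.2, E y.1.1 y.1.2 * G y.2.1 y.2.2 := by
    intro x
    rw [Finset.sum_product, Finset.sum_mul_sum]
  simp only [h1, h2]
  rw [Finset.sum_sigma', Finset.sum_sigma']
  refine Finset.sum_nbij'
    (i := fun x => ⟨(x.2.1.1 + x.2.2.1, x.2.1.2 + x.2.2.2),
      ((x.2.1.1, x.2.2.1), (x.2.1.2, x.2.2.2))⟩)
    (j := fun x => ⟨(x.2.1.1 + x.2.2.1, x.2.1.2 + x.2.2.2),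
      ((x.2.1.1, x.2.2.1), (x.2.1.2, x.2.2.2))⟩) ?_ ?_ ?_ ?_ ?_
  · rintro ⟨⟨j, k⟩, ⟨⟨a, c⟩, ⟨b, d⟩⟩⟩ h
    simp only [Finset.mem_sigma, HasAntidiagonal.mem_antidiagonal, Finset.mem_product] at h ⊢
    obtain ⟨h1, h2, h3⟩ := h
    exact ⟨by omega, trivial, trivial⟩
  · rintro ⟨⟨j, k⟩, ⟨⟨a, c⟩, ⟨b, d⟩⟩⟩ h
    simp only [Finset.mem_sigma, HasAntidiagonal.mem_antidiagonal, Finset.mem_product] at h ⊢
    obtain ⟨h1, h2, h3⟩ := h
    exact ⟨by omega, trivial, trivial⟩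
  · rintro ⟨⟨j, k⟩, ⟨⟨a, c⟩, ⟨b, d⟩⟩⟩ h
    simp only [Finset.mem_sigma, HasAntidiagonal.mem_antidiagonal, Finset.mem_product] at h ⊢
    obtain ⟨-, h1, h2⟩ := h
    subst h1 h2
    rfl
  · rintro ⟨⟨j, k⟩, ⟨⟨a, c⟩, ⟨b, d⟩⟩⟩ h
    simp only [Finset.mem_sigma, HasAntidiagonal.mem_antidiagonal, Finset.mem_product] at h ⊢
    obtain ⟨-, h1, h2⟩ := h
    subst h1 h2
    rfl
  · rintro ⟨⟨j, k⟩, ⟨⟨a, c⟩, ⟨b, d⟩⟩⟩ h
    rfl

/-- `gh` solves the recursion -/
private lemma lk_rec {e : ℕ → ℂ} {l : ℕ → ℕ → ℂ} (hg : Geq e l) (z w : ℂ) (m : ℕ) :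
    cv (fun i => e i * lkA z w i) (fun i => gh l i z w) m = e (m + 1) * lkA' z w m := by
  have h1 := lk_quad (fun a b => e (a + b) * (z ^ a * w ^ b))
    (fun c d => (((d : ℂ) + 1) * l c (d + 1)) * z ^ c * w ^ d) m
  have h2 : cv (fun i => e i * lkA z w i) (fun i => gh l i z w) m =
      ∑ x ∈ antidiagonal m, (∑ p ∈ antidiagonal x.1, e (p.1 + p.2) * (z ^ p.1 * w ^ p.2)) *
      (∑ q ∈ antidiagonal x.2, (((q.2 : ℂ) + 1) * l q.1 (q.2 + 1)) * z ^ q.1 * w ^ q.2) := by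
    unfold cv gh lkA
    refine Finset.sum_congr rfl fun x _ => ?_
    congr 1
    simp only []
    rw [Finset.mul_sum]
    refine Finset.sum_congr rfl fun p hp => ?_
    rw [HasAntidiagonal.mem_antidiagonal] at hp
    rw [hp]
  rw [h2, ← h1]
  unfold lkA'
  rw [Finset.mul_sum]
  refine Finset.sum_congr rfl fun x hx => ?_
  rw [HasAntidiagonal.mem_antidiagonal] at hx
  have h3 := hg x.1 x.2
  have h4 : ∑ p ∈ antidiagonal x.1, ∑ q ∈ antidiagonal x.2,
      e (p.1 + q.1) * (z ^ p.1 * w ^ q.1) *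
        ((((q.2 : ℂ) + 1) * l p.2 (q.2 + 1)) * z ^ p.2 * w ^ q.2) =
      (∑ p ∈ antidiagonal x.1, ∑ q ∈ antidiagonal x.2,
        e (p.1 + q.1) * (((q.2 : ℂ) + 1) * l p.2 (q.2 + 1))) * (z ^ x.1 * w ^ x.2) := by
    rw [Finset.sum_mul]
    refine Finset.sum_congr rfl fun p hp => ?_
    rw [Finset.sum_mul]
    refine Finset.sum_congr rfl fun q hq => ?_
    rw [HasAntidiagonal.mem_antidiagonal] at hp hq
    rw [← hp, ← hq, pow_add, pow_add]
    ring
  rw [h4, h3, ← hx]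
  ring

/-- uniqueness of the solution of the recursion -/
private lemma lk_cancel {b q g : ℕ → ℂ} (h0 : b 0 ≠ 0) (h : cv b q = cv b g) : q = g := by
  have h1 : PowerSeries.mk b * PowerSeries.mk q = PowerSeries.mk b * PowerSeries.mk g := by
    ext m
    rw [PowerSeries.coeff_mul, PowerSeries.coeff_mul]
    have := congrFun h m
    unfold cv at this
    simpa using this
  have h2 : PowerSeries.mk b ≠ 0 := by
    intro h3
    apply h0
    have := congrArg (PowerSeries.coeff 0) h3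
    simpa using this
  have h4 := mul_left_cancel₀ h2 h1
  funext m
  have := congrArg (PowerSeries.coeff m) h4
  simpa using this

theorem link {F : ℂ → ℂ} (hF : Sch F) (hd : ∀ z ∈ ball (0 : ℂ) 1, deriv F z ≠ 0) {e : ℕ → ℂ}
    (he : PS F (fun m => if m = 0 then 0 else e (m - 1))) {l : ℕ → ℕ → ℂ} (hg : Geq e l) :
    ∀ z ∈ ball (0 : ℂ) 1, ∀ w ∈ ball (0 : ℂ) 1, z ≠ w → HasSum (fun m => gh l m z w) (G F z w) := by
  intro z₀ hz₀ w₀ hw₀ hne₀
  rw [mem_ball_zero_iff] at hz₀ hw₀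
  -- scaling
  obtain ⟨r, hr0, hr1, hzr, hwr⟩ : ∃ r : ℝ, 0 < r ∧ r < 1 ∧ ‖z₀‖ < r ∧ ‖w₀‖ < r := by
    refine ⟨(1 + max ‖z₀‖ ‖w₀‖) / 2, ?_, ?_, ?_, ?_⟩
    · have := norm_nonneg z₀
      have h2 := le_max_left ‖z₀‖ ‖w₀‖
      linarith
    · have := max_lt hz₀ hw₀
      linarith
    · have := max_lt hz₀ hw₀
      have h2 := le_max_left ‖z₀‖ ‖w₀‖
      linarith
    · have := max_lt hz₀ hw₀
      have h2 := le_max_right ‖z₀‖ ‖w₀‖
      linarith
  have hrc : (r : ℂ) ≠ 0 := by exact_mod_cast hr0.ne'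
  obtain ⟨z, hzz⟩ : ∃ z : ℂ, z₀ = r * z := ⟨z₀ / r, by field_simp⟩
  obtain ⟨w, hww⟩ : ∃ w : ℂ, w₀ = r * w := ⟨w₀ / r, by field_simp⟩
  have hnr : ‖(r : ℂ)‖ = r := by simp [abs_of_pos hr0]
  have hz : ‖z‖ < 1 := by
    rw [hzz, norm_mul, hnr] at hzr
    nlinarith
  have hw : ‖w‖ < 1 := by
    rw [hww, norm_mul, hnr] at hwr
    nlinarith
  have hne : z ≠ w := fun h => hne₀ (by rw [hzz, hww, h])
  have hdn : w - z ≠ 0 := sub_ne_zero.mpr hne.symm
  -- points
  have hin : ∀ u ∈ ball (0 : ℂ) 1, ∀ v : ℂ, ‖v‖ < 1 → u * v ∈ ball (0 : ℂ) 1 := by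
    intro u hu v hv
    rw [mem_ball_zero_iff] at hu ⊢
    rw [norm_mul]
    have := norm_nonneg u
    have := norm_nonneg v
    nlinarith
  have hder := ps_deriv he
  have he0 : e 0 = 1 := by
    have h1 := ps_zero hder
    rw [hF.d0] at h1
    simpa using h1.symm
  -- B
  set B : ℂ → ℂ := fun u => if u = 0 then 1 else (F (u * w) - F (u * z)) / (u * (w - z)) with hB
  set b : ℕ → ℂ := fun i => e i * lkA z w i with hb
  have hb0 : b 0 = 1 := by simp [hb, lkA, he0]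
  have hPB : PS B b := by
    intro u hu
    by_cases hu0 : u = 0
    · subst hu0
      have : B 0 = b 0 * 0 ^ 0 := by simp [hB, hb0]
      rw [this]
      refine hasSum_single 0 fun m hm => ?_
      simp [hm]
    · have h1 := he _ (hin u hu w hw)
      have h2 := he _ (hin u hu z hz)
      have h3 := h1.sub h2
      have h4 := (hasSum_nat_add_iff' 1).mpr h3
      have h5 := h4.div_const (u * (w - z))
      have h6 : B u = (F (u * w) - F (u * z) - ∑ i ∈ Finset.range 1,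
          ((if i = 0 then 0 else e (i - 1)) * (u * w) ^ i -
            (if i = 0 then 0 else e (i - 1)) * (u * z) ^ i)) / (u * (w - z)) := by
        simp [hB, hu0]
      rw [h6]
      refine (lk_congr fun m => ?_).mpr h5
      have h7 := lkA_mul z w m
      simp only [Nat.add_eq_zero_iff, one_ne_zero, and_false, if_false, Nat.add_sub_cancel]
      rw [eq_div_iff (mul_ne_zero hu0 hdn)]
      simp only [hb]
      rw [mul_pow, mul_pow, pow_succ u m]
      linear_combination (e m * u ^ m * u) * h7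
  have hBne : ∀ u ∈ ball (0 : ℂ) 1, B u ≠ 0 := by
    intro u hu
    by_cases hu0 : u = 0
    · simp [hB, hu0]
    · simp only [hB, hu0, if_false]
      refine div_ne_zero ?_ (mul_ne_zero hu0 hdn)
      intro h1
      have h2 := hF.inj (hin u hu w hw) (hin u hu z hz) (sub_eq_zero.mp h1)
      exact hne (mul_left_cancel₀ hu0 h2).symm
  -- C
  set c : ℕ → ℂ := fun m => e (m + 1) * lkA' z w m with hc
  set C : ℂ → ℂ := fun u => if u = 0 then c 0 else (deriv F (u * w) - B u) / (u * (w - z)) with hC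
  have hPC : PS C c := by
    intro u hu
    by_cases hu0 : u = 0
    · subst hu0
      have : C 0 = c 0 * 0 ^ 0 := by simp [hC]
      rw [this]
      refine hasSum_single 0 fun m hm => ?_
      simp [hm]
    · have h1 := hder _ (hin u hu w hw)
      have h2 := hPB u hu
      have h3 := h1.sub h2
      have h4 := (hasSum_nat_add_iff' 1).mpr h3
      have h5 := h4.div_const (u * (w - z))
      have h6 : C u = (deriv F (u * w) - B u - ∑ i ∈ Finset.range 1,
          (((i : ℂ) + 1) * (if i + 1 = 0 then 0 else e (i + 1 - 1)) * (u * w) ^ i -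
            b i * u ^ i)) / (u * (w - z)) := by
        simp [hC, hu0, hb0, he0]
      rw [h6]
      refine (lk_congr fun m => ?_).mpr h5
      have h7 := lkA'_mul z w m
      simp only [Nat.add_eq_zero_iff, one_ne_zero, and_false, if_false, Nat.add_sub_cancel]
      rw [eq_div_iff (mul_ne_zero hu0 hdn)]
      simp only [hb, hc]
      rw [mul_pow, pow_succ u m]
      push_cast
      linear_combination (e (m + 1) * u ^ m * u) * h7
  -- quotient
  have hdB := ps_diff hPB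
  have hdC := ps_diff hPC
  obtain ⟨q, hq⟩ := ps_exists (hdC.div hdB hBne)
  have hBq := ps_mul hPB hq
  have hBq' : PS C (cv b q) := by
    refine ps_congr hBq fun u hu => ?_
    have := hBne u hu
    simp only [Pi.div_apply]
    field_simp
  have hcq : cv b q = c := ps_unique hBq' hPC
  have hcg : cv b (fun i => gh l i z w) = c := by
    funext m
    exact lk_rec hg z w m
  have hqg : q = fun i => gh l i z w := lk_cancel (by rw [hb0]; exact one_ne_zero) (hcq.trans hcg.symm)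
  have hrm : (r : ℂ) ∈ ball (0 : ℂ) 1 := by
    rw [mem_ball_zero_iff, hnr]
    exact hr1
  have hfin := hq r hrm
  rw [hqg] at hfin
  have hval : (C / B) (r : ℂ) = G F z₀ w₀ := by
    have h1 : F (r * w) - F (r * z) ≠ 0 := by
      intro h1
      have h2 := hF.inj (hin r hrm w hw) (hin r hrm z hz) (sub_eq_zero.mp h1)
      exact hne (mul_left_cancel₀ hrc h2).symm
    simp only [Pi.div_apply, hC, hB, hrc, if_false, G]
    rw [hzz, hww]
    have h2 : (r : ℂ) * w - r * z = r * (w - z) := by ring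
    rw [h2]
    field_simp
  rw [← hval]
  refine (lk_congr fun m => ?_).mpr hfin
  rw [hzz, hww]
  unfold gh
  rw [Finset.sum_mul]
  refine Finset.sum_congr rfl fun p hp => ?_
  rw [HasAntidiagonal.mem_antidiagonal] at hp
  rw [mul_pow, mul_pow, ← hp, pow_add]
  ring

end Pool.Agent.Helper21.IM
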