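import Pool.Agent.Helper21.IM.Defs

/-!
# IM-LD: logarithms on the unit disc

`h' / h` is differentiable on the disc, so it has a primitive there
(`DifferentiableOn.isExactOn_ball`, `Complex.IsExactOn`, `IsExactOn.with_val_at`); take the
primitive `L` with `L 0 = 0`; the derivative of `h * exp (-L)` vanishes on the disc, so this function
is constant `= 1`.
-/

set_option autoImplicit false

namespace Pool.Agent.Helper21.IM

open Complex Metric Set Real Finset

theorem log_disc {h : ℂ → ℂ} (hd : DifferentiableOn ℂ h (ball 0 1))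
    (hn : ∀ z ∈ ball (0 : ℂ) 1, h z ≠ 0) (h0 : h 0 = 1) :
    ∃ L : ℂ → ℂ, DifferentiableOn ℂ L (ball 0 1) ∧ L 0 = 0 ∧
      ∀ z ∈ ball (0 : ℂ) 1, exp (L z) = h z ∧ HasDerivAt L (deriv h z / h z) z := by
  have hd' : DifferentiableOn ℂ (deriv h) (ball 0 1) := hd.deriv isOpen_ball
  have hq : DifferentiableOn ℂ (fun z => deriv h z / h z) (ball 0 1) := hd'.div hd hn
  obtain ⟨L, hL0, hL⟩ := (hq.isExactOn_ball).with_val_at 0 0
  have h0m : (0 : ℂ) ∈ ball (0 : ℂ) 1 := by simp
  refine ⟨L, fun z hz => (hL z hz).differentiableAt.differentiableWithinAt, hL0, ?_⟩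
  intro z hz
  refine ⟨?_, hL z hz⟩
  have key : ∀ w ∈ ball (0 : ℂ) 1,
      HasDerivAt (fun u => h u * Complex.exp (-(L u))) 0 w := by
    intro w hw
    have h1 : HasDerivAt h (deriv h w) w :=
      (hd.differentiableAt (isOpen_ball.mem_nhds hw)).hasDerivAt
    have h2 : HasDerivAt (fun u => Complex.exp (-(L u)))
        (Complex.exp (-(L w)) * (-(deriv h w / h w))) w := (hL w hw).neg.cexp
    have h3 := h1.mul h2
    have h4 : deriv h w * Complex.exp (-(L w)) +
        h w * (Complex.exp (-(L w)) * (-(deriv h w / h w))) = 0 := by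
      have := hn w hw
      field_simp
      ring
    rw [h4] at h3
    exact h3
  have hconst : h z * Complex.exp (-(L z)) = h 0 * Complex.exp (-(L 0)) := by
    have hdf : DifferentiableOn ℂ (fun u => h u * Complex.exp (-(L u))) (ball 0 1) :=
      fun w hw => (key w hw).differentiableAt.differentiableWithinAt
    refine (convex_ball (0 : ℂ) 1).is_const_of_fderivWithin_eq_zero (𝕜 := ℂ) hdf ?_ hz h0m
    intro w hw
    rw [fderivWithin_of_isOpen isOpen_ball hw]
    have := (key w hw).hasFDerivAt.fderiv
    rw [this]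
    ext
    simp
  rw [hL0, h0] at hconst
  have he : Complex.exp (L z) ≠ 0 := Complex.exp_ne_zero _
  have h5 : Complex.exp (-(L z)) = (Complex.exp (L z))⁻¹ := Complex.exp_neg _
  rw [h5] at hconst
  field_simp at hconst
  simpa using hconst.symm

end Pool.Agent.Helper21.IM
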