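import Pool.Agent.Helper21.IM.XY

/-!
# IM-RI: the integrals of the relations vanish; the energy integral

Let `d = a`, `e = b + 2 c`, `P = Nh^a`, `Q = Nh^b Sh^c` with coefficients `α`, `β`.
`X^a = (i y)^a P`, `a X^(a-1) (Y + X²/2) = (i y)^(a+1) (i z P')` because `i z Nh' = Sh + Nh²/2` and
`-y² = (i y)²`; `X^b Y^c = (i y)^e Q`.  So the relation divided by `y` is the real part of
`(i^(a+1) y^(a+e) (i z P') + (a+e)/2 i^a y^(a+e-1) P) conj (i^e Q)` and `int_form` gives for its integral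
the sum over `m ≥ 1` of `α m conj (β m) R^(2m) conj(i^e) i^a
( i (i m) (a+e)!/(2m)^(a+e+1) + (a+e)/2 (a+e-1)!/(2m)^(a+e) ) = 0`.
(If `a ≥ 1` then `α 0 = 0`; if `a = 0` the first term is `0` and the second is a multiple of
`conj Q`, whose circle average is `conj (Q 0) = 0` since `(b, c) ≠ (0, 0)`.)

Energy: `av ‖X‖²/y` integrates to `∑ ‖nu m‖² R^(2m)/(2m)² = 1/4 ∑ ‖gs n m‖² R^(2m)`,
`‖X‖⁴ = y⁴ ‖Nh²‖²` to `∑ ‖qa‖² R^(2m) 3!/(2m)⁴`, `(X² conj Y²).re = - y⁶ Re (Nh² conj Sh²)` to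
`- ∑ Re (qa conj qq) R^(2m) 5!/(2m)⁶`, `‖Y‖⁴ = y⁸ ‖Sh²‖²` to `∑ ‖qq‖² R^(2m) 7!/(2m)⁸`; the sum is
`∑ R^(2m) jt n m` (for `m ≥ 1`).
-/

set_option autoImplicit false

namespace Pool.Agent.Helper21.IM

open Complex Metric Set Real Finset MeasureTheory

private theorem RelInt_mem {R : ℝ} (h0 : 0 < R) (h1 : R < 1) {y : ℝ} (hy : 0 < y) {z : ℂ}
    (hz : z ∈ sphere (0 : ℂ) |R * Real.exp (-y)|) : z ∈ ball (0 : ℂ) 1 := by
  rw [mem_sphere_zero_iff_norm, abs_of_pos (by positivity)] at hz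
  rw [mem_ball_zero_iff, hz]
  have h2 : Real.exp (-y) < 1 := by
    rw [Real.exp_lt_one_iff]
    linarith
  have h3 : 0 < Real.exp (-y) := Real.exp_pos _
  nlinarith

/-- a finite sum of products -/
private theorem RelInt_gen {ι : Type} [Fintype ι] (c : ι → ℂ) (P Q : ι → ℂ → ℂ)
    (α β : ι → ℕ → ℂ) (k : ι → ℕ) (hP : ∀ i, PS (P i) (α i)) (hQ : ∀ i, PS (Q i) (β i))
    (hab : ∀ i, α i 0 = 0 ∨ β i 0 = 0) (hk : ∀ i, 1 ≤ k i) {R : ℝ} (h0 : 0 < R) (h1 : R < 1)
    (Φ : ℝ → ℂ → ℝ) (hΦ : ∀ y : ℝ, 0 < y → ∀ z ∈ ball (0 : ℂ) 1,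
      Φ y z = y * (∑ i, c i * (y : ℂ) ^ (k i - 1) * (P i z * (starRingEnd ℂ) (Q i z))).re) :
    IntegrableOn (fun y : ℝ => circleAverage (Φ y) 0 (R * Real.exp (-y)) / y) (Ioi 0) ∧
      HasSum (fun m : ℕ => (∑ i, c i * (if m = 0 then 0 else
          α i m * (starRingEnd ℂ) (β i m) * (R : ℂ) ^ (2 * m) * ((k i - 1).factorial : ℂ) /
            (2 * m) ^ k i)).re)
        (∫ y in Ioi (0 : ℝ), circleAverage (Φ y) 0 (R * Real.exp (-y)) / y) := by
  have hint : ∀ i, _ := fun i => int_form (hP i) (hQ i) (hab i) h0 h1 (hk i)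
  have hpt : ∀ y ∈ Ioi (0 : ℝ), (∑ i, c i * ((y : ℂ) ^ (k i - 1) *
      circleAverage (fun z => P i z * (starRingEnd ℂ) (Q i z)) 0 (R * Real.exp (-y)))).re =
      circleAverage (Φ y) 0 (R * Real.exp (-y)) / y := by
    intro y hy
    have hy0 : (0 : ℝ) < y := hy
    have hcont : ∀ i, ContinuousOn (fun z => c i * (y : ℂ) ^ (k i - 1) *
        (P i z * (starRingEnd ℂ) (Q i z))) (sphere (0 : ℂ) |R * Real.exp (-y)|) := by
      intro i
      have e1 : ContinuousOn (P i) (sphere (0 : ℂ) |R * Real.exp (-y)|) :=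
        (ps_diff (hP i)).continuousOn.mono fun z hz => RelInt_mem h0 h1 hy0 hz
      have e2 : ContinuousOn (Q i) (sphere (0 : ℂ) |R * Real.exp (-y)|) :=
        (ps_diff (hQ i)).continuousOn.mono fun z hz => RelInt_mem h0 h1 hy0 hz
      exact continuousOn_const.mul (e1.mul (continuous_star.comp_continuousOn e2))
    have hci : ∀ i, CircleIntegrable (fun z => c i * (y : ℂ) ^ (k i - 1) *
        (P i z * (starRingEnd ℂ) (Q i z))) 0 (R * Real.exp (-y)) := fun i =>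
      (hcont i).circleIntegrable'
    have hcs : CircleIntegrable (fun z => ∑ i, c i * (y : ℂ) ^ (k i - 1) *
        (P i z * (starRingEnd ℂ) (Q i z))) 0 (R * Real.exp (-y)) :=
      (continuousOn_finsetSum _ fun i _ => hcont i).circleIntegrable'
    have e3 : circleAverage (Φ y) 0 (R * Real.exp (-y)) =
        circleAverage (fun z => y • (reCLM ∘ fun z => ∑ i, c i * (y : ℂ) ^ (k i - 1) *
          (P i z * (starRingEnd ℂ) (Q i z))) z) 0 (R * Real.exp (-y)) := by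
      apply circleAverage_congr_sphere
      intro z hz
      exact hΦ y hy0 z (RelInt_mem h0 h1 hy0 hz)
    have e5 : ∀ i, circleAverage (fun z => c i * (y : ℂ) ^ (k i - 1) *
        (P i z * (starRingEnd ℂ) (Q i z))) 0 (R * Real.exp (-y)) = c i * ((y : ℂ) ^ (k i - 1) *
        circleAverage (fun z => P i z * (starRingEnd ℂ) (Q i z)) 0 (R * Real.exp (-y))) := by
      intro i
      have e6 := circleAverage_fun_smul (a := c i * (y : ℂ) ^ (k i - 1))
        (f := fun z => P i z * (starRingEnd ℂ) (Q i z)) (c := 0) (R := R * Real.exp (-y))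
      simp only [smul_eq_mul] at e6
      rw [e6, mul_assoc]
    rw [e3, circleAverage_fun_smul, ContinuousLinearMap.circleAverage_comp_comm _ hcs,
      circleAverage_fun_sum fun i _ => hci i, smul_eq_mul, mul_div_cancel_left₀ _ hy0.ne']
    simp only [e5]
    rfl
  have hI : IntegrableOn (fun y : ℝ => ∑ i, c i * ((y : ℂ) ^ (k i - 1) *
      circleAverage (fun z => P i z * (starRingEnd ℂ) (Q i z)) 0 (R * Real.exp (-y)))) (Ioi 0) :=
    integrable_finsetSum _ fun i _ => (hint i).1.const_mul (c i)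
  have hre : IntegrableOn (fun y : ℝ => (∑ i, c i * ((y : ℂ) ^ (k i - 1) *
      circleAverage (fun z => P i z * (starRingEnd ℂ) (Q i z)) 0 (R * Real.exp (-y)))).re)
      (Ioi 0) := hI.re
  refine ⟨hre.congr_fun hpt measurableSet_Ioi, ?_⟩
  rw [← setIntegral_congr_fun measurableSet_Ioi hpt]
  have e7 : ∫ y in Ioi (0 : ℝ), (∑ i, c i * ((y : ℂ) ^ (k i - 1) *
      circleAverage (fun z => P i z * (starRingEnd ℂ) (Q i z)) 0 (R * Real.exp (-y)))).re =
      (∑ i, c i * ∫ y in Ioi (0 : ℝ), ((y : ℂ) ^ (k i - 1) *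
        circleAverage (fun z => P i z * (starRingEnd ℂ) (Q i z)) 0 (R * Real.exp (-y)))).re := by
    have e8 := reCLM.integral_comp_comm hI
    have e9 : ∫ y in Ioi (0 : ℝ), ∑ i, c i * ((y : ℂ) ^ (k i - 1) *
        circleAverage (fun z => P i z * (starRingEnd ℂ) (Q i z)) 0 (R * Real.exp (-y))) =
        ∑ i, c i * ∫ y in Ioi (0 : ℝ), ((y : ℂ) ^ (k i - 1) *
        circleAverage (fun z => P i z * (starRingEnd ℂ) (Q i z)) 0 (R * Real.exp (-y))) := by
      rw [integral_finsetSum _ fun i _ => (hint i).1.const_mul (c i)]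
      exact Finset.sum_congr rfl fun i _ => integral_const_mul _ _
    rw [e9] at e8
    exact e8
  rw [e7]
  have h9 : HasSum (fun m : ℕ => ∑ i, c i * (if m = 0 then 0 else
      α i m * (starRingEnd ℂ) (β i m) * (R : ℂ) ^ (2 * m) * ((k i - 1).factorial : ℂ) /
        (2 * m) ^ k i)) (∑ i, c i * ∫ y in Ioi (0 : ℝ), ((y : ℂ) ^ (k i - 1) *
        circleAverage (fun z => P i z * (starRingEnd ℂ) (Q i z)) 0 (R * Real.exp (-y)))) :=
    hasSum_sum fun i _ => (hint i).2.mul_left (c i)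
  exact reCLM.hasSum h9

theorem rel_int {F : ℂ → ℂ} {n : ℕ → ℂ} (hn : PS (pre F) n) {R : ℝ} (h0 : 0 < R) (h1 : R < 1)
    {a b c : ℕ} (habc : a ≠ 0 ∨ b ≠ 0 ∨ c ≠ 0) :
    IntegrableOn (fun y : ℝ => av F R (rel a b c) y / y) (Ioi 0) ∧
      ∫ y in Ioi (0 : ℝ), av F R (rel a b c) y / y = 0 := by
  have hNd : DifferentiableOn ℂ (Nh F) (ball 0 1) := ps_diff (ps_nh hn)
  have hSd : DifferentiableOn ℂ (Sh F) (ball 0 1) := ps_diff (ps_sh hn)
  have hN0 : Nh F 0 = 0 := by simp [Nh]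
  have hS0 : Sh F 0 = 0 := by simp [Sh, hN0]
  obtain ⟨α, hα⟩ := ps_exists (hNd.pow a)
  obtain ⟨β, hβ⟩ := ps_exists ((hNd.pow b).mul (hSd.pow c))
  have hα' : PS (fun z => Nh F z ^ a) α := hα
  have hβ' : PS (fun z => Nh F z ^ b * Sh F z ^ c) β := hβ
  have hD := ps_D hα'
  have h00 : α 0 = 0 ∨ β 0 = 0 := by
    have e1 := ps_zero hα'
    have e2 := ps_zero hβ'
    simp only [hN0, hS0] at e1 e2
    rcases Nat.eq_zero_or_pos a with ha | ha
    · right
      rcases habc with h | h | h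
      · exact absurd ha h
      · rw [← e2, zero_pow h, zero_mul]
      · rw [← e2, zero_pow h, mul_zero]
    · left
      rw [← e1, zero_pow ha.ne']
  have hN : 1 ≤ a + (b + 2 * c) := by omega
  obtain ⟨h2, h3⟩ := RelInt_gen
    ![I ^ (a + 1) * (starRingEnd ℂ) (I ^ (b + 2 * c)),
      ((a : ℂ) + b + 2 * c) / 2 * I ^ a * (starRingEnd ℂ) (I ^ (b + 2 * c))]
    ![fun z => I * z * deriv (fun z => Nh F z ^ a) z, fun z => Nh F z ^ a]
    ![fun z => Nh F z ^ b * Sh F z ^ c, fun z => Nh F z ^ b * Sh F z ^ c]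
    ![fun m => I * m * α m, α] ![β, β]
    ![a + (b + 2 * c) + 1, a + (b + 2 * c)]
    (by
      intro i
      fin_cases i
      · exact hD
      · exact hα')
    (by
      intro i
      fin_cases i
      · exact hβ'
      · exact hβ')
    (by
      intro i
      fin_cases i
      · left
        simp
      · exact h00)
    (by
      intro i
      fin_cases i
      · exact Nat.le_add_left _ _
      · exact hN)
    h0 h1 (fun y z => rel a b c (XX F y z) (YY F y z)) (by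
      intro y hy z hz
      have hd : DifferentiableAt ℂ (Nh F) z :=
        (hNd z hz).differentiableAt (isOpen_ball.mem_nhds hz)
      have hder : deriv (fun z => Nh F z ^ a) z = a * Nh F z ^ (a - 1) * deriv (Nh F) z := by
        have h5 := (hd.hasDerivAt.pow a).deriv
        exact h5
      rw [Fin.sum_univ_two]
      simp only [Matrix.cons_val_zero, Matrix.cons_val_one]
      rw [rel, hder]
      have hyr : ∀ w : ℂ, y * w.re = ((y : ℂ) * w).re := fun w => by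
        rw [Complex.re_ofReal_mul]
      rw [hyr]
      congr 1
      have hY : YY F y z = (I * y) ^ 2 * Sh F z := by
        rw [YY, mul_pow, I_sq]
        ring
      have hYX : YY F y z + XX F y z ^ 2 / 2 = (I * y) ^ 2 * (I * z * deriv (Nh F) z) := by
        rw [hY, XX, Sh]
        ring
      have hXY : XX F y z ^ b * YY F y z ^ c =
          I ^ (b + 2 * c) * (y : ℂ) ^ (b + 2 * c) * (Nh F z ^ b * Sh F z ^ c) := by
        rw [hY, XX]
        ring
      rw [hYX, hXY, map_mul, map_mul, map_pow (starRingEnd ℂ) (y : ℂ), Complex.conj_ofReal, XX]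
      rcases a with _ | a
      · obtain ⟨M, hM⟩ : ∃ M, b + 2 * c = M + 1 := ⟨b + 2 * c - 1, by omega⟩
        rw [hM]
        simp only [Nat.cast_zero, zero_mul, zero_add, mul_zero, pow_zero, Nat.add_sub_cancel]
        ring
      · obtain ⟨M, hM⟩ : ∃ M, b + 2 * c = M := ⟨b + 2 * c, rfl⟩
        rw [hM]
        have e1 : a + 1 + M + 1 - 1 = a + 1 + M := by omega
        have e2 : a + 1 + M - 1 = a + M := by omega
        rw [e1, e2, Nat.add_sub_cancel]
        push_cast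
        ring)
  refine ⟨h2, ?_⟩
  refine h3.unique ?_
  have hz : (fun m : ℕ => (∑ i : Fin 2, ![I ^ (a + 1) * (starRingEnd ℂ) (I ^ (b + 2 * c)),
      ((a : ℂ) + b + 2 * c) / 2 * I ^ a * (starRingEnd ℂ) (I ^ (b + 2 * c))] i *
      (if m = 0 then 0 else ![fun m => I * m * α m, α] i m * (starRingEnd ℂ) (![β, β] i m) *
        (R : ℂ) ^ (2 * m) * ((![a + (b + 2 * c) + 1, a + (b + 2 * c)] i - 1).factorial : ℂ) /
            (2 * m) ^ ![a + (b + 2 * c) + 1, a + (b + 2 * c)] i)).re) = fun _ => 0 := by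
    funext m
    by_cases hm : m = 0
    · simp [hm]
    · rw [Fin.sum_univ_two]
      simp only [Matrix.cons_val_zero, Matrix.cons_val_one, if_neg hm]
      obtain ⟨M, hM⟩ : ∃ M, a + (b + 2 * c) = M + 1 := ⟨a + (b + 2 * c) - 1, by omega⟩
      have hM' : (a : ℂ) + b + 2 * c = M + 1 := by
        have e1 : ((a + (b + 2 * c) : ℕ) : ℂ) = ((M + 1 : ℕ) : ℂ) := by rw [hM]
        push_cast at e1
        rw [← e1]
        ring
      rw [hM, hM', Nat.add_sub_cancel, Nat.add_sub_cancel, Nat.factorial_succ]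
      have hm' : (m : ℂ) ≠ 0 := Nat.cast_ne_zero.2 hm
      have e2 : I ^ (a + 1) * (starRingEnd ℂ) (I ^ (b + 2 * c)) *
          (I * m * α m * (starRingEnd ℂ) (β m) * (R : ℂ) ^ (2 * m) *
            (((M + 1) * M.factorial : ℕ) : ℂ) / (2 * m) ^ (M + 1 + 1)) =
          -(((M : ℂ) + 1) / 2 * I ^ a * (starRingEnd ℂ) (I ^ (b + 2 * c)) *
            (α m * (starRingEnd ℂ) (β m) * (R : ℂ) ^ (2 * m) * (M.factorial : ℂ) /
              (2 * m) ^ (M + 1))) := by
        push_cast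
        have e3 : I ^ (a + 1) * I = -(I ^ a) := by
          rw [pow_succ, mul_assoc, I_mul_I]
          ring
        calc _ = (I ^ (a + 1) * I) * ((starRingEnd ℂ) (I ^ (b + 2 * c)) * (m * α m *
            (starRingEnd ℂ) (β m) * (R : ℂ) ^ (2 * m) * ((M + 1) * M.factorial) /
              (2 * m) ^ (M + 1 + 1))) := by ring
          _ = _ := by
            rw [e3]
            field_simp
            ring
      rw [e2, neg_add_cancel, Complex.zero_re]
  rw [hz]
  exact hasSum_zero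

private theorem RelInt_nu0 (n : ℕ → ℂ) : nu n 0 = 0 := if_pos rfl

private theorem RelInt_sq (w : ℂ) : (w * (starRingEnd ℂ) w).re = ‖w‖ ^ 2 := by
  rw [Complex.mul_conj, Complex.ofReal_re, Complex.normSq_eq_norm_sq]

private theorem RelInt_gs (n : ℕ → ℂ) (m : ℕ) :
    ‖nu n (m + 1)‖ ^ 2 = ((m : ℝ) + 1) ^ 2 * ‖gs n (m + 1)‖ ^ 2 := by
  have h1 : ‖nu n (m + 1)‖ = ((m : ℝ) + 1) * ‖gs n (m + 1)‖ := by
    rw [nu, if_neg (Nat.succ_ne_zero m), gs, norm_mul, norm_I, one_mul, norm_div,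
      Nat.add_sub_cancel]
    have h2 : ‖((m + 1 : ℕ) : ℂ)‖ = (m : ℝ) + 1 := by
      rw [Complex.norm_natCast]
      push_cast
      rfl
    rw [h2]
    field_simp
  rw [h1]
  ring

/-- drop the term `m = 0` -/
private theorem RelInt_shift {f : ℕ → ℝ} {S : ℝ} (h : HasSum f S) (h0 : f 0 = 0) :
    HasSum (fun m => f (m + 1)) S := by
  have h1 := (hasSum_nat_add_iff (f := f) (g := S) 1).2
  rw [Finset.sum_range_one, h0, add_zero] at h1
  exact h1 h

private theorem RelInt_XX (F : ℂ → ℂ) (y : ℝ) (z : ℂ) :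
    ‖XX F y z‖ ^ 2 = y ^ 2 * ‖Nh F z‖ ^ 2 := by
  rw [XX, norm_mul, norm_mul, norm_I, one_mul, mul_pow, Complex.norm_real, norm_eq_abs, sq_abs]

private theorem RelInt_YY (F : ℂ → ℂ) (y : ℝ) (z : ℂ) :
    ‖YY F y z‖ ^ 2 = y ^ 4 * ‖Sh F z‖ ^ 2 := by
  rw [YY, norm_mul, norm_neg, norm_pow, Complex.norm_real, mul_pow, norm_eq_abs, sq_abs]
  ring

theorem x_int {F : ℂ → ℂ} {n : ℕ → ℂ} (hn : PS (pre F) n) {R : ℝ} (h0 : 0 < R) (h1 : R < 1) :
    IntegrableOn (fun y : ℝ => av F R (fun X _ => ‖X‖ ^ 2) y / y) (Ioi 0) ∧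
      HasSum (fun m : ℕ => ‖gs n (m + 1)‖ ^ 2 / 4 * R ^ (2 * (m + 1)))
        (∫ y in Ioi (0 : ℝ), av F R (fun X _ => ‖X‖ ^ 2) y / y) := by
  obtain ⟨h2, h3⟩ := RelInt_gen (ι := Unit) (fun _ => 1) (fun _ => Nh F) (fun _ => Nh F)
    (fun _ => nu n) (fun _ => nu n) (fun _ => 2) (fun _ => ps_nh hn) (fun _ => ps_nh hn)
    (fun _ => Or.inl (RelInt_nu0 n)) (fun _ => one_le_two) h0 h1
    (fun y z => ‖XX F y z‖ ^ 2) (by
      intro y hy z hz
      rw [Fintype.sum_unique, RelInt_XX]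
      have e1 : (1 : ℂ) * (y : ℂ) ^ (2 - 1) * (Nh F z * (starRingEnd ℂ) (Nh F z)) =
          (y : ℂ) * (Nh F z * (starRingEnd ℂ) (Nh F z)) := by
        rw [one_mul, pow_one]
      rw [e1, Complex.re_ofReal_mul, RelInt_sq]
      ring)
  refine ⟨h2, ?_⟩
  have h4 := RelInt_shift h3 (by simp)
  refine Eq.mp (congrArg (fun f => HasSum f _) (funext fun m => ?_)) h4
  rw [Fintype.sum_unique, if_neg (Nat.succ_ne_zero m), one_mul]
  have e2 : nu n (m + 1) * (starRingEnd ℂ) (nu n (m + 1)) * (R : ℂ) ^ (2 * (m + 1)) *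
      ((2 - 1).factorial : ℂ) / (2 * ((m + 1 : ℕ) : ℂ)) ^ 2 =
      ((R ^ (2 * (m + 1)) / (2 * (m + 1)) ^ 2 : ℝ) : ℂ) *
        (nu n (m + 1) * (starRingEnd ℂ) (nu n (m + 1))) := by
    push_cast
    simp only [Nat.factorial, Nat.cast_one]
    ring
  rw [e2, Complex.re_ofReal_mul, RelInt_sq, RelInt_gs]
  field_simp
  ring

theorem en_int {F : ℂ → ℂ} {n : ℕ → ℂ} (hn : PS (pre F) n) {R : ℝ} (h0 : 0 < R) (h1 : R < 1) :
    IntegrableOn (fun y : ℝ => av F R en1 y / y) (Ioi 0) ∧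
      HasSum (fun m : ℕ => R ^ (2 * (m + 1)) * jt n (m + 1))
        (∫ y in Ioi (0 : ℝ), av F R en1 y / y) := by
  have hq : PS (fun z => Nh F z * Nh F z) (qa n) := ps_mul (ps_nh hn) (ps_nh hn)
  have hs : PS (fun z => Sh F z * Sh F z) (qq n) := ps_mul (ps_sh hn) (ps_sh hn)
  have hq0 : qa n 0 = 0 := by simp [qa, cv, RelInt_nu0]
  have hs0 : qq n 0 = 0 := by simp [qq, cv, si, hq0, RelInt_nu0]
  obtain ⟨h2, h3⟩ := RelInt_gen
    ![2, 14 / 3, 28 / 5, 56 / 45]
    ![Nh F, fun z => Nh F z * Nh F z, fun z => Nh F z * Nh F z, fun z => Sh F z * Sh F z]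
    ![Nh F, fun z => Nh F z * Nh F z, fun z => Sh F z * Sh F z, fun z => Sh F z * Sh F z]
    ![nu n, qa n, qa n, qq n] ![nu n, qa n, qq n, qq n]
    ![2, 4, 6, 8]
    (by
      intro i
      fin_cases i
      · exact ps_nh hn
      · exact hq
      · exact hq
      · exact hs)
    (by
      intro i
      fin_cases i
      · exact ps_nh hn
      · exact hq
      · exact hs
      · exact hs)
    (by
      intro i
      left
      fin_cases i
      · exact RelInt_nu0 n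
      · exact hq0
      · exact hq0
      · exact hs0)
    (by
      intro i
      fin_cases i <;> simp)
    h0 h1 (fun y z => en1 (XX F y z) (YY F y z)) (by
      intro y hy z hz
      rw [Fin.sum_univ_four]
      simp only [Matrix.cons_val_zero, Matrix.cons_val_one, Matrix.cons_val]
      set N := Nh F z with hNdef
      set S := Sh F z with hSdef
      have g1 : (2 : ℂ) * (y : ℂ) ^ (2 - 1) * (N * (starRingEnd ℂ) N) =
          ((2 * y : ℝ) : ℂ) * (N * (starRingEnd ℂ) N) := by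
        push_cast
        ring
      have g2 : (14 / 3 : ℂ) * (y : ℂ) ^ (4 - 1) * (N * N * (starRingEnd ℂ) (N * N)) =
          ((14 / 3 * y ^ 3 : ℝ) : ℂ) * (N * N * (starRingEnd ℂ) (N * N)) := by
        push_cast
        ring
      have g3 : (28 / 5 : ℂ) * (y : ℂ) ^ (6 - 1) * (N * N * (starRingEnd ℂ) (S * S)) =
          ((28 / 5 * y ^ 5 : ℝ) : ℂ) * (N * N * (starRingEnd ℂ) (S * S)) := by
        push_cast
        ring
      have g4 : (56 / 45 : ℂ) * (y : ℂ) ^ (8 - 1) * (S * S * (starRingEnd ℂ) (S * S)) =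
          ((56 / 45 * y ^ 7 : ℝ) : ℂ) * (S * S * (starRingEnd ℂ) (S * S)) := by
        push_cast
        ring
      have g5 : XX F y z ^ 2 * (starRingEnd ℂ) (YY F y z ^ 2) =
          ((-(y ^ 6) : ℝ) : ℂ) * (N * N * (starRingEnd ℂ) (S * S)) := by
        rw [XX, YY, ← hNdef, ← hSdef]
        simp only [map_pow, map_mul, map_neg, Complex.conj_ofReal, mul_pow, I_sq]
        push_cast
        ring
      have g6 : ‖XX F y z‖ ^ 4 = y ^ 4 * ‖N‖ ^ 4 := by
        have e1 : ‖XX F y z‖ ^ 4 = (‖XX F y z‖ ^ 2) ^ 2 := by ring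
        rw [e1, RelInt_XX]
        ring
      have g7 : ‖YY F y z‖ ^ 4 = y ^ 8 * ‖S‖ ^ 4 := by
        have e1 : ‖YY F y z‖ ^ 4 = (‖YY F y z‖ ^ 2) ^ 2 := by ring
        rw [e1, RelInt_YY]
        ring
      rw [en1, g1, g2, g3, g4, g5, g6, g7, RelInt_XX, Complex.add_re, Complex.add_re,
        Complex.add_re, Complex.re_ofReal_mul, Complex.re_ofReal_mul, Complex.re_ofReal_mul,
        Complex.re_ofReal_mul, Complex.re_ofReal_mul, RelInt_sq, RelInt_sq, RelInt_sq, norm_mul,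
        norm_mul]
      ring)
  refine ⟨h2, ?_⟩
  have h4 := RelInt_shift h3 (by simp)
  refine Eq.mp (congrArg (fun f => HasSum f _) (funext fun m => ?_)) h4
  rw [Fin.sum_univ_four]
  simp only [Matrix.cons_val_zero, Matrix.cons_val_one, Matrix.cons_val,
    if_neg (Nat.succ_ne_zero m)]
  have k1 : (2 : ℂ) * (nu n (m + 1) * (starRingEnd ℂ) (nu n (m + 1)) * (R : ℂ) ^ (2 * (m + 1)) *
      ((2 - 1).factorial : ℂ) / (2 * ((m + 1 : ℕ) : ℂ)) ^ 2) =
      ((2 * R ^ (2 * (m + 1)) / (2 * (m + 1)) ^ 2 : ℝ) : ℂ) *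
        (nu n (m + 1) * (starRingEnd ℂ) (nu n (m + 1))) := by
    have e1 : ((2 - 1).factorial : ℂ) = 1 := by norm_num [Nat.factorial]
    rw [e1]
    push_cast
    ring
  have k2 : (14 / 3 : ℂ) * (qa n (m + 1) * (starRingEnd ℂ) (qa n (m + 1)) *
      (R : ℂ) ^ (2 * (m + 1)) * ((4 - 1).factorial : ℂ) / (2 * ((m + 1 : ℕ) : ℂ)) ^ 4) =
      ((28 * R ^ (2 * (m + 1)) / (2 * (m + 1)) ^ 4 : ℝ) : ℂ) *
        (qa n (m + 1) * (starRingEnd ℂ) (qa n (m + 1))) := by
    have e1 : ((4 - 1).factorial : ℂ) = 6 := by norm_num [Nat.factorial]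
    rw [e1]
    push_cast
    ring
  have k3 : (28 / 5 : ℂ) * (qa n (m + 1) * (starRingEnd ℂ) (qq n (m + 1)) *
      (R : ℂ) ^ (2 * (m + 1)) * ((6 - 1).factorial : ℂ) / (2 * ((m + 1 : ℕ) : ℂ)) ^ 6) =
      ((672 * R ^ (2 * (m + 1)) / (2 * (m + 1)) ^ 6 : ℝ) : ℂ) *
        (qa n (m + 1) * (starRingEnd ℂ) (qq n (m + 1))) := by
    have e1 : ((6 - 1).factorial : ℂ) = 120 := by norm_num [Nat.factorial]
    rw [e1]
    push_cast
    ring
  have k4 : (56 / 45 : ℂ) * (qq n (m + 1) * (starRingEnd ℂ) (qq n (m + 1)) *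
      (R : ℂ) ^ (2 * (m + 1)) * ((8 - 1).factorial : ℂ) / (2 * ((m + 1 : ℕ) : ℂ)) ^ 8) =
      ((6272 * R ^ (2 * (m + 1)) / (2 * (m + 1)) ^ 8 : ℝ) : ℂ) *
        (qq n (m + 1) * (starRingEnd ℂ) (qq n (m + 1))) := by
    have e1 : ((8 - 1).factorial : ℂ) = 5040 := by norm_num [Nat.factorial]
    rw [e1]
    push_cast
    ring
  rw [k1, k2, k3, k4, Complex.add_re, Complex.add_re,
    Complex.add_re, Complex.re_ofReal_mul, Complex.re_ofReal_mul, Complex.re_ofReal_mul,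
    Complex.re_ofReal_mul, RelInt_sq, RelInt_sq, RelInt_sq, RelInt_gs, jt]
  push_cast
  field_simp
  ring

end Pool.Agent.Helper21.IM
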