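import Pool.Agent.Helper21.IM.Cert
import Pool.Agent.Helper21.IM.RelInt

/-!
# IM-TI: lower bound for the integral of the certificate

`tt X Y = lam en1 X Y - ‖X‖² + relsum X Y`, so `cert` says `tt X Y ≥ - (3449/10000 - lam)`.
`loc_bound`: every monomial of `tt` has positive degree.
`t_int`: for `‖z‖ = R e^{-y}`: `‖XX‖ ≤ 7 y ‖z‖/(1-‖z‖)`, `‖YY‖ ≤ 60 y² ‖z‖/(1-‖z‖)²` (`nh_bound`, `sh_bound`).
Split `(0, ∞)` at `1 - R` and `1` (`R ≥ 1/2`).  For `y ≤ 1 - R`: `‖XX‖ ≤ 7 y/(1-R) ≤ 7`,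
`‖YY‖ ≤ 60 (y/(1-R))² ≤ 60`, so by `loc_bound` the part of the integral is at least `- K (7 + 30)`.
For `y ≥ 1`: `‖z‖ ≤ e^{-y}`, `1 - ‖z‖ ≥ 1/2`: `‖XX‖ ≤ 14 y e^{-y} ≤ 14`, `‖YY‖ ≤ 240 y² e^{-y} ≤ 240`, and the
part is at least `- K ∫_1^∞ (14 e^{-y} + 240 y e^{-y}) dy`.  For `1 - R < y < 1` the average of `tt` is
at least `-(3449/10000 - lam)` and `∫ dy/y = log (1/(1-R))`.
Integrability of `av F R tt y / y`: `en_int`, `x_int`, `rel_int`.
-/

set_option autoImplicit false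

namespace Pool.Agent.Helper21.IM

open Complex Metric Set Real Finset MeasureTheory

/-- the certificate without its constant term -/
noncomputable def tt (X Y : ℂ) : ℝ := lam * en1 X Y - ‖X‖ ^ 2 + relsum X Y

private theorem TInt_smooth (a b c : ℕ) :
    ContDiff ℝ 1 (fun p : ℂ × ℂ => rel a b c p.1 p.2) := by
  have h1 : ContDiff ℝ 1 (fun p : ℂ × ℂ => p.1) := contDiff_fst
  have h2 : ContDiff ℝ 1 (fun p : ℂ × ℂ => p.2) := contDiff_snd
  have hc : ∀ f : ℂ × ℂ → ℂ, ContDiff ℝ 1 f → ContDiff ℝ 1 (fun p => (starRingEnd ℂ) (f p)) :=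
    fun f hf => Complex.conjCLE.contDiff.comp hf
  have hr : ∀ f : ℂ × ℂ → ℂ, ContDiff ℝ 1 f → ContDiff ℝ 1 (fun p => (f p).re) :=
    fun f hf => Complex.reCLM.contDiff.comp hf
  unfold rel
  refine hr _ (ContDiff.mul ?_ (hc _ ((h1.pow b).mul (h2.pow c))))
  exact ((contDiff_const.mul (h1.pow _)).mul (h2.add ((h1.pow 2).div_const 2))).add
    (contDiff_const.mul (h1.pow a))

/-- the list of the relations with their coefficients -/
private noncomputable def TInt_L : List (ℝ × ℕ × ℕ × ℕ) :=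
  [(2497/50000, 0, 2, 0), (-17099/50000, 1, 0, 1), (-859/4000, 1, 1, 0), (-14381/100000, 1, 2, 0),
    (-199563/800000, 1, 3, 0), (133/200, 2, 0, 2), (-1529/25000, 2, 1, 0),
    (474769/400000, 2, 1, 1), (246569/480000, 2, 3, 0), (50783/150000, 2, 4, 0),
    (1097/9375, 3, 0, 2), (2599/11250, 3, 1, 1), (15257/75000, 3, 2, 0), (9213/50000, 3, 2, 1),
    (58883/100000, 3, 3, 0), (56341/300000, 3, 4, 0)]

/-- the sum over a list of relations -/
private noncomputable def TInt_S (l : List (ℝ × ℕ × ℕ × ℕ)) (X Y : ℂ) : ℝ :=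
  (l.map fun q => q.1 * rel q.2.1 q.2.2.1 q.2.2.2 X Y).sum

private theorem TInt_rel : relsum = TInt_S TInt_L := by
  funext X Y
  simp only [relsum, TInt_S, TInt_L, List.map_cons, List.map_nil, List.sum_cons, List.sum_nil]
  ring

private theorem TInt_ne : ∀ q ∈ TInt_L, q.2.1 ≠ 0 ∨ q.2.2.1 ≠ 0 ∨ q.2.2.2 ≠ 0 := by
  simp [TInt_L]

private theorem TInt_S_smooth (l : List (ℝ × ℕ × ℕ × ℕ)) :
    ContDiff ℝ 1 (fun p : ℂ × ℂ => TInt_S l p.1 p.2) := by
  induction l with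
  | nil => exact contDiff_const
  | cons q l ih => exact (contDiff_const.mul (TInt_smooth _ _ _)).add ih

private theorem TInt_norm_smooth {f : ℂ × ℂ → ℂ} (hf : ContDiff ℝ 1 f) :
    ContDiff ℝ 1 (fun p => ‖f p‖ ^ 2) := hf.norm_sq ℝ

private theorem TInt_en_smooth : ContDiff ℝ 1 (fun p : ℂ × ℂ => en1 p.1 p.2) := by
  have h1 : ContDiff ℝ 1 (fun p : ℂ × ℂ => p.1) := contDiff_fst
  have h2 : ContDiff ℝ 1 (fun p : ℂ × ℂ => p.2) := contDiff_snd
  have hc : ∀ f : ℂ × ℂ → ℂ, ContDiff ℝ 1 f → ContDiff ℝ 1 (fun p => (starRingEnd ℂ) (f p)) :=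
    fun f hf => Complex.conjCLE.contDiff.comp hf
  have hr : ∀ f : ℂ × ℂ → ℂ, ContDiff ℝ 1 f → ContDiff ℝ 1 (fun p => (f p).re) :=
    fun f hf => Complex.reCLM.contDiff.comp hf
  have e : (fun p : ℂ × ℂ => en1 p.1 p.2) = fun p : ℂ × ℂ => 2 * ‖p.1‖ ^ 2 +
      14 / 3 * (‖p.1‖ ^ 2) ^ 2 - 28 / 5 * (p.1 ^ 2 * (starRingEnd ℂ) (p.2 ^ 2)).re +
      56 / 45 * (‖p.2‖ ^ 2) ^ 2 := by
    funext p
    unfold en1
    ring
  rw [e]
  have g1 := TInt_norm_smooth h1
  have g2 := TInt_norm_smooth h2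
  exact (((contDiff_const.mul g1).add (contDiff_const.mul (g1.pow 2))).sub
    (contDiff_const.mul (hr _ ((h1.pow 2).mul (hc _ (h2.pow 2)))))).add
      (contDiff_const.mul (g2.pow 2))

private theorem TInt_tt_smooth : ContDiff ℝ 1 (fun p : ℂ × ℂ => tt p.1 p.2) := by
  have h1 : ContDiff ℝ 1 (fun p : ℂ × ℂ => p.1) := contDiff_fst
  unfold tt
  rw [TInt_rel]
  exact ((contDiff_const.mul TInt_en_smooth).sub (TInt_norm_smooth h1)).add (TInt_S_smooth _)

private theorem TInt_tt_zero : tt 0 0 = 0 := by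
  simp [tt, en1, relsum, rel]

theorem loc_bound : ∃ K : ℝ, 0 ≤ K ∧ ∀ X Y : ℂ, ‖X‖ ≤ 240 → ‖Y‖ ≤ 240 →
    |tt X Y| ≤ K * (‖X‖ + ‖Y‖) := by
  obtain ⟨K, hK⟩ := LocallyLipschitzOn.exists_lipschitzOnWith_of_compact
    (isCompact_closedBall (0 : ℂ × ℂ) 240)
    (TInt_tt_smooth.locallyLipschitz.locallyLipschitzOn (s := closedBall (0 : ℂ × ℂ) 240))
  refine ⟨K, K.2, fun X Y hX hY => ?_⟩
  have hm : ((X, Y) : ℂ × ℂ) ∈ closedBall (0 : ℂ × ℂ) 240 := by
    rw [mem_closedBall_zero_iff, Prod.norm_def]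
    exact max_le hX hY
  have h0 : (0 : ℂ × ℂ) ∈ closedBall (0 : ℂ × ℂ) 240 := by
    rw [mem_closedBall_zero_iff, norm_zero]
    norm_num
  have h1 := hK.dist_le_mul _ hm _ h0
  rw [Real.dist_eq, dist_zero_right] at h1
  have h2 : tt (0 : ℂ × ℂ).1 (0 : ℂ × ℂ).2 = 0 := TInt_tt_zero
  rw [h2, sub_zero] at h1
  refine h1.trans (mul_le_mul_of_nonneg_left ?_ K.2)
  rw [Prod.norm_def]
  exact max_le (le_add_of_nonneg_right (norm_nonneg _)) (le_add_of_nonneg_left (norm_nonneg _))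

private theorem TInt_mem {R : ℝ} (h0 : 0 < R) (h1 : R < 1) {y : ℝ} (hy : 0 < y) {z : ℂ}
    (hz : z ∈ sphere (0 : ℂ) |R * Real.exp (-y)|) :
    z ∈ ball (0 : ℂ) 1 ∧ ‖z‖ = R * Real.exp (-y) := by
  rw [mem_sphere_zero_iff_norm, abs_of_pos (by positivity)] at hz
  rw [mem_ball_zero_iff, hz]
  have h2 : Real.exp (-y) < 1 := by
    rw [Real.exp_lt_one_iff]
    linarith
  have h3 : 0 < Real.exp (-y) := Real.exp_pos _
  exact ⟨by nlinarith, rfl⟩

private theorem TInt_ci {F : ℂ → ℂ} {n : ℕ → ℂ} (hn : PS (pre F) n) {R : ℝ} (h0 : 0 < R)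
    (h1 : R < 1) {y : ℝ} (hy : 0 < y) {Φ : ℂ → ℂ → ℝ}
    (hΦ : Continuous (fun p : ℂ × ℂ => Φ p.1 p.2)) :
    CircleIntegrable (fun z => Φ (XX F y z) (YY F y z)) 0 (R * Real.exp (-y)) := by
  have e1 : ContinuousOn (Nh F) (sphere (0 : ℂ) |R * Real.exp (-y)|) :=
    (ps_diff (ps_nh hn)).continuousOn.mono fun z hz => (TInt_mem h0 h1 hy hz).1
  have e2 : ContinuousOn (Sh F) (sphere (0 : ℂ) |R * Real.exp (-y)|) :=
    (ps_diff (ps_sh hn)).continuousOn.mono fun z hz => (TInt_mem h0 h1 hy hz).1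
  have e3 : ContinuousOn (fun z => ((XX F y z, YY F y z) : ℂ × ℂ))
      (sphere (0 : ℂ) |R * Real.exp (-y)|) :=
    (continuousOn_const.mul e1).prodMk (continuousOn_const.mul e2)
  exact (hΦ.comp_continuousOn e3).circleIntegrable'

private theorem TInt_add {F : ℂ → ℂ} {n : ℕ → ℂ} (hn : PS (pre F) n) {R : ℝ} (h0 : 0 < R)
    (h1 : R < 1) {y : ℝ} (hy : 0 < y) {Φ Ψ : ℂ → ℂ → ℝ}
    (hΦ : Continuous (fun p : ℂ × ℂ => Φ p.1 p.2)) (hΨ : Continuous (fun p : ℂ × ℂ => Ψ p.1 p.2))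
    (c : ℝ) :
    av F R (fun X Y => c * Φ X Y + Ψ X Y) y = c * av F R Φ y + av F R Ψ y := by
  have e1 := TInt_ci hn h0 h1 hy hΦ
  have e2 := TInt_ci hn h0 h1 hy hΨ
  have e3 : CircleIntegrable (fun z => c * Φ (XX F y z) (YY F y z)) 0 (R * Real.exp (-y)) :=
    e1.const_fun_smul (a := c)
  have e4 := circleAverage_fun_add e3 e2
  refine (show av F R (fun X Y => c * Φ X Y + Ψ X Y) y = _ from e4).trans ?_
  have e5 := circleAverage_fun_smul (a := c) (f := fun z => Φ (XX F y z) (YY F y z)) (c := 0)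
    (R := R * Real.exp (-y))
  simp only [smul_eq_mul] at e5
  rw [e5]
  rfl

private theorem TInt_list {F : ℂ → ℂ} {n : ℕ → ℂ} (hn : PS (pre F) n) {R : ℝ} (h0 : 0 < R)
    (h1 : R < 1) (l : List (ℝ × ℕ × ℕ × ℕ))
    (hl : ∀ q ∈ l, q.2.1 ≠ 0 ∨ q.2.2.1 ≠ 0 ∨ q.2.2.2 ≠ 0) :
    IntegrableOn (fun y : ℝ => av F R (TInt_S l) y / y) (Ioi 0) ∧
      ∫ y in Ioi (0 : ℝ), av F R (TInt_S l) y / y = 0 := by
  induction l with
  | nil =>
    have e : ∀ y : ℝ, av F R (TInt_S []) y / y = 0 := by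
      intro y
      have : av F R (TInt_S []) y = 0 := circleAverage_const (0 : ℝ) 0 _
      rw [this, zero_div]
    simp only [e]
    exact ⟨integrableOn_zero, by simp⟩
  | cons q l ih =>
    obtain ⟨i1, i2⟩ := ih fun r hr => hl r (List.mem_cons_of_mem _ hr)
    obtain ⟨r1, r2⟩ := rel_int hn h0 h1 (hl q List.mem_cons_self)
    have e : ∀ y ∈ Ioi (0 : ℝ), q.1 * (av F R (rel q.2.1 q.2.2.1 q.2.2.2) y / y) +
        av F R (TInt_S l) y / y = av F R (TInt_S (q :: l)) y / y := by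
      intro y hy
      have hy0 : (0 : ℝ) < y := hy
      have e1 : TInt_S (q :: l) = fun X Y => q.1 * rel q.2.1 q.2.2.1 q.2.2.2 X Y +
          TInt_S l X Y := rfl
      rw [e1, TInt_add hn h0 h1 hy0 (TInt_smooth _ _ _).continuous (TInt_S_smooth l).continuous]
      ring
    have e3 : IntegrableOn (fun y : ℝ => q.1 * (av F R (rel q.2.1 q.2.2.1 q.2.2.2) y / y) +
        av F R (TInt_S l) y / y) (Ioi 0) := (r1.const_mul q.1).add i1
    refine ⟨e3.congr_fun e measurableSet_Ioi, ?_⟩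
    rw [← setIntegral_congr_fun measurableSet_Ioi e, integral_add (r1.const_mul q.1) i1, i2,
      integral_const_mul, r2, mul_zero, add_zero]

/-- the integral of `tt` -/
theorem tt_int {F : ℂ → ℂ} {n : ℕ → ℂ} (hn : PS (pre F) n) {R : ℝ} (h0 : 0 < R) (h1 : R < 1) :
    IntegrableOn (fun y : ℝ => av F R tt y / y) (Ioi 0) ∧
      ∫ y in Ioi (0 : ℝ), av F R tt y / y =
        lam * (∫ y in Ioi (0 : ℝ), av F R en1 y / y) -
          ∫ y in Ioi (0 : ℝ), av F R (fun X _ => ‖X‖ ^ 2) y / y := by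
  obtain ⟨l1, l2⟩ := TInt_list hn h0 h1 TInt_L TInt_ne
  obtain ⟨n1, -⟩ := en_int hn h0 h1
  obtain ⟨x1, -⟩ := x_int hn h0 h1
  have hX : Continuous (fun p : ℂ × ℂ => (fun (X _ : ℂ) => ‖X‖ ^ 2) p.1 p.2) :=
    (TInt_norm_smooth contDiff_fst).continuous
  have e : ∀ y ∈ Ioi (0 : ℝ), lam * (av F R en1 y / y) +
      ((-1) * (av F R (fun X _ => ‖X‖ ^ 2) y / y) + av F R (TInt_S TInt_L) y / y) =
        av F R tt y / y := by
    intro y hy
    have hy0 : (0 : ℝ) < y := hy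
    have e1 : tt = fun X Y => lam * en1 X Y + ((fun X Y => (-1) * (fun (X _ : ℂ) => ‖X‖ ^ 2) X Y +
        TInt_S TInt_L X Y) X Y) := by
      funext X Y
      rw [tt, TInt_rel]
      ring
    rw [e1, TInt_add hn h0 h1 hy0 TInt_en_smooth.continuous
      ((continuous_const.mul hX).add (TInt_S_smooth _).continuous),
      TInt_add hn h0 h1 hy0 hX (TInt_S_smooth _).continuous]
    ring
  have i1 : IntegrableOn (fun y : ℝ => lam * (av F R en1 y / y)) (Ioi 0) := n1.const_mul lam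
  have i2 : IntegrableOn (fun y : ℝ => (-1) * (av F R (fun X _ => ‖X‖ ^ 2) y / y)) (Ioi 0) :=
    x1.const_mul (-1)
  have i3 : IntegrableOn (fun y : ℝ => (-1) * (av F R (fun X _ => ‖X‖ ^ 2) y / y) +
      av F R (TInt_S TInt_L) y / y) (Ioi 0) := i2.add l1
  refine ⟨IntegrableOn.congr_fun (i1.add i3) e measurableSet_Ioi, ?_⟩
  rw [← setIntegral_congr_fun measurableSet_Ioi e, integral_add i1 i3, integral_add i2 l1,
    integral_const_mul, integral_const_mul, l2]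
  ring

private theorem TInt_low {F : ℂ → ℂ} {n : ℕ → ℂ} (hn : PS (pre F) n) {R : ℝ} (h0 : 0 < R)
    (h1 : R < 1) {y : ℝ} (hy : 0 < y) (a : ℝ)
    (h : ∀ z ∈ ball (0 : ℂ) 1, ‖z‖ = R * Real.exp (-y) → a ≤ tt (XX F y z) (YY F y z)) :
    a ≤ av F R tt y := by
  unfold av
  have h2 := circleAverage_mono (circleIntegrable_const a 0 (R * Real.exp (-y)))
    (TInt_ci hn h0 h1 hy TInt_tt_smooth.continuous)
    (fun z hz => h z (TInt_mem h0 h1 hy hz).1 (TInt_mem h0 h1 hy hz).2)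
  rwa [circleAverage_const] at h2

private theorem TInt_XX {F : ℂ → ℂ} (hF : Sch F) {y : ℝ} (hy : 0 < y) {z : ℂ}
    (hz : z ∈ ball (0 : ℂ) 1) {r s : ℝ} (hr : ‖z‖ ≤ r) (hs : 0 < s) (hsz : s ≤ 1 - ‖z‖) :
    ‖XX F y z‖ ≤ 7 * y * r / s ∧ ‖YY F y z‖ ≤ 60 * y ^ 2 * r / s ^ 2 := by
  have hz0 : 0 ≤ ‖z‖ := norm_nonneg z
  have hr0 : 0 ≤ r := hz0.trans hr
  constructor
  · have h1 := nh_bound hF hz
    rw [XX, norm_mul, norm_mul, norm_I, one_mul, Complex.norm_real, Real.norm_eq_abs,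
      abs_of_pos hy]
    calc y * ‖Nh F z‖ ≤ y * (7 * ‖z‖ / (1 - ‖z‖)) := by gcongr
      _ ≤ y * (7 * r / s) := by gcongr
      _ = 7 * y * r / s := by ring
  · have h1 := sh_bound hF hz
    rw [YY, norm_mul, norm_neg, norm_pow, Complex.norm_real, Real.norm_eq_abs, abs_of_pos hy]
    calc y ^ 2 * ‖Sh F z‖ ≤ y ^ 2 * (60 * ‖z‖ / (1 - ‖z‖) ^ 2) := by gcongr
      _ ≤ y ^ 2 * (60 * r / s ^ 2) := by gcongr
      _ = 60 * y ^ 2 * r / s ^ 2 := by ring

theorem t_int : ∃ K : ℝ, ∀ F : ℂ → ℂ, Sch F → ∀ R ∈ Ico (1 / 2 : ℝ) 1,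
    - (3449 / 10000 - lam) * Real.log (1 / (1 - R)) - K ≤
      ∫ y in Ioi (0 : ℝ), av F R tt y / y := by
  obtain ⟨K, hK0, hK⟩ := loc_bound
  refine ⟨67 * K + 508 * K, fun F hF R hR => ?_⟩
  have h0 : 0 < R := by linarith [hR.1]
  have h1 : R < 1 := hR.2
  have hd : 0 < 1 - R := by linarith
  have hpre : DifferentiableOn ℂ (pre F) (ball 0 1) := by
    have g1 : DifferentiableOn ℂ (deriv F) (ball 0 1) := hF.an.deriv isOpen_ball
    have g2 : DifferentiableOn ℂ (deriv (deriv F)) (ball 0 1) := g1.deriv isOpen_ball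
    exact g2.div g1 fun z hz => deriv_ne isOpen_ball hF.an hF.inj hz
  obtain ⟨n, hn⟩ := ps_exists hpre
  obtain ⟨t1, -⟩ := tt_int hn h0 h1
  -- the three ranges
  have A1 : ∀ y ∈ Ioc (0 : ℝ) (1 - R), -(67 * K) / (1 - R) ≤ av F R tt y / y := by
    intro y hy
    have hy0 : 0 < y := hy.1
    have hy1 : y / (1 - R) ≤ 1 := by
      rw [div_le_one hd]
      exact hy.2
    have hy2 : 0 ≤ y / (1 - R) := by positivity
    have h2 := TInt_low hn h0 h1 hy0 (-(67 * K) / (1 - R) * y) (fun z hz hzn => by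
      have hle : ‖z‖ ≤ R := by
        rw [hzn]
        have : Real.exp (-y) ≤ 1 := by
          rw [Real.exp_le_one_iff]
          linarith
        nlinarith
      obtain ⟨b1, b2⟩ := TInt_XX hF hy0 hz (r := 1) (by linarith) hd (by linarith)
      have b3 : ‖XX F y z‖ ≤ 7 * (y / (1 - R)) := by
        refine b1.trans (le_of_eq ?_)
        ring
      have b4 : ‖YY F y z‖ ≤ 60 * (y / (1 - R)) := by
        refine b2.trans ?_
        have : 60 * y ^ 2 * 1 / (1 - R) ^ 2 = 60 * (y / (1 - R)) ^ 2 := by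
          rw [div_pow]
          ring
        rw [this]
        nlinarith
      have b5 := hK (XX F y z) (YY F y z) (by linarith) (by linarith)
      have b6 : K * (‖XX F y z‖ + ‖YY F y z‖) ≤ K * (67 * (y / (1 - R))) :=
        mul_le_mul_of_nonneg_left (by linarith) hK0
      have b7 := neg_le_of_abs_le (b5.trans b6)
      refine le_trans (le_of_eq ?_) b7
      ring)
    rw [le_div_iff₀ hy0]
    exact h2
  have A2 : ∀ y ∈ Icc (1 - R) 1, -(3449 / 10000 - lam) * y⁻¹ ≤ av F R tt y / y := by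
    intro y hy
    have hy0 : 0 < y := by linarith [hy.1]
    have h2 := TInt_low hn h0 h1 hy0 (-(3449 / 10000 - lam)) (fun z _ _ => by
      have h3 := cert (XX F y z) (YY F y z)
      rw [tt]
      linarith)
    rw [div_eq_mul_inv]
    exact mul_le_mul_of_nonneg_right h2 (inv_nonneg.2 hy0.le)
  have A3 : ∀ y ∈ Ioi (1 : ℝ), -(254 * K) * Real.exp (-(1 / 2) * y) ≤ av F R tt y / y := by
    intro y hy
    have hy1 : 1 < y := hy
    have hy0 : 0 < y := by linarith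
    have he : Real.exp (-y) ≤ 1 / 2 := by
      have h3 : (2 : ℝ) ≤ Real.exp y := by
        have := Real.add_one_le_exp y
        linarith
      rw [Real.exp_neg, ← one_div]
      exact one_div_le_one_div_of_le (by norm_num) h3
    set E := Real.exp (-(1 / 2) * y) with hE
    have hE0 : 0 < E := Real.exp_pos _
    have hE2 : Real.exp (-y) = E * E := by
      rw [hE, ← Real.exp_add]
      congr 1
      ring
    have hE1 : E ≤ 1 := by
      rw [hE, Real.exp_le_one_iff]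
      linarith
    have hyE : y * E ≤ 1 := by
      have h3 := Real.quadratic_le_exp_of_nonneg (x := 1 / 2 * y) (by linarith)
      have h4 : Real.exp (1 / 2 * y) * E = 1 := by
        rw [hE, ← Real.exp_add]
        have : 1 / 2 * y + -(1 / 2) * y = 0 := by ring
        rw [this, Real.exp_zero]
      have h5 : y ≤ Real.exp (1 / 2 * y) := by nlinarith [sq_nonneg (1 / 2 * y - 1)]
      rw [← h4]
      exact mul_le_mul_of_nonneg_right h5 hE0.le
    have h2 := TInt_low hn h0 h1 hy0 (-(254 * K) * E * y) (fun z hz hzn => by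
      have hle : ‖z‖ ≤ E * E := by
        rw [hzn, hE2]
        nlinarith [mul_pos hE0 hE0]
      obtain ⟨b1, b2⟩ := TInt_XX hF hy0 hz (r := E * E) (s := 1 / 2) hle (by norm_num) (by
        rw [← hE2] at hle
        linarith)
      have b3 : ‖XX F y z‖ ≤ 14 * (y * E) := by
        refine b1.trans ?_
        have : 7 * y * (E * E) / (1 / 2) = 14 * (y * E) * E := by ring
        rw [this]
        have : 0 ≤ 14 * (y * E) := by positivity
        nlinarith
      have b4 : ‖YY F y z‖ ≤ 240 * (y * E) := by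
        refine b2.trans ?_
        have : 60 * y ^ 2 * (E * E) / (1 / 2) ^ 2 = 240 * (y * E) * (y * E) := by ring
        rw [this]
        have : 0 ≤ 240 * (y * E) := by positivity
        nlinarith
      have b5 := hK (XX F y z) (YY F y z) (by linarith) (by linarith)
      have b6 : K * (‖XX F y z‖ + ‖YY F y z‖) ≤ K * (254 * (y * E)) :=
        mul_le_mul_of_nonneg_left (by linarith) hK0
      have b7 := neg_le_of_abs_le (b5.trans b6)
      refine le_trans (le_of_eq ?_) b7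
      ring)
    rw [le_div_iff₀ hy0]
    exact h2
  have t2 : IntegrableOn (fun y : ℝ => av F R tt y / y) (Ioi (1 - R)) :=
    t1.mono_set (Ioi_subset_Ioi hd.le)
  have t3 : IntegrableOn (fun y : ℝ => av F R tt y / y) (Ioi 1) :=
    t1.mono_set (Ioi_subset_Ioi zero_le_one)
  rw [← intervalIntegral.integral_interval_add_Ioi t1 t2,
    ← intervalIntegral.integral_interval_add_Ioi t2 t3]
  have B1 : -(67 * K) ≤ ∫ y in (0 : ℝ)..(1 - R), av F R tt y / y := by
    have h2 : ∫ _ in (0 : ℝ)..(1 - R), -(67 * K) / (1 - R) = -(67 * K) := by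
      rw [intervalIntegral.integral_const, smul_eq_mul, sub_zero]
      field_simp
    rw [← h2]
    refine intervalIntegral.integral_mono_on_of_le_Ioo hd.le (by simp) ?_ ?_
    · rw [intervalIntegrable_iff_integrableOn_Ioc_of_le hd.le]
      exact t1.mono_set Ioc_subset_Ioi_self
    · exact fun y hy => A1 y ⟨hy.1, hy.2.le⟩
  have B2 : -(3449 / 10000 - lam) * Real.log (1 / (1 - R)) ≤
      ∫ y in (1 - R)..1, av F R tt y / y := by
    have h2 : ∫ y in (1 - R)..1, -(3449 / 10000 - lam) * y⁻¹ =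
        -(3449 / 10000 - lam) * Real.log (1 / (1 - R)) := by
      rw [intervalIntegral.integral_const_mul, integral_inv_of_pos hd one_pos]
    rw [← h2]
    have h3 : (1 - R : ℝ) ≤ 1 := by linarith
    refine intervalIntegral.integral_mono_on h3 ?_ ?_ A2
    · refine (intervalIntegral.intervalIntegrable_inv (fun x hx => ?_) continuousOn_id).const_mul _
      rw [uIcc_of_le h3] at hx
      exact (lt_of_lt_of_le hd hx.1).ne'
    · rw [intervalIntegrable_iff_integrableOn_Ioc_of_le h3]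
      exact t2.mono_set Ioc_subset_Ioi_self
  have B3 : -(508 * K) ≤ ∫ y in Ioi (1 : ℝ), av F R tt y / y := by
    have h2 : ∫ y in Ioi (1 : ℝ), -(254 * K) * Real.exp (-(1 / 2) * y) =
        -(508 * K) * Real.exp (-(1 / 2) * 1) := by
      rw [integral_const_mul, integral_exp_mul_Ioi (by norm_num)]
      ring
    have h3 : Real.exp (-(1 / 2) * 1) ≤ 1 := by
      rw [Real.exp_le_one_iff]
      norm_num
    have h4 : -(508 * K) ≤ -(508 * K) * Real.exp (-(1 / 2) * 1) := by nlinarith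
    refine h4.trans ?_
    rw [← h2]
    exact setIntegral_mono_on ((integrableOn_exp_mul_Ioi (by norm_num) 1).const_mul _) t3
      measurableSet_Ioi A3
  linarith

end Pool.Agent.Helper21.IM
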