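import Pool.Agent.Helper21.IM.En
import Pool.Agent.Helper21.IM.EnSym
import Pool.Agent.Helper21.IM.LZero
import Pool.Agent.Helper21.IM.DatEx
import Pool.Agent.Helper21.IM.JBound
import Pool.Agent.Helper21.IM.TInt

/-!
# IM-SM: the second moment of `log F'`

Let `L = log (1/(1-R))`.  `dat_ex`, `en_double` + `en_sym`, `l_zero`, `growth_data` are the hypotheses of
`jbound`, so with `en_int` (nonnegative terms, `jt_nonneg`) `∫ av en1 / y ≤ L + C (1 + √L)`; `x_int`,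
`tt_int` and `t_int` give `(1/4) ∑ ‖gs n m‖² R^(2m) ≤ lam (L + C (1+√L)) + (3449/10000 - lam) L + K`
(`0 < lam`).
-/

set_option autoImplicit false

namespace Pool.Agent.Helper21.IM

open Complex Metric Set Real Finset MeasureTheory

theorem second_moment : ∃ C : ℝ, 0 ≤ C ∧ ∀ (F : ℂ → ℂ) (n : ℕ → ℂ), Sch F → PS (pre F) n →
    ∀ R ∈ Ico (1 / 2 : ℝ) 1, ∀ M : ℕ,
    ∑ m ∈ Icc 1 M, ‖gs n m‖ ^ 2 * R ^ (2 * m) ≤
      4 * (3449 / 10000) * Real.log (1 / (1 - R)) + C * (1 + √(Real.log (1 / (1 - R)))) := by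
  obtain ⟨Ce, hCe⟩ := en_double
  obtain ⟨Cl, hCl⟩ := l_zero
  obtain ⟨Cg, hCg⟩ := growth_data
  obtain ⟨K, hK⟩ := t_int
  obtain ⟨CJ, hCJ⟩ := jbound (|Ce| + |Cl| + |Cg|)
  have a1 : Ce ≤ |Ce| := le_abs_self _
  have a2 : Cl ≤ |Cl| := le_abs_self _
  have a3 : Cg ≤ |Cg| := le_abs_self _
  have b1 : 0 ≤ |Ce| := abs_nonneg _
  have b2 : 0 ≤ |Cl| := abs_nonneg _
  have b3 : 0 ≤ |Cg| := abs_nonneg _
  have hlam : 0 < lam := by unfold lam; norm_num
  refine ⟨4 * lam * |CJ| + 4 * |K|, by positivity, ?_⟩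
  intro F n hF hn R hR M
  obtain ⟨n', l, D⟩ := dat_ex hF
  have hnn : n' = n := ps_unique D.pn hn
  subst hnn
  have hR0 : 0 < R := by linarith [hR.1]
  have hR1 : R < 1 := hR.2
  set L := Real.log (1 / (1 - R)) with hL
  have hL0 : 0 ≤ L := by
    apply Real.log_nonneg
    rw [le_div_iff₀ (by linarith)]
    linarith
  have hJ : ∀ M : ℕ, ∑ m ∈ Icc 1 M, R ^ (2 * m) * jt n' m ≤ L + CJ * (1 + √L) := by
    refine hCJ n' l R L hR0 hR1 hL0 D.sym D.i0 D.i2 D.i4 ?_ ?_ ?_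
    · intro M
      rw [en_sym D.sym R M]
      exact (hCe F n' l D R hR M).trans (by linarith)
    · intro M
      exact (hCl F n' l D M).trans (by linarith)
    · intro M
      obtain ⟨g1, g2, g3, g4⟩ := hCg F n' hF hn M
      exact ⟨by linarith, by linarith, by linarith, by linarith⟩
  have hsum : ∀ (f : ℕ → ℝ) (N : ℕ), ∑ i ∈ range N, f (i + 1) = ∑ m ∈ Icc 1 N, f m := by
    intro f N
    rw [Finset.range_eq_Ico, Finset.sum_Ico_add' f 0 N 1]
    refine Finset.sum_congr ?_ fun _ _ => rfl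
    ext m
    simp only [Finset.mem_Ico, Finset.mem_Icc]
    omega
  have hE : ∫ y in Ioi (0 : ℝ), av F R en1 y / y ≤ L + CJ * (1 + √L) := by
    refine le_of_tendsto' (en_int hn hR0 hR1).2.tendsto_sum_nat fun N => ?_
    rw [hsum (fun m => R ^ (2 * m) * jt n' m) N]
    exact hJ N
  have hX : ∑ m ∈ Icc 1 M, ‖gs n' m‖ ^ 2 / 4 * R ^ (2 * m) ≤
      ∫ y in Ioi (0 : ℝ), av F R (fun X _ => ‖X‖ ^ 2) y / y := by
    rw [← hsum (fun m => ‖gs n' m‖ ^ 2 / 4 * R ^ (2 * m)) M]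
    exact sum_le_hasSum (range M) (fun i _ => by positivity) (x_int hn hR0 hR1).2
  have hT := (tt_int hn hR0 hR1).2
  have hT2 := hK F hF R hR
  rw [hT] at hT2
  have h4 : ∑ m ∈ Icc 1 M, ‖gs n' m‖ ^ 2 * R ^ (2 * m) =
      4 * ∑ m ∈ Icc 1 M, ‖gs n' m‖ ^ 2 / 4 * R ^ (2 * m) := by
    rw [Finset.mul_sum]
    exact Finset.sum_congr rfl fun m _ => by ring
  rw [h4]
  have hE2 := mul_le_mul_of_nonneg_left hE hlam.le
  have hs : 0 ≤ √L := Real.sqrt_nonneg L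
  have c1 : CJ * (1 + √L) ≤ |CJ| * (1 + √L) :=
    mul_le_mul_of_nonneg_right (le_abs_self _) (by linarith)
  have c2 := mul_le_mul_of_nonneg_left c1 hlam.le
  have c3 : K ≤ |K| * (1 + √L) := by
    have : |K| * 1 ≤ |K| * (1 + √L) := mul_le_mul_of_nonneg_left (by linarith) (abs_nonneg K)
    linarith [le_abs_self K]
  nlinarith

end Pool.Agent.Helper21.IM
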