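import Pool.Agent.Helper21.IM.Mean
import Pool.Agent.Helper21.IM.SecondMoment

/-!
# Integral means of the derivative of univalent functions for small exponents

Assembly: `second_moment` is the hypothesis of `mean_growth`.
-/

set_option autoImplicit false

namespace Pool.Agent.Helper21.IM

open Complex Metric Set Real Finset MeasureTheory

theorem mean_small : ∃ t₀ : ℝ, 0 < t₀ ∧ ∀ t ∈ Ioc 0 t₀, ∀ f : ℂ → ℂ,
    DifferentiableOn ℂ f (ball 0 1) → InjOn f (ball 0 1) → ∃ B : ℝ, ∀ r ∈ Ioo (0 : ℝ) 1,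
      circleAverage (fun z => ‖deriv f z‖ ^ t) 0 r ≤ B * (1 - r) ^ (-(69 / 200 * t ^ 2)) := by
  obtain ⟨C, hC, h⟩ := second_moment
  exact mean_growth (v := 3449 / 10000) (by norm_num) hC h (by norm_num)

theorem int_mean_small : ∃ t₀ : ℝ, 0 < t₀ ∧ ∀ t : ℝ, 0 < t → t ≤ t₀ → ∀ f : ℂ → ℂ,
    DifferentiableOn ℂ f (ball 0 1) → InjOn f (ball 0 1) → ∃ B : ℝ, ∀ r : ℝ, 0 < r → r < 1 →
      ((2 * π)⁻¹ * ∫ θ in (0 : ℝ)..2 * π, ‖deriv f (r * Complex.exp (θ * I))‖ ^ t) ^ (1 / t) ≤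
        B * (1 - r) ^ (-(69 / 200 * t)) := by
  obtain ⟨t₀, h0, h⟩ := mean_small
  refine ⟨t₀, h0, fun t ht ht' f hf hi => ?_⟩
  obtain ⟨B, hB⟩ := h t ⟨ht, ht'⟩ f hf hi
  refine ⟨(max B 0) ^ (1 / t), fun r hr hr1 => ?_⟩
  have h1 := hB r ⟨hr, hr1⟩
  have hr' : 0 < 1 - r := by linarith
  have e1 : circleAverage (fun z => ‖deriv f z‖ ^ t) 0 r =
      (2 * π)⁻¹ * ∫ θ in (0 : ℝ)..2 * π, ‖deriv f (r * Complex.exp (θ * I))‖ ^ t := by
    simp [circleAverage, circleMap]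
  rw [e1] at h1
  have h2 : (0 : ℝ) ≤ (2 * π)⁻¹ * ∫ θ in (0 : ℝ)..2 * π, ‖deriv f (r * Complex.exp (θ * I))‖ ^ t := by
    refine mul_nonneg (by positivity) ?_
    exact intervalIntegral.integral_nonneg (by positivity) fun θ _ => by positivity
  have h3 : (2 * π)⁻¹ * ∫ θ in (0 : ℝ)..2 * π, ‖deriv f (r * Complex.exp (θ * I))‖ ^ t ≤
      max B 0 * (1 - r) ^ (-(69 / 200 * t ^ 2)) :=
    h1.trans (mul_le_mul_of_nonneg_right (le_max_left _ _) (by positivity))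
  calc _ ≤ (max B 0 * (1 - r) ^ (-(69 / 200 * t ^ 2))) ^ (1 / t) :=
        Real.rpow_le_rpow h2 h3 (by positivity)
    _ = (max B 0) ^ (1 / t) * (1 - r) ^ (-(69 / 200 * t)) := by
        rw [Real.mul_rpow (le_max_right _ _) (by positivity), ← Real.rpow_mul hr'.le]
        congr 2
        field_simp

end Pool.Agent.Helper21.IM
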