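import Pool.Agent.Helper21.IM.Koebe

/-!
# IM-TT: the circle average operator on `(1 - ‖z‖²)^η`

`mob_norm`: for `‖ζ‖ = s` the quotient `(1 - ‖mob z ζ‖²)^η / (1 - ‖z‖²)^η = exp (η Y)` with
`Y = log (1 - s²) - 2 log ‖1 + conj z ζ‖`, `|Y| ≤ K₀ = 3 log (1/(1-s)) + 1` or any constant depending on
`s` only, and the average of `Y` is `log (1 - s²)` (`AnalyticOnNhd.circleAverage_log_norm_of_ne_zero`).
`exp x ≤ 1 + x + x² exp |x|`.
-/

set_option autoImplicit false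

namespace Pool.Agent.Helper21.IM

open Complex Metric Set Real Finset

private theorem TTwo_exp (x : ℝ) : Real.exp x ≤ 1 + x + x ^ 2 * Real.exp |x| := by
  have h1 : Real.exp x - 1 ≤ x * Real.exp x := by
    have h2 := Real.add_one_le_exp (-x)
    have h3 : Real.exp (-x) * Real.exp x = 1 := by
      rw [← Real.exp_add, neg_add_cancel, Real.exp_zero]
    nlinarith [Real.exp_pos x]
  rcases le_total 0 x with h | h
  · rw [abs_of_nonneg h]
    nlinarith [mul_le_mul_of_nonneg_left h1 h]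
  · have h4 := Real.add_one_le_exp x
    have h5 : 1 ≤ Real.exp |x| := Real.one_le_exp (abs_nonneg x)
    nlinarith [mul_nonneg (neg_nonneg.mpr h) (sub_nonneg.mpr h4), sq_nonneg x]

theorem t_two {s : ℝ} (hs : 0 < s) (hs1 : s < 1) : ∃ K : ℝ, 0 ≤ K ∧ ∀ η ∈ Ioc (0 : ℝ) 1,
    ∀ z ∈ ball (0 : ℂ) 1,
    circleAverage (fun ζ => (1 - ‖mob z ζ‖ ^ 2) ^ η) 0 s ≤
      (1 - η * Real.log (1 / (1 - s ^ 2)) + K * η ^ 2) * (1 - ‖z‖ ^ 2) ^ η := by
  have hs2 : 0 < 1 - s ^ 2 := by nlinarith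
  set K₀ : ℝ := |Real.log (1 - s ^ 2)| + 2 * (Real.log 2 + |Real.log (1 - s)|) with hK₀
  have hlog2 : 0 < Real.log 2 := Real.log_pos one_lt_two
  have hK₀0 : 0 ≤ K₀ := by positivity
  refine ⟨K₀ ^ 2 * Real.exp K₀, by positivity, ?_⟩
  intro η hη z hz
  have hz1 : ‖z‖ < 1 := by simpa using hz
  have hz2 : 0 < 1 - ‖z‖ ^ 2 := by nlinarith [norm_nonneg z]
  have hsph : ∀ ζ ∈ sphere (0 : ℂ) |s|, ‖ζ‖ = s ∧ ζ ∈ ball (0 : ℂ) 1 := by
    intro ζ hζ
    rw [mem_sphere_zero_iff_norm, abs_of_pos hs] at hζ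
    exact ⟨hζ, by rw [mem_ball_zero_iff, hζ]; exact hs1⟩
  have hn : ∀ ζ : ℂ, ‖ζ‖ ≤ s → 1 - s ≤ ‖1 + (starRingEnd ℂ) z * ζ‖ ∧
      ‖1 + (starRingEnd ℂ) z * ζ‖ ≤ 2 := by
    intro ζ hζ
    have h1 : ‖(starRingEnd ℂ) z * ζ‖ ≤ s := by
      rw [norm_mul, RCLike.norm_conj]
      calc ‖z‖ * ‖ζ‖ ≤ 1 * s := by gcongr
        _ = s := one_mul s
    constructor
    · have h2 := norm_sub_norm_le (1 : ℂ) (-((starRingEnd ℂ) z * ζ))
      rw [sub_neg_eq_add, norm_neg, norm_one] at h2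
      linarith
    · calc ‖1 + (starRingEnd ℂ) z * ζ‖ ≤ ‖(1 : ℂ)‖ + ‖(starRingEnd ℂ) z * ζ‖ := norm_add_le _ _
        _ ≤ 2 := by rw [norm_one]; linarith
  set Y : ℂ → ℝ := fun ζ => Real.log (1 - s ^ 2) - 2 * Real.log ‖1 + (starRingEnd ℂ) z * ζ‖ with hY
  have hYb : ∀ ζ : ℂ, ‖ζ‖ ≤ s → |Y ζ| ≤ K₀ := by
    intro ζ hζ
    obtain ⟨h1, h2⟩ := hn ζ hζ
    have h3 : |Real.log ‖1 + (starRingEnd ℂ) z * ζ‖| ≤ Real.log 2 + |Real.log (1 - s)| := by
      have h4 : Real.log ‖1 + (starRingEnd ℂ) z * ζ‖ ≤ Real.log 2 :=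
        Real.log_le_log (by linarith) h2
      have h5 : Real.log (1 - s) ≤ Real.log ‖1 + (starRingEnd ℂ) z * ζ‖ :=
        Real.log_le_log (by linarith) h1
      have h6 := neg_abs_le (Real.log (1 - s))
      rw [abs_le]
      constructor
      · linarith
      · linarith [abs_nonneg (Real.log (1 - s))]
    calc |Y ζ| ≤ |Real.log (1 - s ^ 2)| + |2 * Real.log ‖1 + (starRingEnd ℂ) z * ζ‖| := abs_sub _ _
      _ = |Real.log (1 - s ^ 2)| + 2 * |Real.log ‖1 + (starRingEnd ℂ) z * ζ‖| := by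
        rw [abs_mul, abs_two]
      _ ≤ K₀ := by rw [hK₀]; linarith
  -- the function in terms of `Y`
  have hpt : ∀ ζ ∈ sphere (0 : ℂ) |s|, (1 - ‖mob z ζ‖ ^ 2) ^ η =
      (1 - ‖z‖ ^ 2) ^ η * Real.exp (η * Y ζ) := by
    intro ζ hζ
    obtain ⟨h1, h2⟩ := hsph ζ hζ
    obtain ⟨h3, -⟩ := hn ζ h1.le
    have h4 : 0 < ‖1 + (starRingEnd ℂ) z * ζ‖ := by linarith
    rw [mob_norm hz h2, h1, mul_div_assoc, Real.mul_rpow hz2.le (by positivity)]
    congr 1
    rw [Real.rpow_def_of_pos (by positivity), Real.log_div hs2.ne' (by positivity), Real.log_pow]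
    congr 1
    rw [hY]
    push_cast
    ring
  have hYcont : ContinuousOn Y (sphere (0 : ℂ) |s|) := by
    refine continuousOn_const.sub (continuousOn_const.mul (ContinuousOn.log ?_ ?_))
    · fun_prop
    · intro ζ hζ
      have := (hn ζ (hsph ζ hζ).1.le).1
      intro h
      linarith
  have hYavg : circleAverage Y 0 s = Real.log (1 - s ^ 2) := by
    have h1 : circleAverage (fun ζ => Real.log ‖1 + (starRingEnd ℂ) z * ζ‖) 0 s = 0 := by
      have h2 := AnalyticOnNhd.circleAverage_log_norm_of_ne_zero (R := s) (c := 0)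
        (g := fun ζ : ℂ => 1 + (starRingEnd ℂ) z * ζ) (by
          intro ζ _
          fun_prop) (by
          intro ζ hζ h
          rw [mem_closedBall_zero_iff, abs_of_pos hs] at hζ
          have := (hn ζ hζ).1
          rw [h, norm_zero] at this
          linarith)
      rw [h2]
      simp
    have hc : CircleIntegrable (fun _ : ℂ => Real.log (1 - s ^ 2)) 0 s :=
      continuousOn_const.circleIntegrable'
    have hl : ContinuousOn (fun ζ : ℂ => Real.log ‖1 + (starRingEnd ℂ) z * ζ‖)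
        (sphere (0 : ℂ) |s|) := by
      refine ContinuousOn.log (by fun_prop) ?_
      intro ζ hζ
      have := (hn ζ (hsph ζ hζ).1.le).1
      intro h
      linarith
    have h3 := circleAverage_fun_smul (a := (2 : ℝ))
      (f := fun ζ : ℂ => Real.log ‖1 + (starRingEnd ℂ) z * ζ‖) (c := 0) (R := s)
    simp only [smul_eq_mul] at h3
    have hl2 : CircleIntegrable (fun ζ : ℂ => 2 * Real.log ‖1 + (starRingEnd ℂ) z * ζ‖) 0 s :=
      hl.circleIntegrable'.const_mul 2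
    rw [hY, circleAverage_fun_sub hc hl2, circleAverage_const, h3, h1]
    ring
  rw [circleAverage_congr_sphere (f₂ := fun ζ => (1 - ‖z‖ ^ 2) ^ η * Real.exp (η * Y ζ)) hpt]
  have h5 := circleAverage_fun_smul (a := (1 - ‖z‖ ^ 2) ^ η)
    (f := fun ζ => Real.exp (η * Y ζ)) (c := 0) (R := s)
  simp only [smul_eq_mul] at h5
  rw [h5, mul_comm]
  have hexpc : ContinuousOn (fun ζ => Real.exp (η * Y ζ)) (sphere (0 : ℂ) |s|) :=
    (continuousOn_const.mul hYcont).rexp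
  have hle : circleAverage (fun ζ => Real.exp (η * Y ζ)) 0 s ≤
      circleAverage (fun ζ => (1 + K₀ ^ 2 * Real.exp K₀ * η ^ 2) + η * Y ζ) 0 s := by
    refine circleAverage_mono hexpc.circleIntegrable'
      (continuousOn_const.add (continuousOn_const.mul hYcont)).circleIntegrable' fun ζ hζ => ?_
    have h1 := TTwo_exp (η * Y ζ)
    have h2 := hYb ζ (hsph ζ hζ).1.le
    have h3 : |η * Y ζ| ≤ K₀ := by
      rw [abs_mul, abs_of_pos hη.1]
      calc η * |Y ζ| ≤ 1 * K₀ := mul_le_mul hη.2 h2 (abs_nonneg _) zero_le_one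
        _ = K₀ := one_mul _
    have h4 : (η * Y ζ) ^ 2 ≤ η ^ 2 * K₀ ^ 2 := by
      rw [mul_pow, ← sq_abs (Y ζ)]
      gcongr
    have h6 : (η * Y ζ) ^ 2 * Real.exp |η * Y ζ| ≤ η ^ 2 * K₀ ^ 2 * Real.exp K₀ := by
      gcongr
    linarith
  have havg : circleAverage (fun ζ => (1 + K₀ ^ 2 * Real.exp K₀ * η ^ 2) + η * Y ζ) 0 s =
      (1 + K₀ ^ 2 * Real.exp K₀ * η ^ 2) + η * Real.log (1 - s ^ 2) := by
    have hc : CircleIntegrable (fun _ : ℂ => 1 + K₀ ^ 2 * Real.exp K₀ * η ^ 2) 0 s :=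
      continuousOn_const.circleIntegrable'
    have h3 := circleAverage_fun_smul (a := η) (f := Y) (c := 0) (R := s)
    simp only [smul_eq_mul] at h3
    have hYi : CircleIntegrable (fun ζ : ℂ => η * Y ζ) 0 s := hYcont.circleIntegrable'.const_mul η
    rw [circleAverage_fun_add hc hYi, circleAverage_const, h3, hYavg]
  rw [havg] at hle
  have hfin : (1 + K₀ ^ 2 * Real.exp K₀ * η ^ 2) + η * Real.log (1 - s ^ 2) =
      1 - η * Real.log (1 / (1 - s ^ 2)) + K₀ ^ 2 * Real.exp K₀ * η ^ 2 := by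
    rw [one_div, Real.log_inv]
    ring
  rw [← hfin]
  exact mul_le_mul_of_nonneg_right hle (by positivity)

end Pool.Agent.Helper21.IM
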