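import Pool.Agent.Helper21.IM.RMono
import Pool.Agent.Helper21.IM.TTwo
import Pool.Agent.Helper21.IM.Iter
import Pool.Agent.Helper21.IM.AEst

/-!
# IM-ME: growth of the integral means

Given `v < c`, `c' = (v + c)/2`; `a_est` for `c'` gives `s`, `t₀`.  `Ls = log (1/(1-s²))`, `K` from `t_two`.
Choose `η ∈ (0, 1]` with `K η < Ls`, `c' Ls/(Ls - K η) ≤ c` and `1 - η Ls + K η² ≥ 0`
(e.g. `η Ls ≤ 1`).  `A = 1 + c' t² Ls`, `q = 1 - η Ls + K η² ≤ exp (-η (Ls - K η)) < 1`.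
For `r ∈ (0,1)` let `δ = 1 - r²`, `κ = δ^(-η)`, `Mr = circleAverage ‖f'‖^t 0 r`, `g = rg f t`,
`u z = (1 - ‖z‖²)^η`: if `‖z‖ < r` then `κ u z ≥ 1`, if `‖z‖ ≥ r` then `g z ≥ Mr` (`rg_radial`,
`rg_mono`).  `iter` at `z = 0` with `n = ⌈(η log (1/δ) + log 2)/(η (Ls - K η))⌉`: `κ q^n ≤ 1/2`, so
`Mr ≤ 2 A^n ‖f' 0‖^t`, `A^n ≤ exp (c' t² Ls n)` and
`c' Ls n ≤ c log (1/δ) + const`; `δ^(-c t²) ≤ (1-r)^(-c t²)`.
-/

set_option autoImplicit false

namespace Pool.Agent.Helper21.IM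

open Complex Metric Set Real Finset

theorem mean_growth {v C : ℝ} (hv0 : 0 ≤ v) (hC : 0 ≤ C)
    (hv : ∀ (F : ℂ → ℂ) (n : ℕ → ℂ), Sch F → PS (pre F) n → ∀ R ∈ Ico (1 / 2 : ℝ) 1, ∀ M : ℕ,
      ∑ m ∈ Icc 1 M, ‖gs n m‖ ^ 2 * R ^ (2 * m) ≤
        4 * v * Real.log (1 / (1 - R)) + C * (1 + √(Real.log (1 / (1 - R))))) {c : ℝ} (hc : v < c) :
    ∃ t₀ : ℝ, 0 < t₀ ∧ ∀ t ∈ Ioc 0 t₀, ∀ f : ℂ → ℂ, DifferentiableOn ℂ f (ball 0 1) →
      InjOn f (ball 0 1) → ∃ B : ℝ, ∀ r ∈ Ioo (0 : ℝ) 1,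
        circleAverage (fun z => ‖deriv f z‖ ^ t) 0 r ≤ B * (1 - r) ^ (-(c * t ^ 2)) := by
  have hcc : v < (v + c) / 2 := by linarith
  have hcc2 : (v + c) / 2 < c := by linarith
  set c' : ℝ := (v + c) / 2 with hc'
  have hc'0 : 0 < c' := lt_of_le_of_lt hv0 hcc
  have hc0 : 0 < c := hc'0.trans hcc2
  obtain ⟨s, ⟨hs0, hs1⟩, t₀, ht₀, hA⟩ := a_est hv0 hC hv hcc
  refine ⟨t₀, ht₀, fun t ht f hf hi => ?_⟩
  have htpos : 0 < t := ht.1
  have hA' := hA t ht
  set Ls : ℝ := Real.log (1 / (1 - s ^ 2)) with hLs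
  have hs2 : 0 < 1 - s ^ 2 := by nlinarith
  have hLs0 : 0 < Ls := by
    apply Real.log_pos
    rw [lt_div_iff₀ hs2]
    nlinarith
  obtain ⟨K, hK, hT⟩ := t_two hs0 hs1
  -- the exponent
  have hcK : 0 < c * K + 1 := by positivity
  set η : ℝ := min 1 (min (1 / Ls) ((c - c') * Ls / (c * K + 1))) with hη
  have hη0 : 0 < η := by
    rw [hη, lt_min_iff, lt_min_iff]
    refine ⟨one_pos, by positivity, ?_⟩
    have : 0 < c - c' := by linarith
    positivity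
  have hη1 : η ≤ 1 := min_le_left _ _
  have hη2 : η * Ls ≤ 1 := by
    have h1 : η ≤ 1 / Ls := (min_le_right _ _).trans (min_le_left _ _)
    rwa [le_div_iff₀ hLs0] at h1
  have hη3 : c * K * η ≤ (c - c') * Ls := by
    have h1 : η ≤ (c - c') * Ls / (c * K + 1) := (min_le_right _ _).trans (min_le_right _ _)
    rw [le_div_iff₀ hcK] at h1
    nlinarith
  set a : ℝ := Ls - K * η with ha
  have hca : c' * Ls ≤ c * a := by
    rw [ha]
    linarith
  have ha0 : 0 < a := by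
    have h1 : 0 < c * a := lt_of_lt_of_le (by positivity) hca
    exact (mul_pos_iff_of_pos_left hc0).1 h1
  have hηa : 0 < η * a := by positivity
  set q : ℝ := 1 - η * Ls + K * η ^ 2 with hq
  have hq0 : 0 ≤ q := by
    have : 0 ≤ K * η ^ 2 := by positivity
    rw [hq]
    linarith
  have hqe : q ≤ Real.exp (-(η * a)) := by
    have h1 := Real.add_one_le_exp (-(η * a))
    have h2 : q = -(η * a) + 1 := by
      rw [hq, ha]
      ring
    rw [h2]
    exact h1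
  set A : ℝ := 1 + c' * t ^ 2 * Ls with hAdef
  have hA1 : 0 ≤ A := by positivity
  have hAe : A ≤ Real.exp (c' * t ^ 2 * Ls) := by
    have h1 := Real.add_one_le_exp (c' * t ^ 2 * Ls)
    rw [hAdef]
    linarith
  set G₀ : ℝ := ‖deriv f 0‖ ^ t with hG₀
  have hG0 : 0 ≤ G₀ := by positivity
  set C₂ : ℝ := c' * Ls * (Real.log 2 / (η * a) + 1) with hC₂
  refine ⟨2 * Real.exp (t ^ 2 * C₂) * G₀, fun r hr => ?_⟩
  obtain ⟨hr0, hr1⟩ := hr
  set δ : ℝ := 1 - r ^ 2 with hδ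
  have hδ0 : 0 < δ := by
    rw [hδ]
    nlinarith
  have hδ1 : δ < 1 := by
    rw [hδ]
    nlinarith
  have hδr : 1 - r ≤ δ := by
    rw [hδ]
    nlinarith
  have hlogδ : 0 ≤ Real.log (1 / δ) := by
    apply Real.log_nonneg
    rw [le_div_iff₀ hδ0]
    linarith
  have hlogδ' : Real.log (1 / δ) = -Real.log δ := by
    rw [one_div, Real.log_inv]
  set Mr : ℝ := circleAverage (fun z => ‖deriv f z‖ ^ t) 0 r with hMr
  have hnn : ∀ (ρ : ℝ) (z₀ : ℂ) (h : ℂ → ℝ), (∀ z, 0 ≤ h z) → 0 ≤ circleAverage h z₀ ρ := by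
    intro ρ z₀ h hh
    rw [circleAverage_def]
    refine smul_nonneg (by positivity) ?_
    exact intervalIntegral.integral_nonneg (by positivity) fun θ _ => hh _
  have hMr0 : 0 ≤ Mr := hnn r 0 _ fun z => by positivity
  have hg0 : ∀ z, 0 ≤ rg f t z := fun z => hnn 1 0 _ fun ω => by positivity
  set κ : ℝ := δ ^ (-η) with hκ
  have hκ0 : 0 ≤ κ := Real.rpow_nonneg hδ0.le _
  -- the lower bound
  have hlow : ∀ z ∈ ball (0 : ℂ) 1, Mr * (1 - κ * (1 - ‖z‖ ^ 2) ^ η) ≤ rg f t z := by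
    intro z hz
    rw [mem_ball_zero_iff] at hz
    have hz2 : 0 < 1 - ‖z‖ ^ 2 := by
      have := norm_nonneg z
      nlinarith
    by_cases hzr : ‖z‖ < r
    · have h1 : δ ^ η ≤ (1 - ‖z‖ ^ 2) ^ η := by
        apply Real.rpow_le_rpow hδ0.le _ hη0.le
        rw [hδ]
        have := norm_nonneg z
        nlinarith
      have h2 : 1 ≤ κ * (1 - ‖z‖ ^ 2) ^ η := by
        have h3 : κ * δ ^ η = 1 := by
          rw [hκ, ← Real.rpow_add hδ0, neg_add_cancel, Real.rpow_zero]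
        calc (1 : ℝ) = κ * δ ^ η := h3.symm
          _ ≤ _ := mul_le_mul_of_nonneg_left h1 hκ0
      have h3 : Mr * (1 - κ * (1 - ‖z‖ ^ 2) ^ η) ≤ 0 :=
        mul_nonpos_of_nonneg_of_nonpos hMr0 (by linarith)
      exact h3.trans (hg0 z)
    · push Not at hzr
      have h1 : Mr ≤ rg f t z := by
        rw [rg_radial]
        exact rg_mono hf hi htpos hr0.le hzr hz
      have h2 : 0 ≤ κ * (1 - ‖z‖ ^ 2) ^ η := mul_nonneg hκ0 (Real.rpow_nonneg hz2.le _)
      have h3 : Mr * (1 - κ * (1 - ‖z‖ ^ 2) ^ η) ≤ Mr * 1 :=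
        mul_le_mul_of_nonneg_left (by linarith) hMr0
      linarith
  have hu : ContinuousOn (fun z : ℂ => (1 - ‖z‖ ^ 2) ^ η) (ball 0 1) := by
    refine ContinuousOn.rpow_const ?_ fun z _ => Or.inr hη0.le
    exact (continuous_const.sub (continuous_norm.pow 2)).continuousOn
  have hit := iter (s := s) (A := A) (q := q) (κ := κ) (Mr := Mr) (g := rg f t)
    (u := fun z : ℂ => (1 - ‖z‖ ^ 2) ^ η) hs0 hs1 (rg_cont hf htpos) hu hA1 hq0 hκ0 hMr0
    (fun z hz => t_one_avg hf hi hs0 hs1 htpos (fun F hF b hb => hA' F hF b hb) hz)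
    (fun z hz => hT η ⟨hη0, hη1⟩ z hz) hlow
  -- the number of steps
  set X : ℝ := (η * Real.log (1 / δ) + Real.log 2) / (η * a) with hX
  have hlog2 : 0 < Real.log 2 := Real.log_pos one_lt_two
  have hX0 : 0 ≤ X := by positivity
  set n : ℕ := ⌈X⌉₊ with hn
  have hnX : X ≤ n := Nat.le_ceil _
  have hnX1 : (n : ℝ) ≤ X + 1 := (Nat.ceil_lt_add_one hX0).le
  have h0 := hit n 0 (mem_ball_self one_pos)
  have hrg0 : rg f t 0 = G₀ := by
    rw [rg]
    simp only [mul_zero]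
    rw [circleAverage_const]
  simp only [norm_zero, ne_eq, OfNat.ofNat_ne_zero, not_false_eq_true, zero_pow, sub_zero,
    Real.one_rpow, mul_one] at h0
  rw [hrg0] at h0
  have hκq : κ * q ^ n ≤ 1 / 2 := by
    have h1 : q ^ n ≤ Real.exp (-(η * a * n)) := by
      calc q ^ n ≤ (Real.exp (-(η * a))) ^ n := pow_le_pow_left₀ hq0 hqe n
        _ = Real.exp (-(η * a * n)) := by
          rw [← Real.exp_nat_mul]
          congr 1
          ring
    have h2 : κ = Real.exp (η * Real.log (1 / δ)) := by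
      rw [hκ, Real.rpow_def_of_pos hδ0, hlogδ']
      congr 1
      ring
    have h3 : η * Real.log (1 / δ) + Real.log 2 ≤ η * a * n := by
      have h4 := hnX
      rw [hX, div_le_iff₀ hηa] at h4
      linarith
    calc κ * q ^ n ≤ Real.exp (η * Real.log (1 / δ)) * Real.exp (-(η * a * n)) := by
          rw [h2]
          exact mul_le_mul_of_nonneg_left h1 (Real.exp_pos _).le
      _ = Real.exp (η * Real.log (1 / δ) - η * a * n) := by
          rw [← Real.exp_add]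
          congr 1
      _ ≤ Real.exp (-Real.log 2) := by
          apply Real.exp_le_exp.2
          linarith
      _ = 1 / 2 := by
          rw [Real.exp_neg, Real.exp_log two_pos, one_div]
  have hM2 : Mr ≤ 2 * (A ^ n * G₀) := by
    have h1 : Mr * (1 / 2) ≤ Mr * (1 - κ * q ^ n) :=
      mul_le_mul_of_nonneg_left (by linarith) hMr0
    linarith
  have hAn : A ^ n ≤ Real.exp (t ^ 2 * C₂) * (1 - r) ^ (-(c * t ^ 2)) := by
    have h1 : A ^ n ≤ Real.exp (n * (c' * t ^ 2 * Ls)) := by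
      calc A ^ n ≤ (Real.exp (c' * t ^ 2 * Ls)) ^ n := pow_le_pow_left₀ hA1 hAe n
        _ = Real.exp (n * (c' * t ^ 2 * Ls)) := by rw [← Real.exp_nat_mul]
    have h2 : (n : ℝ) * (c' * t ^ 2 * Ls) ≤ t ^ 2 * C₂ + c * t ^ 2 * Real.log (1 / δ) := by
      have h3 : (n : ℝ) * (c' * t ^ 2 * Ls) ≤ (X + 1) * (c' * t ^ 2 * Ls) :=
        mul_le_mul_of_nonneg_right hnX1 (by positivity)
      have h4 : X = Real.log (1 / δ) / a + Real.log 2 / (η * a) := by
        rw [hX]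
        field_simp
      have h5 : (X + 1) * (c' * t ^ 2 * Ls) =
          t ^ 2 * C₂ + t ^ 2 * (c' * Ls * (Real.log (1 / δ) / a)) := by
        rw [h4, hC₂]
        ring
      have h6 : c' * Ls * (Real.log (1 / δ) / a) ≤ c * Real.log (1 / δ) := by
        rw [mul_div_assoc', div_le_iff₀ ha0]
        nlinarith
      have h7 : t ^ 2 * (c' * Ls * (Real.log (1 / δ) / a)) ≤ t ^ 2 * (c * Real.log (1 / δ)) :=
        mul_le_mul_of_nonneg_left h6 (by positivity)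
      linarith
    have h8 : Real.log (1 / δ) ≤ -Real.log (1 - r) := by
      rw [hlogδ']
      have := Real.log_le_log (by linarith : (0 : ℝ) < 1 - r) hδr
      linarith
    have h9 : (1 - r) ^ (-(c * t ^ 2)) = Real.exp (c * t ^ 2 * -Real.log (1 - r)) := by
      rw [Real.rpow_def_of_pos (by linarith)]
      congr 1
      ring
    rw [h9, ← Real.exp_add]
    refine h1.trans (Real.exp_le_exp.2 (h2.trans ?_))
    have h10 : c * t ^ 2 * Real.log (1 / δ) ≤ c * t ^ 2 * -Real.log (1 - r) :=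
      mul_le_mul_of_nonneg_left h8 (by positivity)
    linarith
  calc Mr ≤ 2 * (A ^ n * G₀) := hM2
    _ ≤ 2 * ((Real.exp (t ^ 2 * C₂) * (1 - r) ^ (-(c * t ^ 2))) * G₀) := by gcongr
    _ = 2 * Real.exp (t ^ 2 * C₂) * G₀ * (1 - r) ^ (-(c * t ^ 2)) := by ring

end Pool.Agent.Helper21.IM
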