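import Pool.Agent.Helper21.IM.TOne
import Pool.Agent.Helper21.IM.Par

/-!
# IM-RO: the rotational average is radial, increasing and continuous

`rg f t z = circleAverage (fun ζ => ‖deriv f ζ‖^t) 0 ‖z‖` (shift of the angle).  `deriv f` has no zeros, so
`deriv f = c * exp L` on the disc (`log_disc`), `‖deriv f‖^t = ‖Q‖²`, `Q = ‖c‖^(t/2) exp (t L / 2)` analytic;
`mean_mono`.
-/

set_option autoImplicit false

namespace Pool.Agent.Helper21.IM

open Complex Metric Set Real Finset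

theorem rg_radial {f : ℂ → ℂ} (t : ℝ) (z : ℂ) :
    rg f t z = circleAverage (fun ζ => ‖deriv f ζ‖ ^ t) 0 ‖z‖ := by
  unfold rg
  rw [circleAverage_eq_integral_add (f := fun ζ => ‖deriv f ζ‖ ^ t) (Complex.arg z),
    circleAverage_def]
  congr 1
  refine intervalIntegral.integral_congr fun θ _ => ?_
  have h : circleMap 0 1 θ * z = circleMap 0 ‖z‖ (θ + Complex.arg z) := by
    have h1 := Complex.norm_mul_exp_arg_mul_I z
    unfold circleMap
    simp only [zero_add]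
    push_cast
    rw [add_mul, Complex.exp_add]
    nth_rewrite 1 [← h1]
    ring
  show ‖deriv f (circleMap 0 1 θ * z)‖ ^ t = ‖deriv f (circleMap 0 ‖z‖ (θ + Complex.arg z))‖ ^ t
  rw [h]

theorem rg_mono {f : ℂ → ℂ} (hf : DifferentiableOn ℂ f (ball 0 1)) (hi : InjOn f (ball 0 1))
    {t : ℝ} (ht : 0 < t) {r ρ : ℝ} (h0 : 0 ≤ r) (h : r ≤ ρ) (h1 : ρ < 1) :
    circleAverage (fun ζ => ‖deriv f ζ‖ ^ t) 0 r ≤ circleAverage (fun ζ => ‖deriv f ζ‖ ^ t) 0 ρ := by
  have hne : ∀ z ∈ ball (0 : ℂ) 1, deriv f z ≠ 0 := fun z hz => deriv_ne isOpen_ball hf hi hz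
  have hc : deriv f 0 ≠ 0 := hne 0 (mem_ball_self one_pos)
  have hd : DifferentiableOn ℂ (deriv f) (ball 0 1) := hf.deriv isOpen_ball
  obtain ⟨L, hL, -, hexp⟩ := log_disc (h := fun z => deriv f z / deriv f 0) (hd.div_const _)
    (fun z hz => div_ne_zero (hne z hz) hc) (div_self hc)
  set Q : ℂ → ℂ := fun z => ((‖deriv f 0‖ ^ (t / 2) : ℝ) : ℂ) * Complex.exp ((t / 2 : ℝ) * L z)
    with hQ
  have hQd : DifferentiableOn ℂ Q (ball 0 1) :=
    ((hL.const_mul _).cexp).const_mul _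
  obtain ⟨a, ha⟩ := ps_exists hQd
  have hpt : ∀ z ∈ ball (0 : ℂ) 1, ‖deriv f z‖ ^ t = ‖Q z‖ ^ 2 := by
    intro z hz
    have h2 : Complex.exp (L z) = deriv f z / deriv f 0 := (hexp z hz).1
    have h3 : ‖deriv f z‖ = ‖deriv f 0‖ * Real.exp (L z).re := by
      rw [← Complex.norm_exp, h2, norm_div]
      field_simp
    have hc' : 0 < ‖deriv f 0‖ := norm_pos_iff.mpr hc
    rw [hQ, norm_mul, Complex.norm_real, Complex.norm_exp, Complex.re_ofReal_mul,
      Real.norm_eq_abs, abs_of_pos (Real.rpow_pos_of_pos hc' _), mul_pow, ← Real.exp_nat_mul,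
      ← Real.rpow_natCast, ← Real.rpow_mul hc'.le, h3, Real.mul_rpow hc'.le (Real.exp_pos _).le,
      ← Real.exp_mul]
    congr 2
    · push_cast
      ring
    · push_cast
      ring
  have hcong : ∀ x : ℝ, 0 ≤ x → x < 1 → circleAverage (fun ζ => ‖deriv f ζ‖ ^ t) 0 x =
      circleAverage (fun ζ => ‖Q ζ‖ ^ 2) 0 x := by
    intro x hx0 hx1
    refine circleAverage_congr_sphere fun z hz => hpt z ?_
    rw [mem_sphere_zero_iff_norm, abs_of_nonneg hx0] at hz
    rw [mem_ball_zero_iff, hz]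
    exact hx1
  rw [hcong r h0 (h.trans_lt h1), hcong ρ (h0.trans h) h1]
  exact mean_mono ha h0 h h1

theorem rg_cont {f : ℂ → ℂ} (hf : DifferentiableOn ℂ f (ball 0 1)) {t : ℝ} (ht : 0 < t) :
    ContinuousOn (rg f t) (ball 0 1) := by
  have hd : DifferentiableOn ℂ (deriv f) (ball 0 1) := hf.deriv isOpen_ball
  have h1 : ContinuousOn (circleAverage (fun ζ => ‖deriv f ζ‖ ^ t) (0 : ℂ)) (Ico (0 : ℝ) 1) := by
    apply ContinuousOn.circleAverage
    · refine (hd.continuousOn.norm.rpow_const fun z _ => Or.inr ht.le).mono fun z hz => ?_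
      rw [mem_setOf_eq, sub_zero] at hz
      rw [mem_ball_zero_iff]
      exact hz.2
    · exact fun r hr => hr.1
  have h2 : rg f t = fun z => circleAverage (fun ζ => ‖deriv f ζ‖ ^ t) (0 : ℂ) ‖z‖ :=
    funext fun z => rg_radial t z
  rw [h2]
  refine h1.comp continuous_norm.continuousOn fun z hz => ⟨norm_nonneg z, ?_⟩
  simpa using hz

end Pool.Agent.Helper21.IM
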