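import Pool.Agent.Helper21.IM.Par

/-!
# IM-RM: means of the real part

`2 (Re W)² = ‖W‖² + Re (W²)` and the circle average of `W²` is `(W 0)² = 0`; `parseval_sq`.
-/

set_option autoImplicit false

namespace Pool.Agent.Helper21.IM

open Complex Metric Set Real Finset

private theorem ReMean_cont {P : ℂ → ℂ} {a : ℕ → ℂ} (hP : PS P a) {ρ : ℝ} (h0 : 0 ≤ ρ)
    (h1 : ρ < 1) : Continuous (fun θ : ℝ => P (circleMap 0 ρ θ)) := by
  have h2 : ContinuousOn P (ball 0 1) := (ps_diff hP).continuousOn
  refine h2.comp_continuous (continuous_circleMap 0 ρ) fun θ => ?_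
  rw [mem_ball_zero_iff, norm_circleMap_zero, abs_of_nonneg h0]
  exact h1

/-- the mean value -/
private theorem ReMean_avg {P : ℂ → ℂ} {a : ℕ → ℂ} (hP : PS P a) {ρ : ℝ} (h0 : 0 ≤ ρ)
    (h1 : ρ < 1) : circleAverage P 0 ρ = a 0 := by
  have h := parseval hP (ps_const 1) h0 h1
  have h2 : HasSum (fun m => a m * (starRingEnd ℂ) ((fun m : ℕ => if m = 0 then (1 : ℂ) else 0) m) *
      (ρ : ℂ) ^ (2 * m)) (a 0) := by
    have h3 := hasSum_ite_eq (0 : ℕ) (a 0)
    have h5 : (fun m => a m * (starRingEnd ℂ) ((fun m : ℕ => if m = 0 then (1 : ℂ) else 0) m) *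
        (ρ : ℂ) ^ (2 * m)) = fun m => if m = 0 then a 0 else 0 := by
      funext m
      by_cases hm : m = 0
      · subst hm
        simp
      · simp [hm]
    rw [h5]
    exact h3
  have h6 := h.unique h2
  have h7 : (fun z => P z * (starRingEnd ℂ) (1 : ℂ)) = P := by
    funext z
    rw [map_one, mul_one]
  rw [h7] at h6
  exact h6

/-- real parts commute with the mean -/
private theorem ReMean_re {P : ℂ → ℂ} {ρ : ℝ}
    (hc : Continuous (fun θ : ℝ => P (circleMap 0 ρ θ))) :
    circleAverage (fun z => (P z).re) 0 ρ = (circleAverage P 0 ρ).re := by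
  rw [circleAverage_def, circleAverage_def, Complex.smul_re, smul_eq_mul, smul_eq_mul]
  congr 1
  have h := Complex.reCLM.intervalIntegral_comp_comm (μ := MeasureTheory.volume)
    (hc.intervalIntegrable 0 (2 * π))
  exact h

theorem re_mean {W : ℂ → ℂ} {w : ℕ → ℂ} (hW : PS W w) (h0 : w 0 = 0) {s : ℝ} (hs : 0 ≤ s)
    (hs1 : s < 1) :
    circleAverage (fun z => (W z).re) 0 s = 0 ∧
      HasSum (fun m => ‖w m‖ ^ 2 / 2 * s ^ (2 * m)) (circleAverage (fun z => (W z).re ^ 2) 0 s) := by
  have hWc := ReMean_cont hW hs hs1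
  refine ⟨?_, ?_⟩
  · rw [ReMean_re hWc, ReMean_avg hW hs hs1, h0, Complex.zero_re]
  · have hW2 := ps_mul hW hW
    have hW2c := ReMean_cont hW2 hs hs1
    have h1 : circleAverage (fun z => (W z * W z).re) 0 s = 0 := by
      rw [ReMean_re hW2c, ReMean_avg hW2 hs hs1]
      simp [cv, h0]
    have h2 := parseval_sq hW hs hs1
    have h3 : circleAverage (fun z => (W z).re ^ 2) 0 s =
        circleAverage (fun z => ‖W z‖ ^ 2) 0 s / 2 := by
      have h4 : circleAverage (fun z => ‖W z‖ ^ 2) 0 s =
          2 * circleAverage (fun z => (W z).re ^ 2) 0 s -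
            circleAverage (fun z => (W z * W z).re) 0 s := by
        rw [circleAverage_def, circleAverage_def, circleAverage_def, smul_eq_mul, smul_eq_mul,
          smul_eq_mul, mul_left_comm, ← mul_sub]
        congr 1
        rw [← intervalIntegral.integral_const_mul, ← intervalIntegral.integral_sub]
        · congr 1
          funext θ
          rw [← Complex.normSq_eq_norm_sq, Complex.normSq_apply, Complex.mul_re]
          ring
        · refine Continuous.intervalIntegrable ?_ 0 (2 * π)
          exact continuous_const.mul ((Complex.continuous_re.comp hWc).pow 2)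
        · refine Continuous.intervalIntegrable ?_ 0 (2 * π)
          exact Complex.continuous_re.comp hW2c
      rw [h4, h1]
      ring
    rw [h3]
    have h5 := h2.div_const 2
    have h6 : (fun m => ‖w m‖ ^ 2 / 2 * s ^ (2 * m)) =
        fun m => ‖w m‖ ^ 2 * s ^ (2 * m) / 2 := by
      funext m
      ring
    rw [h6]
    exact h5

/-- the series of `log (1 + a ζ)` -/
theorem ps_log_one_add {a : ℂ} (ha : ‖a‖ ≤ 1) :
    PS (fun ζ => Complex.log (1 + a * ζ)) (fun m => - (-a) ^ m / m) := by
  intro z hz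
  rw [mem_ball_zero_iff] at hz
  have h1 : ‖-(a * z)‖ < 1 := by
    rw [norm_neg, norm_mul]
    exact (mul_le_of_le_one_left (norm_nonneg z) ha).trans_lt hz
  have h2 := (Complex.hasSum_taylorSeries_neg_log h1).neg
  have h3 : (fun m : ℕ => - (-a) ^ m / (m : ℂ) * z ^ m) =
      fun m : ℕ => -((-(a * z)) ^ m / (m : ℂ)) := by
    funext m
    have h4 : (-(a * z)) ^ m = (-a) ^ m * z ^ m := by
      rw [← mul_pow, neg_mul]
    rw [h4]
    ring
  have h5 : Complex.log (1 + a * z) = - -Complex.log (1 - -(a * z)) := by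
    rw [neg_neg, sub_neg_eq_add]
  show HasSum (fun m : ℕ => - (-a) ^ m / (m : ℂ) * z ^ m) (Complex.log (1 + a * z))
  rw [h3, h5]
  exact h2

end Pool.Agent.Helper21.IM
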