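import Pool.Agent.Helper21.IM.LogDisc
import Pool.Agent.Helper21.IM.Par
import Pool.Agent.Helper21.IM.Cover
import Pool.Agent.Helper21.IM.Area
import Pool.Agent.Helper21.IM.DerivNe

/-!
# IM-SE: the second coefficient of a normalised univalent function is bounded

Let `φ w = F w / w` (`dslope F 0 w`), analytic without zeros on the disc, `φ 0 = 1`,
`φ' 0 = F'' 0 / 2`; `φ = exp Λ` (`log_disc`); `H w = F' w * exp (-(5/4) Λ w)`, `H 0 = 1`,
`H' 0 = F'' 0 - (5/8) F'' 0 = (3/8) F'' 0`, `‖F' w‖² ‖F w‖^(-5/2) = ‖w‖^(-5/2) ‖H w‖²`.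
For `0 < ε < r < 1` and `A = ball 0 r \ ball 0 ε`, by `radial` and `parseval_sq` (first two terms)
`∫_A ‖w‖^(-5/2) ‖H w‖² ≥ ∫_ε^r 2 π ρ ρ^(-5/2) (1 + ‖H' 0‖² ρ²) dρ
   = 4 π (ε^(-1/2) - r^(-1/2)) + (4 π / 3) ‖H' 0‖² (r^(3/2) - ε^(3/2))`,
and by `area_change` the left side is at most `∫_{‖v‖ ≥ m(ε)} ‖v‖^(-5/2) dv = 4 π m(ε)^(-1/2)`, where
`m(ε) = ε (1 - K ε) ≤ min_{‖w‖ = ε} ‖F w‖` for small `ε` (`F w = w + O(w²)`; `cover` gives
`ball 0 m(ε) ⊆ F '' ball 0 ε`, and `F` is injective).  Let `ε → 0`: `m(ε)^(-1/2) - ε^(-1/2) → 0`, so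
`(1/3) ‖H' 0‖² r^(3/2) ≤ r^(-1/2)`; `r → 1`: `‖H' 0‖² ≤ 3` and `‖F'' 0‖ ≤ (8/3) √3 < 5`.
-/

set_option autoImplicit false

namespace Pool.Agent.Helper21.IM

open Complex Metric Set Real Finset MeasureTheory

private theorem Second_log {F : ℂ → ℂ} (hF : Sch F) :
    ∃ L : ℂ → ℂ, DifferentiableOn ℂ L (ball 0 1) ∧ L 0 = 0 ∧
      (∀ z ∈ ball (0 : ℂ) 1, F z = z * Complex.exp (L z)) ∧
      deriv L 0 = deriv (deriv F) 0 / 2 := by
  have h0m : (0 : ℂ) ∈ ball (0 : ℂ) 1 := by simp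
  set φ : ℂ → ℂ := dslope F 0 with hφ
  have hφd : DifferentiableOn ℂ φ (ball 0 1) :=
    (differentiableOn_dslope (isOpen_ball.mem_nhds h0m)).mpr hF.an
  have hφ0 : φ 0 = 1 := by rw [hφ, dslope_same, hF.d0]
  have hFφ : ∀ z, z * φ z = F z := by
    intro z
    have := sub_smul_dslope F 0 z
    rw [hF.z0, sub_zero, sub_zero, smul_eq_mul] at this
    exact this
  have hφn : ∀ z ∈ ball (0 : ℂ) 1, φ z ≠ 0 := by
    intro z hz h0
    by_cases hz0 : z = 0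
    · rw [hz0, hφ0] at h0
      exact one_ne_zero h0
    · apply hz0
      apply hF.inj hz h0m
      rw [← hFφ z, h0, mul_zero, hF.z0]
  obtain ⟨L, hLd, hL0, hL⟩ := log_disc hφd hφn hφ0
  refine ⟨L, hLd, hL0, fun z hz => by rw [(hL z hz).1, hFφ], ?_⟩
  rw [(hL 0 h0m).2.deriv, hφ0, div_one]
  obtain ⟨c, hc⟩ := ps_exists hφd
  have h1 := ps_congr (ps_zmul hc) (fun z _ => hFφ z)
  have h2 := ps_zero (ps_deriv (ps_deriv h1))
  have h3 := ps_zero (ps_deriv hc)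
  rw [h2, h3]
  simp
  ring

private theorem Second_H {F : ℂ → ℂ} (hF : Sch F) :
    ∃ H : ℂ → ℂ, DifferentiableOn ℂ H (ball 0 1) ∧ H 0 = 1 ∧
      deriv H 0 = 3 / 8 * deriv (deriv F) 0 ∧
      ∀ z ∈ ball (0 : ℂ) 1, ‖deriv F z‖ ^ 2 * ‖F z‖ ^ (-(5 / 2) : ℝ) =
        ‖z‖ ^ (-(5 / 2) : ℝ) * ‖H z‖ ^ 2 := by
  have h0m : (0 : ℂ) ∈ ball (0 : ℂ) 1 := by simp
  obtain ⟨L, hLd, hL0, hFL, hL1⟩ := Second_log hF
  have hdF : DifferentiableOn ℂ (deriv F) (ball 0 1) := hF.an.deriv isOpen_ball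
  have hE : DifferentiableOn ℂ (fun z => Complex.exp (-(5 / 4) * L z)) (ball 0 1) :=
    (hLd.const_mul _).cexp
  refine ⟨fun z => deriv F z * Complex.exp (-(5 / 4) * L z), hdF.mul hE, ?_, ?_, ?_⟩
  · simp [hF.d0, hL0]
  · have a1 : HasDerivAt (deriv F) (deriv (deriv F) 0) 0 :=
      (hdF.differentiableAt (isOpen_ball.mem_nhds h0m)).hasDerivAt
    have a2 : HasDerivAt L (deriv (deriv F) 0 / 2) 0 := by
      rw [← hL1]
      exact (hLd.differentiableAt (isOpen_ball.mem_nhds h0m)).hasDerivAt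
    have a3 := a1.mul (a2.const_mul (-(5 / 4) : ℂ)).cexp
    rw [hL0, mul_zero, Complex.exp_zero, hF.d0] at a3
    have a4 := a3.deriv
    simp only [Pi.mul_def] at a4
    rw [a4]
    ring
  · intro z hz
    rw [norm_mul, hFL z hz, norm_mul, Complex.norm_exp, Complex.norm_exp,
      Real.mul_rpow (norm_nonneg _) (Real.exp_pos _).le, mul_pow, ← Real.exp_mul,
      ← Real.exp_nat_mul]
    have e1 : (L z).re * -(5 / 2) = ((2 : ℕ) : ℝ) * (-(5 / 4) * L z).re := by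
      have : (-(5 / 4) * L z).re = -(5 / 4) * (L z).re := by
        have : (-(5 / 4) : ℂ) = ((-(5 / 4) : ℝ) : ℂ) := by push_cast; ring
        rw [this, Complex.re_ofReal_mul]
      rw [this]
      push_cast
      ring
    rw [e1]
    have : deriv F z = deriv F z := rfl
    ring

private theorem Second_avg {H : ℂ → ℂ} (hH : DifferentiableOn ℂ H (ball 0 1)) (h0 : H 0 = 1)
    {ρ : ℝ} (hρ : 0 < ρ) (hρ1 : ρ < 1) :
    ρ ^ (-(5 / 2) : ℝ) * (1 + ‖deriv H 0‖ ^ 2 * ρ ^ 2) ≤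
      circleAverage (fun z => ‖z‖ ^ (-(5 / 2) : ℝ) * ‖H z‖ ^ 2) 0 ρ := by
  obtain ⟨a, ha⟩ := ps_exists hH
  have e0 : a 0 = 1 := by rw [← ps_zero ha, h0]
  have e1 : deriv H 0 = a 1 := by
    have := ps_zero (ps_deriv ha)
    simpa using this
  have h1 := sum_le_hasSum (Finset.range 2) (fun m _ => by positivity)
    (parseval_sq ha hρ.le hρ1)
  rw [Finset.sum_range_succ, Finset.sum_range_one, e0] at h1
  have h2 : circleAverage (fun z => ‖z‖ ^ (-(5 / 2) : ℝ) * ‖H z‖ ^ 2) 0 ρ =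
      ρ ^ (-(5 / 2) : ℝ) * circleAverage (fun z => ‖H z‖ ^ 2) 0 ρ := by
    rw [circleAverage_def, circleAverage_def]
    have : ∀ θ : ℝ, ‖circleMap 0 ρ θ‖ ^ (-(5 / 2) : ℝ) * ‖H (circleMap 0 ρ θ)‖ ^ 2 =
        ρ ^ (-(5 / 2) : ℝ) * ‖H (circleMap 0 ρ θ)‖ ^ 2 := by
      intro θ
      rw [norm_circleMap_zero, abs_of_pos hρ]
    simp only [this]
    rw [intervalIntegral.integral_const_mul, smul_eq_mul, smul_eq_mul]
    ring
  rw [h2, e1]
  apply mul_le_mul_of_nonneg_left _ (by positivity)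
  simpa using h1

private theorem Second_upper {m : ℝ} (hm : 0 < m) :
    ∫⁻ v in {v : ℂ | m ≤ ‖v‖}, ENNReal.ofReal (‖v‖ ^ (-(5 / 2) : ℝ)) =
      ENNReal.ofReal (4 * π * m ^ (-(1 / 2) : ℝ)) := by
  set f : ℝ → ℝ := (Ici m).indicator (fun y => y ^ (-(5 / 2) : ℝ)) with hf
  have hS : MeasurableSet {v : ℂ | m ≤ ‖v‖} := measurableSet_le measurable_const measurable_norm
  have hind : ∀ v : ℂ, {v : ℂ | m ≤ ‖v‖}.indicator (fun v => ‖v‖ ^ (-(5 / 2) : ℝ)) v = f ‖v‖ := by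
    intro v
    rw [hf]
    by_cases h : m ≤ ‖v‖
    · rw [Set.indicator_of_mem (show v ∈ {v : ℂ | m ≤ ‖v‖} from h),
        Set.indicator_of_mem (show ‖v‖ ∈ Ici m from h)]
    · rw [Set.indicator_of_notMem (show v ∉ {v : ℂ | m ≤ ‖v‖} from h),
        Set.indicator_of_notMem (show ‖v‖ ∉ Ici m from h)]
  have hdim : Module.finrank ℝ ℂ = 2 := Complex.finrank_real_complex
  have hfy : ∀ y ∈ Ioi (0 : ℝ), y ^ (2 - 1) • f y =
      (Ici m).indicator (fun y => y ^ (-(3 / 2) : ℝ)) y := by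
    intro y hy
    have hy0 : (0 : ℝ) < y := hy
    rw [hf]
    by_cases h : m ≤ y
    · rw [Set.indicator_of_mem (show y ∈ Ici m from h), Set.indicator_of_mem (show y ∈ Ici m from h)]
      rw [smul_eq_mul]
      rw [show (2 - 1 : ℕ) = 1 by norm_num, pow_one]
      nth_rewrite 1 [← Real.rpow_one y]
      rw [← Real.rpow_add hy0]
      norm_num
    · rw [Set.indicator_of_notMem (show y ∉ Ici m from h),
        Set.indicator_of_notMem (show y ∉ Ici m from h), smul_zero]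
  have hint1 : IntegrableOn (fun y : ℝ => y ^ (-(3 / 2) : ℝ)) (Ici m) :=
    (integrableOn_Ici_iff_integrableOn_Ioi).mpr (integrableOn_Ioi_rpow_of_lt (by norm_num) hm)
  have hint2 : IntegrableOn (fun y : ℝ => y ^ (2 - 1) • f y) (Ioi 0) := by
    rw [integrableOn_congr_fun hfy measurableSet_Ioi]
    exact ((integrable_indicator_iff measurableSet_Ici).mpr hint1).integrableOn
  have hint3 : Integrable (fun v : ℂ => f ‖v‖) := by
    rw [integrable_fun_norm_addHaar (μ := volume) (E := ℂ) (f := f), hdim]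
    exact hint2
  have hval : ∫ v : ℂ, f ‖v‖ = 4 * π * m ^ (-(1 / 2) : ℝ) := by
    rw [integral_fun_norm_addHaar (μ := volume) (E := ℂ) f, hdim,
      setIntegral_congr_fun measurableSet_Ioi hfy, setIntegral_indicator measurableSet_Ici]
    have e1 : Ioi (0 : ℝ) ∩ Ici m = Ici m := by
      apply Set.inter_eq_right.mpr
      intro y hy
      exact lt_of_lt_of_le hm hy
    rw [e1, integral_Ici_eq_integral_Ioi, integral_Ioi_rpow_of_lt (by norm_num) hm]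
    have e2 : (volume : Measure ℂ).real (ball (0 : ℂ) 1) = π := by
      rw [Measure.real, Complex.volume_ball]
      simp
    rw [e2]
    norm_num
    ring
  rw [← lintegral_indicator hS]
  have e3 : ∀ v : ℂ, {v : ℂ | m ≤ ‖v‖}.indicator
      (fun v => ENNReal.ofReal (‖v‖ ^ (-(5 / 2) : ℝ))) v = ENNReal.ofReal (f ‖v‖) := by
    intro v
    rw [← hind v]
    by_cases h : m ≤ ‖v‖
    · rw [Set.indicator_of_mem (show v ∈ {v : ℂ | m ≤ ‖v‖} from h),
        Set.indicator_of_mem (show v ∈ {v : ℂ | m ≤ ‖v‖} from h)]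
    · rw [Set.indicator_of_notMem (show v ∉ {v : ℂ | m ≤ ‖v‖} from h),
        Set.indicator_of_notMem (show v ∉ {v : ℂ | m ≤ ‖v‖} from h), ENNReal.ofReal_zero]
  simp only [e3]
  rw [← hval, ofReal_integral_eq_lintegral_ofReal hint3]
  apply Filter.Eventually.of_forall
  intro v
  rw [hf]
  apply Set.indicator_nonneg
  intro y hy
  exact Real.rpow_nonneg (hm.le.trans hy) _

private theorem Second_main {F : ℂ → ℂ} (hF : Sch F) {H : ℂ → ℂ}
    (hHd : DifferentiableOn ℂ H (ball 0 1)) (hH0 : H 0 = 1)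
    (hHF : ∀ z ∈ ball (0 : ℂ) 1, ‖deriv F z‖ ^ 2 * ‖F z‖ ^ (-(5 / 2) : ℝ) =
        ‖z‖ ^ (-(5 / 2) : ℝ) * ‖H z‖ ^ 2)
    {ε R m : ℝ} (hε : 0 < ε) (hεR : ε < R) (hR : R < 1) (hm : 0 < m)
    (hmF : ∀ w ∈ sphere (0 : ℂ) ε, m ≤ ‖F w‖) :
    4 * π * (ε ^ (-(1 / 2) : ℝ) - R ^ (-(1 / 2) : ℝ)) +
      4 * π / 3 * ‖deriv H 0‖ ^ 2 * (R ^ (3 / 2 : ℝ) - ε ^ (3 / 2 : ℝ)) ≤
      4 * π * m ^ (-(1 / 2) : ℝ) := by
  have hRs : ball (0 : ℂ) R ⊆ ball 0 1 := ball_subset_ball hR.le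
  have hA : MeasurableSet (ball (0 : ℂ) R \ ball 0 ε) := measurableSet_ball.diff measurableSet_ball
  have hAU : ball (0 : ℂ) R \ ball 0 ε ⊆ ball 0 1 := Set.sdiff_subset.trans hRs
  have hnz : ∀ w ∈ ball (0 : ℂ) R \ ball 0 ε, 0 < ‖w‖ := by
    intro w hw
    have : ε ≤ ‖w‖ := by
      have := hw.2
      rw [mem_ball_zero_iff, not_lt] at this
      exact this
    linarith
  have h1 := radial (h := fun z => ‖z‖ ^ (-(5 / 2) : ℝ) * ‖H z‖ ^ 2)
    (φ := fun ρ => ρ ^ (-(5 / 2) : ℝ) * (1 + ‖deriv H 0‖ ^ 2 * ρ ^ 2)) hε hεR ?_ ?_ ?_ ?_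
  · have h2 : ∫⁻ w in ball (0 : ℂ) R \ ball 0 ε,
        ENNReal.ofReal (‖w‖ ^ (-(5 / 2) : ℝ) * ‖H w‖ ^ 2) =
        ∫⁻ w in ball (0 : ℂ) R \ ball 0 ε, ENNReal.ofReal (‖deriv F w‖ ^ 2) *
          (fun v : ℂ => ENNReal.ofReal (‖v‖ ^ (-(5 / 2) : ℝ))) (F w) := by
      apply setLIntegral_congr_fun hA
      intro w hw
      show ENNReal.ofReal (‖w‖ ^ (-(5 / 2) : ℝ) * ‖H w‖ ^ 2) =
        ENNReal.ofReal (‖deriv F w‖ ^ 2) * ENNReal.ofReal (‖F w‖ ^ (-(5 / 2) : ℝ))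
      rw [← ENNReal.ofReal_mul (by positivity), hHF w (hAU hw)]
    rw [h2, area_change isOpen_ball hF.an hF.inj hA hAU
      (fun v : ℂ => ENNReal.ofReal (‖v‖ ^ (-(5 / 2) : ℝ)))] at h1
    have h3 : F '' (ball (0 : ℂ) R \ ball 0 ε) ⊆ {v : ℂ | m ≤ ‖v‖} := by
      rintro v ⟨w, hw, rfl⟩
      show m ≤ ‖F w‖
      by_contra hlt
      push Not at hlt
      have h4 : F w ∈ ball (F 0) m := by
        rw [hF.z0, mem_ball_zero_iff]
        exact hlt
      have h5 := cover isOpen_ball hF.an hε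
        (show closedBall (0 : ℂ) ε ⊆ ball 0 1 from closedBall_subset_ball (by linarith)) hm
        (fun w hw => by rw [hF.z0, sub_zero]; exact hmF w hw) h4
      obtain ⟨w', hw', he⟩ := h5
      have h6 : w' ∈ ball (0 : ℂ) 1 := ball_subset_ball (by linarith) hw'
      have h7 := hF.inj h6 (hAU hw) he
      rw [h7] at hw'
      exact hw.2 hw'
    have h4 := h1.trans ((lintegral_mono_set h3).trans (Second_upper hm).le)
    have h5 := (ENNReal.ofReal_le_ofReal_iff (by positivity)).mp h4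
    have h6 : ∫ r in ε..R, 2 * π * r * (r ^ (-(5 / 2) : ℝ) * (1 + ‖deriv H 0‖ ^ 2 * r ^ 2)) =
        4 * π * (ε ^ (-(1 / 2) : ℝ) - R ^ (-(1 / 2) : ℝ)) +
      4 * π / 3 * ‖deriv H 0‖ ^ 2 * (R ^ (3 / 2 : ℝ) - ε ^ (3 / 2 : ℝ)) := by
      have h0 : (0 : ℝ) ∉ Set.uIcc ε R := by
        rw [Set.uIcc_of_le hεR.le]
        intro h
        linarith [h.1]
      have h7 : ∫ r in ε..R, 2 * π * r * (r ^ (-(5 / 2) : ℝ) * (1 + ‖deriv H 0‖ ^ 2 * r ^ 2)) =
          ∫ r in ε..R, (2 * π * r ^ (-(3 / 2) : ℝ) +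
            2 * π * ‖deriv H 0‖ ^ 2 * r ^ (1 / 2 : ℝ)) := by
        apply intervalIntegral.integral_congr
        intro r hr
        rw [Set.uIcc_of_le hεR.le] at hr
        have hr0 : 0 < r := by linarith [hr.1]
        have e1 : r * r ^ (-(5 / 2) : ℝ) = r ^ (-(3 / 2) : ℝ) := by
          nth_rewrite 1 [← Real.rpow_one r]
          rw [← Real.rpow_add hr0]
          norm_num
        have e2 : r * r ^ (-(5 / 2) : ℝ) * r ^ 2 = r ^ (1 / 2 : ℝ) := by
          rw [e1, ← Real.rpow_natCast r 2, ← Real.rpow_add hr0]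
          norm_num
        show 2 * π * r * (r ^ (-(5 / 2) : ℝ) * (1 + ‖deriv H 0‖ ^ 2 * r ^ 2)) =
          2 * π * r ^ (-(3 / 2) : ℝ) + 2 * π * ‖deriv H 0‖ ^ 2 * r ^ (1 / 2 : ℝ)
        rw [← e2, ← e1]
        ring
      have i1 : IntervalIntegrable (fun r : ℝ => r ^ (-(3 / 2) : ℝ)) volume ε R :=
        intervalIntegral.intervalIntegrable_rpow (Or.inr h0)
      have i2 : IntervalIntegrable (fun r : ℝ => r ^ (1 / 2 : ℝ)) volume ε R :=
        intervalIntegral.intervalIntegrable_rpow (Or.inr h0)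
      rw [h7, intervalIntegral.integral_add (i1.const_mul _) (i2.const_mul _),
        intervalIntegral.integral_const_mul, intervalIntegral.integral_const_mul,
        integral_rpow (Or.inr ⟨by norm_num, h0⟩), integral_rpow (Or.inl (by norm_num))]
      have e3 : (-(3 / 2) + 1 : ℝ) = -(1 / 2) := by norm_num
      have e4 : (1 / 2 + 1 : ℝ) = 3 / 2 := by norm_num
      rw [e3, e4]
      ring
    rw [h6] at h5
    exact h5
  · apply ContinuousOn.mul
    · apply ContinuousOn.rpow_const continuous_norm.continuousOn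
      intro w hw
      exact Or.inl (hnz w hw).ne'
    · exact ((hHd.continuousOn.mono hAU).norm).pow 2
  · intro w _
    positivity
  · apply ContinuousOn.mul
    · apply ContinuousOn.rpow_const continuousOn_id
      intro r hr
      exact Or.inl (by show r ≠ 0; linarith [hr.1])
    · fun_prop
  · intro r hr
    exact Second_avg hHd hH0 (by linarith [hr.1]) (by linarith [hr.2])

private theorem Second_small {F : ℂ → ℂ} (hF : Sch F) :
    ∃ K δ : ℝ, 0 < K ∧ 0 < δ ∧ ∀ w : ℂ, ‖w‖ < δ → ‖w‖ * (1 - K * ‖w‖) ≤ ‖F w‖ := by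
  have h0m : (0 : ℂ) ∈ ball (0 : ℂ) 1 := by simp
  obtain ⟨L, hLd, hL0, hFL, -⟩ := Second_log hF
  have hE : DifferentiableAt ℂ (fun z => Complex.exp (L z)) 0 :=
    (hLd.differentiableAt (isOpen_ball.mem_nhds h0m)).cexp
  obtain ⟨K, hK⟩ := hE.isBigO_sub.bound
  rw [Metric.eventually_nhds_iff] at hK
  obtain ⟨δ, hδ, hK⟩ := hK
  refine ⟨|K| + 1, min δ 1, by positivity, by positivity, ?_⟩
  intro w hw
  have hw1 : ‖w‖ < 1 := lt_of_lt_of_le hw (min_le_right _ _)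
  have hwd : dist w 0 < δ := by
    rw [dist_zero_right]
    exact lt_of_lt_of_le hw (min_le_left _ _)
  have h1 := hK hwd
  rw [hL0, Complex.exp_zero, sub_zero] at h1
  rw [hFL w (by rw [mem_ball_zero_iff]; exact hw1), norm_mul]
  apply mul_le_mul_of_nonneg_left _ (norm_nonneg _)
  have h2 : 1 - ‖Complex.exp (L w) - 1‖ ≤ ‖Complex.exp (L w)‖ := by
    have := norm_sub_norm_le (1 : ℂ) (1 - Complex.exp (L w))
    rw [norm_one, norm_sub_rev] at this
    simpa using this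
  have h3 : K * ‖w‖ ≤ (|K| + 1) * ‖w‖ := by
    apply mul_le_mul_of_nonneg_right _ (norm_nonneg _)
    linarith [le_abs_self K]
  linarith

theorem second_coeff {F : ℂ → ℂ} (hF : Sch F) : ‖deriv (deriv F) 0‖ ≤ 5 := by
  obtain ⟨H, hHd, hH0, hH1, hHF⟩ := Second_H hF
  obtain ⟨K, δ, hK, hδ, hKF⟩ := Second_small hF
  by_contra hlt
  push Not at hlt
  have hh : 7 / 2 ≤ ‖deriv H 0‖ ^ 2 := by
    rw [hH1, norm_mul, mul_pow]
    have : ‖(3 / 8 : ℂ)‖ = 3 / 8 := by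
      rw [show (3 / 8 : ℂ) = ((3 / 8 : ℝ) : ℂ) by push_cast; ring, Complex.norm_real]
      norm_num
    rw [this]
    nlinarith
  set h2 := ‖deriv H 0‖ ^ 2 with hh2
  -- choice of the radii
  set s : ℝ := min (1 / 10) (min (δ / 2) (1 / (100 * K))) with hs
  have hs0 : 0 < s := by positivity
  have hs1 : s ≤ 1 / 10 := min_le_left _ _
  have hs2 : s ≤ δ / 2 := (min_le_right _ _).trans (min_le_left _ _)
  have hs3 : K * s ≤ 1 / 100 := by
    have : s ≤ 1 / (100 * K) := (min_le_right _ _).trans (min_le_right _ _)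
    calc K * s ≤ K * (1 / (100 * K)) := mul_le_mul_of_nonneg_left this hK.le
      _ = 1 / 100 := by field_simp
  have hss : s ^ 2 ≤ s * (1 / 10) := by nlinarith
  have hε : (0 : ℝ) < s ^ 2 := by positivity
  have hKs : K * s ^ 2 ≤ 1 / 1000 := by nlinarith
  set q : ℝ := 99 / 100 with hq
  have hm : 0 < s ^ 2 * (1 - K * s ^ 2) := mul_pos hε (by linarith)
  have key := Second_main hF hHd hH0 hHF (ε := s ^ 2) (R := q ^ 2) (m := s ^ 2 * (1 - K * s ^ 2))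
    hε (by rw [hq]; nlinarith) (by rw [hq]; norm_num) hm (by
      intro w hw
      have hw' : ‖w‖ = s ^ 2 := by simpa using hw
      have := hKF w (by rw [hw']; nlinarith)
      rw [hw'] at this
      exact this)
  have p1 : ∀ x : ℝ, 0 < x → (x ^ 2) ^ (-(1 / 2) : ℝ) = 1 / x := by
    intro x hx
    rw [← Real.rpow_natCast x 2, ← Real.rpow_mul hx.le]
    norm_num
    rw [Real.rpow_neg_one]
  have p2 : ∀ x : ℝ, 0 < x → (x ^ 2) ^ (3 / 2 : ℝ) = x ^ 3 := by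
    intro x hx
    rw [← Real.rpow_natCast x 2, ← Real.rpow_mul hx.le, ← Real.rpow_natCast x 3]
    norm_num
  have hq0 : 0 < q := by rw [hq]; norm_num
  have p3 : (s ^ 2 * (1 - K * s ^ 2)) ^ (-(1 / 2) : ℝ) ≤ 1 / s * (1 + K * s ^ 2) := by
    have hx : 0 < 1 - K * s ^ 2 := by linarith
    have hKs0 : 0 < K * s ^ 2 := by positivity
    rw [Real.mul_rpow hε.le hx.le, p1 s hs0]
    apply mul_le_mul_of_nonneg_left _ (by positivity)
    have hge : 1 / (1 + K * s ^ 2) ^ 2 ≤ 1 - K * s ^ 2 := by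
      rw [div_le_iff₀ (by positivity)]
      nlinarith [mul_pos hKs0 hKs0]
    calc (1 - K * s ^ 2) ^ (-(1 / 2) : ℝ) ≤ ((1 / (1 + K * s ^ 2)) ^ 2) ^ (-(1 / 2) : ℝ) := by
          apply Real.rpow_le_rpow_of_nonpos (by positivity) _ (by norm_num)
          rw [div_pow, one_pow]
          exact hge
      _ = 1 + K * s ^ 2 := by
          rw [p1 _ (by positivity), one_div_one_div]
  rw [p1 s hs0, p1 q hq0, p2 s hs0, p2 q hq0] at key
  have hpi := Real.pi_pos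
  have key2 : (1 / s - 1 / q) + 1 / 3 * h2 * (q ^ 3 - s ^ 3) ≤ 1 / s * (1 + K * s ^ 2) := by
    have h4 : 4 * π * ((1 / s - 1 / q) + 1 / 3 * h2 * (q ^ 3 - s ^ 3)) ≤
        4 * π * (1 / s * (1 + K * s ^ 2)) := by
      calc 4 * π * ((1 / s - 1 / q) + 1 / 3 * h2 * (q ^ 3 - s ^ 3)) =
          4 * π * (1 / s - 1 / q) + 4 * π / 3 * h2 * (q ^ 3 - s ^ 3) := by ring
        _ ≤ 4 * π * (s ^ 2 * (1 - K * s ^ 2)) ^ (-(1 / 2) : ℝ) := key
        _ ≤ _ := mul_le_mul_of_nonneg_left p3 (by positivity)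
    exact le_of_mul_le_mul_left h4 (by positivity)
  have e5 : 1 / s * (1 + K * s ^ 2) = 1 / s + K * s := by field_simp
  rw [e5] at key2
  have hs4 : s ^ 3 ≤ 1 / 1000 := by
    calc s ^ 3 ≤ (1 / 10) ^ 3 := pow_le_pow_left₀ hs0.le hs1 3
      _ = 1 / 1000 := by norm_num
  have e6 : 1 / q = 100 / 99 := by rw [hq]; norm_num
  have e7 : q ^ 3 = 970299 / 1000000 := by rw [hq]; norm_num
  rw [e6, e7] at key2
  nlinarith

end Pool.Agent.Helper21.IM
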