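import Pool.Agent.Helper21.IM.Koebe

/-!
# IM-TO1: the circle average operator on `‖f'‖^t`

`kt_deriv`: `f' (mob z ζ) = (kt f z)' ζ * f' z * (1 + conj z ζ)²`, and `Sch (kt f z)`.
`t_one_avg`: for `‖ω‖ = 1` the function `f (ω ·)` is univalent with derivative `ω f' (ω z)`; average
`t_one` for these functions over `ω` and exchange the two circle averages (continuous functions).
-/

set_option autoImplicit false

namespace Pool.Agent.Helper21.IM

open Complex Metric Set Real Finset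

theorem t_one {f : ℂ → ℂ} (hf : DifferentiableOn ℂ f (ball 0 1)) (hi : InjOn f (ball 0 1))
    {s t A : ℝ} (hs : 0 < s) (hs1 : s < 1) (ht : 0 < t)
    (hA : ∀ F : ℂ → ℂ, Sch F → ∀ a ∈ closedBall (0 : ℂ) 1,
      circleAverage (fun ζ => ‖deriv F ζ‖ ^ t * ‖1 + (starRingEnd ℂ) a * ζ‖ ^ (2 * t)) 0 s ≤ A)
    {z : ℂ} (hz : z ∈ ball (0 : ℂ) 1) :
    circleAverage (fun ζ => ‖deriv f (mob z ζ)‖ ^ t) 0 s ≤ A * ‖deriv f z‖ ^ t := by
  have _ := ht
  have h0 := deriv_ne isOpen_ball hf hi hz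
  have hcong : circleAverage (fun ζ => ‖deriv f (mob z ζ)‖ ^ t) 0 s =
      circleAverage (fun ζ => ‖deriv f z‖ ^ t *
        (‖deriv (kt f z) ζ‖ ^ t * ‖1 + (starRingEnd ℂ) z * ζ‖ ^ (2 * t))) 0 s := by
    apply circleAverage_congr_sphere
    intro ζ hζ
    have hζ1 : ζ ∈ ball (0 : ℂ) 1 := by
      rw [mem_sphere_zero_iff_norm, abs_of_pos hs] at hζ
      rw [mem_ball_zero_iff, hζ]
      exact hs1
    have hne := one_add_ne (ball_subset_closedBall hz) hζ1
    have h1 : deriv f (mob z ζ) =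
        deriv (kt f z) ζ * (deriv f z * (1 + (starRingEnd ℂ) z * ζ) ^ 2) := by
      rw [kt_deriv hf hi hz hζ1]
      field_simp
    show ‖deriv f (mob z ζ)‖ ^ t = ‖deriv f z‖ ^ t *
        (‖deriv (kt f z) ζ‖ ^ t * ‖1 + (starRingEnd ℂ) z * ζ‖ ^ (2 * t))
    rw [h1, norm_mul, norm_mul, norm_pow, Real.mul_rpow (norm_nonneg _) (by positivity),
      Real.mul_rpow (norm_nonneg _) (by positivity), Real.rpow_mul (norm_nonneg _)]
    rw [show ‖1 + (starRingEnd ℂ) z * ζ‖ ^ (2 : ℝ) = ‖1 + (starRingEnd ℂ) z * ζ‖ ^ 2 by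
      norm_cast]
    ring
  rw [hcong]
  have h2 := circleAverage_fun_smul (a := ‖deriv f z‖ ^ t)
    (f := fun ζ => ‖deriv (kt f z) ζ‖ ^ t * ‖1 + (starRingEnd ℂ) z * ζ‖ ^ (2 * t)) (c := 0) (R := s)
  simp only [smul_eq_mul] at h2
  rw [h2, mul_comm]
  refine mul_le_mul_of_nonneg_right ?_ (by positivity)
  exact hA _ (kt_sch hf hi hz) z (ball_subset_closedBall hz)

/-- rotational average of `‖f'‖^t` -/
noncomputable def rg (f : ℂ → ℂ) (t : ℝ) (z : ℂ) : ℝ :=
  circleAverage (fun ω => ‖deriv f (ω * z)‖ ^ t) 0 1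

private theorem TOne_swap {f : ℝ × ℝ → ℝ} (hf : Continuous f) :
    ∫ x in (0 : ℝ)..2 * π, ∫ y in (0 : ℝ)..2 * π, f (x, y) =
      ∫ y in (0 : ℝ)..2 * π, ∫ x in (0 : ℝ)..2 * π, f (x, y) := by
  refine MeasureTheory.intervalIntegral_intervalIntegral_swap (F := fun x y => f (x, y)) ?_
  have h1 : MeasureTheory.IntegrableOn f (uIcc 0 (2 * π) ×ˢ uIcc 0 (2 * π)) :=
    hf.continuousOn.integrableOn_compact (isCompact_uIcc.prod isCompact_uIcc)
  exact h1.mono_set (Set.prod_mono Set.uIoc_subset_uIcc Set.uIoc_subset_uIcc)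

private theorem TOne_rot {f : ℂ → ℂ} (hf : DifferentiableOn ℂ f (ball 0 1))
    (hi : InjOn f (ball 0 1)) {ω : ℂ} (hω : ‖ω‖ = 1) :
    DifferentiableOn ℂ (fun z => f (ω * z)) (ball 0 1) ∧ InjOn (fun z => f (ω * z)) (ball 0 1) ∧
      ∀ z ∈ ball (0 : ℂ) 1, ‖deriv (fun z => f (ω * z)) z‖ = ‖deriv f (ω * z)‖ := by
  have hmem : ∀ z ∈ ball (0 : ℂ) 1, ω * z ∈ ball (0 : ℂ) 1 := by
    intro z hz
    rw [mem_ball_zero_iff] at hz ⊢
    rwa [norm_mul, hω, one_mul]
  have hω0 : ω ≠ 0 := by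
    intro h
    rw [h, norm_zero] at hω
    exact zero_ne_one hω
  have hd : ∀ z ∈ ball (0 : ℂ) 1, HasDerivAt (fun z => f (ω * z)) (deriv f (ω * z) * ω) z := by
    intro z hz
    have h1 : HasDerivAt f (deriv f (ω * z)) (ω * z) :=
      (hf.differentiableAt (isOpen_ball.mem_nhds (hmem z hz))).hasDerivAt
    have h2 : HasDerivAt (fun z : ℂ => ω * z) ω z := by
      simpa using (hasDerivAt_id z).const_mul ω
    exact h1.comp z h2
  refine ⟨fun z hz => (hd z hz).differentiableAt.differentiableWithinAt, ?_, ?_⟩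
  · intro x hx y hy hxy
    have h1 := hi (hmem x hx) (hmem y hy) hxy
    exact mul_left_cancel₀ hω0 h1
  · intro z hz
    rw [(hd z hz).deriv, norm_mul, hω, mul_one]

theorem t_one_avg {f : ℂ → ℂ} (hf : DifferentiableOn ℂ f (ball 0 1)) (hi : InjOn f (ball 0 1))
    {s t A : ℝ} (hs : 0 < s) (hs1 : s < 1) (ht : 0 < t)
    (hA : ∀ F : ℂ → ℂ, Sch F → ∀ a ∈ closedBall (0 : ℂ) 1,
      circleAverage (fun ζ => ‖deriv F ζ‖ ^ t * ‖1 + (starRingEnd ℂ) a * ζ‖ ^ (2 * t)) 0 s ≤ A)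
    {z : ℂ} (hz : z ∈ ball (0 : ℂ) 1) :
    circleAverage (fun ζ => rg f t (mob z ζ)) 0 s ≤ A * rg f t z := by
  have hsph : ∀ θ : ℝ, ‖circleMap 0 1 θ‖ = 1 := fun θ => by simp [norm_circleMap_zero]
  have hball : ∀ θ : ℝ, circleMap 0 s θ ∈ ball (0 : ℂ) 1 := fun θ => by
    rw [mem_ball_zero_iff, norm_circleMap_zero, abs_of_pos hs]
    exact hs1
  have hmob : ∀ θ : ℝ, mob z (circleMap 0 s θ) ∈ ball (0 : ℂ) 1 := fun θ => mob_mem hz (hball θ)
  have hin : ∀ (w : ℂ), w ∈ ball (0 : ℂ) 1 → ∀ φ : ℝ, circleMap 0 1 φ * w ∈ ball (0 : ℂ) 1 := by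
    intro w hw φ
    rw [mem_ball_zero_iff] at hw ⊢
    rwa [norm_mul, hsph, one_mul]
  have hfc : ContinuousOn (deriv f) (ball 0 1) := (hf.deriv isOpen_ball).continuousOn
  have hmc : Continuous (fun θ : ℝ => mob z (circleMap 0 s θ)) := by
    unfold mob
    refine Continuous.div ?_ ?_ ?_
    · fun_prop
    · fun_prop
    · intro θ
      exact one_add_ne (ball_subset_closedBall hz) (hball θ)
  -- the function of two variables
  have hH : Continuous (fun q : ℝ × ℝ =>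
      ‖deriv f (circleMap 0 1 q.2 * mob z (circleMap 0 s q.1))‖ ^ t) := by
    have h1 : Continuous (fun q : ℝ × ℝ => circleMap 0 1 q.2 * mob z (circleMap 0 s q.1)) := by
      refine Continuous.mul ?_ (hmc.comp continuous_fst)
      exact (continuous_circleMap 0 1).comp continuous_snd
    have h2 := hfc.comp_continuous h1 (fun q => hin _ (hmob q.1) q.2)
    exact h2.norm.rpow_const (fun q => Or.inr ht.le)
  have e1 : circleAverage (fun ζ => rg f t (mob z ζ)) 0 s =
      (2 * π)⁻¹ * ∫ φ in (0 : ℝ)..2 * π, circleAverage (fun ζ =>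
        ‖deriv f (circleMap 0 1 φ * mob z ζ)‖ ^ t) 0 s := by
    have h1 := TOne_swap hH
    rw [circleAverage_def]
    simp only [rg, circleAverage_def, smul_eq_mul]
    rw [intervalIntegral.integral_const_mul, intervalIntegral.integral_const_mul]
    rw [h1]
  have e2 : A * rg f t z = (2 * π)⁻¹ * ∫ φ in (0 : ℝ)..2 * π,
      A * ‖deriv f (circleMap 0 1 φ * z)‖ ^ t := by
    simp only [rg, circleAverage_def, smul_eq_mul]
    rw [intervalIntegral.integral_const_mul]
    ring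
  rw [e1, e2]
  refine mul_le_mul_of_nonneg_left ?_ (by positivity)
  refine intervalIntegral.integral_mono (by positivity) ?_ ?_ ?_
  · apply Continuous.intervalIntegrable
    have e3 : (fun φ => circleAverage (fun ζ => ‖deriv f (circleMap 0 1 φ * mob z ζ)‖ ^ t) 0 s) =
        fun φ => (2 * π)⁻¹ * ∫ θ in (0 : ℝ)..2 * π,
          ‖deriv f (circleMap 0 1 φ * mob z (circleMap 0 s θ))‖ ^ t := by
      funext φ
      rw [circleAverage_def, smul_eq_mul]
    rw [e3]
    have e4 : Continuous (Function.uncurry fun φ θ : ℝ =>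
        ‖deriv f (circleMap 0 1 φ * mob z (circleMap 0 s θ))‖ ^ t) := by
      have e5 := hH.comp (continuous_snd.prodMk continuous_fst)
      exact e5
    exact continuous_const.mul
      (intervalIntegral.continuous_parametric_intervalIntegral_of_continuous' e4 0 (2 * π))
  · apply Continuous.intervalIntegrable
    refine continuous_const.mul ?_
    have h1 : Continuous (fun φ : ℝ => circleMap 0 1 φ * z) :=
      (continuous_circleMap 0 1).mul continuous_const
    exact (hfc.comp_continuous h1 (fun φ => hin _ hz φ)).norm.rpow_const (fun q => Or.inr ht.le)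
  · intro φ
    obtain ⟨h1, h2, h3⟩ := TOne_rot hf hi (hsph φ)
    have h4 := t_one h1 h2 hs hs1 ht hA hz
    rw [h3 z hz] at h4
    refine le_trans (le_of_eq ?_) h4
    apply circleAverage_congr_sphere
    intro ζ hζ
    have hζ1 : ζ ∈ ball (0 : ℂ) 1 := by
      rw [mem_sphere_zero_iff_norm, abs_of_pos hs] at hζ
      rw [mem_ball_zero_iff, hζ]
      exact hs1
    show ‖deriv f (circleMap 0 1 φ * mob z ζ)‖ ^ t =
      ‖deriv (fun z => f (circleMap 0 1 φ * z)) (mob z ζ)‖ ^ t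
    rw [h3 _ (mob_mem hz hζ1)]

end Pool.Agent.Helper21.IM
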