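import Pool.Agent.Helper21.IM.Growth
import Pool.Agent.Helper21.IM.IntForm

/-!
# Definitions: the local state `X = i y Nh`, `Y = - y² Sh`, the energy density, the relations
-/

set_option autoImplicit false

namespace Pool.Agent.Helper21.IM

open Complex Metric Set Real Finset MeasureTheory

noncomputable def XX (F : ℂ → ℂ) (y : ℝ) (z : ℂ) : ℂ := I * y * Nh F z

noncomputable def YY (F : ℂ → ℂ) (y : ℝ) (z : ℂ) : ℂ := -(y : ℂ) ^ 2 * Sh F z

/-- energy density -/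
noncomputable def en1 (X Y : ℂ) : ℝ :=
  2 * ‖X‖ ^ 2 + 14 / 3 * ‖X‖ ^ 4 - 28 / 5 * (X ^ 2 * (starRingEnd ℂ) (Y ^ 2)).re + 56 / 45 * ‖Y‖ ^ 4

/-- the relation with the exponents `a`, `b`, `c` -/
noncomputable def rel (a b c : ℕ) (X Y : ℂ) : ℝ :=
  (((a : ℂ) * X ^ (a - 1) * (Y + X ^ 2 / 2) + ((a : ℂ) + b + 2 * c) / 2 * X ^ a) *
    (starRingEnd ℂ) (X ^ b * Y ^ c)).re

/-- scale average of a function of the local state -/
noncomputable def av (F : ℂ → ℂ) (R : ℝ) (Φ : ℂ → ℂ → ℝ) (y : ℝ) : ℝ :=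
  circleAverage (fun z => Φ (XX F y z) (YY F y z)) 0 (R * Real.exp (-y))

end Pool.Agent.Helper21.IM
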